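import Pool.Agent.Work.MP_841263_mv.Interface

/-!
# Block ADJ: the heart on a path is adjacent to the end point
-/

open CategoryTheory CategoryTheory.Limits CategoryTheory.Pretriangulated
open scoped ZeroObject Topology
open Filter

set_option backward.isDefEq.respectTransparency false
set_option backward.defeqAttrib.useBackward true

namespace Pool.Move

open Pool.Stab Pool.Tube

universe v u

theorem p_ADJ {C : Type u} [Category.{v} C] [Preadditive C] [HasZeroObject C] [HasShift C ℤ]
    [∀ n : ℤ, (shiftFunctor C n).Additive] [Pretriangulated C] [IsTriangulated C] [Linear ℂ C]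
    [∀ n : ℤ, (shiftFunctor C n).Linear ℂ] (hLIM : Pool.Align.Stmt_LIM C) (hADL : Stmt_ADL C)
    (hADR : Stmt_ADR C) : Stmt_ADJ C := by
  intro h Γ t J A hA e he
  obtain ⟨s, hs⟩ := he.exists
  have hAe : A = (Γ s).sl.Heart t := by
    funext X
    exact propext (hA s hs X).symm
  refine ⟨by rw [hAe]; exact Slicing.heart_ab _ _, ?_, hADL h Γ t J A hA e he,
    hADR h Γ t J A hA e he⟩
  intro X hX
  refine hLIM h Γ e X t (t + 1) ?_
  intro η hη
  refine he.mono fun s' hs' => ?_
  have h1 : (Γ s').sl.Heart t X := (hA s' hs' X).2 hX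
  exact Slicing.In.mono h1 (fun φ hφ => ⟨by linarith [hφ.1], by linarith [hφ.2]⟩)

end Pool.Move
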