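import Mathlib
import Pool.Agent.Work.MP_841263_al.Interface

/-!
# Moves between stability conditions (half turns, perturbations): statements of the blocks (helper92)

MP_841263_ag, path connectedness of `Stab`. `P(t)` is the block in a rational direction (`δ` radical, `im_t δ = 0`).
Half turn at a stable spherical object `S ∈ P(t)`: a stability condition `σ'` joined to `σ` with charge
`Z' x = Z x - χ(x, S) Z(S)` and `P'(t)` = simple tilt of `P(t)` at `S`.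

RULES: one file `Pool/Agent/Work/MP_841263_mv/B_<ID>.lean` per block, `import Pool.Agent.Work.MP_841263_mv.Interface`, the
`open`, `namespace Pool.Move` and `universe` lines of this file, theorem `p_<ID> : Stmt_X → Stmt_Y → Stmt_<ID>` (resp.
`Stmt_X C → Stmt_Y C → Stmt_<ID> C`) with exactly the statements of the column `uses` as hypotheses, in this order.
`LFT NEA LIM OPE` are statements of `MP_841263_al/Interface.lean` (`Pool.Align.Stmt_LIM C`, ...). Auxiliary lemmas with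
the name of the block in front. No straight double quotes. Write `set_option backward.isDefEq.respectTransparency false`
and `set_option backward.defeqAttrib.useBackward true` as in the files of `MP_841263_tu`.

LIBRARY: `Slicing.In` (`.mono .iso .hom_zero .inter .ext_upper .ext_lower .shift_one .shift_neg_one .P_of_singleton`),
`Slicing.exists_trunc` (upper set `U`: `Set.Ioi t`, `Set.Ici t`, ...), `in_of_P`, `HN.mem_upper`, `HN.mem_lower`, `Slicing.Heart`,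
`StabCond.im_nonneg`, `P_of_im`, `im_of_P`, `re_neg_of_P`, `polar`, `gen_stable`, `StabCond.Stable.simple`, `.cls_le` (norm of the
class of a stable object `≤ 2`), `hom_zero_of_ext₁`, `hom_zero_of_ext₂` (st), `AbSub`, `SES` (`.mono .epi .lift .desc .comp
.comp' .cls_eq`), `isZero_of_SES_left/right`, `AbSub.exists_of_mono/epi`, `AbSub.schur`, `AbSub.epi_simple`, `Slicing.heart_ab`,
`gen_multiset`, `FinCat` (r/Ab, r/Fin, r/Core), `EllipticSetting.root_semistable`, `EllipticSetting.Z_ne_zero` (r/Main).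
`P(t)` is `P((t - 1) + 1)`: the lemmas for phase `t + 1` apply with `t - 1` in place of `t`.
-/

open CategoryTheory CategoryTheory.Limits CategoryTheory.Pretriangulated
open scoped ZeroObject Topology
open Filter

namespace Pool.Move

open Pool.Stab Pool.Tube

universe v u

/-- SGN (80 lines), small multiples of `u` do not change signs. `f` runs through the finite set `F` of `hB.finite_mod_radical 2`;
`exists_step` (`st/Radical2.lean`, with the radical as the submodule) gives `η` with `im r ∈ ℤ η` on the radical. The values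
`|im x|` in `(0, 1]` for `B x x ≤ 2` are in a finite set (`finite_Ioc_progression`, as in the proof of
`StabCond.exists_gap`), so `|im x| ≥ g > 0` if `im x ≠ 0`. `|u x| = |u f| ≤ M`. `ε = g/(M + 1)`. -/
def Stmt_SGN : Prop := ∀ (K : Type u) [AddCommGroup K] [Module.Finite ℤ K] [Module.Free ℤ K]
  (B : K →+ K →+ ℤ), IsPSD B → Module.finrank ℤ (radical B) = 2 → ∀ (im u : K →+ ℝ) (δ : K),
  δ ∈ radical B → δ ≠ 0 → im δ = 0 → (∀ r ∈ radical B, u r = 0) →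
  ∃ ε : ℝ, 0 < ε ∧ ∀ x, B x x ≤ 2 → im x ≠ 0 → ε * |u x| < |im x|

section Category

/-- The class `A` (the heart `P'((t, t + 1])` of nearby stability conditions `σ'`) is adjacent to `σ`: it contains
`P((t, t + 1))`, is contained in `P([t, t + 1])` and cuts the objects of phase `t` and `t + 1` by a torsion pair. -/
structure Adj {C : Type u} [Category.{v} C] [Preadditive C] [HasZeroObject C]
    [HasShift C ℤ] [∀ n : ℤ, (shiftFunctor C n).Additive] [Pretriangulated C]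
    (σ : StabCond C) (t : ℝ) (A : C → Prop) : Prop where
  ab : AbSub A
  near : ∀ X, A X → σ.sl.In (Set.Icc t (t + 1)) X
  cutL : ∀ E, σ.sl.In (Set.Ico t (t + 1)) E →
    ∃ (F V : C) (f : F ⟶ E) (g : E ⟶ V) (k : V ⟶ F⟦(1 : ℤ)⟧), Triangle.mk f g k ∈ distTriang C ∧
      A F ∧ σ.sl.In (Set.Ico t (t + 1)) F ∧ σ.sl.P t V ∧ A (V⟦(1 : ℤ)⟧)
  cutR : ∀ E, σ.sl.In (Set.Ioc t (t + 1)) E →
    ∃ (V F : C) (f : V⟦(1 : ℤ)⟧ ⟶ E) (g : E ⟶ F) (k : F ⟶ (V⟦(1 : ℤ)⟧)⟦(1 : ℤ)⟧),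
      Triangle.mk f g k ∈ distTriang C ∧
      σ.sl.P t V ∧ A V ∧ A F ∧ σ.sl.In (Set.Ioc t (t + 1)) F

/-- The data of a half turn between `σ₀` and `σ₁` at the object `S` of phase `t` for `σ₀` and of phase `t + 1` for `σ₁`; `A`
is the heart on the path. -/
structure Turn {C : Type u} [Category.{v} C] [Preadditive C] [HasZeroObject C]
    [HasShift C ℤ] [∀ n : ℤ, (shiftFunctor C n).Additive] [Pretriangulated C] [IsTriangulated C]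
    [Linear ℂ C] [∀ n : ℤ, (shiftFunctor C n).Linear ℂ]
    (h : EllipticSetting C) (σ₀ σ₁ : StabCond C) (t : ℝ) (A : C → Prop) (S : C) : Prop where
  adj₀ : Adj σ₀ t A
  adj₁ : Adj σ₁ t A
  sph : Spherical S
  im : ∀ x, σ₁.im t x = σ₀.im t x
  im0 : σ₀.im t (cls S) = 0
  re : ∀ x, σ₁.re t x = σ₀.re t x - eulerForm h.k3 x (cls S) * σ₀.re t (cls S)
  pos : 0 < σ₀.re t (cls S)
  nonneg : ∀ X, A X → σ₀.im t (cls X) = 0 → 0 ≤ eulerForm h.k3 (cls X) (cls S)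
  stable : σ₀.Stable t S ∨ σ₁.Stable (t + 1) S

/-- A union of components of the category of semistable objects of phase `t`, generated by the stable spherical objects
in `J`; the diagram of `J` is connected, the other stable objects are orthogonal to those in `J`. -/
structure Blk {C : Type u} [Category.{v} C] [Preadditive C] [HasZeroObject C]
    [HasShift C ℤ] [∀ n : ℤ, (shiftFunctor C n).Additive] [Pretriangulated C]
    [Linear ℂ C] [∀ n : ℤ, (shiftFunctor C n).Linear ℂ]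
    (hK : IsK3 C) (σ : StabCond C) (t : ℝ) (J : C → Prop) : Prop where
  iso : ∀ X Y, (X ≅ Y) → J X → J Y
  stable : ∀ S, J S → σ.Stable t S
  sph : ∀ S, J S → Spherical S
  orth : ∀ S U, J S → σ.Stable t U → ¬ J U → Orth S U ∧ Orth U S
  conn : Conn (eulerForm hK) {x | ∃ S, J S ∧ cls S = x}

variable (C : Type u) [Category.{v} C] [Preadditive C] [HasZeroObject C] [HasShift C ℤ]
  [∀ n : ℤ, (shiftFunctor C n).Additive] [Pretriangulated C] [IsTriangulated C] [Linear ℂ C]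
  [∀ n : ℤ, (shiftFunctor C n).Linear ℂ]

/-! ### Slicings -/

/-- SLI (80 lines), the phases `t` and `t + 1`. (1), (2) as `im_nonneg_of_HN`, `P_of_im_HN` in `st/Charge.lean` (by induction on HN filtrations; for
a factor of phase in `[t, t + 1]` use `polar`). (3): HN filtration, the phases are `t` or `t + 1`; truncate at `Ioi t`. (4): the
phases `≥ t` and `< t + 1`, (1) for the factors. (5) extensions: `ext_upper` and `ext_lower` for `Ici t` and `Ici (t + 1)`. -/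
def Stmt_SLI : Prop := ∀ (σ : StabCond C) (t : ℝ) (X : C),
  (σ.sl.In (Set.Icc t (t + 1)) X → 0 ≤ σ.im t (cls X)) ∧
  (σ.sl.In (Set.Ioc t (t + 1)) X → σ.im t (cls X) = 0 → σ.sl.P (t + 1) X) ∧
  (σ.sl.In (Set.Icc t (t + 1)) X → σ.im t (cls X) = 0 →
    ∃ (X' X'' : C) (f : X' ⟶ X) (g : X ⟶ X'') (k : X'' ⟶ X'⟦(1 : ℤ)⟧),
      Triangle.mk f g k ∈ distTriang C ∧ σ.sl.P (t + 1) X' ∧ σ.sl.P t X'') ∧
  (σ.sl.In (Set.Ico t (t + 1)) X → σ.im t (cls X) = 0 → σ.sl.P t X) ∧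
  (σ.sl.P t X → σ.im t (cls X) = 0) ∧ (σ.sl.P t X → ¬ IsZero X → 0 < σ.re t (cls X)) ∧
  (∀ (Y Z : C) (f : Y ⟶ X) (g : X ⟶ Z) (k : Z ⟶ Y⟦(1 : ℤ)⟧), Triangle.mk f g k ∈ distTriang C →
    (σ.sl.In (Set.Ico t (t + 1)) Y → σ.sl.In (Set.Ico t (t + 1)) Z → σ.sl.In (Set.Ico t (t + 1)) X) ∧
    (σ.sl.In (Set.Ioc t (t + 1)) Y → σ.sl.In (Set.Ioc t (t + 1)) Z → σ.sl.In (Set.Ioc t (t + 1)) X) ∧
    (σ.sl.P t Y → σ.sl.P t Z → σ.sl.P t X) ∧ (σ.sl.P (t + 1) Y → σ.sl.P (t + 1) Z → σ.sl.P (t + 1) X))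

/-- GZS (40 lines). Induction on `Gen`: `X` is zero or there are nonzero maps `S ⟶ X` and `X ⟶ S`. Extension `X → Y → Z`: if `X` is not
zero, a nonzero `S → X` stays nonzero in `Y`, as `Hom(S, Z[-1]) = 0` (`Gen.hom_zero`; `S` has no negative self extensions). -/
def Stmt_GZS : Prop := ∀ (S : C), Spherical S → ∀ X : C, Gen (fun Y => Nonempty (Y ≅ S)) X →
  ((∀ f : S ⟶ X, f = 0) ∨ (∀ f : X ⟶ S, f = 0)) → IsZero X

/-! ### The heart is constant -/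

/-- HCL (150 lines). Let `E ∈ P_σ(t, t+1]`. (i) `τ`-truncation at `Ioi (t+1)`: `E₁ → E → E₂`; `E ∈ P_τ[t-η, t+1+η]` (`Near`), so
`E₁ ∈ P_τ(t+1, t+1+η]` and `E₁ ∈ P_σ[t+1-η, t+1+2η]`. `σ`-truncation at `Ioi (t+1)`: `E₁' → E₁ → E₁''`. `Hom(E₁', E) = 0`, `Hom(E₁', E₂[-1]) = 0`
(`E₂[-1] ∈ P_τ(≤ t) ⊆ P_σ(≤ t+η)`), so `E₁' → E₁` is 0, `E₁' = 0` (`Hom(E₁', E₁''[-1]) = 0`). So `E₁ ∈ P_σ[t+1-η, t+1]`, `im_σ E₁ ≥ 0`. But
the `τ`-stable factors of `E₁` (`gen_stable` for each HN factor) have `im_τ < 0` and norm `≤ 2`, so `im_σ < 0` (sign hypothesis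
`τ → σ` for the negative class): `E₁ = 0`. (ii) `τ`-truncation of `E` at `Ioi t`: `E₂' → E → E₃`, `E₃ ∈ P_τ[t-η, t]`; `σ`-truncation at
`Ioi t`: `E₃' → E₃ → E₃''`; `Hom(E, E₃'') = 0`, `Hom(E₂'[1], E₃'') = 0`, so `E₃ → E₃''` is 0, `E₃'' = 0`, `E₃ ∈ P_σ(t, t+2η]`: `im_σ E₃ > 0` unless
`E₃ = 0`; the `τ`-stable factors have `im_τ ≤ 0`, so `im_σ ≤ 0`: `E₃ = 0`. -/
def Stmt_HCL : Prop := ∀ (h : EllipticSetting C) (σ τ : StabCond C) (t η : ℝ), η < 1 / 4 →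
  StabCond.Near η σ τ → StabCond.Near η τ σ →
  (∀ x, eulerForm h.k3 x x ≤ 2 → (0 < σ.im t x ↔ 0 < τ.im t x)) →
  ∀ X, σ.sl.Heart t X → τ.sl.Heart t X

/-- HCN (50 lines; uses NEA HCL). Connectedness of `J`: for fixed `s` the set of `s' ∈ J` with the same heart as `Γ s` is open and
closed in `J` (see `p_SAM` in `al/B_SAM.lean`). -/
def Stmt_HCN : Prop := ∀ (h : EllipticSetting C) (Γ : C(unitInterval, StabCond C)) (t : ℝ)
  (J : Set unitInterval), J.OrdConnected →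
  (∀ s ∈ J, ∀ s' ∈ J, ∀ x, eulerForm h.k3 x x ≤ 2 → 0 < (Γ s).im t x → 0 < (Γ s').im t x) →
  ∀ s ∈ J, ∀ s' ∈ J, ∀ X, (Γ s).sl.Heart t X ↔ (Γ s').sl.Heart t X

/-- ADL (120 lines; uses LIM OPE). `s₁ ∈ J`. The phases of `E` for `Γ e` are in `[t, t+1)`, so (finitely many) in `(t - κ, t + 1 - κ)`, `κ > 0` small; by OPE
the same for `Γ s`, `s` near `e`. Truncate `E` at `Ioi t` for some such `s ∈ J`: `F → E → V`, `F ∈ P_s(t, t+1-κ) ⊆ A`,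
`V[1] ∈ P_s(t+1-κ, t+1] ⊆ A`. This triangle is (up to isomorphism) the same for all such `s ∈ J`: if `F' → E → V'` is the one for `s'`, all
these objects are in `A` resp. `A[-1]` (the hearts are equal), `Hom(F, V') = 0`, `Hom(F, V'[-1]) = 0` and conversely, so `F ≅ F'`, `V ≅ V'`. So
`F ∈ P_s(t, t+1-κ)` for all `s ∈ J` near `e`: LIM, `F ∈ P_e[t, t+1-κ]`. For every `κ' > 0`, `E ∈ P_s(t-κ', t+1)` for `s` near `e`, so
`V ∈ P_s(t-κ', t]`: LIM with `a = b = t`. -/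
def Stmt_ADL : Prop := ∀ (_ : EllipticSetting C) (Γ : C(unitInterval, StabCond C)) (t : ℝ)
  (J : Set unitInterval) (A : C → Prop), (∀ s ∈ J, ∀ X, (Γ s).sl.Heart t X ↔ A X) →
  ∀ e : unitInterval, (∃ᶠ s in 𝓝 e, s ∈ J) → ∀ E, (Γ e).sl.In (Set.Ico t (t + 1)) E →
    ∃ (F V : C) (f : F ⟶ E) (g : E ⟶ V) (k : V ⟶ F⟦(1 : ℤ)⟧), Triangle.mk f g k ∈ distTriang C ∧
      A F ∧ (Γ e).sl.In (Set.Ico t (t + 1)) F ∧ (Γ e).sl.P t V ∧ A (V⟦(1 : ℤ)⟧)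

/-- ADR (120 lines; uses LIM OPE), dual to ADL: `E ∈ P_s(t + κ, t + 1 + κ)` for `s` near `e`, truncate at `Ioi (t + 1)`: the upper part is
`V[1]`, `V ∈ P_s(t, t + κ)`. -/
def Stmt_ADR : Prop := ∀ (_ : EllipticSetting C) (Γ : C(unitInterval, StabCond C)) (t : ℝ)
  (J : Set unitInterval) (A : C → Prop), (∀ s ∈ J, ∀ X, (Γ s).sl.Heart t X ↔ A X) →
  ∀ e : unitInterval, (∃ᶠ s in 𝓝 e, s ∈ J) → ∀ E, (Γ e).sl.In (Set.Ioc t (t + 1)) E →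
    ∃ (V F : C) (f : V⟦(1 : ℤ)⟧ ⟶ E) (g : E ⟶ F) (k : F ⟶ (V⟦(1 : ℤ)⟧)⟦(1 : ℤ)⟧),
      Triangle.mk f g k ∈ distTriang C ∧
      (Γ e).sl.P t V ∧ A V ∧ A F ∧ (Γ e).sl.In (Set.Ioc t (t + 1)) F

/-- ADJ (30 lines; uses LIM ADL ADR). `ab`: `Slicing.heart_ab` for some `s ∈ J`; `near`: LIM. -/
def Stmt_ADJ : Prop := ∀ (_ : EllipticSetting C) (Γ : C(unitInterval, StabCond C)) (t : ℝ)
  (J : Set unitInterval) (A : C → Prop), (∀ s ∈ J, ∀ X, (Γ s).sl.Heart t X ↔ A X) →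
  ∀ e : unitInterval, (∃ᶠ s in 𝓝 e, s ∈ J) → Adj (Γ e) t A

/-- ADT (150 lines; uses SLI), the torsion pairs in `A`. (1): `X ∈ P[t, t+1]`; truncate at `Ici (t+1)`: `X' → X → X''`, `X' ∈ P(t+1)`, `X'' ∈ P[t, t+1)`. cutL
for `X''`: `F → X'' → V`: the composite `X → X'' → V` is 0 (`A` and `A[-1]`: `V[1] ∈ A`), `Hom(X'[1], V) = 0` by phases, so `X'' → V` is 0, so `V = 0`
(`Hom(F[1], V) = 0`) and `X'' ≅ F ∈ A`. cutR for `X'`: `V[1] → X' → F`: `V[1] → X' → X` is 0, `Hom(V[1], X''[-1]) = 0` by phases, so `V[1] → X'` is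
0, `V = 0` (`Hom(V[1], F[-1]) = 0`), `X' ≅ F ∈ A`. (2): the same with `Ioi t`: `X' ∈ P(t, t+1]`, `X'' ∈ P(t)`. (3): `Y → X → Z` in `A` and
`X ∈ P[t, t+1)`: (1) for `Y`: `Y' → Y → X` is 0 by phases, `SES.mono` twice: `Y' = 0`. (4) `X ∈ P(t+1)`: (1) for `Z`: `X → Z → Z''` is 0 by phases, so
`Z'' = 0` (`SES.epi`). (5) `X ∈ P(t)`: (3), and `im X = 0 = im Y + im Z`, both `≥ 0`; SLI. (6) `X ∈ P(t, t+1]`: (2) for `Z`. -/
def Stmt_ADT : Prop := ∀ (σ : StabCond C) (t : ℝ) (A : C → Prop), Adj σ t A →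
  (∀ X, A X → ∃ (X' X'' : C) (f : X' ⟶ X) (g : X ⟶ X''), SES A f g ∧ σ.sl.P (t + 1) X' ∧
    σ.sl.In (Set.Ico t (t + 1)) X'') ∧
  (∀ X, A X → ∃ (X' X'' : C) (f : X' ⟶ X) (g : X ⟶ X''), SES A f g ∧
    σ.sl.In (Set.Ioc t (t + 1)) X' ∧ σ.sl.P t X'') ∧
  ∀ (Y X Z : C) (f : Y ⟶ X) (g : X ⟶ Z), SES A f g →
    (σ.sl.In (Set.Ico t (t + 1)) X → σ.sl.In (Set.Ico t (t + 1)) Y) ∧
    (σ.sl.P (t + 1) X → σ.sl.P (t + 1) Z) ∧ (σ.sl.P t X → σ.sl.P t Y) ∧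
    (σ.sl.In (Set.Ioc t (t + 1)) X → σ.sl.In (Set.Ioc t (t + 1)) Z)

/-! ### Paths -/

/-- SEG (80 lines; uses LFT), segments in rotated coordinates. `W s x = (((1-s) re x + s a x) + i ((1-s) im x + s b x)) e^(iπt)`. `Xreg`: on roots by
hypothesis; on the radical `W s = σ.Z` (`h.mem_Xreg`). -/
def Stmt_SEG : Prop := ∀ (h : EllipticSetting C) (σ : StabCond C) (t : ℝ) (a b : K0 C →+ ℝ),
  (∀ r ∈ radical (eulerForm h.k3), a r = σ.re t r ∧ b r = σ.im t r) →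
  (∀ s ∈ Set.Icc (0 : ℝ) 1, ∀ x, eulerForm h.k3 x x = 2 → (1 - s) * σ.im t x + s * b x = 0 →
    (1 - s) * σ.re t x + s * a x ≠ 0) →
  ∃ Γ : C(unitInterval, StabCond C), Γ 0 = σ ∧ ∀ (s : unitInterval) (x : K0 C),
    (Γ s).re t x = (1 - s) * σ.re t x + s * a x ∧ (Γ s).im t x = (1 - s) * σ.im t x + s * b x

/-- PRT (80 lines; uses SEG HCN ADJ), perturbation. SEG with `a = re`, `b = im + ε u`: a root with `im x + s ε u x = 0` has `im x = 0` (`hsg`), so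
`re x ≠ 0` (`Z_ne_zero`). Signs on `J = (0, 1]`: `0 < im x + s ε u x` iff `0 < im x`, or `im x = 0` and `0 < u x`. HCN, ADJ at `e = 0`. -/
def Stmt_PRT : Prop := ∀ (h : EllipticSetting C) (σ : StabCond C) (t ε : ℝ) (u : K0 C →+ ℝ),
  0 < ε → (∀ r ∈ radical (eulerForm h.k3), u r = 0) →
  (∀ x, eulerForm h.k3 x x ≤ 2 → σ.im t x ≠ 0 → ε * |u x| < |σ.im t x|) →
  ∃ σ' : StabCond C, Joined σ σ' ∧ (∀ x, σ'.re t x = σ.re t x) ∧
    (∀ x, σ'.im t x = σ.im t x + ε * u x) ∧ Adj σ t (σ'.sl.Heart t)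

/-- PRR (80 lines; uses SEG HCN ADJ), the reverse path: SEG from `σ'` with `a = re`, `b = im`; `im_s = im + (1 - s) ε u`, `J = [0, 1)`, `e = 1`. -/
def Stmt_PRR : Prop := ∀ (h : EllipticSetting C) (σ' : StabCond C) (t ε : ℝ) (im u : K0 C →+ ℝ),
  0 < ε → (∀ r ∈ radical (eulerForm h.k3), u r = 0) → (∀ x, σ'.im t x = im x + ε * u x) →
  (∀ x, eulerForm h.k3 x x ≤ 2 → im x ≠ 0 → ε * |u x| < |im x|) →
  (∀ x, eulerForm h.k3 x x = 2 → im x = 0 → σ'.re t x ≠ 0) →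
  ∃ σ : StabCond C, Joined σ' σ ∧ (∀ x, σ.re t x = σ'.re t x) ∧ (∀ x, σ.im t x = im x) ∧
    Adj σ t (σ'.sl.Heart t)

/-- MID (40 lines; uses SEG HCN), the imaginary part is fixed. -/
def Stmt_MID : Prop := ∀ (h : EllipticSetting C) (σ : StabCond C) (t : ℝ) (a : K0 C →+ ℝ),
  (∀ r ∈ radical (eulerForm h.k3), a r = σ.re t r) →
  (∀ x, eulerForm h.k3 x x = 2 → σ.im t x = 0 → ∀ s ∈ Set.Icc (0 : ℝ) 1,
    (1 - s) * σ.re t x + s * a x ≠ 0) →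
  ∃ σ' : StabCond C, Joined σ σ' ∧ (∀ x, σ'.re t x = a x) ∧ (∀ x, σ'.im t x = σ.im t x) ∧
    ∀ X, σ.sl.Heart t X ↔ σ'.sl.Heart t X

/-- TUX (120 lines; uses SGN PRT PRR MID). `α = cls S`, `u x = χ(x, α)` (real valued), `χ(α, α) = 2`. SGN gives `ε`, PRT `σ → σ_a`, `A` = heart of `σ_a`. MID
from `σ_a` to `re' x = re x - u x re α`: a root with `im_a x = 0` has `im x = 0` and `u x = 0` (sign property), so `re' x = re x ≠ 0`. PRR
from `σ_b` with `im := σ.im t`: a root with `im x = 0`: `re' x = re (s x)`, `im (s x) = 0`, `s x = x - χ(x, α) α` is a root: not 0. Last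
property: `X ∈ A`: `im_a X = im X + ε u X ≥ 0`. -/
def Stmt_TUX : Prop := ∀ (h : EllipticSetting C) (σ : StabCond C) (t : ℝ) (δ : K0 C),
  δ ∈ radical (eulerForm h.k3) → δ ≠ 0 → σ.im t δ = 0 → ∀ S : C, Spherical S →
  σ.im t (cls S) = 0 → ∃ (σ' : StabCond C) (A : C → Prop), Joined σ σ' ∧ Adj σ t A ∧ Adj σ' t A ∧
    (∀ x, σ'.im t x = σ.im t x) ∧
    (∀ x, σ'.re t x = σ.re t x - eulerForm h.k3 x (cls S) * σ.re t (cls S)) ∧
    ∀ X, A X → σ.im t (cls X) = 0 → 0 ≤ eulerForm h.k3 (cls X) (cls S)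

/-! ### The half turn -/

/-- NUS (80 lines). `χ(α, α) = 2`. `root_semistable`: a semistable `B` of class `x`; `im x = 0 < re x`: shift it into phase `t` (an even shift
`[2k]`, the class is the same). `χ(S, B) ≥ 1`, so (`eulerChar` for the heart `P(t-1, t]`) there is a nonzero `S ⟶ B` or `B ⟶ S`: as `S` is simple in
the heart `P((t-1, t])` (`StabCond.Stable.simple`), `S → B` is a monomorphism, or `B → S` an epimorphism (`AbSub.epi_simple` and its dual); the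
other term has class `x - α ≠ 0`, is in `P(t)` (`P_sub_quot`) and not zero, so `0 < re (x - α)`. -/
def Stmt_NUS : Prop := ∀ (h : EllipticSetting C) (σ : StabCond C) (t : ℝ) (S : C),
  σ.Stable t S → Spherical S → ∀ x, eulerForm h.k3 x x = 2 → σ.im t x = 0 → 0 < σ.re t x →
  1 ≤ eulerForm h.k3 x (cls S) → x ≠ cls S → σ.re t (cls S) < σ.re t x

/-- NUM (120 lines; uses NUS). Let first `S` be stable for `σ₀`. Norm 0: `x` is in the radical, `re₁ x = re₀ x`. Root, `c = χ(x, α)`: `c ≤ 0`: `re₁ x ≥ re₀ x`. `c = 1`: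
`re₁ x = re₀ x - re₀ α > 0` (NUS). `c = 2` (`IsPSD.cauchy`): `re₁ x = re₀ (x - 2α)`, not 0 (`Z_ne_zero`, `x - 2α` is a root, `im = 0`); if negative, NUS for
`2α - x` (root, `χ(2α - x, α) = 2`): `re₀ α < 2 re₀ α - re₀ x`, but `re₀ α < re₀ x` by NUS for `x`. If `S` is stable for `σ₁` of phase `t + 1`: the same
argument for `σ₁`, direction `t + 1` (`re_(t+1) = - re_t`, `im_(t+1) = - im_t`), shows: `re₁ y < 0`, `y ≠ α`, `im y = 0`, norm `≤ 2` imply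
`re₀ y < 0`. So if `0 < re₀ x` then `re₁ x < 0` is impossible, and `re₁ x = 0` too (`Z_ne_zero` for `σ₁`, `x ≠ 0`). -/
def Stmt_NUM : Prop := ∀ (h : EllipticSetting C) (σ₀ σ₁ : StabCond C) (t : ℝ) (A : C → Prop)
  (S : C), Turn h σ₀ σ₁ t A S → ∀ x, eulerForm h.k3 x x ≤ 2 → σ₀.im t x = 0 → 0 < σ₀.re t x →
  x ≠ cls S → 0 < σ₁.re t x

/-- SAL (150 lines; uses NUM SLI). `α = cls S`, `ρ = re₀ α > 0`, `re₁ α = - ρ`. `gen_stable` and `gen_multiset`: `cls Y = ∑ cls G = ∑ cls H`, `G` `σ₀`-stable of phase `t`, `H`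
`σ₁`-stable of phase `t + 1` (norms `≤ 2`). NUM: `cls G = α` or `re₁ G > 0`; `cls H = α` or `re₀ H < 0` (`re₀ H > 0` is excluded by NUM, `re₀ H = 0` by
`Z_ne_zero`). With `a`, `b` the numbers of factors of class `α`: `re₀ Y ≥ a ρ`, `re₀ Y ≤ b ρ`, `re₁ Y ≥ - a ρ`, `re₁ Y ≤ - b ρ`, so `a = b` and all
factors have class `α`. If `S` is `σ₀`-stable: `G ≅ S` for all `G` (both simple, `χ(G, S) = 2 > 0`, so a nonzero map, `SimpleIn.isIso`);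
if `S` is `σ₁`-stable: the same for the `H`. `Gen.mono`. -/
def Stmt_SAL : Prop := ∀ (h : EllipticSetting C) (σ₀ σ₁ : StabCond C) (t : ℝ) (A : C → Prop)
  (S : C), Turn h σ₀ σ₁ t A S → ∀ Y, σ₀.sl.P t Y → σ₁.sl.P (t + 1) Y →
  Gen (fun X => Nonempty (X ≅ S)) Y

/-- LII (60 lines; uses SLI ADT). (1): `X ∈ A ∩ P₀(t+1)`; ADT (2) for `σ₁`: `X' → X → X''`, `X' ∈ P₁(t, t+1]`, `X'' ∈ P₁(t)`. ADT (4) for `σ₀`: `X'' ∈ P₀(t+1)`. If `X''` is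
not zero: `re₀ X'' < 0 < re₁ X''`, but `re₁ X'' = re₀ X'' - χ(X'', S) re₀ α ≤ re₀ X''` by `nonneg`. So `X ≅ X' ∈ P₁(t, t+1]`, `im = 0`, SLI.
(2): `X ∈ A ∩ P₁(t)`, ADT (1) for `σ₀`: `X' → X → X''`, `X' ∈ A ∩ P₀(t+1) ⊆ P₁(t+1)` by (1), so `X' → X` is 0 by phases, `X' = 0`
(`SES.mono`), `X ≅ X'' ∈ P₀[t, t+1)`, `im = 0`, SLI. -/
def Stmt_LII : Prop := ∀ (h : EllipticSetting C) (σ₀ σ₁ : StabCond C) (t : ℝ) (A : C → Prop)
  (S : C), Turn h σ₀ σ₁ t A S → ∀ X, A X →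
  (σ₀.sl.P (t + 1) X → σ₁.sl.P (t + 1) X) ∧ (σ₁.sl.P t X → σ₀.sl.P t X)

/-- SIN (120 lines; uses SLI ADT LII). Case `S` `σ₀`-stable: cutL for `S`: `F → S → V`, `V ∈ P₀(t)`, `F ∈ P₀[t, t+1)`; `F` is an extension of `S` by `V[-1]`, so its
phases are `≤ t`: `F ∈ P₀(t)`. `S` is simple in `P₀(t)`: `F = 0` or `V = 0`. `F = 0`: `S ≅ V`, `S[1] ∈ A`, `χ(S[1], S) = -2 < 0` against `nonneg`. So `S ∈ A`.
ADT (1) for `σ₁`: `S' → S → S''`, `S' ∈ P₁(t+1)`, `S'' ∈ P₁[t, t+1)`, `im = 0`: `S'' ∈ P₁(t)`, so `S'' ∈ P₀(t)` (LII (2)); `S' ∈ P₀(t)` (ADT (5)); `S` is simple: `S' = 0`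
or `S'' = 0`; `S' = 0` gives `re₁ S > 0`, but `re₁ S = - re₀ S < 0`. Case `S` `σ₁`-stable, dual: cutR: `V[1] → S → F`, `F ∈ P₁(t+1)` (phases), so
`V = 0` or `F = 0`; `F = 0`: `S ≅ V[1]`, `χ(V, S) = -2`. `S ∈ A`; ADT (2) for `σ₀`: `S' → S → S''`, `S'' ∈ P₀(t)`, `S' ∈ P₀(t, t+1]`, `im = 0`: `S' ∈ P₀(t+1)`, so
`S' ∈ P₁(t+1)` (LII (1)); `S'' ∈ P₁(t+1)` (ADT (4)); simple; `S'' = 0` is impossible as `re₀ S > 0`. -/
def Stmt_SIN : Prop := ∀ (h : EllipticSetting C) (σ₀ σ₁ : StabCond C) (t : ℝ) (A : C → Prop)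
  (S : C), Turn h σ₀ σ₁ t A S → A S ∧ σ₀.sl.P t S ∧ σ₁.sl.P (t + 1) S

/-- SST (80 lines; uses SLI NUM SIN SAL). `S` is stable for both. Let it be stable for `σ₀` and `X' → S → X''` in `P₁(t+1)`. The `σ₁`-stable factors `H` of `S`: `cls H = α` or
`re₀ H < 0` (as in SAL); `re₀ S = ρ > 0`, so `b ≥ 1` factors of class `α`; `re₁ S = - ρ ≤ - b ρ` with equality only if there are no others: `b = 1`, one
factor. (Or: `cls X' + cls X'' = α`, and SAL for the pieces is not available, so use the factors.) Dual case the same. -/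
def Stmt_SST : Prop := ∀ (h : EllipticSetting C) (σ₀ σ₁ : StabCond C) (t : ℝ) (A : C → Prop)
  (S : C), Turn h σ₀ σ₁ t A S → σ₀.Stable t S ∧ σ₁.Stable (t + 1) S

/-- LOW (100 lines; uses SLI GZS ADT LII SIN SAL). cutL for `σ₀`: `F → E → V`, `V[1] ∈ A ∩ P₀(t+1) ⊆ P₁(t+1)` (LII), so `V ∈ P₁(t)`. `Hom(S, F) = 0`
(`Hom(S, V[-1]) = 0`, `S`, `V[1] ∈ A`). ADT (1) for `σ₁` and `F`: `F' → F → F''`, `F' ∈ P₁(t+1)`, `F'' ∈ P₁[t, t+1)`. `F' ∈ P₀[t, t+1)` (ADT (3)), `im = 0`: `F' ∈ P₀(t)`;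
SAL: `F'` is generated by `S`; `Hom(S, F') = 0` (`SES.mono`): `F' = 0` (GZS). So `F ∈ P₁[t, t+1)`, and `E` too (SLI). -/
def Stmt_LOW : Prop := ∀ (h : EllipticSetting C) (σ₀ σ₁ : StabCond C) (t : ℝ) (A : C → Prop)
  (S : C), Turn h σ₀ σ₁ t A S → ∀ E, σ₀.sl.In (Set.Ico t (t + 1)) E → (∀ f : S ⟶ E, f = 0) →
  σ₁.sl.In (Set.Ico t (t + 1)) E

/-- RAI (100 lines; uses SLI GZS ADT LII SIN SAL), dual to LOW. cutR for `σ₁`: `V[1] → E → F`, `V ∈ A ∩ P₁(t) ⊆ P₀(t)` (LII). `Hom(F, S) = 0` (`Hom(V[2], S) = 0`). ADT (2)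
for `σ₀` and `F`: `F' → F → F''`, `F' ∈ P₀(t, t+1]`, `F'' ∈ P₀(t)`; `F'' ∈ P₁(t, t+1]` (ADT (6)), `im = 0`: `F'' ∈ P₁(t+1)`; SAL; `Hom(F'', S) = 0`
(`SES.epi`): `F'' = 0` (GZS). -/
def Stmt_RAI : Prop := ∀ (h : EllipticSetting C) (σ₀ σ₁ : StabCond C) (t : ℝ) (A : C → Prop)
  (S : C), Turn h σ₀ σ₁ t A S → ∀ E, σ₁.sl.In (Set.Ioc t (t + 1)) E → (∀ f : E ⟶ S, f = 0) →
  σ₀.sl.In (Set.Ioc t (t + 1)) E

/-- BLL (120 lines; uses SLI ADT LII SIN SAL LOW). `→`: cutL for `σ₁` and `X`: `F₁ → X → V`, `F₁ ∈ P₁(t)` (phases), `V[1] ∈ A ∩ P₁(t+1)`. `F₁ ∈ P₀(t)` (LII). ADT (1) for `σ₀` and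
`V[1]`: `V₁ → V[1] → T`, `V₁ ∈ A ∩ P₀(t+1) ⊆ P₁(t+1)`, `T ∈ P₀[t, t+1)`, `im = 0`: `T ∈ P₀(t)`; `T ∈ P₁(t+1)` (ADT (4)): `T` is generated by `S` (SAL). `F` = cocone of
`X → V → T[-1]`: extension of `V₁[-1] ∈ P₀(t)` by `F₁ ∈ P₀(t)`; both are in `P₁(t)`, so `Hom(S, F) = 0` by phases for `σ₁`. `←`: `F ∈ P₁(t)`
(LOW, `im = 0`), `T[-1] ∈ P₁(t)` (SIN). -/
def Stmt_BLL : Prop := ∀ (h : EllipticSetting C) (σ₀ σ₁ : StabCond C) (t : ℝ) (A : C → Prop)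
  (S : C), Turn h σ₀ σ₁ t A S → ∀ X, σ₁.sl.P t X ↔
    ∃ (F T : C) (f : F ⟶ X) (g : X ⟶ T⟦(-1 : ℤ)⟧) (k : T⟦(-1 : ℤ)⟧ ⟶ F⟦(1 : ℤ)⟧),
      Triangle.mk f g k ∈ distTriang C ∧ σ₀.sl.P t F ∧ (∀ a : S ⟶ F, a = 0) ∧
      Gen (fun Y => Nonempty (Y ≅ S)) T

/-- BLR (120 lines; uses SLI ADT LII SIN SAL RAI), dual to BLL: `P₀(t+1)` in terms of `P₁(t+1)`. -/
def Stmt_BLR : Prop := ∀ (h : EllipticSetting C) (σ₀ σ₁ : StabCond C) (t : ℝ) (A : C → Prop)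
  (S : C), Turn h σ₀ σ₁ t A S → ∀ X, σ₀.sl.P (t + 1) X ↔
    ∃ (T F : C) (f : T⟦(1 : ℤ)⟧ ⟶ X) (g : X ⟶ F) (k : F ⟶ (T⟦(1 : ℤ)⟧)⟦(1 : ℤ)⟧),
      Triangle.mk f g k ∈ distTriang C ∧ σ₁.sl.P (t + 1) F ∧ (∀ a : F ⟶ S, a = 0) ∧
      Gen (fun Y => Nonempty (Y ≅ S)) T

/-- LWR, **lowering a simple object** (60 lines; uses SLI TUX SST LOW RAI BLL). TUX, `Turn h σ σ' t A S` (`pos`: SLI). `Z'`: from `re`, `im`. -/
def Stmt_LWR : Prop := ∀ (h : EllipticSetting C) (σ : StabCond C) (t : ℝ) (δ : K0 C),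
  δ ∈ radical (eulerForm h.k3) → δ ≠ 0 → σ.im t δ = 0 → ∀ S : C, Spherical S → σ.Stable t S →
  ∃ σ' : StabCond C, Joined σ σ' ∧
    (∀ x, σ'.Z x = σ.Z x - eulerForm h.k3 x (cls S) * σ.Z (cls S)) ∧ σ'.Stable (t + 1) S ∧
    (∀ E, σ.sl.In (Set.Ico t (t + 1)) E → (∀ f : S ⟶ E, f = 0) →
      σ'.sl.In (Set.Ico t (t + 1)) E) ∧
    (∀ E, σ'.sl.In (Set.Ioc t (t + 1)) E → (∀ f : E ⟶ S, f = 0) →
      σ.sl.In (Set.Ioc t (t + 1)) E) ∧
    ∀ X, σ'.sl.P t X ↔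
      ∃ (F T : C) (f : F ⟶ X) (g : X ⟶ T⟦(-1 : ℤ)⟧) (k : T⟦(-1 : ℤ)⟧ ⟶ F⟦(1 : ℤ)⟧),
        Triangle.mk f g k ∈ distTriang C ∧ σ.sl.P t F ∧ (∀ a : S ⟶ F, a = 0) ∧
        Gen (fun Y => Nonempty (Y ≅ S)) T

/-- RSR, **raising a simple object** (60 lines; uses SLI TUX SST LOW RAI BLR). TUX for `S` and the direction `t - 1` (`S` is `σ`-stable of phase `(t - 1) + 1`):
`Turn h σ' σ (t - 1) A S`: `re' α = - re α > 0`, and `re x = re' x - χ(x, α) re' α`. Then shift by 1 in the statements. -/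
def Stmt_RSR : Prop := ∀ (h : EllipticSetting C) (σ : StabCond C) (t : ℝ) (δ : K0 C),
  δ ∈ radical (eulerForm h.k3) → δ ≠ 0 → σ.im t δ = 0 → ∀ S : C, Spherical S → σ.Stable t S →
  ∃ σ' : StabCond C, Joined σ σ' ∧
    (∀ x, σ'.Z x = σ.Z x - eulerForm h.k3 x (cls S) * σ.Z (cls S)) ∧ σ'.Stable (t - 1) S ∧
    (∀ E, σ.sl.In (Set.Ioc (t - 1) t) E → (∀ f : E ⟶ S, f = 0) →
      σ'.sl.In (Set.Ioc (t - 1) t) E) ∧
    (∀ E, σ'.sl.In (Set.Ico (t - 1) t) E → (∀ f : S ⟶ E, f = 0) →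
      σ.sl.In (Set.Ico (t - 1) t) E) ∧
    ∀ X, σ'.sl.P t X ↔
      ∃ (T F : C) (f : T⟦(1 : ℤ)⟧ ⟶ X) (g : X ⟶ F) (k : F ⟶ (T⟦(1 : ℤ)⟧)⟦(1 : ℤ)⟧),
        Triangle.mk f g k ∈ distTriang C ∧ σ.sl.P t F ∧ (∀ a : F ⟶ S, a = 0) ∧
        Gen (fun Y => Nonempty (Y ≅ S)) T

/-! ### Blocks -/

/-- BDC (60 lines). `gen_stable`, `exists_biprod_of_gen` for `G` = all shifts of objects of `J` and `G'` = all shifts of the stable objects of phase `t` not in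
`J`: `X ≅ X₁ ⊞ X₂` with `X₁ ∈ Gen (shifts of J)`, ... ; the simplest: the statement for `Gen` without shifts by induction on `Gen` (extension of
`X₁ ⊞ X₂` by `Z₁ ⊞ Z₂`, the connecting map is diagonal): `exists_decomp_ext`. Second part: `X₂` is a direct summand of `X`, orthogonal to itself. -/
def Stmt_BDC : Prop := ∀ (h : EllipticSetting C) (σ : StabCond C) (t : ℝ) (J : C → Prop),
  Blk h.k3 σ t J → (∀ X, σ.sl.P t X → ∃ X₁ X₂ : C, Nonempty (X ≅ X₁ ⊞ X₂) ∧ Gen J X₁ ∧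
    Gen (fun U => σ.Stable t U ∧ ¬ J U) X₂) ∧
  ∀ X, Gen J X ↔ σ.sl.P t X ∧ ∀ U, σ.Stable t U → ¬ J U → Orth U X

/-- BLS (60 lines), the local setting of a block. `AbSub` of `Gen J`: `AbSub.gen_ab` (`J` are simple objects of the heart `P(t-1, t]`, `StabCond.Stable.simple`),
`FinCat`: `FinCat.gen_fin`, or directly (`re` is positive on nonzero objects and the values on `Gen J` are discrete: `exists_eps`); simple
objects: `simple_of_gen`; rigid: `Spherical`. -/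
def Stmt_BLS : Prop := ∀ (h : EllipticSetting C) (σ : StabCond C) (t : ℝ) (J : C → Prop),
  Blk h.k3 σ t J → LocalSetting h.k3 (Gen J) (σ.re t) J

/-- BLO, **block version of lowering** (200 lines; uses GZS LWR BDC). `σ'` from LWR. `J' Y`: `σ'.Stable t Y` and `Y` is orthogonal to all `σ`-stable `U` of phase `t` not in `J`. Let `N` be
the class of these `U`; they are orthogonal to `S`. (i) `X ∈ P'(t)`: `F → X → T[-1]`, `F ≅ F₁ ⊞ F₂` (BDC), `F₂ ∈ Gen N` is orthogonal to `T`, so `X ≅ X₁ ⊞ F₂`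
with `F₁ → X₁ → T[-1]`, `F₁ ∈ Gen J`. So if `X` is stable, `X ≅ X₁` (then `J' X`) or `X ≅ F₂ ∈ Gen N`. (ii) `W'` := objects `X` of `P'(t)` orthogonal to
`N` = those with a triangle `F → X → T[-1]`, `F ∈ Gen J`. `orth`: stable objects of `P'(t)` not in `J'` are in `Gen N`, orthogonal to `W'`. `Gen J' = W'`:
as in BDC. (iii) `sph`: let `Y ∈ J'` not isomorphic to `S[-1]` (`S[-1]` is `σ'`-stable of phase `t`). `Hom(Y, S[-1]) = 0`, so in `F → Y → T[-1]` the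
second map is 0, `T = 0`, `Y ∈ Gen J`, `Hom(S, Y) = 0`. Let `S₁ → Y` be a stable subobject in `Gen J` (`FinCat.exists_simple_sub`), `S₁ ≇ S`. Let
`S₂ ⊆ Y` be the preimage of the largest subobject of `Y/S₁` in `Gen (≅ S)`: `Hom(S, Y/S₂) = 0`, `Hom(S, S₂) = 0`, so `S₂ → Y → Y/S₂` is in `P'(t)`:
`Y ≅ S₂`. If `cls Y` is in the radical: `S₂/S₁` is not zero (`cls S₁` is not in the radical) and has a nonzero map to `S` (GZS), so
`Hom(Y, S) ≠ 0`; but `χ(Y, S) = 0` and `Y`, `S[-1]` are different stable objects of `P'(t)`: orthogonal. So `cls Y` has norm 2 (even, `≤ 2`), `Y` is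
spherical (`spherical_of_rigid`, `χ = 2 - ext¹`). (iv) `conn`: let `I` be a nonempty set of classes of `J'` orthogonal to the others, `S[-1] ∈ I` or
not (exchange `I` and the complement). Stable `Y ∈ J'` with class not in `I` are orthogonal to those in `I` (`SimpleIn.orth`). Every object of
`Gen J` is an iterated extension of shifts of objects of `J'` (triangle RSR form: `T → X → F`, or: `S` and `F` of BLL), so it is a direct sum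
(`exists_biprod_of_gen`); for `S₁ ∈ J` (indecomposable) one summand is 0; `J` is connected, so all of `J` is on the side of `S`; so are the `Y`. -/
def Stmt_BLO : Prop := ∀ (h : EllipticSetting C) (σ : StabCond C) (t : ℝ) (δ : K0 C),
  δ ∈ radical (eulerForm h.k3) → δ ≠ 0 → σ.im t δ = 0 → ∀ J : C → Prop, Blk h.k3 σ t J →
  ∀ S : C, J S → ∃ (σ' : StabCond C) (J' : C → Prop), Joined σ σ' ∧ Blk h.k3 σ' t J' ∧
    (∀ x, σ'.Z x = σ.Z x - eulerForm h.k3 x (cls S) * σ.Z (cls S)) ∧ σ'.Stable (t + 1) S ∧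
    (∀ E, σ.sl.In (Set.Ico t (t + 1)) E → (∀ f : S ⟶ E, f = 0) →
      σ'.sl.In (Set.Ico t (t + 1)) E) ∧
    (∀ E, σ'.sl.In (Set.Ioc t (t + 1)) E → (∀ f : E ⟶ S, f = 0) →
      σ.sl.In (Set.Ioc t (t + 1)) E) ∧
    ∀ X, Gen J' X ↔
      ∃ (F T : C) (f : F ⟶ X) (g : X ⟶ T⟦(-1 : ℤ)⟧) (k : T⟦(-1 : ℤ)⟧ ⟶ F⟦(1 : ℤ)⟧),
        Triangle.mk f g k ∈ distTriang C ∧ Gen J F ∧ (∀ a : S ⟶ F, a = 0) ∧
        Gen (fun Y => Nonempty (Y ≅ S)) T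

/-- BUP, **block version of raising** (200 lines; uses GZS RSR BDC), dual to BLO. -/
def Stmt_BUP : Prop := ∀ (h : EllipticSetting C) (σ : StabCond C) (t : ℝ) (δ : K0 C),
  δ ∈ radical (eulerForm h.k3) → δ ≠ 0 → σ.im t δ = 0 → ∀ J : C → Prop, Blk h.k3 σ t J →
  ∀ S : C, J S → ∃ (σ' : StabCond C) (J' : C → Prop), Joined σ σ' ∧ Blk h.k3 σ' t J' ∧
    (∀ x, σ'.Z x = σ.Z x - eulerForm h.k3 x (cls S) * σ.Z (cls S)) ∧ σ'.Stable (t - 1) S ∧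
    (∀ E, σ.sl.In (Set.Ioc (t - 1) t) E → (∀ f : E ⟶ S, f = 0) →
      σ'.sl.In (Set.Ioc (t - 1) t) E) ∧
    (∀ E, σ'.sl.In (Set.Ico (t - 1) t) E → (∀ f : S ⟶ E, f = 0) →
      σ.sl.In (Set.Ico (t - 1) t) E) ∧
    ∀ X, Gen J' X ↔
      ∃ (T F : C) (f : T⟦(1 : ℤ)⟧ ⟶ X) (g : X ⟶ F) (k : F ⟶ (T⟦(1 : ℤ)⟧)⟦(1 : ℤ)⟧),
        Triangle.mk f g k ∈ distTriang C ∧ Gen J F ∧ (∀ a : F ⟶ S, a = 0) ∧
        Gen (fun Y => Nonempty (Y ≅ S)) T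

/-! ### Perturbation along a functional -/

/-- PAN (80 lines; uses SLI ADT). `A` = heart of `σ'`. `E ∈ A ∩ P[t, t+1)`: `σ'`-truncation of `E` at `Ici (t+1)`: `G → E → E'`, `G ∈ P'(t+1)`, both in `A`. `G ∈ P[t, t+1)` (ADT (3)). The `σ'`-stable
factors of `G` have norm `≤ 2` and `im' = im + ε u = 0`, so `im = 0 = u` (sign property). So `im G = 0`, `G ∈ P(t)` (SLI); if `G` is not zero
`re G > 0`, but `re' G = re G < 0` (`G ∈ P'(t+1)`). So `E ∈ P'(t, t+1)`. -/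
def Stmt_PAN : Prop := ∀ (h : EllipticSetting C) (σ σ' : StabCond C) (t ε : ℝ) (u : K0 C →+ ℝ),
  0 < ε → (∀ x, eulerForm h.k3 x x ≤ 2 → σ.im t x ≠ 0 → ε * |u x| < |σ.im t x|) →
  (∀ x, σ'.re t x = σ.re t x) → (∀ x, σ'.im t x = σ.im t x + ε * u x) →
  Adj σ t (σ'.sl.Heart t) → ∀ E, σ'.sl.Heart t E → σ.sl.In (Set.Ico t (t + 1)) E →
    σ'.sl.In (Set.Ioo t (t + 1)) E

/-- PHL (150 lines; uses SLI ADT PAN), the perturbed stability condition. (1) `E ∈ P(t, t+1)`: cutL: `F → E → V`, `Hom(E, V) = 0` by phases, so `V = 0`, PAN. (2) `E ∈ P(t)`, `0 ≤ u`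
on all `P(t)`-quotients: cutL: `F → E → V`, `F, V ∈ P(t)` (phases), `u V ≥ 0`, and `V[1] ∈ A`: `0 ≤ im' (V[1]) = - ε u V`, so `u V = 0`, `V[1] ∈ P'(t+1)` (`P_of_im`),
`V ∈ P'(t)`; `F ∈ P'(t, t+1)` (PAN). (3) `E ∈ P(t)`, `u ≤ 0` on all subobjects: `u F ≤ 0` and `F ∈ A`: `u F = 0`, `F ∈ P'(t+1)`, and `F ∈ P'(t, t+1)` (PAN), so `F = 0`;
`E ≅ V ∈ A[-1]`. (4) `X ∈ P'(t)`: `X[1] ∈ P'(t+1) ⊆ A`; the stable factors have `im = 0`, `u = 0` (sign property); ADT (1) for `X[1]`: `X₁ → X[1] → X₂`,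
`X₂ ∈ P[t, t+1)`, PAN: `X₂ ∈ P'(t, t+1)`, `Hom(X[1], X₂) = 0`: `X₂ = 0`. -/
def Stmt_PHL : Prop := ∀ (h : EllipticSetting C) (σ σ' : StabCond C) (t ε : ℝ) (u : K0 C →+ ℝ),
  0 < ε → (∀ x, eulerForm h.k3 x x ≤ 2 → σ.im t x ≠ 0 → ε * |u x| < |σ.im t x|) →
  (∀ x, σ'.re t x = σ.re t x) → (∀ x, σ'.im t x = σ.im t x + ε * u x) →
  Adj σ t (σ'.sl.Heart t) →
  (∀ E, σ.sl.In (Set.Ioo t (t + 1)) E → σ'.sl.In (Set.Ioo t (t + 1)) E) ∧
  (∀ E, σ.sl.P t E → (∀ (F V : C) (f : F ⟶ E) (g : E ⟶ V), SES (σ.sl.P t) f g → 0 ≤ u (cls V)) →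
    σ'.sl.In (Set.Ico t (t + 1)) E) ∧
  (∀ E, σ.sl.P t E → (∀ (F V : C) (f : F ⟶ E) (g : E ⟶ V), SES (σ.sl.P t) f g → u (cls F) ≤ 0) →
    σ'.sl.In (Set.Ioc (t - 1) t) E) ∧
  ∀ X, σ'.sl.P t X → σ.sl.P t X ∧ u (cls X) = 0

/-- PER, **perturbation along `u`** in a rational direction (30 lines; uses SGN PRT PHL). -/
def Stmt_PER : Prop := ∀ (h : EllipticSetting C) (σ : StabCond C) (t : ℝ) (δ : K0 C),
  δ ∈ radical (eulerForm h.k3) → δ ≠ 0 → σ.im t δ = 0 → ∀ u : K0 C →+ ℝ,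
  (∀ r ∈ radical (eulerForm h.k3), u r = 0) → ∃ ε₀ : ℝ, 0 < ε₀ ∧ ∀ ε : ℝ, 0 < ε → ε ≤ ε₀ →
  ∃ σ' : StabCond C, Joined σ σ' ∧ (∀ x, σ'.re t x = σ.re t x) ∧
    (∀ x, σ'.im t x = σ.im t x + ε * u x) ∧
    (∀ x, eulerForm h.k3 x x ≤ 2 → σ.im t x ≠ 0 → ε * |u x| < |σ.im t x|) ∧
    (∀ E, σ.sl.In (Set.Ioo t (t + 1)) E → σ'.sl.In (Set.Ioo t (t + 1)) E) ∧
    (∀ E, σ.sl.P t E → (∀ (F V : C) (f : F ⟶ E) (g : E ⟶ V), SES (σ.sl.P t) f g →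
      0 ≤ u (cls V)) → σ'.sl.In (Set.Ico t (t + 1)) E) ∧
    (∀ E, σ.sl.P t E → (∀ (F V : C) (f : F ⟶ E) (g : E ⟶ V), SES (σ.sl.P t) f g →
      u (cls F) ≤ 0) → σ'.sl.In (Set.Ioc (t - 1) t) E) ∧
    ∀ X, σ'.sl.P t X → σ.sl.P t X ∧ u (cls X) = 0

end Category

end Pool.Move
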