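import Mathlib
import Pool.Agent.Work.MP_841263_mv.Interface

/-! # Block ADR: the limit of a constant heart, the upper cut (helper7) -/

open CategoryTheory CategoryTheory.Limits CategoryTheory.Pretriangulated
open scoped ZeroObject Topology
open Filter

set_option backward.isDefEq.respectTransparency false
set_option backward.defeqAttrib.useBackward true
set_option linter.unusedSectionVars false

namespace Pool.Move

open Pool.Stab Pool.Tube

universe v u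

section

variable {C : Type u} [Category.{v} C] [Preadditive C] [HasZeroObject C] [HasShift C ℤ]
  [∀ n : ℤ, (shiftFunctor C n).Additive] [Pretriangulated C] [IsTriangulated C] [Linear ℂ C]
  [∀ n : ℤ, (shiftFunctor C n).Linear ℂ]

lemma ADR_list (l : List ℝ) (t : ℝ) (h : ∀ φ ∈ l, t < φ) :
    ∃ κ : ℝ, 0 < κ ∧ κ ≤ 1 ∧ ∀ φ ∈ l, t + κ < φ := by
  induction l with
  | nil => exact ⟨1, one_pos, le_rfl, by simp⟩
  | cons a l ih =>
    obtain ⟨κ, h0, h1, h2⟩ := ih (fun φ hφ => h φ (List.mem_cons_of_mem _ hφ))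
    have ha := h a (by simp)
    refine ⟨min κ ((a - t) / 2), lt_min h0 (by linarith), (min_le_left _ _).trans h1, ?_⟩
    intro φ hφ
    rcases List.mem_cons.1 hφ with rfl | hφ
    · have := min_le_right κ ((φ - t) / 2)
      linarith
    · have := min_le_left κ ((a - t) / 2)
      have := h2 φ hφ
      linarith

/-- The lower bound for the last term of a triangle. -/
lemma ADR_upper {S : Slicing C} {U : Set ℝ} (hU : IsUpperSet U) {X Y Z : C} {f : X ⟶ Y}
    {g : Y ⟶ Z} {k : Z ⟶ X⟦(1 : ℤ)⟧} (hT : Triangle.mk f g k ∈ distTriang C)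
    (hY : S.In U Y) (hX : S.In U X) : S.In U Z :=
  Slicing.In.ext_upper hU (rot_mk hT) hY (hX.shift_upper hU)

/-- The upper bound for the first term of a triangle. -/
lemma ADR_lower {S : Slicing C} {U : Set ℝ} (hU : IsUpperSet U) {X Y Z : C} {f : X ⟶ Y}
    {g : Y ⟶ Z} {k : Z ⟶ X⟦(1 : ℤ)⟧} (hT : Triangle.mk f g k ∈ distTriang C)
    (hY : S.In Uᶜ Y) (hZ : S.In Uᶜ Z) : S.In Uᶜ X := by
  obtain ⟨a, c, hT'⟩ := exists_invrot hT
  exact Slicing.In.ext_lower hU hT' (hZ.shift_lower hU) hY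

/-- The bounds for the two parts. -/
lemma ADR_bd {S : Slicing C} {t κ : ℝ} (hκ : 0 < κ) (hκ1 : κ ≤ 1) {V E F : C}
    {f : V⟦(1 : ℤ)⟧ ⟶ E} {g : E ⟶ F} {k : F ⟶ (V⟦(1 : ℤ)⟧)⟦(1 : ℤ)⟧}
    (hT : Triangle.mk f g k ∈ distTriang C) (hV : S.Heart t V) (hF : S.Heart t F)
    (hE : S.In (Set.Ioo (t + κ) (t + 1 + κ)) E) :
    S.In (Set.Icc t (t + κ)) V ∧ S.In (Set.Icc (t + κ) (t + 1)) F := by
  have hV1 : S.In (Set.Ioi (t + 1)) (V⟦(1 : ℤ)⟧) := by
    refine (hV.shift_one).mono ?_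
    rintro _ ⟨x, hx, rfl⟩
    have := hx.1
    show t + 1 < x + 1
    linarith
  constructor
  · have h1 : S.In (Set.Ioi (t + 1 + κ))ᶜ (V⟦(1 : ℤ)⟧) := by
      refine ADR_lower (isUpperSet_Ioi _) hT (hE.mono ?_) (hF.mono ?_)
      · intro x hx
        have := hx.2
        show ¬ (t + 1 + κ < x)
        linarith
      · intro x hx
        have := hx.2
        show ¬ (t + 1 + κ < x)
        linarith
    have h2 : S.In (Set.Ioi (t + κ))ᶜ V := by
      have e : (V⟦(1 : ℤ)⟧)⟦(-1 : ℤ)⟧ ≅ V := (shiftFunctorCompIsoId C (1 : ℤ) (-1) (by simp)).app V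
      refine ((h1.shift_neg_one).iso e).mono ?_
      rintro _ ⟨x, hx, rfl⟩
      have hx' : x ≤ t + 1 + κ := not_lt.1 hx
      show ¬ (t + κ < x - 1)
      linarith
    exact (Slicing.In.inter (isUpperSet_Ioi t) (isUpperSet_Ioi (t + κ)) hV.upper h2).mono
      (fun x hx => ⟨le_of_lt hx.1, not_lt.1 hx.2⟩)
  · have h1 : S.In (Set.Ici (t + κ)) F := by
      refine ADR_upper (isUpperSet_Ici _) hT (hE.mono ?_) (hV1.mono ?_)
      · intro x hx
        exact le_of_lt hx.1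
      · intro x hx
        have hx' : t + 1 < x := hx
        show t + κ ≤ x
        linarith
    exact (Slicing.In.inter (isUpperSet_Ici (t + κ)) (isUpperSet_Ioi (t + 1)) h1 hF.lower).mono
      (fun x hx => ⟨hx.1, not_lt.1 hx.2⟩)

theorem p_ADR : Pool.Align.Stmt_LIM C → Pool.Align.Stmt_OPE C → Stmt_ADR C := by
  intro hLIM hOPE h Γ t J A hJ e hfreq E hE
  obtain ⟨l, hl, hI⟩ := hE
  obtain ⟨κ, hκ, hκ1, hκl⟩ := ADR_list l t (fun φ hφ => (hI φ hφ).1)
  have hEe : ∀ κ' : ℝ, 0 < κ' → κ' ≤ κ →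
      ∀ᶠ s in 𝓝 e, (Γ s).sl.In (Set.Ioo (t + κ') (t + 1 + κ')) E := by
    intro κ' h0 h1
    refine hOPE h Γ e E _ _ ⟨l, hl, fun φ hφ => ⟨?_, ?_⟩⟩
    · have := hκl φ hφ
      linarith
    · have := (hI φ hφ).2
      linarith
  obtain ⟨s₁, hs₁, hEs⟩ := (hfreq.and_eventually (hEe κ hκ le_rfl)).exists
  obtain ⟨V1, F, f, g, k, hT, hV1, hF1⟩ := (Γ s₁).sl.exists_trunc E (isUpperSet_Ioi (t + 1))
  have hF : (Γ s₁).sl.Heart t F := by
    refine Slicing.In.heart (ADR_upper (isUpperSet_Ioi _) hT (hEs.mono ?_) (hV1.mono ?_)) hF1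
    · intro x hx
      have := hx.1
      show t < x
      linarith
    · intro x hx
      have hx' : t + 1 < x := hx
      show t < x
      linarith
  have hV2 : (Γ s₁).sl.In (Set.Ioi (t + 2))ᶜ V1 := by
    refine ADR_lower (isUpperSet_Ioi _) hT (hEs.mono ?_) (hF1.mono ?_)
    · intro x hx
      have := hx.2
      show ¬ (t + 2 < x)
      linarith
    · intro x hx
      have hx' : x ≤ t + 1 := not_lt.1 hx
      show ¬ (t + 2 < x)
      linarith
  have hV : (Γ s₁).sl.Heart t (V1⟦(-1 : ℤ)⟧) := by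
    refine Slicing.In.heart ((hV1.shift_neg_one).mono ?_) ((hV2.shift_neg_one).mono ?_)
    · rintro _ ⟨x, hx, rfl⟩
      have hx' : t + 1 < x := hx
      show t < x - 1
      linarith
    · rintro _ ⟨x, hx, rfl⟩
      have hx' : x ≤ t + 2 := not_lt.1 hx
      show ¬ (t + 1 < x - 1)
      linarith
  let e1 : (V1⟦(-1 : ℤ)⟧)⟦(1 : ℤ)⟧ ≅ V1 := (shiftFunctorCompIsoId C (-1 : ℤ) 1 (by simp)).app V1
  have hT' : Triangle.mk (e1.hom ≫ f) g (k ≫ (e1.inv)⟦(1 : ℤ)⟧') ∈ distTriang C := by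
    refine isomorphic_distinguished _ hT _ ?_
    refine Triangle.isoMk _ _ e1 (Iso.refl _) (Iso.refl _) ?_ ?_ ?_
    · simp
    · simp
    · dsimp
      rw [Category.assoc, ← Functor.map_comp, e1.inv_hom_id, CategoryTheory.Functor.map_id]
      simp
  have hAV : A (V1⟦(-1 : ℤ)⟧) := (hJ s₁ hs₁ _).1 hV
  have hAF : A F := (hJ s₁ hs₁ _).1 hF
  have hbd : ∀ κ' : ℝ, 0 < κ' → κ' ≤ κ → ∃ᶠ s in 𝓝 e,
      (Γ s).sl.In (Set.Icc t (t + κ')) (V1⟦(-1 : ℤ)⟧) ∧
        (Γ s).sl.In (Set.Icc (t + κ') (t + 1)) F := by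
    intro κ' h0 h1
    refine (hfreq.and_eventually (hEe κ' h0 h1)).mono ?_
    rintro s ⟨hs, hEs'⟩
    exact ADR_bd h0 (h1.trans hκ1) hT' ((hJ s hs _).2 hAV) ((hJ s hs _).2 hAF) hEs'
  refine ⟨V1⟦(-1 : ℤ)⟧, F, e1.hom ≫ f, g, k ≫ (e1.inv)⟦(1 : ℤ)⟧', hT', ?_, hAV, hAF, ?_⟩
  · apply Slicing.In.P_of_singleton
    rw [← Set.Icc_self]
    apply hLIM h Γ e _ t t
    intro η hη
    refine (hbd (min κ η) (lt_min hκ hη) (min_le_left _ _)).mono ?_
    rintro s ⟨hs, -⟩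
    refine hs.mono ?_
    intro x hx
    have h1 := hx.1
    have h2 := hx.2
    have h3 := min_le_right κ η
    exact ⟨by linarith, by linarith⟩
  · have h1 : (Γ e).sl.In (Set.Icc (t + κ) (t + 1)) F := by
      apply hLIM h Γ e _ (t + κ) (t + 1)
      intro η hη
      refine (hbd κ hκ le_rfl).mono ?_
      rintro s ⟨-, hs⟩
      refine hs.mono ?_
      intro x hx
      exact ⟨by linarith [hx.1], by linarith [hx.2]⟩
    refine h1.mono ?_
    intro x hx
    exact ⟨by linarith [hx.1], hx.2⟩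

end

end Pool.Move
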