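import Pool.Agent.Work.MP_841263_mv.Interface

/-!
# Block ADT: the torsion pairs in an adjacent heart (helper54)
-/

open CategoryTheory CategoryTheory.Limits CategoryTheory.Pretriangulated
open scoped ZeroObject Topology
open Filter

set_option backward.isDefEq.respectTransparency false
set_option backward.defeqAttrib.useBackward true
set_option linter.unusedSectionVars false

namespace Pool.Move

open Pool.Stab Pool.Tube

universe v u

section

variable {C : Type u} [Category.{v} C] [Preadditive C] [HasZeroObject C] [HasShift C ℤ]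
  [∀ n : ℤ, (shiftFunctor C n).Additive] [Pretriangulated C] [IsTriangulated C] [Linear ℂ C]
  [∀ n : ℤ, (shiftFunctor C n).Linear ℂ]

open Classical in
/-- Truncation of an object with phases in `I`. -/
lemma ADT_trunc (S : Slicing C) {I U : Set ℝ} (hU : IsUpperSet U) {X : C} (h : S.In I X) :
    ∃ (X' X'' : C) (f : X' ⟶ X) (g : X ⟶ X'') (k : X'' ⟶ X'⟦(1 : ℤ)⟧),
      Triangle.mk f g k ∈ distTriang C ∧ S.In (I ∩ U) X' ∧ S.In (I \ U) X'' := by
  obtain ⟨l, hl, hI⟩ := h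
  obtain ⟨X', X'', f, g, k, hT, h1, h2⟩ := hl.trunc U hU
  refine ⟨X', X'', f, g, k, hT, ⟨_, h1, fun φ hφ => ?_⟩, ⟨_, h2, fun φ hφ => ?_⟩⟩
  · have := List.mem_filter.1 hφ
    exact ⟨hI φ this.1, by simpa using this.2⟩
  · have := List.mem_filter.1 hφ
    exact ⟨hI φ this.1, by simpa using this.2⟩

/-- The shift by one of an object with phases in `I`. -/
lemma ADT_one {S : Slicing C} {I J : Set ℝ} {X : C} (h : S.In I X)
    (hJ : ∀ φ ∈ I, φ + 1 ∈ J) : S.In J (X⟦(1 : ℤ)⟧) := by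
  refine h.shift_one.mono ?_
  rintro _ ⟨φ, hφ, rfl⟩
  exact hJ φ hφ

/-- The shift by minus one of an object with phases in `I`. -/
lemma ADT_neg {S : Slicing C} {I J : Set ℝ} {X : C} (h : S.In I X)
    (hJ : ∀ φ ∈ I, φ - 1 ∈ J) : S.In J (X⟦(-1 : ℤ)⟧) := by
  refine h.shift_neg_one.mono ?_
  rintro _ ⟨φ, hφ, rfl⟩
  exact hJ φ hφ

/-- Maps `X ⟶ V` vanish if `X` and `V[1]` are in `A`. -/
lemma ADT_van {A : C → Prop} (hA : AbSub A) {X V : C} (hX : A X) (hV : A (V⟦(1 : ℤ)⟧))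
    (f : X ⟶ V) : f = 0 := by
  let e : (V⟦(1 : ℤ)⟧)⟦(-1 : ℤ)⟧ ≅ V := (shiftFunctorCompIsoId C (1 : ℤ) (-1) (by simp)).app V
  have h : f ≫ e.inv = 0 := hA.hom_neg hX hV (by norm_num) _
  rw [← cancel_mono e.inv, h, zero_comp]

/-- A triangle `X' ⟶ X ⟶ X''` with `X` in `A` and phases in `(t, t+1]` resp. `[t, t+1)` is a short exact sequence. -/
lemma ADT_ses {σ : StabCond C} {t : ℝ} {A : C → Prop} (hA : Adj σ t A) {X' X X'' : C}
    {f : X' ⟶ X} {g : X ⟶ X''} {k : X'' ⟶ X'⟦(1 : ℤ)⟧}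
    (hT : Triangle.mk f g k ∈ distTriang C) (hX : A X)
    (h' : σ.sl.In (Set.Ioc t (t + 1)) X') (h'' : σ.sl.In (Set.Ico t (t + 1)) X'') :
    SES A f g := by
  have h1 : A X'' := by
    obtain ⟨F, V, a, b, c, hT1, hF, hF', hV, hV'⟩ := hA.cutL X'' h''
    have h2 : g ≫ b = 0 := ADT_van hA.ab hX hV' _
    obtain ⟨d, hd⟩ := Triangle.yoneda_exact₂ _ (rot_mk hT) b h2
    have h3 : d = 0 := by
      refine Slicing.In.hom_zero (ADT_one (J := Set.Ioi (t + 1)) h' ?_)
        (Slicing.in_of_P hV (Set.mem_singleton t)) ?_ d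
      · intro φ hφ
        have := hφ.1
        show t + 1 < φ + 1
        linarith
      · intro φ hφ ψ hψ
        have h4 : t + 1 < φ := hφ
        have h5 : ψ = t := hψ
        linarith
    have hb : b = 0 := by rw [hd, h3, CategoryTheory.Limits.comp_zero]
    have hV0 : IsZero V := by
      refine isZero₃_of_mor₂ hT1 hb ?_
      intro r
      refine Slicing.In.hom_zero (ADT_one (J := Set.Ici (t + 1)) hF' ?_)
        (Slicing.in_of_P hV (Set.mem_singleton t)) ?_ r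
      · intro φ hφ
        have := hφ.1
        show t + 1 ≤ φ + 1
        linarith
      · intro φ hφ ψ hψ
        have h4 : t + 1 ≤ φ := hφ
        have h5 : ψ = t := hψ
        linarith
    have := iso_of_isZero₃ hT1 hV0
    exact hA.ab.iso_mem (asIso a) hF
  have h2 : A X' := by
    obtain ⟨V, F, a, b, c, hT1, hV, hV', hF, hF'⟩ := hA.cutR X' h'
    have h2 : a ≫ f = 0 := hA.ab.hom_pos hV' hX _
    obtain ⟨p, q, hinv⟩ := exists_invrot hT
    obtain ⟨d, hd⟩ := Triangle.coyoneda_exact₂ _ hinv a h2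
    have h3 : d = 0 := by
      refine Slicing.In.hom_zero
        (ADT_one (J := {t + 1}) (Slicing.in_of_P hV (Set.mem_singleton t)) ?_)
        (ADT_neg (J := Set.Iio t) h'' ?_) ?_ d
      · intro φ hφ
        have h5 : φ = t := hφ
        rw [h5]
        exact Set.mem_singleton _
      · intro φ hφ
        have := hφ.2
        show φ - 1 < t
        linarith
      · intro φ hφ ψ hψ
        have h4 : φ = t + 1 := hφ
        have h5 : ψ < t := hψ
        linarith
    have ha : a = 0 := by rw [hd, h3, zero_comp]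
    have hV0 : IsZero (V⟦(1 : ℤ)⟧) := by
      refine isZero₁_of_mor₁ hT1 ha ?_
      intro r
      refine Slicing.In.hom_zero
        (ADT_one (J := {t + 2}) (ADT_one (J := {t + 1})
          (Slicing.in_of_P hV (Set.mem_singleton t)) ?_) ?_) hF' ?_ r
      · intro φ hφ
        have h5 : φ = t := hφ
        rw [h5]
        exact Set.mem_singleton _
      · intro φ hφ
        have h5 : φ = t + 1 := hφ
        show φ + 1 = t + 2
        linarith
      · intro φ hφ ψ hψ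
        have h4 : φ = t + 2 := hφ
        have h5 := hψ.2
        linarith
    have := iso_of_isZero₁ hT1 hV0
    exact hA.ab.iso_mem (asIso b).symm hF
  exact ⟨h2, hX, h1, k, hT⟩

/-- The torsion pair of `A` at the phase `t + 1`. -/
lemma ADT_fst {σ : StabCond C} {t : ℝ} {A : C → Prop} (hA : Adj σ t A) (X : C) (hX : A X) :
    ∃ (X' X'' : C) (f : X' ⟶ X) (g : X ⟶ X''), SES A f g ∧ σ.sl.P (t + 1) X' ∧
      σ.sl.In (Set.Ico t (t + 1)) X'' := by
  obtain ⟨X', X'', f, g, k, hT, h1, h2⟩ := ADT_trunc σ.sl (isUpperSet_Ici (t + 1))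
    (hA.near X hX)
  have h3 : σ.sl.In {t + 1} X' := h1.mono (by
    rintro φ ⟨hφ, hφ'⟩
    have h4 : t + 1 ≤ φ := hφ'
    have h5 := hφ.2
    exact le_antisymm h5 h4)
  have h4 : σ.sl.In (Set.Ico t (t + 1)) X'' := h2.mono (by
    rintro φ ⟨hφ, hφ'⟩
    have h4 : ¬ (t + 1 ≤ φ) := hφ'
    exact ⟨hφ.1, not_le.1 h4⟩)
  refine ⟨X', X'', f, g, ADT_ses hA hT hX (h3.mono ?_) h4, h3.P_of_singleton, h4⟩
  intro φ hφ
  have h5 : φ = t + 1 := hφ
  rw [h5]
  exact ⟨by linarith, le_rfl⟩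

/-- The torsion pair of `A` at the phase `t`. -/
lemma ADT_snd {σ : StabCond C} {t : ℝ} {A : C → Prop} (hA : Adj σ t A) (X : C) (hX : A X) :
    ∃ (X' X'' : C) (f : X' ⟶ X) (g : X ⟶ X''), SES A f g ∧
      σ.sl.In (Set.Ioc t (t + 1)) X' ∧ σ.sl.P t X'' := by
  obtain ⟨X', X'', f, g, k, hT, h1, h2⟩ := ADT_trunc σ.sl (isUpperSet_Ioi t)
    (hA.near X hX)
  have h3 : σ.sl.In (Set.Ioc t (t + 1)) X' := h1.mono (by
    rintro φ ⟨hφ, hφ'⟩
    exact ⟨hφ', hφ.2⟩)
  have h4 : σ.sl.In {t} X'' := h2.mono (by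
    rintro φ ⟨hφ, hφ'⟩
    have h4 : ¬ (t < φ) := hφ'
    exact le_antisymm (not_lt.1 h4) hφ.1)
  refine ⟨X', X'', f, g, ADT_ses hA hT hX h3 (h4.mono ?_), h3, h4.P_of_singleton⟩
  intro φ hφ
  have h5 : φ = t := hφ
  rw [h5]
  exact ⟨le_rfl, by linarith⟩

end

variable (C : Type u) [Category.{v} C] [Preadditive C] [HasZeroObject C] [HasShift C ℤ]
  [∀ n : ℤ, (shiftFunctor C n).Additive] [Pretriangulated C] [IsTriangulated C] [Linear ℂ C]
  [∀ n : ℤ, (shiftFunctor C n).Linear ℂ]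

theorem p_ADT : Stmt_SLI C → Stmt_ADT C := by
  intro hS σ t A hA
  refine ⟨ADT_fst hA, ADT_snd hA, ?_⟩
  intro Y X Z f g hSES
  have h3 : σ.sl.In (Set.Ico t (t + 1)) X → σ.sl.In (Set.Ico t (t + 1)) Y := by
    intro hX
    obtain ⟨Y', Y'', a, b, hab, hY', hY''⟩ := ADT_fst hA Y hSES.1
    have h1 : a ≫ f = 0 := by
      refine Slicing.In.hom_zero (Slicing.in_of_P hY' (Set.mem_singleton (t + 1))) hX ?_ _
      intro φ hφ ψ hψ
      have h4 : φ = t + 1 := hφ
      have h5 := hψ.2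
      linarith
    have h2 : a = 0 := hSES.mono hA.ab hab.1 a h1
    have h3 := isZero_of_SES_left hA.ab hab h2
    obtain ⟨-, -, -, d, hT⟩ := hab
    have := iso_of_isZero₁ hT h3
    exact hY''.iso (asIso b).symm
  refine ⟨h3, ?_, ?_, ?_⟩
  · intro hX
    obtain ⟨Z', Z'', a, b, hab, hZ', hZ''⟩ := ADT_fst hA Z hSES.2.2.1
    have h1 : g ≫ b = 0 := by
      refine Slicing.In.hom_zero (Slicing.in_of_P hX (Set.mem_singleton (t + 1))) hZ'' ?_ _
      intro φ hφ ψ hψ
      have h4 : φ = t + 1 := hφ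
      have h5 := hψ.2
      linarith
    have h2 : b = 0 := hSES.epi hA.ab hab.2.2.1 b h1
    have h3 := isZero_of_SES_right hA.ab hab h2
    obtain ⟨-, -, -, d, hT⟩ := hab
    have := iso_of_isZero₃ hT h3
    exact σ.sl.iso_mem _ (asIso a) hZ'
  · intro hX
    have h1 : σ.sl.In (Set.Ico t (t + 1)) Y :=
      h3 (Slicing.in_of_P hX ⟨le_rfl, by linarith⟩)
    have h4 := (hS σ t Y).1 (hA.near Y hSES.1)
    have h5 := (hS σ t Z).1 (hA.near Z hSES.2.2.1)
    have h6 := (hS σ t X).2.2.2.2.1 hX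
    rw [hSES.cls_eq, map_add] at h6
    exact (hS σ t Y).2.2.2.1 h1 (by linarith)
  · intro hX
    obtain ⟨Z', Z'', a, b, hab, hZ', hZ''⟩ := ADT_snd hA Z hSES.2.2.1
    have h1 : g ≫ b = 0 := by
      refine Slicing.In.hom_zero hX (Slicing.in_of_P hZ'' (Set.mem_singleton t)) ?_ _
      intro φ hφ ψ hψ
      have h4 : ψ = t := hψ
      have h5 := hφ.1
      linarith
    have h2 : b = 0 := hSES.epi hA.ab hab.2.2.1 b h1
    have h3 := isZero_of_SES_right hA.ab hab h2
    obtain ⟨-, -, -, d, hT⟩ := hab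
    have := iso_of_isZero₃ hT h3
    exact hZ'.iso (asIso a)

end Pool.Move
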