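import Pool.Agent.Work.MP_841263_mv.Interface2

/-!
# Block BLE: the radical object survives a move (typed by helper82)
-/

open CategoryTheory CategoryTheory.Limits CategoryTheory.Pretriangulated
open scoped ZeroObject Topology
open Filter

set_option backward.isDefEq.respectTransparency false
set_option backward.defeqAttrib.useBackward true
set_option linter.unusedSectionVars false

namespace Pool.Move

open Pool.Stab Pool.Tube

universe v u

variable (C : Type u) [Category.{v} C] [Preadditive C] [HasZeroObject C] [HasShift C ℤ]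
  [∀ n : ℤ, (shiftFunctor C n).Additive] [Pretriangulated C] [IsTriangulated C] [Linear ℂ C]
  [∀ n : ℤ, (shiftFunctor C n).Linear ℂ]

variable {C} in
lemma BLE_biprod {G : C → Prop} {X Y : C} (hX : Gen G X) (hY : Gen G Y) : Gen G (X ⊞ Y) :=
  Gen.ext (binaryBiproductTriangle_distinguished X Y) hX hY

variable {C} in
lemma BLE_obj {G : C → Prop} {c : K0 C →₀ ℕ}
    (hc : ∀ v ∈ c.support, v ∈ {x | ∃ H, G H ∧ cls H = x}) :
    ∃ D, Gen G D ∧ cls D = comb c := by
  let M : AddSubmonoid (K0 C) :=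
    { carrier := {x | ∃ D, Gen G D ∧ cls D = x}
      zero_mem' := ⟨0, Gen.zero (isZero_zero C), cls_of_isZero (isZero_zero C)⟩
      add_mem' := by
        rintro _ _ ⟨D, hD, rfl⟩ ⟨E, hE, rfl⟩
        exact ⟨D ⊞ E, BLE_biprod hD hE, cls_biprod _ _⟩ }
  have h1 : comb c ∈ M := by
    rw [comb_apply]
    refine AddSubmonoid.sum_mem M ?_
    intro v hv
    obtain ⟨H, hH, hv'⟩ := hc v hv
    exact AddSubmonoid.nsmul_mem M ⟨H, Gen.of hH, hv'⟩ _
  exact h1

theorem p_BLE : Stmt_BLE C := by
  intro h σ σ' t J J' hJ hJ' S hS hmove hrad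
  obtain ⟨D, hD, hD0, hDr⟩ := hrad
  have hF := Pool.Blk.finCat_P h σ t
  have hF' := Pool.Blk.finCat_P h σ' t
  set R : Set (K0 C) := {x | ∃ H, J' H ∧ cls H = x} with hR
  -- classes of the objects of `Gen J'`
  have hcl : ∀ X, Gen J' X → cls X ∈ AddSubgroup.closure R := fun X hX =>
    Gen.cls_mem (G := J') (R := AddSubgroup.closure R)
      (fun Y hY => AddSubgroup.subset_closure (show cls Y ∈ R from ⟨Y, hY, rfl⟩)) hX
  -- classes of the simple objects of `J`
  have hJcl : ∀ S₁, J S₁ → cls S₁ ∈ AddSubgroup.closure R := by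
    intro S₁ hS₁
    by_cases he : Nonempty (S₁ ≅ S)
    · obtain ⟨e⟩ := he
      rw [cls_iso e]
      rcases hmove with hm | hm
      · have h1 : Gen J' (S⟦(-1 : ℤ)⟧) := by
          refine (hm _).2 ⟨0, S, 0, 𝟙 _, 0, contractible_distinguished₁ _,
            Gen.zero (isZero_zero C), fun a => (isZero_zero C).eq_of_tgt _ _,
            Gen.of ⟨Iso.refl _⟩⟩
        have h2 := hcl _ h1
        have h3 : cls (S⟦(-1 : ℤ)⟧) = - cls S := by
          rw [cls_shift, Int.negOnePow_odd (-1) (by decide)]; simp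
        rw [h3] at h2
        simpa using AddSubgroup.neg_mem _ h2
      · have h1 : Gen J' (S⟦(1 : ℤ)⟧) := by
          refine (hm _).2 ⟨S, 0, 𝟙 _, 0, 0, contractible_distinguished _,
            Gen.zero (isZero_zero C), fun a => (isZero_zero C).eq_of_src _ _,
            Gen.of ⟨Iso.refl _⟩⟩
        have h2 := hcl _ h1
        rw [cls_shift_one] at h2
        simpa using AddSubgroup.neg_mem _ h2
    · obtain ⟨-, h1, h2⟩ := hF.toAbSub.simple_form_le h.k3 (hJ.stable S₁ hS₁) (hJ.stable S hS) he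
      refine hcl _ ?_
      rcases hmove with hm | hm
      · refine (hm _).2 ⟨S₁, 0, 𝟙 _, 0, 0, ?_, Gen.of hS₁, h2, Gen.zero (isZero_zero C)⟩
        exact isomorphic_distinguished _ (contractible_distinguished S₁) _
          (Triangle.isoMk _ _ (Iso.refl _) (Iso.refl _)
            ((shiftFunctor C (-1 : ℤ)).map_isZero (isZero_zero C)).isoZero
            (by simp) (by simp) (by simp))
      · refine (hm _).2 ⟨0, S₁, 0, 𝟙 _, 0, ?_, Gen.of hS₁, h1, Gen.zero (isZero_zero C)⟩
        exact isomorphic_distinguished _ (contractible_distinguished₁ S₁) _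
          (Triangle.isoMk _ _
            ((shiftFunctor C (1 : ℤ)).map_isZero (isZero_zero C)).isoZero
            (Iso.refl _) (Iso.refl _) (by simp) (by simp) (by simp))
  have hr : cls D ∈ AddSubgroup.closure R := Gen.cls_mem (G := J) hJcl hD
  have hr0 : cls D ≠ 0 := by
    intro h0
    have h1 := hF.pos D (hF.toAbSub.gen_mem (fun X hX => hJ.stable X hX) hD) hD0
    rw [h0, map_zero] at h1
    exact lt_irrefl _ h1
  obtain ⟨c, d, hc, hd, hcd, hx⟩ := exists_comb hr
  have hoff : OffDiag (eulerForm h.k3) R := by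
    rintro _ ⟨S₁, hS₁, rfl⟩ _ ⟨T, hT, rfl⟩ hne
    have h1 := (hF'.toAbSub.simple_form_le h.k3 (hJ'.stable S₁ hS₁) (hJ'.stable T hT)
      (fun ⟨e⟩ => hne (cls_iso e))).1
    rw [h1]
    have : (0 : ℤ) ≤ (Module.finrank ℂ (S₁ ⟶ T⟦(1 : ℤ)⟧) : ℤ) := by positivity
    linarith
  obtain ⟨hrc, hrd⟩ := comb_mem_radical hoff h.psd' hc hd hcd (by rw [← hx]; exact hDr _)
  have key : ∀ e : K0 C →₀ ℕ, (∀ v ∈ e.support, v ∈ R) → comb e ∈ radical (eulerForm h.k3) →
      e ≠ 0 → HasRad h.k3 (Gen J') := by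
    intro e he her he0
    obtain ⟨E, hE, hEc⟩ := BLE_obj (G := J') he
    refine ⟨E, hE, ?_, ?_⟩
    · intro hz
      have h1 : σ'.re t (comb e) = 0 := by rw [← hEc, cls_of_isZero hz, map_zero]
      rw [comb_apply, Finsupp.sum, map_sum] at h1
      have h2 : 0 < ∑ v ∈ e.support, σ'.re t (e v • v) := by
        refine Finset.sum_pos ?_ (Finsupp.support_nonempty_iff.2 he0)
        intro v hv
        obtain ⟨H, hH, rfl⟩ := he v hv
        have h3 := hF'.pos H (hJ'.stable H hH).1 (hJ'.stable H hH).2.1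
        rw [map_nsmul, nsmul_eq_mul]
        refine mul_pos ?_ h3
        exact_mod_cast Nat.pos_of_ne_zero (Finsupp.mem_support_iff.1 hv)
      exact h2.ne' h1
    · rw [hEc]; exact her
  by_cases hc0 : c = 0
  · refine key d hd hrd ?_
    intro hd0
    apply hr0
    rw [hx, hc0, hd0]; simp
  · exact key c hc hrc hc0

end Pool.Move
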