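import Pool.Agent.Work.MP_841263_mv.Interface

/-!
# Block BLL: the objects of phase `t` after lowering a simple object
-/

set_option autoImplicit false

open CategoryTheory CategoryTheory.Limits CategoryTheory.Pretriangulated
open scoped ZeroObject Topology
open Filter

namespace Pool.Move

open Pool.Stab Pool.Tube

universe v u

variable {C : Type u} [Category.{v} C] [Preadditive C] [HasZeroObject C] [HasShift C ℤ]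
  [∀ n : ℤ, (shiftFunctor C n).Additive] [Pretriangulated C] [IsTriangulated C] [Linear ℂ C]
  [∀ n : ℤ, (shiftFunctor C n).Linear ℂ]

omit [IsTriangulated C] [Linear ℂ C] [∀ n : ℤ, (shiftFunctor C n).Linear ℂ] in
/-- Objects generated by an object of phase `t + 1` have phase `t + 1`. -/
lemma BLL_gen (hSLI : Stmt_SLI C) (σ : StabCond C) (t : ℝ) {S : C} (hS : σ.sl.P (t + 1) S)
    {T : C} (hT : Gen (fun Y => Nonempty (Y ≅ S)) T) : σ.sl.P (t + 1) T := by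
  induction hT with
  | zero h => exact σ.sl.iso_mem _ (h.isoZero).symm (σ.sl.zero_mem _)
  | of h =>
    obtain ⟨e⟩ := h
    exact σ.sl.iso_mem _ e.symm hS
  | @ext X Y Z f g k hD _ _ h1 h2 =>
    exact ((hSLI σ t Y).2.2.2.2.2.2 X Z f g k hD).2.2.2 h1 h2

omit [IsTriangulated C] [Linear ℂ C] [∀ n : ℤ, (shiftFunctor C n).Linear ℂ] in
/-- The shift by `-1` of an object of phase `t + 1`. -/
lemma BLL_shift (σ : StabCond C) (t : ℝ) {X : C} (hX : σ.sl.P (t + 1) X) :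
    σ.sl.P t (X⟦(-1 : ℤ)⟧) := by
  have h := Slicing.P_shift_neg_one (t + 1) X hX
  have e : t + 1 - 1 = t := by ring
  rw [e] at h
  exact h

omit [IsTriangulated C] [Linear ℂ C] [∀ n : ℤ, (shiftFunctor C n).Linear ℂ] in
/-- The shift by `-1` of a triangle with middle term `V[1]`. -/
lemma BLL_tri {V V₁ T : C} {a : V₁ ⟶ V⟦(1 : ℤ)⟧} {b : V⟦(1 : ℤ)⟧ ⟶ T} {c : T ⟶ V₁⟦(1 : ℤ)⟧}
    (hT : Triangle.mk a b c ∈ distTriang C) :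
    ∃ (i : V₁⟦(-1 : ℤ)⟧ ⟶ V) (g : V ⟶ T⟦(-1 : ℤ)⟧) (d : T⟦(-1 : ℤ)⟧ ⟶ (V₁⟦(-1 : ℤ)⟧)⟦(1 : ℤ)⟧),
      Triangle.mk i g d ∈ distTriang C := by
  have e : (V⟦(1 : ℤ)⟧)⟦(-1 : ℤ)⟧ ≅ V := (shiftFunctorCompIsoId C (1 : ℤ) (-1) (by simp)).app V
  have h := Triangle.shift_distinguished _ hT (-1 : ℤ)
  exact ⟨_, _, _, tri_mid_iso h e⟩

/-- Block BLL. -/
theorem p_BLL : Stmt_SLI C → Stmt_ADT C → Stmt_LII C → Stmt_SIN C → Stmt_SAL C → Stmt_LOW C →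
    Stmt_BLL C := by
  intro hSLI hADT hLII hSIN hSAL hLOW h σ₀ σ₁ t A S hTurn X
  have him0 : ∀ {Y : C}, σ₀.sl.P (t + 1) Y → σ₀.im t (cls Y) = 0 := fun hY => σ₀.im_of_P hY
  obtain ⟨hAS, hS0, hS1⟩ := hSIN h σ₀ σ₁ t A S hTurn
  constructor
  · intro hX
    have hXin : σ₁.sl.In (Set.Ico t (t + 1)) X :=
      Slicing.in_of_P hX ⟨le_refl t, by linarith⟩
    obtain ⟨F₁, V, f₁, g₁, k₁, hT₁, hAF, hF₁in, hV, hVA⟩ := hTurn.adj₁.cutL X hXin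
    have hF₁im : σ₁.im t (cls F₁) = 0 := by
      have h1 := (hSLI σ₁ t X).2.2.2.2.1 hX
      have h2 := (hSLI σ₁ t V).2.2.2.2.1 hV
      rw [cls_mk hT₁, map_add, h2, add_zero] at h1
      exact h1
    have hF₁1 : σ₁.sl.P t F₁ := (hSLI σ₁ t F₁).2.2.2.1 hF₁in hF₁im
    have hF₁0 : σ₀.sl.P t F₁ := (hLII h σ₀ σ₁ t A S hTurn F₁ hAF).2 hF₁1
    obtain ⟨V₁, T, a, b, hS, hV₁, hTin⟩ := (hADT σ₀ t A hTurn.adj₀).1 _ hVA
    have hV1 : σ₁.sl.P (t + 1) (V⟦(1 : ℤ)⟧) := (σ₁.sl.shift_mem t V).1 hV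
    have hV₁1 : σ₁.sl.P (t + 1) V₁ := (hLII h σ₀ σ₁ t A S hTurn V₁ hS.1).1 hV₁
    have hTim : σ₀.im t (cls T) = 0 := by
      have h1 := σ₁.im_of_P hV1
      have h2 := him0 hV₁
      rw [hTurn.im, hS.cls_eq, map_add, h2, zero_add] at h1
      exact h1
    have hT0 : σ₀.sl.P t T := (hSLI σ₀ t T).2.2.2.1 hTin hTim
    have hT1 : σ₁.sl.P (t + 1) T := ((hADT σ₁ t A hTurn.adj₁).2.2 V₁ _ T a b hS).2.1 hV1
    have hgen : Gen (fun Y => Nonempty (Y ≅ S)) T := hSAL h σ₀ σ₁ t A S hTurn T hT0 hT1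
    obtain ⟨-, -, -, c, hTS⟩ := hS
    obtain ⟨i₂, g₂, d₂, hT₂⟩ := BLL_tri hTS
    obtain ⟨F, i₃, d₃, hT₃⟩ := distinguished_cocone_triangle₁ (g₁ ≫ g₂)
    obtain ⟨m, n, r, hmn, -⟩ := exists_octa_cocone hT₁ hT₂ hT₃
    have hF0 : σ₀.sl.P t F :=
      ((hSLI σ₀ t F).2.2.2.2.2.2 _ _ m n r hmn).2.2.1 hF₁0 (BLL_shift σ₀ t hV₁)
    have hF1 : σ₁.sl.P t F :=
      ((hSLI σ₁ t F).2.2.2.2.2.2 _ _ m n r hmn).2.2.1 hF₁1 (BLL_shift σ₁ t hV₁1)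
    exact ⟨F, T, i₃, g₁ ≫ g₂, d₃, hT₃, hF0,
      fun a => σ₁.sl.hom_zero (by linarith : t < t + 1) hS1 hF1 a, hgen⟩
  · rintro ⟨F, T, f, g, k, hT, hF, hSF, hgen⟩
    have hFin : σ₁.sl.In (Set.Ico t (t + 1)) F :=
      hLOW h σ₀ σ₁ t A S hTurn F (Slicing.in_of_P hF ⟨le_refl t, by linarith⟩) hSF
    have hFim : σ₁.im t (cls F) = 0 := by
      rw [hTurn.im]
      exact (hSLI σ₀ t F).2.2.2.2.1 hF
    have hF1 : σ₁.sl.P t F := (hSLI σ₁ t F).2.2.2.1 hFin hFim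
    have hT1 : σ₁.sl.P t (T⟦(-1 : ℤ)⟧) := BLL_shift σ₁ t (BLL_gen hSLI σ₁ t hS1 hgen)
    exact ((hSLI σ₁ t X).2.2.2.2.2.2 F _ f g k hT).2.2.1 hF1 hT1

end Pool.Move
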