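import Mathlib
import Pool.Agent.Work.MP_841263_mv.Interface
import Pool.Agent.Work.MP_841263_r3.Block

/-!
# Block BLO: the block version of lowering a simple object
-/

set_option backward.isDefEq.respectTransparency false
set_option backward.defeqAttrib.useBackward true
set_option linter.unusedSectionVars false

open CategoryTheory CategoryTheory.Limits CategoryTheory.Pretriangulated
open scoped ZeroObject Topology
open Filter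

namespace Pool.Move

open Pool.Stab Pool.Tube

universe v u

section BLO

variable {C : Type u} [Category.{v} C] [Preadditive C] [HasZeroObject C] [HasShift C ℤ]
  [∀ n : ℤ, (shiftFunctor C n).Additive] [Pretriangulated C] [IsTriangulated C] [Linear ℂ C]
  [∀ n : ℤ, (shiftFunctor C n).Linear ℂ]

/-! ### General lemmas -/

lemma BLO_orth_symm (hK : IsK3 C) {X Y : C} (h : Orth X Y) : Orth Y X := by
  intro n
  refine forall_zero_of_finrank hK ?_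
  rw [finrank_duality hK]
  exact finrank_of_forall_zero (h _)

lemma BLO_orth_iso_left {X X' Y : C} (h : Orth X Y) (e : X ≅ X') : Orth X' Y := by
  intro n f
  have h1 := h n (e.hom ≫ f)
  rw [← cancel_epi e.hom, h1, CategoryTheory.Limits.comp_zero]

lemma BLO_spherical_iso {X Y : C} (h : Spherical X) (e : X ≅ Y) : Spherical Y := by
  refine ⟨?_, ?_⟩
  · rw [← h.1]
    exact (LinearEquiv.finrank_eq (Linear.homCongr ℂ e e)).symm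
  · intro n h0 h2 f
    have h3 := h.2 n h0 h2 (e.hom ≫ f ≫ e.inv⟦n⟧')
    rw [← cancel_epi e.hom, ← cancel_mono (e.inv⟦n⟧'), Category.assoc, h3]
    simp

lemma BLO_mono_simple {A : C → Prop} (hA : AbSub A) {S X : C} (hS : SimpleIn A S) (hX : A X)
    (f : S ⟶ X) (hf : f ≠ 0) : ∃ (Q : C) (q : X ⟶ Q), SES A f q := by
  refine hA.exists_of_mono hS.1 hX f ?_
  intro W hW a ha
  obtain ⟨K, I, Q, k, p, i, q, h1, h2, hpi⟩ := hA.kiq hS.1 hX f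
  have hI0 : ¬ IsZero I := by
    intro h
    apply hf
    rw [← hpi, h.eq_of_tgt p 0, zero_comp]
  have hK0 : IsZero K := ((simpleIn_iff.1 hS).2.2 _ _ _ _ h1).resolve_right hI0
  have h3 : a ≫ p = 0 := h2.mono hA hW _ (by rw [Category.assoc, hpi, ha])
  obtain ⟨b, hb⟩ := h1.lift a h3
  rw [← hb, hK0.eq_of_tgt b 0, zero_comp]

lemma BLO_torsion {A : C → Prop} {im : K0 C →+ ℝ} (hF : FinCat A im) {S : C}
    (hS : SimpleIn A S) : ∀ E, A E → ∃ (T F : C) (f : T ⟶ E) (g : E ⟶ F), SES A f g ∧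
      Gen (fun Y => Nonempty (Y ≅ S)) T ∧ ∀ a : S ⟶ F, a = 0 := by
  refine hF.induction ?_
  intro E hE _ h2
  by_cases h0 : ∀ a : S ⟶ E, a = 0
  · exact ⟨0, E, 0, 𝟙 E, hF.ses_zero hE, Gen.zero (isZero_zero C), h0⟩
  · push Not at h0
    obtain ⟨a, ha⟩ := h0
    obtain ⟨Q, q, hq⟩ := BLO_mono_simple hF.toAbSub hS hE a ha
    obtain ⟨T, F, f, g, hfg, hT, hSF⟩ := h2 _ _ _ _ hq hS.2.1
    obtain ⟨G, i, m, n, h3, h4⟩ := hq.comp' hF.toAbSub hfg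
    refine ⟨G, F, i, q ≫ g, h3, ?_, hSF⟩
    obtain ⟨-, -, -, d, hTr⟩ := h4
    exact Gen.ext hTr (Gen.of ⟨Iso.refl _⟩) hT

/-- Shifts of the objects in a class. -/
def BLO_Sh (P : C → Prop) (Z : C) : Prop := ∃ (S : C) (m : ℤ), P S ∧ Nonempty (Z ≅ S⟦m⟧)

lemma BLO_sh_shift (P : C → Prop) (Z : C) (n : ℤ) (hZ : BLO_Sh P Z) : BLO_Sh P (Z⟦n⟧) := by
  obtain ⟨S, m, hS, ⟨e⟩⟩ := hZ
  exact ⟨S, m + n, hS, ⟨(shiftFunctor C n).mapIso e ≪≫ ((shiftFunctorAdd C m n).app S).symm⟩⟩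

lemma BLO_sh_of {P : C → Prop} {Z : C} (hZ : P Z) : BLO_Sh P Z :=
  ⟨Z, 0, hZ, ⟨((shiftFunctorZero C ℤ).app Z).symm⟩⟩

lemma BLO_gen_sh {P : C → Prop} {Z : C} (hZ : Gen P Z) : Gen (BLO_Sh P) Z :=
  hZ.mono (fun _ hX => BLO_sh_of hX)

lemma BLO_gen_shift {P : C → Prop} {Z : C} (hZ : Gen (BLO_Sh P) Z) (n : ℤ) :
    Gen (BLO_Sh P) (Z⟦n⟧) := hZ.shift (BLO_sh_shift P) n

lemma BLO_orth_sh {P₁ P₂ : C → Prop} (h : ∀ Y Z, P₁ Y → P₂ Z → Orth Y Z) {X Y : C}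
    (hX : Gen (BLO_Sh P₁) X) (hY : Gen (BLO_Sh P₂) Y) : Orth X Y := by
  refine Orth.of_gen hY ?_
  rintro Z ⟨T, n, hT, ⟨e'⟩⟩
  intro k
  refine Gen.hom_zero (G := BLO_Sh P₁) (G' := fun W => Nonempty (W ≅ Z⟦k⟧)) ?_ hX
    (Gen.of ⟨Iso.refl _⟩)
  rintro X W ⟨S, m, hS, ⟨e⟩⟩ ⟨e''⟩ f
  have e3 : (T⟦n⟧)⟦k⟧ ≅ T⟦n + k⟧ := ((shiftFunctorAdd' C n k (n + k) rfl).app T).symm
  have h1 := orth_shift (h S T hS hT) m (n + k)
    (e.inv ≫ f ≫ e''.hom ≫ e'.hom⟦k⟧' ≫ e3.hom)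
  have h2 : f ≫ (e''.hom ≫ e'.hom⟦k⟧' ≫ e3.hom) = 0 := by
    rw [← cancel_epi e.inv, h1, CategoryTheory.Limits.comp_zero]
  rw [← cancel_mono (e''.hom ≫ e'.hom⟦k⟧' ≫ e3.hom), h2, zero_comp]

lemma BLO_hom_orth {X Y : C} (h : Orth X Y) (f : X ⟶ Y) : f = 0 := by
  have h1 := h 0 (f ≫ ((shiftFunctorZero C ℤ).app Y).inv)
  rw [← cancel_mono ((shiftFunctorZero C ℤ).app Y).inv, h1, zero_comp]

/-- The form vanishes on orthogonal objects. -/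
lemma BLO_form_orth (hK : IsK3 C) {X Y : C} (h : Orth X Y) :
    eulerForm hK (cls X) (cls Y) = 0 := by
  rw [eulerForm_cls, Pool.Stab.eulerChar]
  refine finsum_eq_zero_of_forall_eq_zero ?_
  intro n
  rw [finrank_of_forall_zero (h n)]
  simp

/-- Splitting of an object generated by shifts of the objects of two orthogonal classes. -/
lemma BLO_split {P₁ P₂ : C → Prop} (h12 : ∀ Y Z, P₁ Y → P₂ Z → Orth Y Z)
    (h21 : ∀ Y Z, P₁ Y → P₂ Z → Orth Z Y) {X : C}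
    (hX : Gen (fun Z => BLO_Sh P₁ Z ∨ BLO_Sh P₂ Z) X) :
    ∃ X₁ X₂ : C, Gen (BLO_Sh P₁) X₁ ∧ Gen (BLO_Sh P₂) X₂ ∧ Nonempty (X ≅ X₁ ⊞ X₂) := by
  refine exists_biprod_of_gen (G := BLO_Sh P₁) (G' := BLO_Sh P₂) (BLO_sh_shift P₁)
    (BLO_sh_shift P₂) ?_ ?_ hX
  · intro X Y hX hY f
    exact BLO_hom_orth (BLO_orth_sh h12 (Gen.of hX) (Gen.of hY)) f
  · intro X Y hX hY f
    exact BLO_hom_orth (BLO_orth_sh (fun Y Z hY hZ => h21 Z Y hZ hY) (Gen.of hY) (Gen.of hX)) f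

/-- A direct sum decomposition of a simple object is trivial. -/
lemma BLO_indec {A : C → Prop} (hA : AbSub A) {X X₁ X₂ : C} (hX : SimpleIn A X)
    (e : X ≅ X₁ ⊞ X₂) : (IsZero X₁ ∧ Nonempty (X ≅ X₂)) ∨ (IsZero X₂ ∧ Nonempty (X ≅ X₁)) := by
  have h1 : A X₁ := Pool.Blk.retract_mem hA hX.1 (biprod.inl ≫ e.inv)
    (e.hom ≫ biprod.fst) (by simp)
  have h2 : A X₂ := Pool.Blk.retract_mem hA hX.1 (biprod.inr ≫ e.inv)
    (e.hom ≫ biprod.snd) (by simp)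
  have hT := tri_mid_iso (binaryBiproductTriangle_distinguished X₁ X₂) e.symm
  rcases hX.2.2 _ _ _ _ _ hT h1 h2 with h0 | h0
  · left
    exact ⟨h0, ⟨@asIso _ _ _ _ _ (iso_of_isZero₁ hT h0)⟩⟩
  · right
    exact ⟨h0, ⟨(@asIso _ _ _ _ _ (iso_of_isZero₃ hT h0)).symm⟩⟩

lemma BLO_stable_shift {σ : StabCond C} {t : ℝ} {S : C} (hS : σ.Stable (t + 1) S) :
    σ.Stable t (S⟦(-1 : ℤ)⟧) := by
  have hP : σ.sl.P t (S⟦(-1 : ℤ)⟧) := by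
    have h1 := Slicing.P_shift_neg_one (S := σ.sl) (t + 1) S hS.1
    have h2 : t + 1 - 1 = t := by ring
    rwa [h2] at h1
  refine ⟨hP, fun h => hS.2.1 ((isZero_shift_iff _ _).1 h), ?_⟩
  intro Y Z f g d hT hY hZ
  have e : (S⟦(-1 : ℤ)⟧)⟦(1 : ℤ)⟧ ≅ S :=
    ((shiftFunctorAdd' C (-1) 1 0 (by norm_num)).app S).symm ≪≫ (shiftFunctorZero C ℤ).app S
  have hTs := Triangle.shift_distinguished _ hT (1 : ℤ)
  have h1 := hS.2.2 _ _ _ _ _ (tri_mid_iso hTs e) ((σ.sl.shift_mem _ _).1 hY)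
    ((σ.sl.shift_mem _ _).1 hZ)
  rcases h1 with h1 | h1
  · exact Or.inl ((isZero_shift_iff _ _).1 h1)
  · exact Or.inr ((isZero_shift_iff _ _).1 h1)

/-! ### The situation of the block -/

/-- The data of the lowering at `S`. -/
structure BLO_D (h : EllipticSetting C) (σ σ' : StabCond C) (t : ℝ) (J : C → Prop) (S : C) :
    Prop where
  blk : Blk h.k3 σ t J
  mem : J S
  st' : σ'.Stable t (S⟦(-1 : ℤ)⟧)
  desc : ∀ X, σ'.sl.P t X ↔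
      ∃ (F T : C) (f : F ⟶ X) (g : X ⟶ T⟦(-1 : ℤ)⟧) (k : T⟦(-1 : ℤ)⟧ ⟶ F⟦(1 : ℤ)⟧),
        Triangle.mk f g k ∈ distTriang C ∧ σ.sl.P t F ∧ (∀ a : S ⟶ F, a = 0) ∧
        Gen (fun Y => Nonempty (Y ≅ S)) T
  gzs : ∀ X : C, Gen (fun Y => Nonempty (Y ≅ S)) X →
    ((∀ f : S ⟶ X, f = 0) ∨ (∀ f : X ⟶ S, f = 0)) → IsZero X
  bdc : ∀ X, Gen J X ↔ σ.sl.P t X ∧ ∀ U, σ.Stable t U → ¬ J U → Orth U X

/-- The new block. -/
def BLO_J (σ σ' : StabCond C) (t : ℝ) (J : C → Prop) (Y : C) : Prop :=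
  σ'.Stable t Y ∧ ∀ U, σ.Stable t U → ¬ J U → Orth U Y

/-- The stable objects outside of the block. -/
def BLO_N (σ : StabCond C) (t : ℝ) (J : C → Prop) (U : C) : Prop := σ.Stable t U ∧ ¬ J U

section Data

variable {h : EllipticSetting C} {σ σ' : StabCond C} {t : ℝ} {J : C → Prop} {S : C}

lemma BLO_T_J (D : BLO_D h σ σ' t J S) {T : C} (hT : Gen (fun Y => Nonempty (Y ≅ S)) T) :
    Gen J T := by
  refine hT.mono ?_
  rintro X ⟨e⟩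
  exact D.blk.iso _ _ e.symm D.mem

lemma BLO_J_P (D : BLO_D h σ σ' t J S) {T : C} (hT : Gen J T) : σ.sl.P t T :=
  (Pool.Blk.finCat_P h σ t).toAbSub.gen_mem (fun X hX => D.blk.stable X hX) hT

lemma BLO_T_P (D : BLO_D h σ σ' t J S) {T : C} (hT : Gen (fun Y => Nonempty (Y ≅ S)) T) :
    σ.sl.P t T := BLO_J_P D (BLO_T_J D hT)

lemma BLO_mem' (D : BLO_D h σ σ' t J S) {F : C} (hF : σ.sl.P t F) (h0 : ∀ a : S ⟶ F, a = 0) :
    σ'.sl.P t F := by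
  rw [D.desc]
  have h1 : IsZero ((0 : C)⟦(-1 : ℤ)⟧) := (isZero_shift_iff _ _).2 (isZero_zero C)
  exact ⟨F, 0, 𝟙 F, _, _, tri_last_iso (contractible_distinguished F) h1.isoZero.symm, hF, h0,
    Gen.zero (isZero_zero C)⟩

lemma BLO_tzero (D : BLO_D h σ σ' t J S) {X F T : C} {f : F ⟶ X} {g : X ⟶ T⟦(-1 : ℤ)⟧}
    {k : T⟦(-1 : ℤ)⟧ ⟶ F⟦(1 : ℤ)⟧} (hT : Triangle.mk f g k ∈ distTriang C) (hF : σ.sl.P t F)
    (hT' : Gen (fun Y => Nonempty (Y ≅ S)) T) (hg : g = 0) : IsZero T ∧ Nonempty (F ≅ X) := by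
  have hP := BLO_T_P D hT'
  obtain ⟨r, hr⟩ := Triangle.yoneda_exact₂ _ (rot_mk hT) (𝟙 (T⟦(-1 : ℤ)⟧))
    (by show g ≫ 𝟙 _ = 0; rw [hg, zero_comp])
  have hr0 : r = 0 := hom_shift_zero (a := 1) (b := -1) (c := -2) (by norm_num)
    ((Pool.Blk.finCat_P h σ t).hom_neg hF hP (by norm_num)) r
  have h1 : IsZero (T⟦(-1 : ℤ)⟧) := by
    rw [IsZero.iff_id_eq_zero, hr, hr0, CategoryTheory.Limits.comp_zero]
  exact ⟨(isZero_shift_iff _ _).1 h1, ⟨@asIso _ _ _ _ _ (iso_of_isZero₃ hT h1)⟩⟩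

lemma BLO_NS (D : BLO_D h σ σ' t J S) {U T : C} (hU : σ.Stable t U) (hnU : ¬ J U)
    (hT : Gen J T) : Orth U T :=
  Orth.of_gen hT (fun Y hY => (D.blk.orth Y U hY hU hnU).2)

/-- The objects of `P'(t)` orthogonal to the other stable objects. -/
lemma BLO_desc' (D : BLO_D h σ σ' t J S) (X : C) :
    (σ'.sl.P t X ∧ ∀ U, σ.Stable t U → ¬ J U → Orth U X) ↔
      ∃ (F T : C) (f : F ⟶ X) (g : X ⟶ T⟦(-1 : ℤ)⟧) (k : T⟦(-1 : ℤ)⟧ ⟶ F⟦(1 : ℤ)⟧),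
        Triangle.mk f g k ∈ distTriang C ∧ Gen J F ∧ (∀ a : S ⟶ F, a = 0) ∧
        Gen (fun Y => Nonempty (Y ≅ S)) T := by
  constructor
  · rintro ⟨hX, h1⟩
    obtain ⟨F, T, f, g, k, hT, hF, h0, hT'⟩ := (D.desc X).1 hX
    refine ⟨F, T, f, g, k, hT, (D.bdc F).2 ⟨hF, fun U hU hnU => ?_⟩, h0, hT'⟩
    exact Orth.first hT (h1 U hU hnU) ((BLO_NS D hU hnU (BLO_T_J D hT')).shift _)
  · rintro ⟨F, T, f, g, k, hT, hF, h0, hT'⟩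
    have h2 := (D.bdc F).1 hF
    refine ⟨(D.desc X).2 ⟨F, T, f, g, k, hT, h2.1, h0, hT'⟩, fun U hU hnU => ?_⟩
    exact Orth.ext hT (h2.2 U hU hnU) ((BLO_NS D hU hnU (BLO_T_J D hT')).shift _)

/-- Splitting of the objects of `P'(t)`. -/
lemma BLO_split' (D : BLO_D h σ σ' t J S) {X : C} (hX : σ'.sl.P t X) :
    ∃ X₁ X₂ : C, (σ'.sl.P t X₁ ∧ ∀ U, σ.Stable t U → ¬ J U → Orth U X₁) ∧
      Gen (BLO_N σ t J) X₂ ∧ Nonempty (X ≅ X₁ ⊞ X₂) := by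
  have hfc := Pool.Blk.finCat_P h σ t
  have hfc' := Pool.Blk.finCat_P h σ' t
  obtain ⟨F, T, f, g, k, hT, hF, h0, hT'⟩ := (D.desc X).1 hX
  have h1 : Gen (fun Z => BLO_Sh J Z ∨ BLO_Sh (BLO_N σ t J) Z) X := by
    refine Gen.ext hT ((hfc.gen_simple F hF).mono ?_)
      ((BLO_gen_shift (BLO_gen_sh (BLO_T_J D hT')) (-1)).mono (fun _ hZ => Or.inl hZ))
    intro Z hZ
    by_cases hJZ : J Z
    · exact Or.inl (BLO_sh_of hJZ)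
    · exact Or.inr (BLO_sh_of ⟨hZ, hJZ⟩)
  obtain ⟨X₁, X₂, hX₁, hX₂, ⟨e⟩⟩ := BLO_split
    (fun Y Z hY hZ => (D.blk.orth Y Z hY hZ.1 hZ.2).1)
    (fun Y Z hY hZ => (D.blk.orth Y Z hY hZ.1 hZ.2).2) h1
  have hP1 : σ'.sl.P t X₁ := Pool.Blk.retract_mem hfc'.toAbSub hX (biprod.inl ≫ e.inv)
    (e.hom ≫ biprod.fst) (by simp)
  have hP2 : σ'.sl.P t X₂ := Pool.Blk.retract_mem hfc'.toAbSub hX (biprod.inr ≫ e.inv)
    (e.hom ≫ biprod.snd) (by simp)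
  have o1 : ∀ U, σ.Stable t U → ¬ J U → Orth U X₁ := by
    intro U hU hnU
    exact BLO_orth_sh (P₁ := BLO_N σ t J) (P₂ := J)
      (fun Y Z hY hZ => (D.blk.orth Z Y hZ hY.1 hY.2).2) (Gen.of (BLO_sh_of ⟨hU, hnU⟩)) hX₁
  have o2 : ∀ Z, Gen J Z → Orth X₂ Z := by
    intro Z hZ
    exact BLO_orth_sh (P₁ := BLO_N σ t J) (P₂ := J)
      (fun Y Z hY hZ => (D.blk.orth Z Y hZ hY.1 hY.2).2) hX₂ (BLO_gen_sh hZ)
  refine ⟨X₁, X₂, ⟨hP1, o1⟩, ?_, ⟨e⟩⟩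
  obtain ⟨F', T', f', g', k', hTr, hF', h0', hT''⟩ := (D.desc X₂).1 hP2
  have hg : g' = 0 := o2 T' (BLO_T_J D hT'') (-1) g'
  obtain ⟨-, ⟨e'⟩⟩ := BLO_tzero D hTr hF' hT'' hg
  have hX2P : σ.sl.P t X₂ := σ.sl.iso_mem t e' hF'
  exact Pool.Blk.gen_of_hom_zero h (R := J) (fun Y hY => D.blk.stable Y hY)
    (fun Y Z hY hZ hnZ => D.blk.orth Y Z hY hZ hnZ) hX2P
    (fun Y hY a => BLO_hom_orth (o2 Y (Gen.of hY)) a)

/-- A stable object of `P'(t)` is in the new block or generated by the other stable objects. -/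
lemma BLO_dich (D : BLO_D h σ σ' t J S) {Y : C} (hY : σ'.Stable t Y) :
    BLO_J σ σ' t J Y ∨ Gen (BLO_N σ t J) Y := by
  obtain ⟨X₁, X₂, ⟨-, h1⟩, h2, ⟨e⟩⟩ := BLO_split' D hY.1
  rcases BLO_indec (Pool.Blk.finCat_P h σ' t).toAbSub hY e with ⟨-, ⟨e'⟩⟩ | ⟨-, ⟨e'⟩⟩
  · exact Or.inr (h2.iso e'.symm)
  · exact Or.inl ⟨hY, fun U hU hnU => (h1 U hU hnU).iso e'.symm⟩

lemma BLO_orth_N {X Y : C} (hX : Gen (BLO_N σ t J) X)
    (hY : ∀ U, σ.Stable t U → ¬ J U → Orth U Y) (hK : IsK3 C) : Orth X Y ∧ Orth Y X := by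
  have h1 : Orth Y X := Orth.of_gen hX (fun U hU => BLO_orth_symm hK (hY U hU.1 hU.2))
  exact ⟨BLO_orth_symm hK h1, h1⟩

lemma BLO_orth' (D : BLO_D h σ σ' t J S) {Y U : C} (hY : BLO_J σ σ' t J Y)
    (hU : σ'.Stable t U) (hnU : ¬ BLO_J σ σ' t J U) : Orth Y U ∧ Orth U Y := by
  have h1 := (BLO_dich D hU).resolve_left hnU
  exact (BLO_orth_N h1 hY.2 h.k3).symm

lemma BLO_gen' (D : BLO_D h σ σ' t J S) (X : C) : Gen (BLO_J σ σ' t J) X ↔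
    (σ'.sl.P t X ∧ ∀ U, σ.Stable t U → ¬ J U → Orth U X) := by
  constructor
  · intro hX
    refine ⟨(Pool.Blk.finCat_P h σ' t).toAbSub.gen_mem (fun Y hY => hY.1) hX, ?_⟩
    intro U hU hnU
    exact Orth.of_gen hX (fun Y hY => hY.2 U hU hnU)
  · rintro ⟨hX, h1⟩
    have h2 := Pool.Blk.gen_of_hom_zero h (σ := σ') (φ := t)
      (R := fun Y => σ'.Stable t Y ∧ ¬ BLO_J σ σ' t J Y) (fun Y hY => hY.1) (by
        intro Y Z hY hZ hnZ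
        have hJZ : BLO_J σ σ' t J Z := by
          by_contra hc
          exact hnZ ⟨hZ, hc⟩
        exact (BLO_orth' D hJZ hY.1 hY.2).symm) hX (by
        intro Y hY a
        have h3 := (BLO_dich D hY.1).resolve_left hY.2
        exact BLO_hom_orth (BLO_orth_N h3 h1 h.k3).2 a)
    refine h2.mono ?_
    rintro Z ⟨hZ, hnZ⟩
    by_contra hc
    exact hnZ ⟨hZ, hc⟩

lemma BLO_S_mem (D : BLO_D h σ σ' t J S) : BLO_J σ σ' t J (S⟦(-1 : ℤ)⟧) :=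
  ⟨D.st', fun _ hU hnU => (BLO_NS D hU hnU (Gen.of D.mem)).shift _⟩

lemma BLO_sph (D : BLO_D h σ σ' t J S) {Y : C} (hY : BLO_J σ σ' t J Y) : Spherical Y := by
  have hfinK : Module.Finite ℤ (K0 C) := h.finite
  have hfreeK : Module.Free ℤ (K0 C) := h.free
  have hfc := Pool.Blk.finCat_P h σ t
  have hfc' := Pool.Blk.finCat_P h σ' t
  have hSs := D.blk.stable S D.mem
  by_cases hiso : Nonempty (Y ≅ S⟦(-1 : ℤ)⟧)
  · obtain ⟨e⟩ := hiso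
    exact BLO_spherical_iso ((D.blk.sph S D.mem).shift (-1)) e.symm
  obtain ⟨hform, hom1, -⟩ := hfc'.toAbSub.simple_form_le h.k3 hY.1 D.st' hiso
  obtain ⟨F, T, f, g, k, hT, hF, h0, hT'⟩ := (D.desc Y).1 hY.1.1
  have hg : g = 0 := by
    have hTs : Gen (fun Z => Nonempty (Z ≅ S⟦(-1 : ℤ)⟧)) (T⟦(-1 : ℤ)⟧) :=
      hT'.shift' (-1) (fun Z hZ => by
        obtain ⟨e⟩ := hZ
        exact ⟨(shiftFunctor C (-1 : ℤ)).mapIso e⟩)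
    refine Gen.hom_zero (G := fun Z => Nonempty (Z ≅ Y)) ?_ (Gen.of ⟨Iso.refl _⟩) hTs g
    rintro X Z ⟨e⟩ ⟨e'⟩ a
    have h1 := hom1 (e.inv ≫ a ≫ e'.hom)
    rw [← cancel_epi e.inv, ← cancel_mono e'.hom, Category.assoc, h1]
    simp
  obtain ⟨-, ⟨eF⟩⟩ := BLO_tzero D hT hF hT' hg
  have hYP : σ.sl.P t Y := σ.sl.iso_mem t eF hF
  have hSY : ∀ a : S ⟶ Y, a = 0 := by
    intro a
    have h1 := h0 (a ≫ eF.inv)
    rw [← cancel_mono eF.inv, h1, zero_comp]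
  have h2 : eulerForm h.k3 (cls Y) (cls Y) = 2 ∨ cls Y ∈ radical (eulerForm h.k3) := by
    have h1 := hfc'.toAbSub.self_le' h.k3 hY.1
    obtain ⟨m, hm⟩ := h.even (cls Y)
    have h3 := h.psd (cls Y)
    by_cases h4 : eulerForm h.k3 (cls Y) (cls Y) = 0
    · exact Or.inr (h.psd'.mem_radical_of_self h4)
    · left
      omega
  rcases h2 with h2 | hrad
  · have h5 := hfc'.toAbSub.self_le h.k3 hY.1
    have hr : Rigid Y := by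
      intro a
      exact forall_zero_of_finrank h.k3 (by omega) a
    exact spherical_of_rigid hfc'.toAbSub h.k3 hY.1.1 hr h2
  exfalso
  have hYS : ∀ a : Y ⟶ S, a = 0 := by
    have h1 : eulerForm h.k3 (cls Y) (cls (S⟦(-1 : ℤ)⟧)) = 0 := (mem_radical.1 hrad) _
    rw [h1] at hform
    have e : (S⟦(-1 : ℤ)⟧)⟦(1 : ℤ)⟧ ≅ S :=
      ((shiftFunctorAdd' C (-1) 1 0 (by norm_num)).app S).symm ≪≫
        (shiftFunctorZero C ℤ).app S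
    intro a
    have h3 := forall_zero_of_finrank h.k3 (show Module.finrank ℂ
      (Y ⟶ (S⟦(-1 : ℤ)⟧)⟦(1 : ℤ)⟧) = 0 by omega) (a ≫ e.inv)
    rw [← cancel_mono e.inv, h3, zero_comp]
  -- a simple subobject
  obtain ⟨S₁, Q, s, q, hsq, hS₁⟩ := hfc.exists_simple_sub Y hYP hY.1.2.1
  have hs0 : s ≠ 0 := by
    intro hs
    exact hS₁.2.1 (isZero_of_SES_left hfc.toAbSub hsq hs)
  have hJS₁ : J S₁ := by
    by_contra hc
    exact hs0 (BLO_hom_orth (hY.2 S₁ hS₁ hc) s)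
  obtain ⟨T₂, B, a, b, hab, hT₂, hSB⟩ := BLO_torsion hfc hSs Q hsq.2.2.1
  obtain ⟨S₂, i, m, n, h3, h4⟩ := hsq.comp' hfc.toAbSub hab
  have hSS₂ : ∀ c : S ⟶ S₂, c = 0 := fun c => h3.mono hfc.toAbSub hSs.1 c (hSY _)
  have hS₂' : σ'.sl.P t S₂ := BLO_mem' D h3.1 hSS₂
  have hB' : σ'.sl.P t B := BLO_mem' D h3.2.2.1 hSB
  have hS₂0 : ¬ IsZero S₂ := by
    intro hc
    exact hS₁.2.1 (isZero_of_SES_left hfc.toAbSub h4 (hc.eq_of_tgt _ _))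
  obtain ⟨-, -, -, d, hTd⟩ := h3
  have hB0 : IsZero B := (hY.1.2.2 _ _ _ _ _ hTd hS₂' hB').resolve_left hS₂0
  have hQ : Gen (fun Z => Nonempty (Z ≅ S)) Q := by
    obtain ⟨-, -, -, d', hTd'⟩ := hab
    exact hT₂.iso (@asIso _ _ _ _ _ (iso_of_isZero₃ hTd' hB0))
  have hQ0 : IsZero Q := by
    refine D.gzs Q hQ (Or.inr fun c => ?_)
    exact hsq.epi hfc.toAbSub hSs.1 c (hYS _)
  have hc : cls Y = cls S₁ := by
    rw [hsq.cls_eq, cls_of_isZero hQ0, add_zero]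
  have h5 := hfc.toAbSub.self_le h.k3 hS₁
  rw [finrank_of_forall_zero ((D.blk.sph S₁ hJS₁).2 1 (by norm_num) (by norm_num)), ← hc,
    (mem_radical.1 hrad) (cls Y)] at h5
  norm_num at h5

/-- All objects of the old block are generated by shifts of the objects of the new one. -/
lemma BLO_old (D : BLO_D h σ σ' t J S) {S₁ : C} (hS₁ : J S₁) :
    Gen (BLO_Sh (BLO_J σ σ' t J)) S₁ := by
  have hfc := Pool.Blk.finCat_P h σ t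
  by_cases hiso : Nonempty (S ≅ S₁)
  · obtain ⟨e⟩ := hiso
    have e1 : (S⟦(-1 : ℤ)⟧)⟦(1 : ℤ)⟧ ≅ S :=
      ((shiftFunctorAdd' C (-1) 1 0 (by norm_num)).app S).symm ≪≫
        (shiftFunctorZero C ℤ).app S
    exact Gen.of ⟨S⟦(-1 : ℤ)⟧, 1, BLO_S_mem D, ⟨e.symm ≪≫ e1.symm⟩⟩
  · obtain ⟨-, h1, -⟩ := hfc.toAbSub.simple_form_le h.k3 (D.blk.stable S D.mem)
      (D.blk.stable S₁ hS₁) hiso
    refine BLO_gen_sh ((BLO_gen' D S₁).2 ⟨BLO_mem' D (D.blk.stable S₁ hS₁).1 h1, ?_⟩)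
    intro U hU hnU
    exact BLO_NS D hU hnU (Gen.of hS₁)

/-- The new block is generated by shifts of the objects of the old one. -/
lemma BLO_new (D : BLO_D h σ σ' t J S) {Y : C} (hY : BLO_J σ σ' t J Y) :
    Gen (BLO_Sh J) Y := by
  obtain ⟨F, T, f, g, k, hT, hF, -, hT'⟩ := (BLO_desc' D Y).1 ⟨hY.1.1, hY.2⟩
  exact Gen.ext hT (BLO_gen_sh hF) (BLO_gen_shift (BLO_gen_sh (BLO_T_J D hT')) (-1))

lemma BLO_side (D : BLO_D h σ σ' t J S) {P₁ P₂ : C → Prop}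
    (h2 : ∀ Y, P₂ Y → BLO_J σ σ' t J Y)
    (hcov : ∀ Y, BLO_J σ σ' t J Y → P₁ Y ∨ P₂ Y) (h12 : ∀ Y Z, P₁ Y → P₂ Z → Orth Y Z)
    (hS : Gen (BLO_Sh P₁) S) (Y : C) : ¬ P₂ Y := by
  intro hY
  have hfc := Pool.Blk.finCat_P h σ t
  have h21 : ∀ Y Z, P₁ Y → P₂ Z → Orth Z Y := fun Y Z hY hZ => BLO_orth_symm h.k3 (h12 Y Z hY hZ)
  -- every object of the old block is on one side
  have hside : ∀ S₁, J S₁ → Gen (BLO_Sh P₁) S₁ ∨ Gen (BLO_Sh P₂) S₁ := by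
    intro S₁ hS₁
    have h3 : Gen (fun Z => BLO_Sh P₁ Z ∨ BLO_Sh P₂ Z) S₁ := by
      refine (BLO_old D hS₁).mono ?_
      rintro Z ⟨W, m, hW, e⟩
      rcases hcov W hW with h4 | h4
      · exact Or.inl ⟨W, m, h4, e⟩
      · exact Or.inr ⟨W, m, h4, e⟩
    obtain ⟨X₁, X₂, hX₁, hX₂, ⟨e⟩⟩ := BLO_split h12 h21 h3
    rcases BLO_indec hfc.toAbSub (D.blk.stable S₁ hS₁) e with ⟨-, ⟨e'⟩⟩ | ⟨-, ⟨e'⟩⟩
    · exact Or.inr (hX₂.iso e'.symm)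
    · exact Or.inl (hX₁.iso e'.symm)
  have hform : ∀ X Z, Gen (BLO_Sh P₁) X → Gen (BLO_Sh P₂) Z →
      eulerForm h.k3 (cls X) (cls Z) = 0 :=
    fun X Z hX hZ => BLO_form_orth h.k3 (BLO_orth_sh h12 hX hZ)
  have hI := D.blk.conn {x | ∃ S₁, J S₁ ∧ cls S₁ = x ∧ Gen (BLO_Sh P₁) S₁} (by
    rintro x ⟨S₁, hS₁, hx, -⟩
    exact ⟨S₁, hS₁, hx⟩) ⟨cls S, S, D.mem, rfl, hS⟩ (by
    rintro a ⟨S₁, hS₁, rfl, hg⟩ b ⟨S₂, hS₂, rfl⟩ hb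
    refine hform S₁ S₂ hg ((hside S₂ hS₂).resolve_left ?_)
    intro hc
    exact hb ⟨S₂, hS₂, rfl, hc⟩)
  have hall : ∀ S₂, J S₂ → Gen (BLO_Sh P₁) S₂ := by
    intro S₂ hS₂
    refine (hside S₂ hS₂).resolve_right ?_
    intro hc
    have h3 : cls S₂ ∈ {x | ∃ S₁, J S₁ ∧ cls S₁ = x ∧ Gen (BLO_Sh P₁) S₁} := by
      rw [hI]
      exact ⟨S₂, hS₂, rfl⟩
    obtain ⟨S₁, hS₁, hx, hg⟩ := h3
    have h4 := hform S₁ S₂ hg hc
    have h5 := hfc.toAbSub.self_le h.k3 (D.blk.stable S₁ hS₁)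
    rw [finrank_of_forall_zero ((D.blk.sph S₁ hS₁).2 1 (by norm_num) (by norm_num))] at h5
    rw [← hx] at h4
    rw [h4] at h5
    norm_num at h5
  have hY1 : Gen (BLO_Sh P₁) Y := by
    have h3 : Gen (Gen (BLO_Sh P₁)) Y := by
      refine (BLO_new D (h2 Y hY)).mono ?_
      rintro Z ⟨W, m, hW, ⟨e⟩⟩
      exact (BLO_gen_shift (hall W hW) m).iso e.symm
    exact h3.trans
  exact not_orth_self (h2 Y hY).1.2.1 (BLO_orth_sh h12 hY1 (Gen.of (BLO_sh_of hY)))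

lemma BLO_conn (D : BLO_D h σ σ' t J S) :
    Conn (eulerForm h.k3) {x | ∃ Y, BLO_J σ σ' t J Y ∧ cls Y = x} := by
  intro I hI hne hcl
  refine Set.Subset.antisymm hI ?_
  by_contra hcon
  rw [Set.not_subset] at hcon
  obtain ⟨_, ⟨Yc, hYc, rfl⟩, hYcI⟩ := hcon
  obtain ⟨x, hx⟩ := hne
  obtain ⟨Yi, hYi, rfl⟩ := hI hx
  have horth : ∀ Y Z, (BLO_J σ σ' t J Y ∧ cls Y ∈ I) → (BLO_J σ σ' t J Z ∧ cls Z ∉ I) →
      Orth Y Z ∧ Orth Z Y := by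
    rintro Y Z ⟨hY, hYI⟩ ⟨hZ, hZI⟩
    have hni : ¬ Nonempty (Y ≅ Z) := by
      rintro ⟨e⟩
      exact hZI (by rw [← cls_iso e]; exact hYI)
    obtain ⟨h1, -, -⟩ := (Pool.Blk.finCat_P h σ' t).toAbSub.simple_form_le h.k3 hY.1 hZ.1 hni
    rw [hcl _ hYI _ ⟨Z, hZ, rfl⟩ hZI] at h1
    exact Pool.Blk.orth_of_stable h hY.1 hZ.1 hni
      (forall_zero_of_finrank h.k3 (by omega))
  have hcov : ∀ Y, BLO_J σ σ' t J Y → (BLO_J σ σ' t J Y ∧ cls Y ∈ I) ∨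
      (BLO_J σ σ' t J Y ∧ cls Y ∉ I) := by
    intro Y hY
    by_cases h1 : cls Y ∈ I
    · exact Or.inl ⟨hY, h1⟩
    · exact Or.inr ⟨hY, h1⟩
  have hSg : Gen (fun Z => BLO_Sh (fun Y => BLO_J σ σ' t J Y ∧ cls Y ∈ I) Z ∨
      BLO_Sh (fun Y => BLO_J σ σ' t J Y ∧ cls Y ∉ I) Z) S := by
    refine (BLO_old D D.mem).mono ?_
    rintro Z ⟨W, m, hW, e⟩
    rcases hcov W hW with h4 | h4
    · exact Or.inl ⟨W, m, h4, e⟩
    · exact Or.inr ⟨W, m, h4, e⟩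
  obtain ⟨X₁, X₂, hX₁, hX₂, ⟨e⟩⟩ := BLO_split (fun Y Z hY hZ => (horth Y Z hY hZ).1)
    (fun Y Z hY hZ => (horth Y Z hY hZ).2) hSg
  rcases BLO_indec (Pool.Blk.finCat_P h σ t).toAbSub (D.blk.stable S D.mem) e with
    ⟨-, ⟨e'⟩⟩ | ⟨-, ⟨e'⟩⟩
  · exact BLO_side D (P₁ := fun Y => BLO_J σ σ' t J Y ∧ cls Y ∉ I)
      (P₂ := fun Y => BLO_J σ σ' t J Y ∧ cls Y ∈ I) (fun Y hY => hY.1)
      (fun Y hY => (hcov Y hY).symm) (fun Y Z hY hZ => (horth Z Y hZ hY).2)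
      (hX₂.iso e'.symm) Yi ⟨hYi, hx⟩
  · exact BLO_side D (P₁ := fun Y => BLO_J σ σ' t J Y ∧ cls Y ∈ I)
      (P₂ := fun Y => BLO_J σ σ' t J Y ∧ cls Y ∉ I) (fun Y hY => hY.1)
      hcov (fun Y Z hY hZ => (horth Y Z hY hZ).1)
      (hX₁.iso e'.symm) Yc ⟨hYc, hYcI⟩

lemma BLO_blk (D : BLO_D h σ σ' t J S) : Blk h.k3 σ' t (BLO_J σ σ' t J) where
  iso := by
    intro X Y e hX
    exact ⟨Pool.Blk.stable_iso h hX.1 e, fun U hU hnU => (hX.2 U hU hnU).iso e⟩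
  stable := fun Y hY => hY.1
  sph := fun Y hY => BLO_sph D hY
  orth := fun Y U hY hU hnU => BLO_orth' D hY hU hnU
  conn := BLO_conn D

end Data

end BLO

variable (C : Type u) [Category.{v} C] [Preadditive C] [HasZeroObject C] [HasShift C ℤ]
  [∀ n : ℤ, (shiftFunctor C n).Additive] [Pretriangulated C] [IsTriangulated C] [Linear ℂ C]
  [∀ n : ℤ, (shiftFunctor C n).Linear ℂ]

theorem p_BLO : Stmt_GZS C → Stmt_LWR C → Stmt_BDC C → Stmt_BLO C := by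
  intro hG hL hB h σ t δ hδ hδ0 hi J hJ S hS
  obtain ⟨σ', hj, hZ, hst, hI1, hI2, hdesc⟩ :=
    hL h σ t δ hδ hδ0 hi S (hJ.sph S hS) (hJ.stable S hS)
  have D : BLO_D h σ σ' t J S :=
    { blk := hJ
      mem := hS
      st' := BLO_stable_shift hst
      desc := hdesc
      gzs := hG S (hJ.sph S hS)
      bdc := (hB h σ t J hJ).2 }
  exact ⟨σ', BLO_J σ σ' t J, hj, BLO_blk D, hZ, hst, hI1, hI2,
    fun X => (BLO_gen' D X).trans (BLO_desc' D X)⟩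

end Pool.Move
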