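import Pool.Agent.Work.MP_841263_mv.Interface

/-!
# Block BLR (helper3): the objects of phase `t + 1` before raising a simple object
-/

set_option autoImplicit false

open CategoryTheory CategoryTheory.Limits CategoryTheory.Pretriangulated
open scoped ZeroObject Topology
open Filter

namespace Pool.Move

open Pool.Stab Pool.Tube

universe v u

variable {C : Type u} [Category.{v} C] [Preadditive C] [HasZeroObject C] [HasShift C ℤ]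
  [∀ n : ℤ, (shiftFunctor C n).Additive] [Pretriangulated C] [IsTriangulated C] [Linear ℂ C]
  [∀ n : ℤ, (shiftFunctor C n).Linear ℂ]

omit [IsTriangulated C] [Linear ℂ C] [∀ n : ℤ, (shiftFunctor C n).Linear ℂ] in
/-- Objects generated by an object of phase `t` have phase `t`. -/
lemma BLR_gen (hSLI : Stmt_SLI C) (σ : StabCond C) (t : ℝ) {S : C} (hS : σ.sl.P t S)
    {T : C} (hT : Gen (fun Y => Nonempty (Y ≅ S)) T) : σ.sl.P t T := by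
  induction hT with
  | zero h => exact σ.sl.iso_mem _ (h.isoZero).symm (σ.sl.zero_mem _)
  | of h =>
    obtain ⟨e⟩ := h
    exact σ.sl.iso_mem _ e.symm hS
  | @ext X Y Z f g k hD _ _ h1 h2 =>
    exact ((hSLI σ t Y).2.2.2.2.2.2 X Z f g k hD).2.2.1 h1 h2

omit [IsTriangulated C] [Linear ℂ C] [∀ n : ℤ, (shiftFunctor C n).Linear ℂ] in
/-- The shift by `1` of a triangle. -/
lemma BLR_tri {V V₁ T : C} {a : V₁ ⟶ V} {b : V ⟶ T} {c : T ⟶ V₁⟦(1 : ℤ)⟧}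
    (hT : Triangle.mk a b c ∈ distTriang C) :
    ∃ (i : V₁⟦(1 : ℤ)⟧ ⟶ V⟦(1 : ℤ)⟧) (g : V⟦(1 : ℤ)⟧ ⟶ T⟦(1 : ℤ)⟧)
      (d : T⟦(1 : ℤ)⟧ ⟶ (V₁⟦(1 : ℤ)⟧)⟦(1 : ℤ)⟧), Triangle.mk i g d ∈ distTriang C := by
  have h := Triangle.shift_distinguished _ hT (1 : ℤ)
  exact ⟨_, _, _, h⟩

/-- Block BLR. -/
theorem p_BLR : Stmt_SLI C → Stmt_ADT C → Stmt_LII C → Stmt_SIN C → Stmt_SAL C → Stmt_RAI C →
    Stmt_BLR C := by
  intro hSLI hADT hLII hSIN hSAL hRAI h σ₀ σ₁ t A S hTurn X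
  obtain ⟨hAS, hS0, hS1⟩ := hSIN h σ₀ σ₁ t A S hTurn
  constructor
  · intro hX
    have hXin : σ₀.sl.In (Set.Ioc t (t + 1)) X :=
      Slicing.in_of_P hX ⟨by linarith, le_refl _⟩
    obtain ⟨V, F₁, f₁, g₁, k₁, hT₁, hV, hVA, hAF, hF₁in⟩ := hTurn.adj₀.cutR X hXin
    have hV1 : σ₀.sl.P (t + 1) (V⟦(1 : ℤ)⟧) := (σ₀.sl.shift_mem t V).1 hV
    have hF₁im : σ₀.im t (cls F₁) = 0 := by
      have h1 := σ₀.im_of_P hX
      have h2 := σ₀.im_of_P hV1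
      rw [cls_mk hT₁, map_add, h2, zero_add] at h1
      exact h1
    have hF₁0 : σ₀.sl.P (t + 1) F₁ := (hSLI σ₀ t F₁).2.1 hF₁in hF₁im
    have hF₁1 : σ₁.sl.P (t + 1) F₁ := (hLII h σ₀ σ₁ t A S hTurn F₁ hAF).1 hF₁0
    obtain ⟨T, V₂, a, b, hS, hTin, hV₂⟩ := (hADT σ₁ t A hTurn.adj₁).2.1 _ hVA
    have hV₂0 : σ₀.sl.P t V₂ := (hLII h σ₀ σ₁ t A S hTurn V₂ hS.2.2.1).2 hV₂
    have hTim : σ₁.im t (cls T) = 0 := by
      have h1 := (hSLI σ₀ t V).2.2.2.2.1 hV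
      have h2 := (hSLI σ₁ t V₂).2.2.2.2.1 hV₂
      rw [← hTurn.im, hS.cls_eq, map_add, h2, add_zero] at h1
      exact h1
    have hT1 : σ₁.sl.P (t + 1) T := (hSLI σ₁ t T).2.1 hTin hTim
    have hT0 : σ₀.sl.P t T := ((hADT σ₀ t A hTurn.adj₀).2.2 T _ V₂ a b hS).2.2.1 hV
    have hgen : Gen (fun Y => Nonempty (Y ≅ S)) T := hSAL h σ₀ σ₁ t A S hTurn T hT0 hT1
    obtain ⟨-, -, -, c, hTS⟩ := hS
    obtain ⟨i₂, g₂, d₂, hT₂⟩ := BLR_tri hTS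
    obtain ⟨F, i₃, d₃, hT₃⟩ := distinguished_cocone_triangle (i₂ ≫ f₁)
    obtain ⟨m, n, r, hmn, -⟩ := exists_octa hT₂ hT₁ hT₃
    have hF0 : σ₀.sl.P (t + 1) F :=
      ((hSLI σ₀ t F).2.2.2.2.2.2 _ _ m n r hmn).2.2.2 ((σ₀.sl.shift_mem t V₂).1 hV₂0) hF₁0
    have hF1 : σ₁.sl.P (t + 1) F :=
      ((hSLI σ₁ t F).2.2.2.2.2.2 _ _ m n r hmn).2.2.2 ((σ₁.sl.shift_mem t V₂).1 hV₂) hF₁1
    exact ⟨T, F, i₂ ≫ f₁, i₃, d₃, hT₃, hF1,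
      fun a => σ₀.sl.hom_zero (by linarith : t < t + 1) hF0 hS0 a, hgen⟩
  · rintro ⟨T, F, f, g, k, hT, hF, hSF, hgen⟩
    have hFin : σ₀.sl.In (Set.Ioc t (t + 1)) F :=
      hRAI h σ₀ σ₁ t A S hTurn F (Slicing.in_of_P hF ⟨by linarith, le_refl _⟩) hSF
    have hFim : σ₀.im t (cls F) = 0 := by
      rw [← hTurn.im]
      exact σ₁.im_of_P hF
    have hF0 : σ₀.sl.P (t + 1) F := (hSLI σ₀ t F).2.1 hFin hFim
    have hT0 : σ₀.sl.P (t + 1) (T⟦(1 : ℤ)⟧) :=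
      (σ₀.sl.shift_mem t T).1 (BLR_gen hSLI σ₀ t hS0 hgen)
    exact ((hSLI σ₀ t X).2.2.2.2.2.2 _ F f g k hT).2.2.2 hT0 hF0

end Pool.Move
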