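import Pool.Agent.Work.MP_841263_mv.Interface

/-!
# Block BLS: the local setting of a block
-/

open CategoryTheory CategoryTheory.Limits CategoryTheory.Pretriangulated
open scoped ZeroObject Topology
open Filter

set_option backward.isDefEq.respectTransparency false
set_option backward.defeqAttrib.useBackward true
set_option linter.unusedSectionVars false

namespace Pool.Move

open Pool.Stab Pool.Tube

universe v u

variable {C : Type u} [Category.{v} C] [Preadditive C] [HasZeroObject C] [HasShift C ℤ]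
  [∀ n : ℤ, (shiftFunctor C n).Additive] [Pretriangulated C]

lemma BLS_P_ext [IsTriangulated C] (σ : StabCond C) {t : ℝ} {X Y Z : C} {f : X ⟶ Y} {g : Y ⟶ Z}
    {h : Z ⟶ X⟦(1 : ℤ)⟧} (hT : Triangle.mk f g h ∈ distTriang C) (hX : σ.sl.P t X)
    (hZ : σ.sl.P t Z) : σ.sl.P t Y := by
  obtain ⟨s, rfl⟩ : ∃ s, t = s + 1 := ⟨t - 1, by ring⟩
  have h1 : σ.sl.Heart s X := Slicing.heart_of_P hX (by linarith) le_rfl
  have h2 : σ.sl.Heart s Z := Slicing.heart_of_P hZ (by linarith) le_rfl
  refine σ.P_of_im (Slicing.Heart.ext hT h1 h2) ?_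
  rw [cls_mk hT, map_add, σ.im_of_P hX, σ.im_of_P hZ, add_zero]

lemma BLS_P_gen [IsTriangulated C] (σ : StabCond C) {t : ℝ} {J : C → Prop}
    (hJ : ∀ X, J X → σ.sl.P t X) {X : C} (hX : Gen J X) : σ.sl.P t X := by
  induction hX with
  | zero h => exact σ.sl.iso_mem t (h.isoZero).symm (σ.sl.zero_mem t)
  | of h => exact hJ _ h
  | ext hT _ _ h1 h2 => exact BLS_P_ext σ hT h1 h2

variable [IsTriangulated C] [Linear ℂ C] [∀ n : ℤ, (shiftFunctor C n).Linear ℂ]

/-- **Block BLS.** -/
theorem p_BLS : Stmt_BLS C := by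
  intro h σ t J hJ
  have hfin := h.finite
  have hfree := h.free
  have hJP : ∀ X, J X → σ.sl.P t X := fun X hX => (hJ.stable X hX).1
  have hsim : ∀ X, J X → SimpleIn (σ.sl.Heart (t - 1)) X := by
    intro X hX
    have h1 := hJ.stable X hX
    exact StabCond.Stable.simple (by rw [sub_add_cancel]; exact h1)
  have hAb : AbSub (Gen J) := (σ.sl.heart_ab (t - 1)).gen_ab hsim
  have hpos : ∀ X, Gen J X → ¬ IsZero X → 0 < σ.re t (cls X) := by
    intro X hX h0
    have hP := BLS_P_gen σ hJP hX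
    rw [σ.re_eq_norm hP]
    exact (σ.polar 0 hP h0).1
  have hnn : ∀ X, Gen J X → 0 ≤ σ.re t (cls X) := by
    intro X hX
    rw [σ.re_eq_norm (BLS_P_gen σ hJP hX)]
    exact norm_nonneg _
  refine { toFinCat := { toAbSub := hAb, pos := hpos, fin := ?_ }, simple := ?_, rigid := ?_,
           gen := fun X hX => hX, conn := hJ.conn }
  · intro X hX
    refine (σ.finite_classes (σ.re t (cls X))).subset ?_
    rintro x ⟨F, Q, f, g, hs, rfl⟩
    have hF := BLS_P_gen σ hJP hs.1
    refine ⟨⟨t, F, hF, rfl⟩, ?_⟩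
    rw [← σ.re_eq_norm hF]
    have h1 := hs.cls_eq
    have h2 := hnn Q hs.2.2.1
    rw [h1, map_add]
    linarith
  · intro S hS
    exact simple_of_gen (σ.sl.heart_ab (t - 1)) hsim (Gen.of hS) (hsim S hS)
  · intro S hS f
    exact (hJ.sph S hS).2 1 one_ne_zero (by decide) f

end Pool.Move
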