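import Mathlib
import Pool.Agent.Work.MP_841263_mv.Interface

/-!
# Block BUP: block version of raising
-/

open CategoryTheory CategoryTheory.Limits CategoryTheory.Pretriangulated
open scoped ZeroObject Topology
open Filter

set_option backward.isDefEq.respectTransparency false
set_option backward.defeqAttrib.useBackward true
set_option linter.unusedSectionVars false

namespace Pool.Move

open Pool.Stab Pool.Tube

universe v u

section Lattice

variable {K : Type*} [AddCommGroup K]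

/-- Connectedness depends only on the span modulo the radical. -/
lemma BUP_conn {B : K →+ K →+ ℤ} (hB : IsPSD B) (heven : ∀ x, Even (B x x)) {R R' : Set K}
    (hR : ∀ x ∈ R, B x x = 2) (hR' : ∀ x ∈ R', B x x = 2)
    (h1 : ∀ x ∈ R, x ∈ AddSubgroup.closure R') (h2 : ∀ y ∈ R', y ∈ AddSubgroup.closure R)
    (hc : Conn B R) : Conn B R' := by
  intro I hI hIne hIo
  set P := AddSubgroup.closure I with hP
  set Q := AddSubgroup.closure (R' \ I) with hQ
  have hPQ : ∀ p ∈ P, ∀ q ∈ Q, B p q = 0 := by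
    intro p hp q hq
    induction hp using AddSubgroup.closure_induction with
    | mem x hx =>
      induction hq using AddSubgroup.closure_induction with
      | mem y hy => exact hIo x hx y hy.1 hy.2
      | zero => simp
      | add a b _ _ ha hb => rw [map_add, ha, hb, add_zero]
      | neg a _ ha => rw [map_neg, ha, neg_zero]
    | zero => simp
    | add a b _ _ ha hb => rw [map_add, AddMonoidHom.add_apply, ha, hb, add_zero]
    | neg a _ ha => rw [map_neg, AddMonoidHom.neg_apply, ha, neg_zero]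
  have hdec : ∀ x ∈ AddSubgroup.closure R', ∃ p ∈ P, ∃ q ∈ Q, x = p + q := by
    intro x hx
    have h3 : AddSubgroup.closure R' ≤ P ⊔ Q := by
      rw [AddSubgroup.closure_le]
      intro y hy
      by_cases hyI : y ∈ I
      · exact AddSubgroup.mem_sup_left (AddSubgroup.subset_closure hyI)
      · exact AddSubgroup.mem_sup_right (AddSubgroup.subset_closure ⟨hy, hyI⟩)
    obtain ⟨p, hp, q, hq, e⟩ := AddSubgroup.mem_sup.1 (h3 hx)
    exact ⟨p, hp, q, hq, e.symm⟩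
  have hrad : ∀ x, B x x = 0 → ∀ y, B x y = 0 := fun x hx => hB.mem_radical_of_self hx
  have hnorm : ∀ x ∈ R, ∀ p ∈ P, ∀ q ∈ Q, x = p + q → B p p = 0 ∨ B q q = 0 := by
    intro x hx p hp q hq e
    have h3 := hR x hx
    have h4 : B x x = B p p + B q q := by
      rw [e]
      simp only [map_add, AddMonoidHom.add_apply]
      rw [hPQ p hp q hq, hB.symm q p, hPQ p hp q hq]
      ring
    obtain ⟨a, ha⟩ := heven p
    obtain ⟨b, hb⟩ := heven q
    have h5 := hB.nonneg p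
    have h6 := hB.nonneg q
    omega
  set R₁ : Set K := {x | x ∈ R ∧ ∃ p ∈ P, ∀ y, B (x - p) y = 0} with hR₁
  have hcase : ∀ x ∈ R, x ∉ R₁ → ∃ q ∈ Q, ∀ y, B (x - q) y = 0 := by
    intro x hx hx1
    obtain ⟨p, hp, q, hq, e⟩ := hdec x (h1 x hx)
    rcases hnorm x hx p hp q hq e with h0 | h0
    · refine ⟨q, hq, ?_⟩
      have : x - q = p := by rw [e]; abel
      rw [this]
      exact hrad p h0
    · exfalso
      apply hx1
      refine ⟨hx, p, hp, ?_⟩
      have : x - p = q := by rw [e]; abel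
      rw [this]
      exact hrad q h0
  have hself : ∀ x ∈ I, ∀ q ∈ Q, (∀ y, B (x - q) y = 0) → False := by
    intro x hx q hq h0
    have h3 := hR' x (hI hx)
    have h4 : B x x = B q x := by
      have := h0 x
      rw [map_sub, AddMonoidHom.sub_apply, sub_eq_zero] at this
      exact this
    rw [h4, hB.symm, hPQ x (AddSubgroup.subset_closure hx) q hq] at h3
    omega
  have hself' : ∀ x ∈ R' \ I, ∀ p ∈ P, (∀ y, B (x - p) y = 0) → False := by
    intro x hx p hp h0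
    have h3 := hR' x hx.1
    have h4 : B x x = B p x := by
      have := h0 x
      rw [map_sub, AddMonoidHom.sub_apply, sub_eq_zero] at this
      exact this
    rw [h4, hPQ p hp x (AddSubgroup.subset_closure hx)] at h3
    omega
  -- closures modulo the radical
  have hspan : ∀ D : AddSubgroup K, (∀ x ∈ R, ∃ d ∈ D, ∀ y, B (x - d) y = 0) →
      ∀ x ∈ AddSubgroup.closure R, ∃ d ∈ D, ∀ y, B (x - d) y = 0 := by
    intro D hD x hx
    induction hx using AddSubgroup.closure_induction with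
    | mem x hx => exact hD x hx
    | zero => exact ⟨0, D.zero_mem, fun y => by simp⟩
    | add a b _ _ ha hb =>
      obtain ⟨d, hd, h3⟩ := ha
      obtain ⟨d', hd', h4⟩ := hb
      refine ⟨d + d', D.add_mem hd hd', fun y => ?_⟩
      have : a + b - (d + d') = (a - d) + (b - d') := by abel
      rw [this, map_add, AddMonoidHom.add_apply, h3, h4, add_zero]
    | neg a _ ha =>
      obtain ⟨d, hd, h3⟩ := ha
      refine ⟨-d, D.neg_mem hd, fun y => ?_⟩
      have : -a - -d = -(a - d) := by abel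
      rw [this, map_neg, AddMonoidHom.neg_apply, h3, neg_zero]
  by_cases hR₁ne : R₁.Nonempty
  · have h5 : R₁ = R := by
      refine hc R₁ (fun x hx => hx.1) hR₁ne ?_
      rintro a ⟨haR, p, hp, hap⟩ b hb hb1
      obtain ⟨q, hq, hbq⟩ := hcase b hb hb1
      have h6 : B a b = B p b := by
        have := hap b
        rw [map_sub, AddMonoidHom.sub_apply, sub_eq_zero] at this
        exact this
      have h7 : B b p = B q p := by
        have := hbq p
        rw [map_sub, AddMonoidHom.sub_apply, sub_eq_zero] at this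
        exact this
      rw [h6, hB.symm p b, h7, hB.symm q p, hPQ p hp q hq]
    refine Set.Subset.antisymm hI ?_
    intro y hy
    by_contra hyI
    obtain ⟨d, hd, h6⟩ := hspan P (fun x hx => by
      rw [← h5] at hx
      exact hx.2) y (h2 y hy)
    exact hself' y ⟨hy, hyI⟩ d hd h6
  · exfalso
    obtain ⟨a, ha⟩ := hIne
    obtain ⟨d, hd, h6⟩ := hspan Q (fun x hx => hcase x hx (fun h => hR₁ne ⟨x, h⟩)) a (h2 a (hI ha))
    exact hself a ha d hd h6

end Lattice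

section

variable {C : Type u} [Category.{v} C] [Preadditive C] [HasZeroObject C] [HasShift C ℤ]
  [∀ n : ℤ, (shiftFunctor C n).Additive] [Pretriangulated C]

/-- Iterated extensions of mutually orthogonal classes are orthogonal. -/
lemma BUP_orth {G G' : C → Prop} (h : ∀ X Y, G X → G' Y → Orth X Y) {X Y : C} (hX : Gen G X)
    (hY : Gen G' Y) : Orth X Y := by
  refine Orth.of_gen hY (fun Z hZ => ?_)
  intro n
  induction hX with
  | zero h0 => exact fun f => h0.eq_of_src _ _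
  | of hX => exact h _ _ hX hZ n
  | ext hT _ _ h1 h2 => exact fun f => hom_zero_of_ext₁ hT h1 h2 f

lemma BUP_orth_shift {X Y : C} (h : Orth X Y) (n : ℤ) : Orth (X⟦n⟧) Y := by
  intro m f
  exact hom_shift_zero (c := m - n) (by ring) (h _) f

lemma BUP_orth_iso {X X' Y : C} (h : Orth X Y) (e : X ≅ X') : Orth X' Y := by
  intro n f
  rw [← cancel_epi e.hom, h n (e.hom ≫ f), CategoryTheory.Limits.comp_zero]

/-- The shifts of the objects of a class. -/
def BUP_Sh (G : C → Prop) (X : C) : Prop := ∃ (Y : C) (n : ℤ), G Y ∧ Nonempty (X ≅ Y⟦n⟧)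

lemma BUP_Sh_shift {G : C → Prop} (X : C) (n : ℤ) (h : BUP_Sh G X) : BUP_Sh G (X⟦n⟧) := by
  obtain ⟨Y, m, hY, ⟨e⟩⟩ := h
  exact ⟨Y, m + n, hY, ⟨(shiftFunctor C n).mapIso e ≪≫ ((shiftFunctorAdd C m n).app Y).symm⟩⟩

lemma BUP_Sh_of {G : C → Prop} {X : C} (h : G X) : BUP_Sh G X :=
  ⟨X, 0, h, ⟨((shiftFunctorZero C ℤ).app X).symm⟩⟩

lemma BUP_Sh_orth {G G' : C → Prop} (h : ∀ X Y, G X → G' Y → Orth X Y) (X Y : C)
    (hX : BUP_Sh G X) (hY : BUP_Sh G' Y) : Orth X Y := by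
  obtain ⟨X', m, hX', ⟨e⟩⟩ := hX
  obtain ⟨Y', n, hY', ⟨e'⟩⟩ := hY
  exact BUP_orth_iso (BUP_orth_shift (((h _ _ hX' hY').shift n).iso e'.symm) m) e.symm

lemma BUP_hom {X Y : C} (h : Orth X Y) (f : X ⟶ Y) : f = 0 := by
  rw [← cancel_mono ((shiftFunctorZero C ℤ).app Y).inv, h 0 (f ≫ _), zero_comp]

/-- Decomposition along two mutually orthogonal classes. -/
lemma BUP_split [IsTriangulated C] {G G' : C → Prop} (h12 : ∀ X Y, G X → G' Y → Orth X Y)
    (h21 : ∀ X Y, G X → G' Y → Orth Y X) {E : C}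
    (hE : Gen (fun X => BUP_Sh G X ∨ BUP_Sh G' X) E) :
    ∃ X Y : C, Gen (BUP_Sh G) X ∧ Gen (BUP_Sh G') Y ∧ Nonempty (E ≅ X ⊞ Y) :=
  exists_biprod_of_gen (fun X n h => BUP_Sh_shift X n h) (fun X n h => BUP_Sh_shift X n h)
    (fun X Y hX hY f => BUP_hom (BUP_Sh_orth h12 X Y hX hY) f)
    (fun X Y hX hY f => BUP_hom (BUP_Sh_orth (G := G') (G' := G)
      (fun A B hA hB => h21 B A hB hA) Y X hY hX) f) hE

lemma BUP_iso_left {X Y : C} (hY0 : IsZero Y) : Nonempty (X ≅ X ⊞ Y) := by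
  have h3 : (biprod.fst : X ⊞ Y ⟶ X) ≫ biprod.inl = 𝟙 _ := by
    have h4 : (biprod.snd : X ⊞ Y ⟶ Y) = 0 := hY0.eq_of_tgt _ _
    have h5 := biprod.total (X := X) (Y := Y)
    rw [h4, zero_comp, add_zero] at h5
    exact h5
  exact ⟨⟨biprod.inl, biprod.fst, biprod.inl_fst, h3⟩⟩

lemma BUP_iso_right {X Y : C} (hX0 : IsZero X) : Nonempty (Y ≅ X ⊞ Y) := by
  obtain ⟨e⟩ := BUP_iso_left (X := Y) hX0
  exact ⟨e ≪≫ biprod.braiding Y X⟩

/-- An object orthogonal to one of the classes is in the other one. -/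
lemma BUP_split_orth [IsTriangulated C] {G G' : C → Prop} (h12 : ∀ X Y, G X → G' Y → Orth X Y)
    (h21 : ∀ X Y, G X → G' Y → Orth Y X) {E : C}
    (hE : Gen (fun X => BUP_Sh G X ∨ BUP_Sh G' X) E) (ho : ∀ Y, G' Y → Orth Y E) :
    Gen (BUP_Sh G) E := by
  obtain ⟨X, Y, hX, hY, ⟨e⟩⟩ := BUP_split h12 h21 hE
  have h1 : Orth Y E := by
    refine BUP_orth (G := BUP_Sh G') (G' := fun Z => Z = E) ?_ hY (Gen.of rfl)
    rintro A B hA rfl
    obtain ⟨A', n, hA', ⟨e'⟩⟩ := hA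
    exact BUP_orth_iso (BUP_orth_shift (ho A' hA') n) e'.symm
  have h2 : Orth Y Y := (h1.iso (e ≪≫ biprod.braiding X Y)).of_biprod_left
  have hY0 : IsZero Y := by
    by_contra h0
    exact not_orth_self h0 h2
  obtain ⟨e'⟩ := BUP_iso_left (X := X) hY0
  exact hX.iso (e' ≪≫ e.symm)

lemma BUP_stable_shift {σ : StabCond C} {φ : ℝ} {X : C} (h : σ.Stable φ X) :
    σ.Stable (φ + 1) (X⟦(1 : ℤ)⟧) := by
  refine ⟨(σ.sl.shift_mem φ X).1 h.1, fun h0 => h.2.1 ((isZero_shift_iff _ _).1 h0), ?_⟩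
  intro Y Z f g k hT hY hZ
  have hT' := Triangle.shift_distinguished _ hT (-1)
  have e : (X⟦(1 : ℤ)⟧)⟦(-1 : ℤ)⟧ ≅ X := (shiftFunctorCompIsoId C (1 : ℤ) (-1) (by norm_num)).app X
  have hT2 : Triangle.mk ((-1 : ℤ).negOnePow • f⟦(-1 : ℤ)⟧') ((-1 : ℤ).negOnePow • g⟦(-1 : ℤ)⟧')
      ((-1 : ℤ).negOnePow • k⟦(-1 : ℤ)⟧' ≫ (shiftFunctorComm C (1 : ℤ) (-1)).hom.app Y) ∈
      distTriang C := hT'
  have hY' : σ.sl.P φ (Y⟦(-1 : ℤ)⟧) := by
    have := Slicing.P_shift_neg_one (S := σ.sl) (φ + 1) Y hY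
    simpa using this
  have hZ' : σ.sl.P φ (Z⟦(-1 : ℤ)⟧) := by
    have := Slicing.P_shift_neg_one (S := σ.sl) (φ + 1) Z hZ
    simpa using this
  rcases h.2.2 _ _ _ _ _ (tri_mid_iso hT2 e) hY' hZ' with h0 | h0
  · exact Or.inl ((isZero_shift_iff _ _).1 h0)
  · exact Or.inr ((isZero_shift_iff _ _).1 h0)

lemma BUP_ab [IsTriangulated C] (σ : StabCond C) (s : ℝ) : AbSub (σ.sl.P (s + 1)) where
  iso_mem := fun e h => σ.sl.iso_mem _ e h
  zero_mem := fun h => σ.sl.iso_mem _ h.isoZero.symm (σ.sl.zero_mem _)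
  ext_mem := by
    intro X Y Z f g k hT hX hZ
    have hX' : σ.sl.Heart s X := Slicing.heart_of_P hX (by linarith) le_rfl
    have hZ' : σ.sl.Heart s Z := Slicing.heart_of_P hZ (by linarith) le_rfl
    refine σ.P_of_im (Slicing.Heart.ext hT hX' hZ') ?_
    rw [cls_mk hT, map_add, σ.im_of_P hX, σ.im_of_P hZ, add_zero]
  hom_neg := by
    intro X Y hX hY n hn f
    have hX' : σ.sl.Heart s X := Slicing.heart_of_P hX (by linarith) le_rfl
    have hY' : σ.sl.Heart s Y := Slicing.heart_of_P hY (by linarith) le_rfl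
    exact (σ.sl.heart_ab s).hom_neg hX' hY' hn f
  kiq := by
    intro X Y hX hY f
    have hX' : σ.sl.Heart s X := Slicing.heart_of_P hX (by linarith) le_rfl
    have hY' : σ.sl.Heart s Y := Slicing.heart_of_P hY (by linarith) le_rfl
    obtain ⟨K, I, Q, k, p, i, q, ⟨hK, -, hI, d, hT1⟩, ⟨-, -, hQ, d', hT2⟩, hpi⟩ :=
      (σ.sl.heart_ab s).kiq hX' hY' f
    obtain ⟨h1, h2⟩ := σ.P_sub_quot hT1 hK hI hX
    obtain ⟨-, h4⟩ := σ.P_sub_quot hT2 hI hQ hY
    exact ⟨K, I, Q, k, p, i, q, ⟨h1, hX, h2, d, hT1⟩, ⟨h2, hY, h4, d', hT2⟩, hpi⟩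

lemma BUP_ab' [IsTriangulated C] (σ : StabCond C) (t : ℝ) : AbSub (σ.sl.P t) := by
  have h := BUP_ab σ (t - 1)
  rwa [sub_add_cancel] at h

lemma BUP_fin [IsTriangulated C] [Module.Finite ℤ (K0 C)] [Module.Free ℤ (K0 C)]
    (σ : StabCond C) (t : ℝ) : FinCat (σ.sl.P t) (σ.re t) where
  toAbSub := BUP_ab' σ t
  pos := by
    intro X hX h0
    rw [σ.re_eq_norm hX]
    exact (σ.polar t hX h0).1
  fin := by
    intro X hX
    refine (σ.finite_classes (σ.re t (cls X))).subset ?_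
    rintro x ⟨F, Q, f, g, hs, rfl⟩
    refine ⟨⟨t, F, hs.1, rfl⟩, ?_⟩
    rw [← σ.re_eq_norm hs.1, hs.cls_eq, map_add, σ.re_eq_norm hs.2.2.1]
    linarith [norm_nonneg (σ.Z (cls Q))]

end

section Main

variable {C : Type u} [Category.{v} C] [Preadditive C] [HasZeroObject C] [HasShift C ℤ]
  [∀ n : ℤ, (shiftFunctor C n).Additive] [Pretriangulated C] [IsTriangulated C] [Linear ℂ C]
  [∀ n : ℤ, (shiftFunctor C n).Linear ℂ]

/-- The objects of the raised block. -/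
def BUP_V (J : C → Prop) (S X : C) : Prop :=
  ∃ (T F : C) (f : T⟦(1 : ℤ)⟧ ⟶ X) (g : X ⟶ F) (k : F ⟶ (T⟦(1 : ℤ)⟧)⟦(1 : ℤ)⟧),
    Triangle.mk f g k ∈ distTriang C ∧ Gen J F ∧ (∀ a : F ⟶ S, a = 0) ∧
    Gen (fun Y => Nonempty (Y ≅ S)) T

lemma BUP_V_iso {J : C → Prop} {S X Y : C} (e : X ≅ Y) (h : BUP_V J S X) : BUP_V J S Y := by
  obtain ⟨T, F, f, g, k, hT, hF, hFS, hTS⟩ := h
  exact ⟨T, F, _, _, k, tri_mid_iso hT e, hF, hFS, hTS⟩

lemma BUP_V_orth {J : C → Prop} {S X U : C} (hU : ∀ Y, J Y → Orth U Y) (hS : J S)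
    (h : BUP_V J S X) : Orth U X := by
  obtain ⟨T, F, f, g, k, hT, hF, hFS, hTS⟩ := h
  refine Orth.ext hT ((Orth.of_gen hTS ?_).shift 1) (Orth.of_gen hF hU)
  rintro Y ⟨e⟩
  exact (hU S hS).iso e.symm

lemma BUP_V_zero {J : C → Prop} {S X : C} (hX : Gen J X) (hXS : ∀ a : X ⟶ S, a = 0) :
    BUP_V J S X :=
  ⟨0, X, _, 𝟙 X, _, tri_first_iso (contractible_distinguished₁ X)
    ((isZero_shift_iff _ _).2 (isZero_zero C)).isoZero, hX, hXS, Gen.zero (isZero_zero C)⟩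

theorem p_BUP : Stmt_GZS C → Stmt_RSR C → Stmt_BDC C → Stmt_BUP C := by
  intro hGZS hRSR hBDC h σ t δ hδ hδ0 him J hJ S hS
  have := h.finite
  have := h.free
  have hst := hJ.stable S hS
  have hsph := hJ.sph S hS
  obtain ⟨σ', hj, hZ, hS', hup, hlow, hP⟩ := hRSR h σ t δ hδ hδ0 him S hsph hst
  obtain ⟨-, hbd2⟩ := hBDC h σ t J hJ
  obtain ⟨N, hN⟩ : ∃ N : C → Prop, N = fun U => σ.Stable t U ∧ ¬ J U := ⟨_, rfl⟩
  have hNJ : ∀ U Y, N U → J Y → Orth U Y := by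
    intro U Y hU hY
    rw [hN] at hU
    exact (hJ.orth Y U hY hU.1 hU.2).2
  have hJN : ∀ Y U, J Y → N U → Orth Y U := by
    intro Y U hY hU
    rw [hN] at hU
    exact (hJ.orth Y U hY hU.1 hU.2).1
  have hNm : ∀ U, σ.Stable t U → ¬ J U → N U := by
    intro U h1 h2
    rw [hN]
    exact ⟨h1, h2⟩
  have hVN : ∀ U X, Gen (BUP_Sh N) U → BUP_V J S X → Orth U X := by
    intro U X hU hX
    refine BUP_orth (G := BUP_Sh N) (G' := fun Z => Z = X) ?_ hU (Gen.of rfl)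
    rintro A B ⟨A', n, hA', ⟨e'⟩⟩ rfl
    exact BUP_orth_iso (BUP_orth_shift (BUP_V_orth (fun Y hY => hNJ A' Y hA' hY) hS hX) n)
      e'.symm
  have hVP : ∀ X, BUP_V J S X → σ'.sl.P t X := by
    rintro X ⟨T, F, f, g, k, hT, hF, hFS, hTS⟩
    exact (hP X).2 ⟨T, F, f, g, k, hT, ((hbd2 F).1 hF).1, hFS, hTS⟩
  have hPV : ∀ X, σ'.sl.P t X → (∀ U, N U → Orth U X) → BUP_V J S X := by
    intro X hX hU
    obtain ⟨T, F, f, g, k, hT, hF, hFS, hTS⟩ := (hP X).1 hX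
    refine ⟨T, F, f, g, k, hT, (hbd2 F).2 ⟨hF, fun U hU1 hU2 => ?_⟩, hFS, hTS⟩
    have hUN := hNm U hU1 hU2
    have h1 : Orth U (T⟦(1 : ℤ)⟧) := by
      refine (Orth.of_gen hTS ?_).shift 1
      rintro Y ⟨e⟩
      exact (hNJ U S hUN hS).iso e.symm
    exact Orth.third hT h1 (hU U hUN)
  have hgen : ∀ X, σ'.sl.P t X → Gen (fun X => BUP_Sh J X ∨ BUP_Sh N X) X := by
    intro X hX
    obtain ⟨T, F, f, g, k, hT, hF, hFS, hTS⟩ := (hP X).1 hX
    refine Gen.ext hT ?_ ?_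
    · refine hTS.shift' 1 ?_
      rintro Y ⟨e⟩
      exact Or.inl ⟨S, 1, hS, ⟨(shiftFunctor C (1 : ℤ)).mapIso e⟩⟩
    · refine (σ.gen_stable hF).mono ?_
      intro Y hY
      by_cases hYJ : J Y
      · exact Or.inl (BUP_Sh_of hYJ)
      · exact Or.inr (BUP_Sh_of (hNm Y hY hYJ))
  obtain ⟨J', hJ'⟩ : ∃ J' : C → Prop, ∀ Y, J' Y ↔ σ'.Stable t Y ∧ BUP_V J S Y :=
    ⟨fun Y => σ'.Stable t Y ∧ BUP_V J S Y, fun Y => Iff.rfl⟩
  have hnot : ∀ U, σ'.Stable t U → ¬ J' U → Gen (BUP_Sh N) U := by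
    intro U hU hUJ
    obtain ⟨X, Y, hX, hY, ⟨e⟩⟩ := BUP_split hJN (fun Y U hY hU => hNJ U Y hU hY) (hgen U hU.1)
    rcases isZero_of_iso_biprod ((BUP_ab' σ' t).finrank_end h.k3 hU) e with h0 | h0
    · obtain ⟨e'⟩ := BUP_iso_right (Y := Y) h0
      exact hY.iso (e' ≪≫ e.symm)
    · exfalso
      obtain ⟨e'⟩ := BUP_iso_left (X := X) h0
      apply hUJ
      rw [hJ']
      refine ⟨hU, hPV U hU.1 ?_⟩
      intro W hW
      have h1 : Orth W X := by
        refine Orth.of_gen hX ?_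
        rintro Z ⟨Y', n, hY', ⟨e1⟩⟩
        exact ((hNJ W Y' hW hY').shift n).iso e1.symm
      exact h1.iso (e' ≪≫ e.symm)
  have horth : ∀ Y U, J' Y → σ'.Stable t U → ¬ J' U → Orth Y U ∧ Orth U Y := by
    intro Y U hY hU hUJ
    have h2 := hVN U Y (hnot U hU hUJ) ((hJ' Y).1 hY).2
    exact ⟨ORT_dual h.k3 h2, h2⟩
  have hS1 : σ'.Stable t (S⟦(1 : ℤ)⟧) := by
    have h1 := BUP_stable_shift hS'
    rwa [sub_add_cancel] at h1
  have hS1V : BUP_V J S (S⟦(1 : ℤ)⟧) :=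
    ⟨S, 0, 𝟙 _, 0, 0, contractible_distinguished _, Gen.zero (isZero_zero C),
      fun a => (isZero_zero C).eq_of_src _ _, Gen.of ⟨Iso.refl S⟩⟩
  have hJ'S : J' (S⟦(1 : ℤ)⟧) := (hJ' _).2 ⟨hS1, hS1V⟩
  have hfin : FinCat (Gen J) (σ.re t) := (BUP_fin σ t).gen_fin hJ.stable
  have hsim : ∀ Y, J Y → SimpleIn (Gen J) Y := fun Y hY =>
    simple_of_gen (BUP_ab' σ t) hJ.stable (Gen.of hY) (hJ.stable Y hY)
  have hn2 : ∀ Y, J Y → eulerForm h.k3 (cls Y) (cls Y) = 2 := fun Y hY =>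
    (BUP_ab' σ t).norm_of_rigid h.k3 (hJ.stable Y hY)
      (fun f => (hJ.sph Y hY).2 1 (by norm_num) (by norm_num) f)
  have hsph' : ∀ Y, J' Y → Spherical Y := by
    intro Y hY
    rw [hJ'] at hY
    by_cases hiso : Nonempty (S⟦(1 : ℤ)⟧ ≅ Y)
    · obtain ⟨e⟩ := hiso
      exact SPH_iso e (hsph.shift 1)
    obtain ⟨hz1, hz2, hz3⟩ := (BUP_ab' σ' t).simple_form_le h.k3 hS1 hY.1 hiso
    obtain ⟨T, F, f, g, k, hT, hF, hFS, hTS⟩ := hY.2
    have hf : f = 0 := by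
      refine Gen.hom_zero (G := fun Z => Nonempty (Z ≅ S⟦(1 : ℤ)⟧)) (G' := fun Z => Z = Y) ?_
        (hTS.shift' 1 ?_) (Gen.of rfl) f
      · rintro A B ⟨e⟩ rfl a
        rw [← cancel_epi e.inv, hz2 (e.inv ≫ a), CategoryTheory.Limits.comp_zero]
      · rintro Z ⟨e⟩
        exact ⟨(shiftFunctor C (1 : ℤ)).mapIso e⟩
    have hTP : σ.sl.P t T := by
      refine ((hbd2 T).1 (hTS.mono ?_)).1
      rintro Z ⟨e⟩
      exact hJ.iso _ _ e.symm hS
    have hT0 : IsZero (T⟦(1 : ℤ)⟧) := by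
      refine isZero₁_of_mor₁ hT hf (fun r => ?_)
      have h1 := (σ.sl.shift_mem _ _).1 ((σ.sl.shift_mem _ _).1 hTP)
      exact σ.sl.hom_zero (by linarith) h1 ((hbd2 F).1 hF).1 r
    have hgi := iso_of_isZero₁ hT hT0
    have hYJ : Gen J Y := hF.iso (asIso g).symm
    have hYS : ∀ a : Y ⟶ S, a = 0 := by
      intro a
      rw [← cancel_epi (inv g), hFS (inv g ≫ a), CategoryTheory.Limits.comp_zero]
    obtain ⟨S₁, hS₁, s, hs⟩ : ∃ S₁, J S₁ ∧ ∃ s : Y ⟶ S₁, s ≠ 0 := by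
      by_contra hcon
      push Not at hcon
      have h1 : ∀ a : Y ⟶ Y, a = 0 := fun a =>
        Gen.hom_zero (G := fun X => X = Y) (G' := J)
          (by rintro X Z rfl hZ b; exact hcon Z hZ b) (Gen.of rfl) hYJ a
      exact hY.1.2.1 (by rw [IsZero.iff_id_eq_zero]; exact h1 _)
    have hS₁s := hsim S₁ hS₁
    obtain ⟨K, k₁, hk⟩ := hfin.toAbSub.epi_simple hYJ hS₁s s hs
    obtain ⟨A', Q, a, q, s1, g1, z1, -⟩ := hfin.isotypic (hsim S hS) K hk.1
    obtain ⟨W, w, m, n, s2, s3⟩ := s1.comp hfin.toAbSub hk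
    have hA' : σ'.sl.P t A' := hVP _ (BUP_V_zero s1.1 z1)
    have hWS : ∀ b : W ⟶ S, b = 0 := fun b => s2.epi hfin.toAbSub (Gen.of hS) b (hYS _)
    have hW' : σ'.sl.P t W := hVP _ (BUP_V_zero s2.2.2.1 hWS)
    obtain ⟨d, hd⟩ := s2.2.2.2
    rcases hY.1.2.2 _ _ _ _ _ hd hA' hW' with h0 | h0
    swap
    · exact absurd (isZero_of_SES_right hfin.toAbSub s3 (h0.eq_of_src _ _)) hS₁s.2.1
    have hwi := iso_of_isZero₁ hd h0
    have hle := (StabCond.Stable.cls_le h.k3 hY.1).2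
    have hnn := h.psd (cls Y)
    obtain ⟨r, hr⟩ := h.even (cls Y)
    have hne : eulerForm h.k3 (cls Y) (cls Y) ≠ 0 := by
      intro hY0
      have hrad := h.psd'.mem_radical_of_self hY0
      have hSY : ∀ b : S ⟶ Y, b = 0 := by
        intro b
        have h5 : eulerForm h.k3 (cls (S⟦(1 : ℤ)⟧)) (cls Y) = 0 := by
          rw [eulerForm_symm]
          exact hrad _
        rw [h5] at hz1
        have h6 : Module.finrank ℂ (S⟦(1 : ℤ)⟧ ⟶ Y⟦(1 : ℤ)⟧) = 0 := by omega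
        have h7 := forall_zero_of_finrank h.k3 h6 (b⟦(1 : ℤ)⟧')
        exact (shiftFunctor C (1 : ℤ)).map_injective (by rw [h7, Functor.map_zero])
      have hQ0 : IsZero Q := by
        refine hGZS S hsph Q g1 (Or.inl (fun b => ?_))
        have h8 : b ≫ m = 0 := by
          have h9 := hSY (b ≫ m ≫ inv w)
          rw [← cancel_mono (inv w), Category.assoc, h9, zero_comp]
        exact s3.mono hfin.toAbSub (Gen.of hS) b h8
      have h9 : cls Y = cls S₁ := by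
        rw [s2.cls_eq, cls_of_isZero h0, s3.cls_eq, cls_of_isZero hQ0, zero_add, zero_add]
      rw [h9, hn2 S₁ hS₁] at hY0
      omega
    have h2 : eulerForm h.k3 (cls Y) (cls Y) = 2 := by omega
    have hrig := (BUP_ab' σ' t).rigid_of_pos h.k3 h.even hY.1 (by omega)
    exact spherical_of_rigid (BUP_ab' σ' t) h.k3 hY.1.1 hrig h2
  have hconn : Conn (eulerForm h.k3) {x | ∃ S, J' S ∧ cls S = x} := by
    refine BUP_conn h.psd' h.even ?_ ?_ ?_ ?_ hJ.conn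
    · rintro x ⟨Y, hY, rfl⟩
      exact hn2 Y hY
    · rintro x ⟨Y, hY, rfl⟩
      exact (BUP_ab' σ' t).norm_of_rigid h.k3 ((hJ' Y).1 hY).1
        (fun f => (hsph' Y hY).2 1 (by norm_num) (by norm_num) f)
    · rintro x ⟨Y, hY, rfl⟩
      have hSc : cls S ∈ AddSubgroup.closure {x | ∃ S, J' S ∧ cls S = x} := by
        have h1 : cls (S⟦(1 : ℤ)⟧) ∈ AddSubgroup.closure {x | ∃ S, J' S ∧ cls S = x} :=
          AddSubgroup.subset_closure ⟨_, hJ'S, rfl⟩
        have h2 := AddSubgroup.neg_mem _ h1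
        rwa [cls_shift_one, neg_neg] at h2
      obtain ⟨A', Q, a, q, s1, g1, z1, -⟩ := hfin.isotypic (hsim S hS) Y (Gen.of hY)
      have hA'V : BUP_V J S A' := BUP_V_zero s1.1 z1
      have h3 : Gen (BUP_Sh J') A' := by
        refine BUP_split_orth (G := J') (G' := fun U => σ'.Stable t U ∧ ¬ J' U)
          (fun X U hX hU => (horth X U hX hU.1 hU.2).1)
          (fun X U hX hU => (horth X U hX hU.1 hU.2).2) ?_ ?_
        · refine (σ'.gen_stable (hVP _ hA'V)).mono ?_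
          intro Z hZ
          by_cases hZJ : J' Z
          · exact Or.inl (BUP_Sh_of hZJ)
          · exact Or.inr (BUP_Sh_of ⟨hZ, hZJ⟩)
        · intro U hU
          exact hVN U A' (hnot U hU.1 hU.2) hA'V
      obtain ⟨n, hn⟩ := gen_iso_cls g1
      rw [s1.cls_eq, hn]
      refine AddSubgroup.add_mem _ (h3.cls_mem ?_) (AddSubgroup.nsmul_mem _ hSc n)
      rintro X ⟨Z, m, hZ, ⟨e⟩⟩
      rw [cls_iso e, cls_shift]
      have h5 : cls Z ∈ AddSubgroup.closure {x | ∃ S, J' S ∧ cls S = x} :=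
        AddSubgroup.subset_closure ⟨Z, hZ, rfl⟩
      exact AddSubgroup.zsmul_mem _ h5 _
    · rintro x ⟨Y, hY, rfl⟩
      obtain ⟨T, F, f, g, k, hT, hF, hFS, hTS⟩ := ((hJ' Y).1 hY).2
      obtain ⟨n, hn⟩ := gen_iso_cls hTS
      rw [cls_mk hT, cls_shift_one, hn]
      have h5 : ∀ X, J X → cls X ∈ AddSubgroup.closure {x | ∃ S, J S ∧ cls S = x} :=
        fun X hX => AddSubgroup.subset_closure ⟨X, hX, rfl⟩
      exact AddSubgroup.add_mem _ (AddSubgroup.neg_mem _ (AddSubgroup.nsmul_mem _ (h5 S hS) n))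
        (hF.cls_mem h5)
  have hBlk : Blk h.k3 σ' t J' := by
    refine ⟨?_, fun Y hY => ((hJ' Y).1 hY).1, hsph', horth, hconn⟩
    intro X Y e hX
    rw [hJ'] at hX ⊢
    exact ⟨SimpleIn.iso (BUP_ab' σ' t) hX.1 e, BUP_V_iso e hX.2⟩
  refine ⟨σ', J', hj, hBlk, hZ, hS', hup, hlow, ?_⟩
  intro X
  obtain ⟨-, hbd'⟩ := hBDC h σ' t J' hBlk
  constructor
  · intro hX
    refine hPV X ((hbd' X).1 hX).1 ?_
    intro U hU
    exact Orth.of_gen hX (fun Y hY => BUP_V_orth (fun Z hZ => hNJ U Z hU hZ) hS ((hJ' Y).1 hY).2)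
  · intro hX
    exact (hbd' X).2 ⟨hVP X hX, fun U hU1 hU2 => hVN U X (hnot U hU1 hU2) hX⟩

end Main

end Pool.Move
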