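import Mathlib
import Pool.Agent.Work.MP_841263_mv.Interface

/-!
# Block GZS: iterated extensions of copies of a spherical object (helper58)
-/

open CategoryTheory CategoryTheory.Limits CategoryTheory.Pretriangulated
open scoped ZeroObject Topology
open Filter

set_option backward.isDefEq.respectTransparency false
set_option backward.defeqAttrib.useBackward true

namespace Pool.Move

open Pool.Stab Pool.Tube

universe v u

section

variable {C : Type u} [Category.{v} C] [Preadditive C] [HasZeroObject C] [HasShift C ℤ]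
  [∀ n : ℤ, (shiftFunctor C n).Additive] [Pretriangulated C] [Linear ℂ C]

omit [Pretriangulated C] [HasZeroObject C] [Linear ℂ C] in
lemma GZS_shift {S : C} (h : ∀ f : S ⟶ S⟦(-1 : ℤ)⟧, f = 0) (f : S⟦(1 : ℤ)⟧ ⟶ S) : f = 0 := by
  apply (shiftFunctor C (-1 : ℤ)).map_injective
  rw [Functor.map_zero]
  have e : S ≅ (S⟦(1 : ℤ)⟧)⟦(-1 : ℤ)⟧ := (shiftEquiv C (1 : ℤ)).unitIso.app S
  have h1 := h (e.hom ≫ (shiftFunctor C (-1 : ℤ)).map f)
  rw [← Category.id_comp ((shiftFunctor C (-1 : ℤ)).map f), ← e.inv_hom_id, Category.assoc, h1,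
    comp_zero]

omit [Pretriangulated C] [HasZeroObject C] [Linear ℂ C] [HasShift C ℤ]
  [∀ n : ℤ, (shiftFunctor C n).Additive] in
lemma GZS_iso {A B X Y : C} (h : ∀ f : A ⟶ B, f = 0) (e : X ≅ A) (e' : Y ≅ B) (f : X ⟶ Y) :
    f = 0 := by
  have h1 := h (e.inv ≫ f ≫ e'.hom)
  have h2 : f = e.hom ≫ (e.inv ≫ f ≫ e'.hom) ≫ e'.inv := by simp
  rw [h2, h1, zero_comp, comp_zero]

lemma GZS_main {S : C} (hS : Spherical S) {X : C} (hX : Gen (fun Y => Nonempty (Y ≅ S)) X) :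
    IsZero X ∨ ((∃ f : S ⟶ X, f ≠ 0) ∧ ∃ f : X ⟶ S, f ≠ 0) := by
  have hid : (𝟙 S : S ⟶ S) ≠ 0 := by
    intro h0
    have h1 : ∀ f : S ⟶ S, f = 0 := fun f => by rw [← Category.comp_id f, h0, comp_zero]
    have h2 := finrank_of_forall_zero h1
    rw [hS.1] at h2
    exact one_ne_zero h2
  have hm : ∀ f : S ⟶ S⟦(-1 : ℤ)⟧, f = 0 := hS.2 (-1) (by norm_num) (by norm_num)
  have hp : ∀ f : S⟦(1 : ℤ)⟧ ⟶ S, f = 0 := GZS_shift hm
  induction hX with
  | zero h => exact Or.inl h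
  | @of X h =>
    obtain ⟨e⟩ := h
    right
    refine ⟨⟨e.inv, ?_⟩, ⟨e.hom, ?_⟩⟩
    · intro h0
      apply hid
      rw [← e.inv_hom_id, h0, zero_comp]
    · intro h0
      apply hid
      rw [← e.inv_hom_id, h0, comp_zero]
  | @ext X Y Z f g k hT hX hZ h1 h2 =>
    have hSZ : ∀ a : S ⟶ Z⟦(-1 : ℤ)⟧, a = 0 := by
      intro a
      refine Gen.hom_zero (G := fun Y => Nonempty (Y ≅ S))
        (G' := fun Y => Nonempty (Y ≅ S⟦(-1 : ℤ)⟧)) ?_ (Gen.of ⟨Iso.refl S⟩)
        (Gen.shift' (-1) ?_ hZ) a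
      · rintro A B ⟨e⟩ ⟨e'⟩ b
        exact GZS_iso hm e e' b
      · rintro A ⟨e⟩
        exact ⟨(shiftFunctor C (-1 : ℤ)).mapIso e⟩
    have hXS : ∀ a : X⟦(1 : ℤ)⟧ ⟶ S, a = 0 := by
      intro a
      refine Gen.hom_zero (G := fun Y => Nonempty (Y ≅ S⟦(1 : ℤ)⟧))
        (G' := fun Y => Nonempty (Y ≅ S)) ?_ (Gen.shift' 1 ?_ hX) (Gen.of ⟨Iso.refl S⟩) a
      · rintro A B ⟨e⟩ ⟨e'⟩ b
        exact GZS_iso hp e e' b
      · rintro A ⟨e⟩
        exact ⟨(shiftFunctor C (1 : ℤ)).mapIso e⟩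
    by_cases hXz : IsZero X
    · have := iso_of_isZero₁ hT hXz
      have e : Y ≅ Z := asIso g
      rcases h2 with h2 | ⟨⟨a, ha⟩, ⟨b, hb⟩⟩
      · exact Or.inl (h2.of_iso e)
      · right
        refine ⟨⟨a ≫ e.inv, ?_⟩, ⟨e.hom ≫ b, ?_⟩⟩
        · intro h0
          apply ha
          rw [← Category.comp_id a, ← e.inv_hom_id, ← Category.assoc, h0, zero_comp]
        · intro h0
          apply hb
          rw [← Category.id_comp b, ← e.inv_hom_id, Category.assoc, h0, comp_zero]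
    · obtain ⟨⟨a, ha⟩, ⟨a', ha'⟩⟩ := h1.resolve_left hXz
      by_cases hZz : IsZero Z
      · have := iso_of_isZero₃ hT hZz
        have e : X ≅ Y := asIso f
        right
        refine ⟨⟨a ≫ e.hom, ?_⟩, ⟨e.inv ≫ a', ?_⟩⟩
        · intro h0
          apply ha
          rw [← Category.comp_id a, ← e.hom_inv_id, ← Category.assoc, h0, zero_comp]
        · intro h0
          apply ha'
          rw [← Category.id_comp a', ← e.hom_inv_id, Category.assoc, h0, comp_zero]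
      · obtain ⟨-, ⟨c, hc⟩⟩ := h2.resolve_left hZz
        right
        refine ⟨⟨a ≫ f, ?_⟩, ⟨g ≫ c, ?_⟩⟩
        · intro h0
          apply ha
          obtain ⟨p, q, hT'⟩ := exists_invrot hT
          obtain ⟨b, hb⟩ := Triangle.coyoneda_exact₂ _ hT' a h0
          rw [hb, hSZ b, zero_comp]
        · intro h0
          apply hc
          obtain ⟨b, hb⟩ := Triangle.yoneda_exact₂ _ (rot_mk hT) c h0
          rw [hb, hXS b, comp_zero]

end

variable (C : Type u) [Category.{v} C] [Preadditive C] [HasZeroObject C] [HasShift C ℤ]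
  [∀ n : ℤ, (shiftFunctor C n).Additive] [Pretriangulated C] [IsTriangulated C] [Linear ℂ C]
  [∀ n : ℤ, (shiftFunctor C n).Linear ℂ]

theorem p_GZS : Stmt_GZS C := by
  intro S hS X hX h
  rcases GZS_main hS hX with h1 | ⟨⟨f, hf⟩, ⟨g, hg⟩⟩
  · exact h1
  · rcases h with h | h
    · exact absurd (h f) hf
    · exact absurd (h g) hg

end Pool.Move
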