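import Pool.Agent.Work.MP_841263_mv.Interface3

/-!
# Block HBD: bounds for the phases under a raising (typed by helper82)
-/

open CategoryTheory CategoryTheory.Limits CategoryTheory.Pretriangulated
open scoped ZeroObject Topology
open Filter

set_option backward.isDefEq.respectTransparency false
set_option backward.defeqAttrib.useBackward true
set_option linter.unusedSectionVars false

namespace Pool.Move

open Pool.Stab Pool.Tube

universe v u

section

variable {C : Type u} [Category.{v} C] [Preadditive C] [HasZeroObject C] [HasShift C ℤ]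
  [∀ n : ℤ, (shiftFunctor C n).Additive] [Pretriangulated C]

/-- Shifting back. -/
lemma HBD_unshift {S : Slicing C} {I J : Set ℝ} {X : C} (n : ℤ) (h : S.In I (X⟦(-n)⟧))
    (hIJ : ∀ x ∈ I, x + (n : ℝ) ∈ J) : S.In J X := by
  have e : (X⟦(-n)⟧)⟦n⟧ ≅ X := (shiftFunctorCompIsoId C (-n) n (by simp)).app X
  refine ((h.shift n).iso e).mono ?_
  rintro _ ⟨x, hx, rfl⟩
  exact hIJ x hx

lemma HBD_im (σ : StabCond C) (t : ℝ) (x : K0 C) : σ.im (t - 1) x = - σ.im t x := by
  have h1 : Complex.exp (-(Real.pi * ((t - 1 : ℝ) : ℂ) * Complex.I)) =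
      - Complex.exp (-(Real.pi * t * Complex.I)) := by
    have h2 : (-(Real.pi * ((t - 1 : ℝ) : ℂ) * Complex.I) : ℂ) =
        -(Real.pi * t * Complex.I) + Real.pi * Complex.I := by
      push_cast; ring
    rw [h2, Complex.exp_add, Complex.exp_pi_mul_I]
    ring
  rw [σ.im_apply, σ.im_apply, h1, mul_neg, Complex.neg_im]

end

variable (C : Type u) [Category.{v} C] [Preadditive C] [HasZeroObject C] [HasShift C ℤ]
  [∀ n : ℤ, (shiftFunctor C n).Additive] [Pretriangulated C] [IsTriangulated C] [Linear ℂ C]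
  [∀ n : ℤ, (shiftFunctor C n).Linear ℂ]

variable {C} in
lemma HBD_fac (H : Stmt_HCO C) {h : EllipticSetting C} {σ₀ : StabCond C} {t : ℝ}
    {i j : Idx h σ₀ t} {S : C} (hS : i.J S) (hm : HiM i S j) {φ : ℝ} {A : C}
    (hA : i.σ.sl.P φ A) :
    j.σ.sl.In (Set.Icc (t + ⌈φ - t⌉ - 1) (t + ⌈φ - t⌉)) A := by
  set n : ℤ := ⌈φ - t⌉ with hn
  have h1 : φ - t ≤ n := Int.le_ceil _
  have h2 : (n : ℝ) < φ - t + 1 := Int.ceil_lt_add_one _
  have h3 : i.σ.sl.In (Set.Ioc (t - 1) t) (A⟦(-n)⟧) := by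
    refine ((Slicing.in_of_P (I := {φ}) hA rfl).shift (-n)).mono ?_
    rintro _ ⟨x, hx, rfl⟩
    have hx' : x = φ := hx
    subst hx'
    refine ⟨?_, ?_⟩
    · show t - 1 < x + ((-n : ℤ) : ℝ)
      push_cast; linarith
    · show x + ((-n : ℤ) : ℝ) ≤ t
      push_cast; linarith
  refine HBD_unshift n (H h σ₀ t i j S hS hm _ h3) ?_
  rintro x ⟨hx1, hx2⟩
  exact ⟨by linarith, by linarith⟩

variable {C} in
lemma HBD_low (H : Stmt_HCO C) {h : EllipticSetting C} {σ₀ : StabCond C} {t : ℝ}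
    {i j : Idx h σ₀ t} {S : C} (hS : i.J S) (hm : HiM i S j) (m : ℤ) {X : C} {l : List ℝ}
    (hl : HN i.σ.sl.P X l) (hI : ∀ φ ∈ l, φ ≤ t + m) : j.σ.sl.In (Set.Ioi (t + m))ᶜ X := by
  induction hl with
  | zero h => exact Slicing.in_of_isZero _ h
  | @step X Y A φ l hX hφ hA hA0 f g k hT ih =>
    refine Slicing.In.ext_lower (isUpperSet_Ioi _) hT (ih fun ψ hψ => hI ψ (by simp [hψ])) ?_
    refine (HBD_fac H hS hm hA).mono ?_
    rintro x ⟨-, hx2⟩ hx3
    have h1 : ⌈φ - t⌉ ≤ m := Int.ceil_le.2 (by linarith [hI φ (by simp)])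
    have h2 : ((⌈φ - t⌉ : ℤ) : ℝ) ≤ m := by exact_mod_cast h1
    have hx4 : t + (m : ℝ) < x := hx3
    linarith

variable {C} in
lemma HBD_up (H : Stmt_HCO C) {h : EllipticSetting C} {σ₀ : StabCond C} {t : ℝ}
    {i j : Idx h σ₀ t} {S : C} (hS : i.J S) (hm : HiM i S j) (m : ℤ) {X : C} {l : List ℝ}
    (hl : HN i.σ.sl.P X l) (hI : ∀ φ ∈ l, t + m < φ) : j.σ.sl.In (Set.Ici (t + m)) X := by
  induction hl with
  | zero h => exact Slicing.in_of_isZero _ h
  | @step X Y A φ l hX hφ hA hA0 f g k hT ih =>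
    refine Slicing.In.ext_upper (isUpperSet_Ici _) hT (ih fun ψ hψ => hI ψ (by simp [hψ])) ?_
    refine (HBD_fac H hS hm hA).mono ?_
    rintro x ⟨hx2, -⟩
    have h1 : m < ⌈φ - t⌉ := Int.lt_ceil.2 (by linarith [hI φ (by simp)])
    have h2 : (m : ℝ) + 1 ≤ ((⌈φ - t⌉ : ℤ) : ℝ) := by exact_mod_cast h1
    show t + (m : ℝ) ≤ x
    linarith

theorem p_HBD : Stmt_HCO C → Stmt_HBD C := by
  intro H h σ₀ t i j S hS hm
  refine ⟨?_, ?_⟩
  · rintro m X ⟨l, hl, hI⟩
    refine (HBD_low H hS hm m hl hI).mono ?_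
    intro x hx
    have hx' : ¬ t + (m : ℝ) < x := hx
    exact not_lt.1 hx'
  · rintro m X ⟨l, hl, hI⟩ h0
    classical
    obtain ⟨X', X'', f, g, k, hT, h1, h2⟩ := hl.trunc (Set.Ioi (t + (m : ℝ))) (isUpperSet_Ioi _)
    -- the upper part
    have hX' : j.σ.sl.In (Set.Ici (t + m)) X' := by
      refine HBD_up H hS hm m h1 ?_
      intro φ hφ
      obtain ⟨-, h4⟩ := List.mem_filter.1 hφ
      simpa using h4
    -- the lower part
    have hX''P : i.σ.sl.P (t + m) X'' := by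
      refine Slicing.In.P_of_singleton ⟨_, h2, fun φ hφ => ?_⟩
      obtain ⟨h3, h4⟩ := List.mem_filter.1 hφ
      have h5 : φ ≤ t + m := by simpa using h4
      exact le_antisymm h5 (hI φ h3)
    have hStab := i.blk.stable S hS
    have hSm : i.σ.sl.In {t + (m : ℝ)} (S⟦m⟧) := by
      refine ((Slicing.in_of_P (I := {t}) hStab.1 rfl).shift m).mono ?_
      rintro _ ⟨x, hx, rfl⟩
      have hx' : x = t := hx
      subst hx'
      rfl
    have hX'I : i.σ.sl.In (Set.Ioi (t + (m : ℝ))) X' := ⟨_, h1, by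
      intro φ hφ
      obtain ⟨-, h4⟩ := List.mem_filter.1 hφ
      simpa using h4⟩
    have h3 : ∀ a : X'' ⟶ S⟦m⟧, a = 0 := by
      intro a
      obtain ⟨b, hb⟩ := Triangle.yoneda_exact₃ _ hT a (h0 (g ≫ a))
      have hb0 : b = 0 := by
        refine Slicing.In.hom_zero (hX'I.shift_one) hSm ?_ b
        rintro _ ⟨x, hx, rfl⟩ y hy
        have hx' : t + (m : ℝ) < x := hx
        have hy' : y = t + (m : ℝ) := hy
        rw [hy']
        show t + (m : ℝ) < x + 1
        linarith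
      rw [hb, hb0]
      exact comp_zero
    have e : (X''⟦(-m)⟧)⟦m⟧ ≅ X'' := (shiftFunctorCompIsoId C (-m) m (by simp)).app X''
    have h4 : ∀ a : X''⟦(-m)⟧ ⟶ S, a = 0 := by
      intro a
      apply (shiftFunctor C m).map_injective
      rw [Functor.map_zero, ← cancel_epi e.inv, comp_zero]
      exact h3 _
    have h5 : i.σ.sl.In (Set.Ioc (t - 1) t) (X''⟦(-m)⟧) := by
      refine ((Slicing.in_of_P (I := {t + (m : ℝ)}) hX''P rfl).shift (-m)).mono ?_
      rintro _ ⟨x, hx, rfl⟩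
      have hx' : x = t + (m : ℝ) := hx
      subst hx'
      refine ⟨?_, ?_⟩
      · show t - 1 < t + (m : ℝ) + ((-m : ℤ) : ℝ)
        push_cast; linarith
      · show t + (m : ℝ) + ((-m : ℤ) : ℝ) ≤ t
        push_cast; linarith
    have h6 := hm.stay _ h5 h4
    -- imaginary parts
    have hP : i.σ.sl.P t (X''⟦(-m)⟧) := by
      refine Slicing.In.P_of_singleton
        (((Slicing.in_of_P (I := {t + (m : ℝ)}) hX''P rfl).shift (-m)).mono ?_)
      rintro _ ⟨x, hx, rfl⟩
      have hx' : x = t + (m : ℝ) := hx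
      subst hx'
      show t + (m : ℝ) + ((-m : ℤ) : ℝ) = t
      push_cast; ring
    have him : ∀ Y, i.σ.sl.P t Y → i.σ.im t (cls Y) = 0 := by
      intro Y hY
      have h7 := i.σ.im_of_P (t := t - 1) (X := Y) (by rw [sub_add_cancel]; exact hY)
      rw [HBD_im] at h7
      linarith
    have himj : j.σ.im t (cls (X''⟦(-m)⟧)) = 0 := by
      have h8 := him _ hP
      have h9 := him _ hStab.1
      rw [StabCond.im_apply] at h8 h9 ⊢
      rw [hm.Z, sub_mul, Complex.sub_im, h8, mul_assoc]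
      rw [Complex.mul_im, h9]
      simp
    have h7 : j.σ.sl.P (t - 1 + 1) (X''⟦(-m)⟧) := by
      refine j.σ.P_of_im (t := t - 1) ?_ (by rw [HBD_im, himj, neg_zero])
      refine h6.mono ?_
      rintro x ⟨hx1, hx2⟩
      exact ⟨hx1, by linarith⟩
    rw [sub_add_cancel] at h7
    have h8 : j.σ.sl.In (Set.Ici (t + m)) X'' := by
      refine HBD_unshift m (Slicing.in_of_P (I := {t}) h7 rfl) ?_
      intro x hx
      have hx' : x = t := hx
      subst hx'
      exact Set.self_mem_Ici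
    exact Slicing.In.ext_upper (isUpperSet_Ici _) hT hX' h8

end Pool.Move
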