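import Pool.Agent.Work.MP_841263_mv.Interface

/-!
HCL (MP_841263_ag, moves): the heart is constant on nearby stability conditions with the same signs.
-/

open CategoryTheory CategoryTheory.Limits CategoryTheory.Pretriangulated
open scoped ZeroObject Topology
open Filter

set_option backward.isDefEq.respectTransparency false
set_option backward.defeqAttrib.useBackward true
set_option linter.unusedSectionVars false

namespace Pool.Move

open Pool.Stab Pool.Tube

universe v u

variable {C : Type u} [Category.{v} C] [Preadditive C] [HasZeroObject C]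
    [HasShift C ℤ] [∀ n : ℤ, (shiftFunctor C n).Additive] [Pretriangulated C] [IsTriangulated C]
    [Linear ℂ C] [∀ n : ℤ, (shiftFunctor C n).Linear ℂ]

lemma HCL_gen_nonneg {G : C → Prop} {X : C} (h : Gen G X) (a : K0 C →+ ℝ)
    (ha : ∀ S, G S → 0 ≤ a (cls S)) : 0 ≤ a (cls X) := by
  induction h with
  | zero h0 => rw [cls_of_isZero h0, map_zero]
  | of hX => exact ha _ hX
  | ext hT _ _ ih1 ih2 => rw [cls_mk hT, map_add]; exact add_nonneg ih1 ih2

lemma HCL_gen_pos {G : C → Prop} {X : C} (h : Gen G X) (a : K0 C →+ ℝ)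
    (ha : ∀ S, G S → 0 < a (cls S)) : IsZero X ∨ 0 < a (cls X) := by
  induction h with
  | zero h0 => exact Or.inl h0
  | of hX => exact Or.inr (ha _ hX)
  | @ext X Y Z f g k hT h1 h2 ih1 ih2 =>
    have n1 := HCL_gen_nonneg h1 a (fun S hS => (ha S hS).le)
    have n2 := HCL_gen_nonneg h2 a (fun S hS => (ha S hS).le)
    rcases ih1 with z1 | p1
    · rcases ih2 with z2 | p2
      · left
        have := iso_of_isZero₁ hT z1
        exact z2.of_iso (asIso g)
      · right; rw [cls_mk hT, map_add]; linarith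
    · right; rw [cls_mk hT, map_add]; linarith

lemma HCL_nonneg [Module.Finite ℤ (K0 C)] [Module.Free ℤ (K0 C)] (τ : StabCond C)
    (a : K0 C →+ ℝ) {I : Set ℝ} {X : C} (hX : τ.sl.In I X)
    (ha : ∀ φ ∈ I, ∀ S, τ.Stable φ S → 0 ≤ a (cls S)) : 0 ≤ a (cls X) := by
  obtain ⟨l, hl, hI⟩ := hX
  refine hl.nonneg a ?_
  intro φ hφ Y hY _
  exact HCL_gen_nonneg (τ.gen_stable hY) a (ha φ (hI φ hφ))

lemma HCL_pos [Module.Finite ℤ (K0 C)] [Module.Free ℤ (K0 C)] (τ : StabCond C)
    (a : K0 C →+ ℝ) {I : Set ℝ} {X : C} (hX : τ.sl.In I X) (h0 : ¬ IsZero X)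
    (ha : ∀ φ ∈ I, ∀ S, τ.Stable φ S → 0 < a (cls S)) : 0 < a (cls X) := by
  obtain ⟨l, hl, hI⟩ := hX
  refine hl.pos a ?_ (hl.ne_nil h0)
  intro φ hφ Y hY hY0
  exact (HCL_gen_pos (τ.gen_stable hY) a (ha φ (hI φ hφ))).resolve_left hY0

lemma HCL_up (h : EllipticSetting C) (σ τ : StabCond C) (t η : ℝ) (h0 : 0 ≤ η)
    (hη : η < 1 / 4) (n1 : StabCond.Near η σ τ) (n2 : StabCond.Near η τ σ)
    (hs : ∀ x, eulerForm h.k3 x x ≤ 2 → (0 < σ.im t x ↔ 0 < τ.im t x)) {E : C}
    (hE : σ.sl.Heart t E) : τ.sl.In (Set.Ioi (t + 1))ᶜ E := by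
  have hfin := h.finite
  have hfree := h.free
  have hU := isUpperSet_Ioi (t + 1)
  obtain ⟨A, B, f, g, k, hT, hA, hB⟩ := τ.sl.exists_trunc E hU
  obtain ⟨a', c', hinv⟩ := exists_invrot hT
  have hA0 : IsZero A := by
    by_contra hA0
    have hEup : τ.sl.In (Set.Ioi (t + 1 + η))ᶜ E := n2.low (isUpperSet_Ioi _) (fun x hx => by
      have := hx.2
      show ¬ (t + 1 + η < x + η)
      linarith) hE
    have hAτ : τ.sl.In (Set.Ioi (t + 1 + η))ᶜ A := by
      refine Slicing.In.ext_lower (isUpperSet_Ioi _) hinv ?_ hEup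
      refine (hB.shift_neg_one).mono ?_
      rintro _ ⟨x, hx, rfl⟩
      have : x ≤ t + 1 := not_lt.1 hx
      show ¬ (t + 1 + η < x - 1)
      linarith
    have hAσup : σ.sl.In (Set.Ioi t) A := n1.up (isUpperSet_Ioi _) (fun x hx => by
      have : t + 1 < x := hx
      show t < x - η
      linarith) hA
    have hAσlow : σ.sl.In (Set.Ioi (t + 1))ᶜ A := by
      obtain ⟨A', A'', a, b, d, hT', hA', hA''⟩ := σ.sl.exists_trunc A hU
      have hcomp : a ≫ f = 0 := hA'.hom_zero hE (fun x hx y hy => by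
        have e1 : t + 1 < x := hx
        have e2 := hy.2
        linarith) _
      obtain ⟨q, hq⟩ := Triangle.coyoneda_exact₂ _ hinv a hcomp
      have hB' : σ.sl.In (Set.Ioi (t + 1))ᶜ (B⟦(-1 : ℤ)⟧) := by
        have e1 : σ.sl.In (Set.Ioi (t + 1 + η))ᶜ B := n1.low (isUpperSet_Ioi _) (fun x hx => by
          have : x ≤ t + 1 := not_lt.1 hx
          show ¬ (t + 1 + η < x + η)
          linarith) hB
        refine (e1.shift_neg_one).mono ?_
        rintro _ ⟨x, hx, rfl⟩
        have : x ≤ t + 1 + η := not_lt.1 hx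
        show ¬ (t + 1 < x - 1)
        linarith
      have hq0 : q = 0 := hA'.hom_zero hB' (IsUpperSet.sep hU) q
      have ha0 : a = 0 := by rw [hq, hq0, zero_comp]
      have hz : IsZero A' := isZero₁_of_mor₁ hT' ha0
        (fun r => (hA'.shift_upper hU).hom_zero hA'' (IsUpperSet.sep hU) r)
      have := iso_of_isZero₁ hT' hz
      exact hA''.iso (asIso b).symm
    have hge := σ.im_nonneg (Slicing.In.heart hAσup hAσlow)
    have hlt : 0 < (-(σ.im t)) (cls A) := by
      refine HCL_pos τ _ (Slicing.In.inter hU (isUpperSet_Ioi (t + 1 + η)) hA hAτ) hA0 ?_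
      rintro φ ⟨hφ1, hφ2⟩ S hS
      have e1 : t + 1 < φ := hφ1
      have e2 : φ ≤ t + 1 + η := not_lt.1 hφ2
      have e3 := (hS.cls_le h.k3).2
      obtain ⟨hp, -, him⟩ := τ.polar t hS.1 hS.2.1
      have e4 : 0 < Real.sin (Real.pi * (φ - t) - Real.pi) := by
        have hpi := Real.pi_pos
        apply Real.sin_pos_of_pos_of_lt_pi
        · nlinarith
        · nlinarith
      rw [Real.sin_sub_pi] at e4
      have e5 : 0 < τ.im t (-cls S) := by
        rw [map_neg, him]
        nlinarith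
      have e6 := (hs (-cls S) (by simpa using e3)).2 e5
      rw [map_neg] at e6
      rw [AddMonoidHom.neg_apply]
      exact e6
    rw [AddMonoidHom.neg_apply] at hlt
    linarith
  have := iso_of_isZero₁ hT hA0
  exact hB.iso (asIso g).symm

lemma HCL_low (h : EllipticSetting C) (σ τ : StabCond C) (t η : ℝ) (h0 : 0 ≤ η)
    (hη : η < 1 / 4) (n1 : StabCond.Near η σ τ) (n2 : StabCond.Near η τ σ)
    (hs : ∀ x, eulerForm h.k3 x x ≤ 2 → (0 < σ.im t x ↔ 0 < τ.im t x)) {E : C}
    (hE : σ.sl.Heart t E) : τ.sl.In (Set.Ioi t) E := by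
  have hfin := h.finite
  have hfree := h.free
  have hU := isUpperSet_Ioi t
  obtain ⟨A, B, f, g, k, hT, hA, hB⟩ := τ.sl.exists_trunc E hU
  have hrot := rot_mk hT
  have hB0 : IsZero B := by
    by_contra hB0
    have hV : IsUpperSet (Set.Ici (t - η)) := isUpperSet_Ici _
    have hElow : τ.sl.In (Set.Ici (t - η)) E := n2.up hV (fun x hx => by
      have := hx.1
      show t - η ≤ x - η
      linarith) hE
    have hBτ : τ.sl.In (Set.Ici (t - η)) B := by
      refine Slicing.In.ext_upper hV hrot hElow ?_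
      refine (hA.shift_one).mono ?_
      rintro _ ⟨x, hx, rfl⟩
      have : t < x := hx
      show t - η ≤ x + 1
      linarith
    have hBσlow : σ.sl.In (Set.Ioi (t + η))ᶜ B := n1.low (isUpperSet_Ioi _) (fun x hx => by
      have : x ≤ t := not_lt.1 hx
      show ¬ (t + η < x + η)
      linarith) hB
    have hBσup : σ.sl.In (Set.Ioi t) B := by
      obtain ⟨B', B'', a, b, d, hT', hB', hB''⟩ := σ.sl.exists_trunc B hU
      have hcomp : g ≫ b = 0 := hE.hom_zero hB'' (fun x hx y hy => by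
        have e1 := hx.1
        have e2 : y ≤ t := not_lt.1 hy
        linarith) _
      obtain ⟨q, hq⟩ := Triangle.yoneda_exact₂ _ hrot b hcomp
      have hA' : σ.sl.In (Set.Ioi t) (A⟦(1 : ℤ)⟧) := by
        have e1 : σ.sl.In (Set.Ioi (t - η)) A := n1.up (isUpperSet_Ioi _) (fun x hx => by
          have : t < x := hx
          show t - η < x - η
          linarith) hA
        refine (e1.shift_one).mono ?_
        rintro _ ⟨x, hx, rfl⟩
        have : t - η < x := hx
        show t < x + 1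
        linarith
      have hq0 : q = 0 := hA'.hom_zero hB'' (IsUpperSet.sep hU) q
      have hb0 : b = 0 := by rw [hq, hq0, comp_zero]
      have hz : IsZero B'' := isZero₃_of_mor₂ hT' hb0
        (fun r => (hB'.shift_upper hU).hom_zero hB'' (IsUpperSet.sep hU) r)
      have := iso_of_isZero₃ hT' hz
      exact hB'.iso (asIso a)
    have hlt : 0 < σ.im t (cls B) := by
      refine HCL_pos σ _ (Slicing.In.inter hU (isUpperSet_Ioi (t + η)) hBσup hBσlow) hB0 ?_
      rintro φ ⟨hφ1, hφ2⟩ S hS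
      have e1 : t < φ := hφ1
      have e2 : φ ≤ t + η := not_lt.1 hφ2
      exact σ.im_pos_of_P hS.1 hS.2.1 e1 (by linarith)
    have hle : 0 ≤ (-(σ.im t)) (cls B) := by
      refine HCL_nonneg τ _ (Slicing.In.inter hV hU hBτ hB) ?_
      rintro φ ⟨hφ1, hφ2⟩ S hS
      have e1 : t - η ≤ φ := hφ1
      have e2 : φ ≤ t := not_lt.1 hφ2
      have e3 := (hS.cls_le h.k3).2
      obtain ⟨hp, -, him⟩ := τ.polar t hS.1 hS.2.1
      have e4 : Real.sin (Real.pi * (φ - t)) ≤ 0 := by
        have hpi := Real.pi_pos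
        exact Real.sin_nonpos_of_nonpos_of_neg_pi_le (by nlinarith) (by nlinarith)
      have e5 : ¬ 0 < τ.im t (cls S) := by
        rw [him]
        intro hcon
        nlinarith
      have e6 : ¬ 0 < σ.im t (cls S) := fun hc => e5 ((hs _ e3).1 hc)
      rw [AddMonoidHom.neg_apply]
      linarith
    rw [AddMonoidHom.neg_apply] at hle
    linarith
  have := iso_of_isZero₃ hT hB0
  exact hA.iso (asIso f)

lemma HCL_near_mono {σ τ : StabCond C} {η η' : ℝ} (h : StabCond.Near η σ τ) (hle : η ≤ η') :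
    StabCond.Near η' σ τ := by
  intro φ X hX
  exact (h φ X hX).mono (Set.Icc_subset_Icc (by linarith) (by linarith))

theorem p_HCL : Stmt_HCL C := by
  intro h σ τ t η hη n1 n2 hs X hX
  have h0 : 0 ≤ max η 0 := le_max_right _ _
  have h1 : max η 0 < 1 / 4 := max_lt hη (by norm_num)
  have m1 := HCL_near_mono n1 (le_max_left η 0)
  have m2 := HCL_near_mono n2 (le_max_left η 0)
  exact Slicing.In.heart (HCL_low h σ τ t _ h0 h1 m1 m2 hs hX) (HCL_up h σ τ t _ h0 h1 m1 m2 hs hX)

end Pool.Move
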