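import Pool.Agent.Work.MP_841263_mv.Interface

/-! # Moves, block HCN (helper67) -/

set_option autoImplicit false
set_option backward.isDefEq.respectTransparency false
set_option backward.defeqAttrib.useBackward true

open CategoryTheory CategoryTheory.Limits CategoryTheory.Pretriangulated
open scoped ZeroObject Topology
open Filter

namespace Pool.Move

open Pool.Stab Pool.Tube

universe v u

theorem HCN_conn (J : Set unitInterval) (hJ : J.OrdConnected) (s s' : unitInterval)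
    (hs : s ∈ J) (hs' : s' ∈ J) :
    ∃ L : Set unitInterval, _root_.IsPreconnected L ∧ L ⊆ J ∧ s ∈ L ∧ s' ∈ L := by
  refine ⟨Set.projIcc (0 : ℝ) 1 zero_le_one '' Set.uIcc (s : ℝ) (s' : ℝ),
    isPreconnected_uIcc.image _ continuous_projIcc.continuousOn, ?_,
    ⟨s, Set.left_mem_uIcc, Set.projIcc_val _ s⟩, ⟨s', Set.right_mem_uIcc, Set.projIcc_val _ s'⟩⟩
  rintro _ ⟨r, hr, rfl⟩
  have h1 : Set.uIcc s s' ⊆ J := hJ.uIcc_subset hs hs'
  apply h1
  rw [Set.mem_uIcc] at hr ⊢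
  rcases hr with ⟨h2, h3⟩ | ⟨h2, h3⟩
  · left
    have h4 := Set.monotone_projIcc (zero_le_one (α := ℝ)) h2
    have h5 := Set.monotone_projIcc (zero_le_one (α := ℝ)) h3
    rw [Set.projIcc_val] at h4 h5
    exact ⟨h4, h5⟩
  · right
    have h4 := Set.monotone_projIcc (zero_le_one (α := ℝ)) h2
    have h5 := Set.monotone_projIcc (zero_le_one (α := ℝ)) h3
    rw [Set.projIcc_val] at h4 h5
    exact ⟨h4, h5⟩

/-- a property which is locally constant on `J` -/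
theorem HCN_loc (J : Set unitInterval) (hJ : J.OrdConnected) (H : unitInterval → Prop)
    (hl : ∀ s₀ ∈ J, ∀ᶠ s in 𝓝 s₀, s ∈ J → (H s ↔ H s₀)) (s s' : unitInterval)
    (hs : s ∈ J) (hs' : s' ∈ J) (h : H s) : H s' := by
  by_contra hn
  obtain ⟨L, hL, hLJ, hsL, hs'L⟩ := HCN_conn J hJ s s' hs hs'
  have hU : ∀ s₀ ∈ L, H s₀ → s₀ ∈ interior {s | s ∈ J → H s} := by
    intro s₀ h0 h1
    refine mem_interior_iff_mem_nhds.2 (mem_of_superset (hl s₀ (hLJ h0)) ?_)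
    intro r hr hrJ
    exact (hr hrJ).2 h1
  have hV : ∀ s₀ ∈ L, ¬ H s₀ → s₀ ∈ interior {s | s ∈ J → ¬ H s} := by
    intro s₀ h0 h1
    refine mem_interior_iff_mem_nhds.2 (mem_of_superset (hl s₀ (hLJ h0)) ?_)
    intro r hr hrJ hrX
    exact h1 ((hr hrJ).1 hrX)
  obtain ⟨r, hrL, hrU, hrV⟩ := hL _ _ isOpen_interior isOpen_interior
    (fun r hr => by
      by_cases h1 : H r
      · exact Or.inl (hU r hr h1)
      · exact Or.inr (hV r hr h1))
    ⟨s, hsL, hU s hsL h⟩ ⟨s', hs'L, hV s' hs'L hn⟩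
  have h1 := interior_subset hrU
  have h2 := interior_subset hrV
  exact h2 (hLJ hrL) (h1 (hLJ hrL))

section

variable {C : Type u} [Category.{v} C] [Preadditive C] [HasZeroObject C] [HasShift C ℤ]
  [∀ n : ℤ, (shiftFunctor C n).Additive] [Pretriangulated C] [IsTriangulated C] [Linear ℂ C]
  [∀ n : ℤ, (shiftFunctor C n).Linear ℂ]

theorem p_HCN : Pool.Align.Stmt_NEA C → Stmt_HCL C → Stmt_HCN C := by
  intro hNEA hHCL h Γ t J hJ hsg s hs s' hs' X
  have hl : ∀ s₀ ∈ J, ∀ᶠ r in 𝓝 s₀, r ∈ J →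
      ((Γ r).sl.Heart t X ↔ (Γ s₀).sl.Heart t X) := by
    intro s₀ hs₀
    filter_upwards [hNEA h Γ s₀ (1 / 8) (by norm_num)] with r hr hrJ
    have h1 : ∀ x, eulerForm h.k3 x x ≤ 2 → (0 < (Γ r).im t x ↔ 0 < (Γ s₀).im t x) :=
      fun x hx => ⟨hsg r hrJ s₀ hs₀ x hx, hsg s₀ hs₀ r hrJ x hx⟩
    exact ⟨hHCL h (Γ r) (Γ s₀) t (1 / 8) (by norm_num) hr.1 hr.2 h1 X,
      hHCL h (Γ s₀) (Γ r) t (1 / 8) (by norm_num) hr.2 hr.1 (fun x hx => (h1 x hx).symm) X⟩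
  exact ⟨HCN_loc J hJ (fun r => (Γ r).sl.Heart t X) hl s s' hs hs',
    HCN_loc J hJ (fun r => (Γ r).sl.Heart t X) hl s' s hs' hs⟩

end

end Pool.Move
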