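import Pool.Agent.Work.MP_841263_mv.Interface3

/-! # Moves, block HCO (helper11): the closed interval under a raising -/

set_option autoImplicit false

open CategoryTheory CategoryTheory.Limits CategoryTheory.Pretriangulated
open scoped ZeroObject Topology
open Filter

set_option backward.isDefEq.respectTransparency false
set_option backward.defeqAttrib.useBackward true
set_option linter.unusedSectionVars false

namespace Pool.Move

open Pool.Stab Pool.Tube

universe v u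

section

variable {C : Type u} [Category.{v} C] [Preadditive C] [HasZeroObject C] [HasShift C ℤ]
  [∀ n : ℤ, (shiftFunctor C n).Additive] [Pretriangulated C] [IsTriangulated C] [Linear ℂ C]
  [∀ n : ℤ, (shiftFunctor C n).Linear ℂ]

lemma HCO_stable_shift {σ : StabCond C} {φ : ℝ} {X : C} (h : σ.Stable φ X) :
    σ.Stable (φ - 1) (X⟦(-1 : ℤ)⟧) := by
  refine ⟨Slicing.P_shift_neg_one φ X h.1, fun h0 => h.2.1 ((isZero_shift_iff _ _).1 h0), ?_⟩
  intro Y Z f g k hT hY hZ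
  have hT' := Triangle.shift_distinguished _ hT (1 : ℤ)
  have e : (X⟦(-1 : ℤ)⟧)⟦(1 : ℤ)⟧ ≅ X := (shiftFunctorCompIsoId C (-1 : ℤ) 1 (by norm_num)).app X
  have hT2 : Triangle.mk ((1 : ℤ).negOnePow • f⟦(1 : ℤ)⟧') ((1 : ℤ).negOnePow • g⟦(1 : ℤ)⟧')
      ((1 : ℤ).negOnePow • k⟦(1 : ℤ)⟧' ≫ (shiftFunctorComm C (1 : ℤ) 1).hom.app Y) ∈
      distTriang C := hT'
  have hY' : σ.sl.P φ (Y⟦(1 : ℤ)⟧) := by
    have := (σ.sl.shift_mem (φ - 1) Y).1 hY
    simpa using this
  have hZ' : σ.sl.P φ (Z⟦(1 : ℤ)⟧) := by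
    have := (σ.sl.shift_mem (φ - 1) Z).1 hZ
    simpa using this
  rcases h.2.2 _ _ _ _ _ (tri_mid_iso hT2 e) hY' hZ' with h0 | h0
  · exact Or.inl ((isZero_shift_iff _ _).1 h0)
  · exact Or.inr ((isZero_shift_iff _ _).1 h0)

/-- `Hom(S[-1], S) = 0` for a spherical object. -/
lemma HCO_hom_neg {S : C} (hS : Spherical S) (f : S⟦(-1 : ℤ)⟧ ⟶ S) : f = 0 := by
  have h := hom_shift_zero (X := S) (Y := S) (a := -1) (b := 0) (c := 1) (by norm_num)
    (hS.2 1 (by norm_num) (by norm_num)) (f ≫ ((shiftFunctorZero C ℤ).app S).inv)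
  rw [← cancel_mono ((shiftFunctorZero C ℤ).app S).inv, h, zero_comp]

/-- Extensions in a closed interval. -/
lemma HCO_Icc_ext {S : Slicing C} {s t : ℝ} {X Y Z : C} {f : X ⟶ Y}
    {g : Y ⟶ Z} {h : Z ⟶ X⟦(1 : ℤ)⟧} (hT : Triangle.mk f g h ∈ distTriang C)
    (hX : S.In (Set.Icc s t) X) (hZ : S.In (Set.Icc s t) Z) :
    S.In (Set.Icc s t) Y := by
  have h1 : S.In (Set.Ici s) Y := Slicing.In.ext_upper (isUpperSet_Ici _) hT
    (hX.mono fun x hx => hx.1) (hZ.mono fun x hx => hx.1)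
  have h2 : S.In (Set.Ioi t)ᶜ Y := Slicing.In.ext_lower (isUpperSet_Ioi _) hT
    (hX.mono fun x hx => not_lt.2 hx.2) (hZ.mono fun x hx => not_lt.2 hx.2)
  refine (Slicing.In.inter (isUpperSet_Ici _) (isUpperSet_Ioi _) h1 h2).mono ?_
  rintro x ⟨hx1, hx2⟩
  exact ⟨hx1, not_lt.1 hx2⟩

/-- The fibre of a nonzero map `E ⟶ S`, `E ∈ P(t-1, t]`, `S` stable of phase `t`, is in `P(t-1, t]`. -/
lemma HCO_fibre (h : EllipticSetting C) {σ : StabCond C} {t : ℝ} {S : C} (hS : σ.Stable t S)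
    {E E' : C} (hE : σ.sl.In (Set.Ioc (t - 1) t) E) {a : E' ⟶ E} {f : E ⟶ S}
    {w : S ⟶ E'⟦(1 : ℤ)⟧} (hT : Triangle.mk a f w ∈ distTriang C) (hf : f ≠ 0) :
    σ.sl.In (Set.Ioc (t - 1) t) E' := by
  classical
  have hfin := Pool.Blk.finCat_P h σ (t - 1)
  have hA := hfin.toAbSub
  have hS1 := HCO_stable_shift hS
  obtain ⟨b, c, hT'⟩ := exists_invrot hT
  have hE' : σ.sl.In (Set.Icc (t - 1) t) E' := by
    refine HCO_Icc_ext hT' (Slicing.in_of_P hS1.1 ⟨le_rfl, by linarith⟩) (hE.mono ?_)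
    exact fun x hx => ⟨hx.1.le, hx.2⟩
  obtain ⟨l, hl, hI⟩ := hE'
  obtain ⟨X', X'', p, q, k, hT2, h1, h2⟩ := hl.trunc (Set.Ioi (t - 1)) (isUpperSet_Ioi _)
  have hX' : σ.sl.In (Set.Ioc (t - 1) t) X' := by
    refine ⟨_, h1, fun φ hφ => ?_⟩
    obtain ⟨h3, h4⟩ := List.mem_filter.1 hφ
    have h5 : t - 1 < φ := by simpa using h4
    exact ⟨h5, (hI φ h3).2⟩
  have hX'' : σ.sl.P (t - 1) X'' := by
    refine Slicing.In.P_of_singleton ⟨_, h2, fun φ hφ => ?_⟩
    obtain ⟨h3, h4⟩ := List.mem_filter.1 hφ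
    have h5 : φ ≤ t - 1 := by simpa using h4
    exact le_antisymm h5 (hI φ h3).1
  by_cases h0 : IsZero X''
  · have := iso_of_isZero₃ hT2 h0
    exact hX'.iso (asIso p)
  · exfalso
    obtain ⟨K, S', u, s, hs, hS'⟩ := hfin.exists_simple_quot X'' hX'' h0
    have hs0 : s ≠ 0 := by
      intro h3
      have h4 := hs.epi hA hS'.1 (𝟙 S') (by rw [h3, zero_comp])
      exact hS'.2.1 (by rwa [IsZero.iff_id_eq_zero])
    have hS'in : σ.sl.In {t - 1} S' := Slicing.in_of_P hS'.1 rfl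
    have hqs : q ≫ s ≠ 0 := by
      intro h3
      obtain ⟨r, hr⟩ := Triangle.yoneda_exact₂ _ (rot_mk hT2) s h3
      have hr0 : r = 0 := by
        refine Slicing.In.hom_zero (I := Set.Ioi (t - 1))
          (Slicing.In.shift_upper (isUpperSet_Ioi _) (hX'.mono fun x hx => hx.1)) hS'in ?_ r
        rintro x hx y rfl
        exact hx
      exact hs0 (by rw [hr, hr0, comp_zero])
    have hb0 : b ≫ (q ≫ s) ≠ 0 := by
      intro h3
      obtain ⟨r, hr⟩ := Triangle.yoneda_exact₂ _ hT' (q ≫ s) h3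
      have hr0 : r = 0 := by
        refine Slicing.In.hom_zero hE hS'in ?_ r
        rintro x hx y rfl
        exact hx.1
      exact hqs (by rw [hr, hr0, comp_zero])
    have hiso : IsIso (b ≫ (q ≫ s)) := hA.schur hS1 hS' _ hb0
    have hmono : Mono b := mono_of_mono b (q ≫ s)
    have hc : c = 0 := Triangle.mor₃_eq_zero_of_mono₁ _ hT' hmono
    have hepi : Epi a := Triangle.epi₂ _ hT' hc
    apply hf
    have h3 : a ≫ f = 0 := comp_distTriang_mor_zero₁₂ _ hT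
    rw [← cancel_epi a, h3, comp_zero]

/-- The dimension of `Hom(-, S)` drops. -/
lemma HCO_drop (h : EllipticSetting C) {S : C} (hS : Spherical S)
    {E E' : C} {a : E' ⟶ E} {f : E ⟶ S}
    {w : S ⟶ E'⟦(1 : ℤ)⟧} (hT : Triangle.mk a f w ∈ distTriang C) (hf : f ≠ 0) :
    Module.finrank ℂ (E' ⟶ S) < Module.finrank ℂ (E ⟶ S) := by
  have := h.k3.homFinite E S
  have := h.k3.homFinite E' S
  obtain ⟨b, c, hT'⟩ := exists_invrot hT
  let Φ : (E ⟶ S) →ₗ[ℂ] (E' ⟶ S) := Linear.leftComp ℂ S a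
  have hsurj : Function.Surjective Φ := by
    intro ψ
    obtain ⟨r, hr⟩ := Triangle.yoneda_exact₂ _ hT' ψ (HCO_hom_neg hS _)
    exact ⟨r, hr.symm⟩
  have hker : f ∈ LinearMap.ker Φ := by
    rw [LinearMap.mem_ker]
    exact comp_distTriang_mor_zero₁₂ _ hT
  have h1 := LinearMap.finrank_range_add_finrank_ker Φ
  rw [LinearMap.range_eq_top.2 hsurj, finrank_top] at h1
  have h2 : 0 < Module.finrank ℂ (LinearMap.ker Φ) := by
    rw [Module.finrank_pos_iff_exists_ne_zero]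
    refine ⟨⟨f, hker⟩, fun h3 => hf ?_⟩
    simpa using congrArg Subtype.val h3
  omega

end

variable (C : Type u) [Category.{v} C] [Preadditive C] [HasZeroObject C] [HasShift C ℤ]
  [∀ n : ℤ, (shiftFunctor C n).Additive] [Pretriangulated C] [IsTriangulated C] [Linear ℂ C]
  [∀ n : ℤ, (shiftFunctor C n).Linear ℂ]

theorem p_HCO : Stmt_HCO C := by
  intro h σ₀ t i j S hJ hm
  have hst := i.blk.stable S hJ
  have hsp := i.blk.sph S hJ
  have hSj : j.σ.sl.In (Set.Icc (t - 1) t) S :=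
    Slicing.in_of_P hm.stable.1 ⟨le_rfl, by linarith⟩
  have key : ∀ (n : ℕ) (E : C), Module.finrank ℂ (E ⟶ S) = n →
      i.σ.sl.In (Set.Ioc (t - 1) t) E → j.σ.sl.In (Set.Icc (t - 1) t) E := by
    intro n
    induction n using Nat.strong_induction_on with
    | _ n ih =>
      intro E hn hE
      by_cases h0 : ∀ f : E ⟶ S, f = 0
      · exact (hm.stay E hE h0).mono fun x hx => ⟨hx.1.le, hx.2⟩
      · push Not at h0
        obtain ⟨f, hf⟩ := h0
        obtain ⟨E', a, w, hT⟩ := distinguished_cocone_triangle₁ f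
        have h1 := HCO_drop h hsp hT hf
        have h2 := HCO_fibre h hst hE hT hf
        exact HCO_Icc_ext hT (ih _ (hn ▸ h1) E' rfl h2) hSj
  intro E hE
  exact key _ E rfl hE

end Pool.Move
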