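import Pool.Agent.Work.MP_841263_mv.Interface

/-!
# Block SLI: the phases `t` and `t + 1` of a slicing (typed by helper82)
-/

open CategoryTheory CategoryTheory.Limits CategoryTheory.Pretriangulated
open scoped ZeroObject Topology
open Filter

set_option backward.isDefEq.respectTransparency false
set_option backward.defeqAttrib.useBackward true
set_option linter.unusedSectionVars false

namespace Pool.Move

open Pool.Stab Pool.Tube

universe v u

section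

variable {C : Type u} [Category.{v} C] [Preadditive C] [HasZeroObject C] [HasShift C ℤ]
  [∀ n : ℤ, (shiftFunctor C n).Additive] [Pretriangulated C]

lemma SLI_im_P (σ : StabCond C) {t φ : ℝ} {X : C} (hX : σ.sl.P φ X)
    (h1 : t ≤ φ) (h2 : φ ≤ t + 1) : 0 ≤ σ.im t (cls X) := by
  by_cases h0 : IsZero X
  · rw [cls_of_isZero h0, map_zero]
  · obtain ⟨hpos, -, him⟩ := σ.polar t hX h0
    rw [him]
    refine mul_nonneg hpos.le (Real.sin_nonneg_of_nonneg_of_le_pi ?_ ?_)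
    · exact mul_nonneg Real.pi_pos.le (by linarith)
    · nlinarith [Real.pi_pos]

lemma SLI_im_HN (σ : StabCond C) {t : ℝ} {X : C} {l : List ℝ}
    (hX : HN σ.sl.P X l) (hl : ∀ φ ∈ l, φ ∈ Set.Icc t (t + 1)) : 0 ≤ σ.im t (cls X) := by
  induction hX with
  | zero h => rw [cls_of_isZero h, map_zero]
  | @step X Y A φ l hX hφ hA hA0 f g k hT ih =>
    rw [cls_mk hT, map_add]
    have h1 := ih (fun ψ hψ => hl ψ (by simp [hψ]))
    have h2 := hl φ (by simp)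
    have h3 := SLI_im_P σ hA h2.1 h2.2
    linarith

lemma SLI_eq_HN (σ : StabCond C) {t : ℝ} {X : C} {l : List ℝ}
    (hX : HN σ.sl.P X l) (hl : ∀ φ ∈ l, φ ∈ Set.Icc t (t + 1)) (h0 : σ.im t (cls X) ≤ 0) :
    ∀ φ ∈ l, φ = t ∨ φ = t + 1 := by
  induction hX with
  | zero h => simp
  | @step X Y A φ l hX hφ hA hA0 f g k hT ih =>
    rw [cls_mk hT, map_add] at h0
    have h1 := SLI_im_HN σ hX (fun ψ hψ => hl ψ (by simp [hψ]))
    have h2 := hl φ (by simp)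
    have h3 := SLI_im_P σ hA h2.1 h2.2
    have h4 := ih (fun ψ hψ => hl ψ (by simp [hψ])) (by linarith)
    intro ψ hψ
    rcases List.mem_cons.1 hψ with rfl | h
    · by_contra hne
      push Not at hne
      have h5 := σ.im_pos_of_P hA hA0 (lt_of_le_of_ne h2.1 (Ne.symm hne.1))
        (lt_of_le_of_ne h2.2 hne.2)
      linarith
    · exact h4 ψ h

lemma SLI_P_ext [IsTriangulated C] {S : Slicing C} {φ : ℝ} {X Y Z : C} {f : X ⟶ Y} {g : Y ⟶ Z}
    {h : Z ⟶ X⟦(1 : ℤ)⟧} (hT : Triangle.mk f g h ∈ distTriang C) (hX : S.P φ X)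
    (hZ : S.P φ Z) : S.P φ Y := by
  refine Slicing.In.P_of_singleton ?_
  have h1 : S.In (Set.Ici φ) Y := Slicing.In.ext_upper (isUpperSet_Ici _) hT
    (Slicing.in_of_P hX Set.self_mem_Ici) (Slicing.in_of_P hZ Set.self_mem_Ici)
  have h2 : S.In (Set.Ioi φ)ᶜ Y := Slicing.In.ext_lower (isUpperSet_Ioi _) hT
    (Slicing.in_of_P hX (by simp)) (Slicing.in_of_P hZ (by simp))
  refine (Slicing.In.inter (isUpperSet_Ici _) (isUpperSet_Ioi _) h1 h2).mono ?_
  rintro x ⟨hx1, hx2⟩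
  exact le_antisymm (not_lt.1 hx2) hx1

lemma SLI_Ico_ext [IsTriangulated C] {S : Slicing C} {t : ℝ} {X Y Z : C} {f : X ⟶ Y}
    {g : Y ⟶ Z} {h : Z ⟶ X⟦(1 : ℤ)⟧} (hT : Triangle.mk f g h ∈ distTriang C)
    (hX : S.In (Set.Ico t (t + 1)) X) (hZ : S.In (Set.Ico t (t + 1)) Z) :
    S.In (Set.Ico t (t + 1)) Y := by
  have h1 : S.In (Set.Ici t) Y := Slicing.In.ext_upper (isUpperSet_Ici _) hT
    (hX.mono fun x hx => hx.1) (hZ.mono fun x hx => hx.1)
  have h2 : S.In (Set.Ici (t + 1))ᶜ Y := Slicing.In.ext_lower (isUpperSet_Ici _) hT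
    (hX.mono fun x hx => not_le.2 hx.2) (hZ.mono fun x hx => not_le.2 hx.2)
  refine (Slicing.In.inter (isUpperSet_Ici _) (isUpperSet_Ici _) h1 h2).mono ?_
  rintro x ⟨hx1, hx2⟩
  exact ⟨hx1, not_le.1 hx2⟩

lemma SLI_Ioc_ext [IsTriangulated C] {S : Slicing C} {t : ℝ} {X Y Z : C} {f : X ⟶ Y}
    {g : Y ⟶ Z} {h : Z ⟶ X⟦(1 : ℤ)⟧} (hT : Triangle.mk f g h ∈ distTriang C)
    (hX : S.In (Set.Ioc t (t + 1)) X) (hZ : S.In (Set.Ioc t (t + 1)) Z) :
    S.In (Set.Ioc t (t + 1)) Y := by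
  have h1 : S.In (Set.Ioi t) Y := Slicing.In.ext_upper (isUpperSet_Ioi _) hT
    (hX.mono fun x hx => hx.1) (hZ.mono fun x hx => hx.1)
  have h2 : S.In (Set.Ioi (t + 1))ᶜ Y := Slicing.In.ext_lower (isUpperSet_Ioi _) hT
    (hX.mono fun x hx => not_lt.2 hx.2) (hZ.mono fun x hx => not_lt.2 hx.2)
  refine (Slicing.In.inter (isUpperSet_Ioi _) (isUpperSet_Ioi _) h1 h2).mono ?_
  rintro x ⟨hx1, hx2⟩
  exact ⟨hx1, not_lt.1 hx2⟩

end

variable (C : Type u) [Category.{v} C] [Preadditive C] [HasZeroObject C] [HasShift C ℤ]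
  [∀ n : ℤ, (shiftFunctor C n).Additive] [Pretriangulated C] [IsTriangulated C] [Linear ℂ C]
  [∀ n : ℤ, (shiftFunctor C n).Linear ℂ]

theorem p_SLI : Stmt_SLI C := by
  intro σ t X
  refine ⟨?_, ?_, ?_, ?_, ?_, ?_, ?_⟩
  · rintro ⟨l, hl, hI⟩
    exact SLI_im_HN σ hl hI
  · intro hX h0
    exact σ.P_of_im hX h0
  · rintro ⟨l, hl, hI⟩ h0
    classical
    have he := SLI_eq_HN σ hl hI h0.le
    obtain ⟨X', X'', f, g, k, hT, h1, h2⟩ := hl.trunc (Set.Ioi t) (isUpperSet_Ioi t)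
    refine ⟨X', X'', f, g, k, hT, ?_, ?_⟩
    · refine Slicing.In.P_of_singleton ⟨_, h1, fun φ hφ => ?_⟩
      obtain ⟨h3, h4⟩ := List.mem_filter.1 hφ
      have h5 : t < φ := by simpa using h4
      rcases he φ h3 with h6 | h6
      · exact absurd h6 h5.ne'
      · exact h6
    · refine Slicing.In.P_of_singleton ⟨_, h2, fun φ hφ => ?_⟩
      obtain ⟨h3, h4⟩ := List.mem_filter.1 hφ
      have h5 : φ ≤ t := by simpa using h4
      exact le_antisymm h5 (hI φ h3).1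
  · rintro ⟨l, hl, hI⟩ h0
    have he := SLI_eq_HN σ hl (fun φ hφ => ⟨(hI φ hφ).1, (hI φ hφ).2.le⟩) h0.le
    refine Slicing.In.P_of_singleton ⟨l, hl, fun φ hφ => ?_⟩
    rcases he φ hφ with h6 | h6
    · exact h6
    · exact absurd h6 (hI φ hφ).2.ne
  · intro hX
    by_cases h0 : IsZero X
    · rw [cls_of_isZero h0, map_zero]
    · obtain ⟨-, -, him⟩ := σ.polar t hX h0
      rw [him, sub_self, mul_zero, Real.sin_zero, mul_zero]
  · intro hX h0
    obtain ⟨hpos, hre, -⟩ := σ.polar t hX h0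
    rw [hre, sub_self, mul_zero, Real.cos_zero, mul_one]
    exact hpos
  · intro Y Z f g k hT
    exact ⟨SLI_Ico_ext hT, SLI_Ioc_ext hT, SLI_P_ext hT, SLI_P_ext hT⟩

end Pool.Move
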