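import Pool.Agent.Work.MP_841263_mv.Interface3
import Pool.Agent.Work.MP_841263_mv.B_SLI

set_option autoImplicit false
set_option linter.unusedSectionVars false

/-! # MP_841263, moves, block LBD: bounds for the phases under a lowering (typed by helper76) -/

open CategoryTheory CategoryTheory.Limits CategoryTheory.Pretriangulated
open scoped ZeroObject Topology
open Filter

namespace Pool.Move

open Pool.Stab Pool.Tube

universe v u

variable {C : Type u} [Category.{v} C] [Preadditive C] [HasZeroObject C] [HasShift C ℤ]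
  [∀ n : ℤ, (shiftFunctor C n).Additive] [Pretriangulated C] [IsTriangulated C] [Linear ℂ C]
  [∀ n : ℤ, (shiftFunctor C n).Linear ℂ]

/-- The charges have the same imaginary part. -/
theorem LBD_im (h : EllipticSetting C) {σ σ' : StabCond C} (t : ℝ) {S : C}
    (hZ : ∀ x, σ'.Z x = σ.Z x - eulerForm h.k3 x (cls S) * σ.Z (cls S))
    (hS : σ.im t (cls S) = 0) (x : K0 C) : σ'.im t x = σ.im t x := by
  have h0 : σ'.im t x = σ.im t x - (eulerForm h.k3 x (cls S) : ℝ) * σ.im t (cls S) := by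
    rw [StabCond.im_apply, StabCond.im_apply, StabCond.im_apply, hZ, sub_mul, Complex.sub_im]
    congr 1
    have h1 : ((eulerForm h.k3 x (cls S) : ℤ) : ℂ) =
        (((eulerForm h.k3 x (cls S) : ℤ) : ℝ) : ℂ) := by
      push_cast
      rfl
    rw [h1, mul_assoc (((eulerForm h.k3 x (cls S) : ℤ) : ℝ) : ℂ), Complex.im_ofReal_mul]
  rw [h0, hS, mul_zero, sub_zero]

/-- Shifting back. -/
theorem LBD_unshift {S : Slicing C} {I J : Set ℝ} {X : C} (k : ℤ) (hX : S.In I (X⟦-k⟧))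
    (hIJ : ∀ x ∈ I, x + k ∈ J) : S.In J X := by
  have h1 := hX.shift k
  refine (h1.iso ((shiftFunctorCompIsoId C (-k) k (by ring)).app X)).mono ?_
  rintro _ ⟨x, hx, rfl⟩
  exact hIJ x hx

/-- The phases of a semistable object of phase `φ` after the move. -/
theorem LBD_one {S S' : Slicing C} {t : ℝ}
    (hco : ∀ E, S.In (Set.Ico t (t + 1)) E → S'.In (Set.Icc t (t + 1)) E) {φ : ℝ} {A : C}
    (hA : S.P φ A) :
    S'.In (Set.Icc (t + (⌊φ - t⌋ : ℝ)) (t + (⌊φ - t⌋ : ℝ) + 1)) A := by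
  have h1 : S.In (Set.Ico t (t + 1)) (A⟦-⌊φ - t⌋⟧) := by
    refine ((Slicing.in_of_P hA (Set.mem_singleton φ)).shift (-⌊φ - t⌋)).mono ?_
    rintro _ ⟨x, hx, rfl⟩
    obtain rfl : x = φ := hx
    have h2 := Int.floor_le (x - t)
    have h3 := Int.lt_floor_add_one (x - t)
    constructor
    · push_cast
      linarith
    · push_cast
      linarith
  refine LBD_unshift ⌊φ - t⌋ (hco _ h1) ?_
  rintro x ⟨hx1, hx2⟩
  exact ⟨by linarith, by linarith⟩

theorem LBD_up {S S' : Slicing C} {t : ℝ}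
    (hco : ∀ E, S.In (Set.Ico t (t + 1)) E → S'.In (Set.Icc t (t + 1)) E) (m : ℤ) {X : C}
    (hX : S.In (Set.Ici (t + m)) X) : S'.In (Set.Ici (t + m)) X := by
  obtain ⟨l, hl, hI⟩ := hX
  induction hl with
  | zero h => exact Slicing.in_of_isZero _ h
  | @step X Y A φ l hX hφ hA hA0 f g k hT ih =>
    refine Slicing.In.ext_upper (isUpperSet_Ici _) hT (ih fun ψ hψ => hI ψ (by simp [hψ])) ?_
    refine (LBD_one hco hA).mono ?_
    rintro x ⟨hx, -⟩
    have h1 : t + m ≤ φ := hI φ (by simp)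
    have h2 : (m : ℝ) ≤ (⌊φ - t⌋ : ℝ) := by
      exact_mod_cast Int.le_floor.2 (by linarith : (m : ℝ) ≤ φ - t)
    exact Set.mem_Ici.2 (by linarith)

theorem LBD_low {S S' : Slicing C} {t : ℝ}
    (hco : ∀ E, S.In (Set.Ico t (t + 1)) E → S'.In (Set.Icc t (t + 1)) E) (m : ℤ) {X : C}
    (hX : S.In (Set.Iio (t + m)) X) : S'.In (Set.Ioi (t + (m : ℝ)))ᶜ X := by
  obtain ⟨l, hl, hI⟩ := hX
  induction hl with
  | zero h => exact Slicing.in_of_isZero _ h
  | @step X Y A φ l hX hφ hA hA0 f g k hT ih =>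
    refine Slicing.In.ext_lower (isUpperSet_Ioi _) hT (ih fun ψ hψ => hI ψ (by simp [hψ])) ?_
    refine (LBD_one hco hA).mono ?_
    rintro x ⟨-, hx⟩
    have h1 : φ < t + m := hI φ (by simp)
    have h2 : ⌊φ - t⌋ < m := Int.floor_lt.2 (by linarith)
    have h3 : (⌊φ - t⌋ : ℝ) + 1 ≤ m := by exact_mod_cast h2
    exact not_lt.2 (by linarith : x ≤ t + m)

theorem p_LBD : Stmt_LCO C → Stmt_LBD C := by
  classical
  intro hLCO h σ₀ t i j S hS hm
  have hco := hLCO h σ₀ t i j S hS hm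
  refine ⟨fun m X hX => LBD_up hco m hX, ?_⟩
  rintro m X ⟨l, hl, hI⟩ h0
  have hSP : i.σ.sl.P t S := (i.blk.stable S hS).1
  obtain ⟨E, X', a, b, c, hT, hE', hX'⟩ := hl.trunc (Set.Ici (t + m)) (isUpperSet_Ici _)
  have hX'' : i.σ.sl.In (Set.Iio (t + m)) X' := by
    refine ⟨_, hX', fun φ hφ => ?_⟩
    have h1 := (List.mem_filter.1 hφ).2
    have h2 : ¬ (t + m ≤ φ) := by simpa using h1
    exact not_le.1 h2
  have hE : i.σ.sl.In {t + (m : ℝ)} E := by
    refine ⟨_, hE', fun φ hφ => ?_⟩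
    obtain ⟨h1, h2⟩ := List.mem_filter.1 hφ
    have h3 : t + m ≤ φ := by simpa using h2
    exact le_antisymm (hI φ h1) h3
  -- no maps from `S[m]` to `E`
  have hSm : i.σ.sl.In {t + (m : ℝ)} (S⟦m⟧) := by
    refine ((Slicing.in_of_P hSP (Set.mem_singleton t)).shift m).mono ?_
    rintro _ ⟨x, hx, rfl⟩
    obtain rfl : x = t := hx
    rfl
  have hSE : ∀ f : S⟦m⟧ ⟶ E, f = 0 := by
    obtain ⟨p, q, hT'⟩ := exists_invrot hT
    intro f
    refine hom_zero_of_ext₂ hT' (fun u => ?_) h0 f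
    refine hSm.hom_zero hX''.shift_neg_one ?_ u
    rintro φ hφ _ ⟨x, hx, rfl⟩
    obtain rfl : φ = t + m := hφ
    have : x < t + m := hx
    show x - 1 < t + m
    linarith
  have hEs : i.σ.sl.In {t} (E⟦-m⟧) := by
    refine (hE.shift (-m)).mono ?_
    rintro _ ⟨x, hx, rfl⟩
    obtain rfl : x = t + m := hx
    show t + (m : ℝ) + ((-m : ℤ) : ℝ) = t
    push_cast
    ring
  have hEP : i.σ.sl.P t (E⟦-m⟧) := hEs.P_of_singleton
  have hSE' : ∀ f : S ⟶ E⟦-m⟧, f = 0 := by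
    intro f
    let e := (shiftFunctorCompIsoId C (-m) m (by ring)).app E
    have h1 := hSE ((shiftFunctor C m).map f ≫ e.hom)
    have h2 : (shiftFunctor C m).map f = 0 := by
      rw [← cancel_mono e.hom, h1, zero_comp]
    exact (shiftFunctor C m).map_injective (by rw [h2, Functor.map_zero])
  have hstay := hm.stay _ (hEs.mono (by
    rintro x rfl
    exact ⟨le_rfl, by linarith⟩)) hSE'
  have him : j.σ.im t (cls (E⟦-m⟧)) = 0 := by
    rw [LBD_im h t hm.Z ((p_SLI C i.σ t S).2.2.2.2.1 hSP)]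
    exact (p_SLI C i.σ t _).2.2.2.2.1 hEP
  have hEP' : j.σ.sl.P t (E⟦-m⟧) := (p_SLI C j.σ t _).2.2.2.1 hstay him
  have hEj : j.σ.sl.In (Set.Ioi (t + (m : ℝ)))ᶜ E := by
    refine LBD_unshift m (Slicing.in_of_P hEP' (Set.mem_singleton t)) ?_
    rintro x rfl
    exact not_lt.2 (le_refl (x + (m : ℝ)))
  refine (Slicing.In.ext_lower (isUpperSet_Ioi _) hT hEj (LBD_low hco m hX'')).mono ?_
  intro x hx
  rw [Set.compl_Ioi] at hx
  exact hx

end Pool.Move
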