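import Mathlib
import Pool.Agent.Work.MP_841263_mv.Interface
import Pool.Agent.Work.MP_841263_ws.Interface
import Pool.Agent.Work.MP_841263_r3.Block

/-!
# Moves, part 2: the family of affine blocks with half turns, glue with `MP_841263_ws` (helper92)

RULES as in `Interface.lean` (import this file instead of `Interface.lean`; the statements of `Interface.lean` are in the same namespace).
-/

open CategoryTheory CategoryTheory.Limits CategoryTheory.Pretriangulated
open scoped ZeroObject Topology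
open Filter

namespace Pool.Move

open Pool.Stab Pool.Tube

universe v u

section Defs

variable {C : Type u} [Category.{v} C] [Preadditive C] [HasZeroObject C] [HasShift C ℤ]
  [∀ n : ℤ, (shiftFunctor C n).Additive] [Pretriangulated C] [IsTriangulated C] [Linear ℂ C]
  [∀ n : ℤ, (shiftFunctor C n).Linear ℂ]

/-- The block contains a nonzero object with class in the radical. -/
def HasRad (hK : IsK3 C) (A : C → Prop) : Prop :=
  ∃ D : C, A D ∧ ¬ IsZero D ∧ ∀ y, eulerForm hK (cls D) y = 0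

/-- Pairs of a stability condition joined to `σ₀`, with the same charge on the radical, and an affine block of phase `t`. -/
structure Idx (h : EllipticSetting C) (σ₀ : StabCond C) (t : ℝ) where
  σ : StabCond C
  J : C → Prop
  joined : Joined σ₀ σ
  rad : ∀ r ∈ radical (eulerForm h.k3), σ.Z r = σ₀.Z r
  blk : Blk h.k3 σ t J
  aff : HasRad h.k3 (Gen J)

/-- `j` is the lowering of `i` at `S`. -/
structure LoM {h : EllipticSetting C} {σ₀ : StabCond C} {t : ℝ} (i : Idx h σ₀ t) (S : C)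
    (j : Idx h σ₀ t) : Prop where
  joined : Joined i.σ j.σ
  Z : ∀ x, j.σ.Z x = i.σ.Z x - eulerForm h.k3 x (cls S) * i.σ.Z (cls S)
  stable : j.σ.Stable (t + 1) S
  stay : ∀ E, i.σ.sl.In (Set.Ico t (t + 1)) E → (∀ f : S ⟶ E, f = 0) →
    j.σ.sl.In (Set.Ico t (t + 1)) E
  back : ∀ E, j.σ.sl.In (Set.Ioc t (t + 1)) E → (∀ f : E ⟶ S, f = 0) →
    i.σ.sl.In (Set.Ioc t (t + 1)) E
  down : WS.Down (Gen i.J) S (Gen j.J)

/-- `j` is the raising of `i` at `S`. -/
structure HiM {h : EllipticSetting C} {σ₀ : StabCond C} {t : ℝ} (i : Idx h σ₀ t) (S : C)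
    (j : Idx h σ₀ t) : Prop where
  joined : Joined i.σ j.σ
  Z : ∀ x, j.σ.Z x = i.σ.Z x - eulerForm h.k3 x (cls S) * i.σ.Z (cls S)
  stable : j.σ.Stable (t - 1) S
  stay : ∀ E, i.σ.sl.In (Set.Ioc (t - 1) t) E → (∀ f : E ⟶ S, f = 0) →
    j.σ.sl.In (Set.Ioc (t - 1) t) E
  back : ∀ E, j.σ.sl.In (Set.Ico (t - 1) t) E → (∀ f : S ⟶ E, f = 0) →
    i.σ.sl.In (Set.Ico (t - 1) t) E
  up : WS.Up (Gen i.J) S (Gen j.J)

end Defs

section Category

variable (C : Type u) [Category.{v} C] [Preadditive C] [HasZeroObject C] [HasShift C ℤ]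
  [∀ n : ℤ, (shiftFunctor C n).Additive] [Pretriangulated C] [IsTriangulated C] [Linear ℂ C]
  [∀ n : ℤ, (shiftFunctor C n).Linear ℂ]

/-- IBK (60 lines), from `IsBlock` to `Blk`. `sph`: `spherical_of_rigid` (class of norm 2, `IsBlock.dich` excludes nothing here: rigid gives
norm `2 - 0`); `conn`: `(IsBlock.localSetting h hG hr).conn`. -/
def Stmt_IBK : Prop := ∀ (h : EllipticSetting C) (σ : StabCond C) (t : ℝ) (G : C → Prop),
  Pool.Blk.IsBlock σ t G → (∀ S, G S → Rigid S) → Blk h.k3 σ t G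

/-- BLE (150 lines), the radical object survives a move. `R'` = classes of `J'`. (1) Every class of an object `X` of `Gen J` is in the subgroup generated by
`R'`: case `Down`: maximal isotypic subobject `T → X → F` in `Gen J` (`T` generated by `S`, `Hom(S, F) = 0`; `FinCat` of `Gen J` by `BLS` or
`finCat_P` and `FinCat.gen_fin`; as `WS.Stmt_ISS`), `F ∈ Gen J'` (`Down` with `T = 0`), `T[-1] ∈ Gen J'` (`Down` with `F = 0`); case `Up`: `FinCat.isotypic`: `F → X → T`,
`Hom(F, S) = 0`, `T[1] ∈ Gen J'`. (2) So the class `r ≠ 0` of `D` (`re r > 0`) is `∑ c x • x`, a finite sum over `x ∈ R'`, not all `c x = 0`. Put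
`r' = ∑ |c x| • x`. `0 ≤ B r' r' ≤ B r r = 0` as `B x y ≤ 0` for `x ≠ y` in `R'` (`OffDiag`, `LocalSetting.offDiag`), so `r'` is in the radical
(`IsPSD.mem_radical_of_self`). `D'` = direct sum of `|c x|` copies of objects of `J'` of class `x` (induction), `cls D' = r'`, not zero
since `re' r' > 0`. -/
def Stmt_BLE : Prop := ∀ (h : EllipticSetting C) (σ σ' : StabCond C) (t : ℝ)
  (J J' : C → Prop), Blk h.k3 σ t J → Blk h.k3 σ' t J' → ∀ S, J S →
  (WS.Down (Gen J) S (Gen J') ∨ WS.Up (Gen J) S (Gen J')) →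
  HasRad h.k3 (Gen J) → HasRad h.k3 (Gen J')

/-- MVS (60 lines; uses BLS BLO BUP BLE), **the family of affine blocks**. `Block`: BLS and `aff`. `lo_ex`: BLO (`σ.im t δ = 0` as the charges agree on the
radical, `Z' r = Z r` for `r` in the radical), BLE. `lo_im`: real part of `Z` (rotated). -/
def Stmt_MVS : Prop := ∀ (h : EllipticSetting C) (σ₀ : StabCond C) (t : ℝ) (δ : K0 C),
  δ ∈ radical (eulerForm h.k3) → δ ≠ 0 → σ₀.im t δ = 0 →
  WS.Moves h.k3 (Idx h σ₀ t) (fun i => Gen i.J) (fun i => i.σ.re t) (fun i => i.J) LoM HiM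

/-- WKL (80 lines; uses GZS), what a chain of lowerings at objects of `T` does to other objects. `T` is a class of objects of the first block
`W = Gen i₀.J` and `E ∈ P(t, t+1)`-type object with `Hom(T, E) = 0`: it stays in `P[t, t+1)` along the chain (induction: `LoM.stay`, the
hypothesis `Hom(S, E) = 0` for the next `S` is `T S`). -/
def Stmt_WKL : Prop := ∀ (h : EllipticSetting C) (σ₀ : StabCond C) (t : ℝ) (T : C → Prop)
  (i₀ j : Idx h σ₀ t), WS.Chain (fun i : Idx h σ₀ t => i.J) LoM T i₀ j →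
  Joined i₀.σ j.σ ∧ (∀ E, i₀.σ.sl.In (Set.Ico t (t + 1)) E → (∀ S, T S → ∀ f : S ⟶ E, f = 0) →
    j.σ.sl.In (Set.Ico t (t + 1)) E) ∧
  ∀ E, j.σ.sl.In (Set.Ioc t (t + 1)) E → (∀ S, T S → ∀ f : E ⟶ S, f = 0) →
    i₀.σ.sl.In (Set.Ioc t (t + 1)) E

/-- WKH (60 lines), the same for raisings at objects of `F`. -/
def Stmt_WKH : Prop := ∀ (h : EllipticSetting C) (σ₀ : StabCond C) (t : ℝ) (F : C → Prop)
  (i₀ j : Idx h σ₀ t), WS.Chain (fun i : Idx h σ₀ t => i.J) HiM F i₀ j →
  Joined i₀.σ j.σ ∧ (∀ E, i₀.σ.sl.In (Set.Ioc (t - 1) t) E → (∀ S, F S → ∀ f : E ⟶ S, f = 0) →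
    j.σ.sl.In (Set.Ioc (t - 1) t) E) ∧
  ∀ E, j.σ.sl.In (Set.Ico (t - 1) t) E → (∀ S, F S → ∀ f : S ⟶ E, f = 0) →
    i₀.σ.sl.In (Set.Ico (t - 1) t) E

end Category

end Pool.Move
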