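import Mathlib
import Pool.Agent.Work.MP_841263_mv.Interface2

/-!
# Moves, part 3: bounds for the phases (helper92)

Lowering at `S ∈ P(t)` moves `S` to phase `t + 1`: lower bounds `t + m ≤ phases` are kept by all objects, upper bounds
`phases ≤ t + m` by the objects `X` with `Hom(S[m], X) = 0`. Raising moves `S` to phase `t - 1`: dual.
The conditions `Hom(S[m], X) = 0` do not mention the stability condition, so they can be used along a chain of moves.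

RULES as in `Interface.lean` (import this file).
-/

open CategoryTheory CategoryTheory.Limits CategoryTheory.Pretriangulated
open scoped ZeroObject Topology
open Filter

namespace Pool.Move

open Pool.Stab Pool.Tube

universe v u

section Category

variable (C : Type u) [Category.{v} C] [Preadditive C] [HasZeroObject C] [HasShift C ℤ]
  [∀ n : ℤ, (shiftFunctor C n).Additive] [Pretriangulated C] [IsTriangulated C] [Linear ℂ C]
  [∀ n : ℤ, (shiftFunctor C n).Linear ℂ]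

/-- LCO (100 lines). Induction on `k = finrank Hom(S, E)`. `k = 0`: `LoM.stay`. `k > 0`: a nonzero `f : S ⟶ E` with cone `E'`. (i) `E' ∈ P_i[t, t+1)`: it is an
extension of `S[1]` (phase `t + 1`) by `E`, so in `P_i[t, t+1]`; let `G → E' → E''` be the truncation at `Ici (t + 1)`, `G ∈ P_i(t+1)`; if `G` is not zero take a
stable subobject `G₁ → G` in `P_i(t+1)` (`Pool.Blk.finCat_P`, `FinCat.exists_simple_sub`); `G₁ → G → E'` is not 0 (`Hom(G₁, E''[-1]) = 0`), and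
`G₁ → E' → S[1]` is not 0 (`Hom(G₁, E) = 0` by phases), so an isomorphism (`AbSub.schur` in `P_i(t+1)`; `S[1]` is stable of phase `t + 1`): `E' → S[1]` is split
epi, so `f = 0`. (ii) `finrank Hom(S, E') = k - 1`: `Hom(S, S[1]) = 0` and `Hom(S, S) = ℂ → Hom(S, E)` is injective (`f` not 0). Induction: `E' ∈ P_j[t, t+1]`,
`S ∈ P_j(t+1)`, so `E ∈ P_j[t, t+1]`. (`i.blk`, `J S`: `S` is `i.σ`-stable of phase `t` and spherical.) -/
def Stmt_LCO : Prop := ∀ (h : EllipticSetting C) (σ₀ : StabCond C) (t : ℝ) (i j : Idx h σ₀ t)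
  (S : C), i.J S → LoM i S j → ∀ E, i.σ.sl.In (Set.Ico t (t + 1)) E →
    j.σ.sl.In (Set.Icc t (t + 1)) E

/-- HCO (100 lines), dual to LCO: nonzero `f : E ⟶ S`, `E'` its fibre, `E' ∈ P_i(t-1, t]`, induction on `finrank Hom(E, S)`. -/
def Stmt_HCO : Prop := ∀ (h : EllipticSetting C) (σ₀ : StabCond C) (t : ℝ) (i j : Idx h σ₀ t)
  (S : C), i.J S → HiM i S j → ∀ E, i.σ.sl.In (Set.Ioc (t - 1) t) E →
    j.σ.sl.In (Set.Icc (t - 1) t) E

/-- LBD (120 lines; uses LCO). (1) for `m = 0` (shift): `X` has finitely many phases; induction on `N` with `X ∈ P_i[t, t + N)`: truncate at `Ici (t + 1)`, LCO for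
the lower part, the upper part (shifted by `-1`) by induction. (2) `m = 0`: `X ∈ P_i(≤ t)`; truncate at `Ici t`: `E → X → X'`, `E ∈ P_i(t)`, `X' ∈ P_i(< t)`:
`Hom(S, E) → Hom(S, X)` is injective (`Hom(S, X'[-1]) = 0`), so `Hom(S, E) = 0` and `E ∈ P_j[t, t+1)` (`stay`); `E[-1]` is in `P_i(t-1)`, ... : `im' = im`
and `im E = 0`, so `E ∈ P_j(t)` (mv SLI (4); `j.σ.im t = i.σ.im t` from `LoM.Z` and `im (cls S) = 0`); `X'` has phases in `[t - N, t)`: slices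
`[t - k - 1, t - k)`, LCO: `P_j[t - k - 1, t - k]`. -/
def Stmt_LBD : Prop := ∀ (h : EllipticSetting C) (σ₀ : StabCond C) (t : ℝ) (i j : Idx h σ₀ t)
  (S : C), i.J S → LoM i S j →
  (∀ (m : ℤ) (X : C), i.σ.sl.In (Set.Ici (t + m)) X → j.σ.sl.In (Set.Ici (t + m)) X) ∧
  ∀ (m : ℤ) (X : C), i.σ.sl.In (Set.Iic (t + m)) X → (∀ f : S⟦m⟧ ⟶ X, f = 0) →
    j.σ.sl.In (Set.Iic (t + m)) X

/-- HBD (120 lines; uses HCO), dual to LBD. -/
def Stmt_HBD : Prop := ∀ (h : EllipticSetting C) (σ₀ : StabCond C) (t : ℝ) (i j : Idx h σ₀ t)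
  (S : C), i.J S → HiM i S j →
  (∀ (m : ℤ) (X : C), i.σ.sl.In (Set.Iic (t + m)) X → j.σ.sl.In (Set.Iic (t + m)) X) ∧
  ∀ (m : ℤ) (X : C), i.σ.sl.In (Set.Ici (t + m)) X → (∀ f : X ⟶ S⟦m⟧, f = 0) →
    j.σ.sl.In (Set.Ici (t + m)) X

/-- WBL (60 lines; uses LBD), **a chain of lowerings keeps `P[t + a, t + b]`** for the objects `X` with `Hom(T[b], X) = 0`. Last part: `Z` on the radical and
`im` are the same (`LoM.Z`, `im (cls S) = 0`). -/
def Stmt_WBL : Prop := ∀ (h : EllipticSetting C) (σ₀ : StabCond C) (t : ℝ) (T : C → Prop)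
  (i₀ j : Idx h σ₀ t), WS.Chain (fun i : Idx h σ₀ t => i.J) LoM T i₀ j →
  Joined i₀.σ j.σ ∧ (∀ x, j.σ.im t x = i₀.σ.im t x) ∧
  ∀ (a b : ℤ) (X : C), i₀.σ.sl.In (Set.Icc (t + a) (t + b)) X →
    (∀ S, T S → ∀ f : S⟦b⟧ ⟶ X, f = 0) → j.σ.sl.In (Set.Icc (t + a) (t + b)) X

/-- WBH (60 lines; uses HBD), **a chain of raisings keeps `P[t + a, t + b]`** for the objects `X` with `Hom(X, F[a]) = 0`. -/
def Stmt_WBH : Prop := ∀ (h : EllipticSetting C) (σ₀ : StabCond C) (t : ℝ) (F : C → Prop)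
  (i₀ j : Idx h σ₀ t), WS.Chain (fun i : Idx h σ₀ t => i.J) HiM F i₀ j →
  Joined i₀.σ j.σ ∧ (∀ x, j.σ.im t x = i₀.σ.im t x) ∧
  ∀ (a b : ℤ) (X : C), i₀.σ.sl.In (Set.Icc (t + a) (t + b)) X →
    (∀ S, F S → ∀ f : X ⟶ S⟦a⟧, f = 0) → j.σ.sl.In (Set.Icc (t + a) (t + b)) X

/-- OTH (100 lines; uses SLI), the other blocks do not change, 1. `LoM`, `→`: `U ∈ P_j[t, t+1)` (`stay`), `im_j U = im_i U = 0` (`LoM.Z`, `im (cls S) = 0`), SLI: `U ∈ P_j(t)`. An
`R ∈ Gen j.J` has a triangle `F → R → T[-1]` with `F ∈ Gen i.J`, `T ∈ Gen (≅ S)` (`down`), so it is orthogonal to `U`. `←`: `S[-1] ∈ Gen j.J` (`down` with `F = 0`,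
`T = S`), so `Hom(U[1], S) = 0` and `U[1] ∈ P_i(t, t+1]` (`back`), `im = 0`, so `U ∈ P_i(t)`. An `R ∈ i.J` has `T → R → F`, `T ∈ Gen (≅ S)`, `Hom(S, F) = 0`, in `Gen i.J`
(`p_ISS` in `ws/B_ISS.lean` for the `FinCat` of `Gen i.J`: `Pool.Blk.finCat_P`, `FinCat.gen_fin`), `F ∈ Gen j.J` (`down` with `T = 0`): orthogonal to `U`. `HiM`: dual (`S[1] ∈ Gen j.J`,
`back` for `U[-1]`; `FinCat.isotypic`). -/
def Stmt_OTH : Prop := ∀ (h : EllipticSetting C) (σ₀ : StabCond C) (t : ℝ) (i j : Idx h σ₀ t)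
  (S : C), i.J S → (LoM i S j ∨ HiM i S j) → ∀ U,
    (i.σ.sl.P t U ∧ ∀ R, Gen i.J R → Orth R U ∧ Orth U R) ↔
      (j.σ.sl.P t U ∧ ∀ R, Gen j.J R → Orth R U ∧ Orth U R)

/-- OST (80 lines; uses BDC OTH), 2: the stable objects outside the block are the same. `U` stable of phase `t` not in `i.J`: orthogonal to `Gen i.J` (`Blk.orth`), so
`U ∈ P_j(t)` and orthogonal to `Gen j.J` (OTH). Let `U' → U → U''` in `P_j(t)`. BDC for `j`: `U' ≅ X₁ ⊞ X₂`, `X₁ ∈ Gen j.J`, `X₂` generated by the other stable objects;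
`X₁ → U' → U` is 0 (orthogonal) and `U' → U` is a monomorphism of `P_j(t)`, so `X₁ = 0`, `U'` is orthogonal to `Gen j.J`, so `U' ∈ P_i(t)` (OTH); `U''` in the same way
(or `U''` orthogonal to `Gen j.J` as `U'` and `U` are). `U` is simple in `P_i(t)`. Not in `j.J`: it is not orthogonal to itself. Conversely the same. -/
def Stmt_OST : Prop := ∀ (h : EllipticSetting C) (σ₀ : StabCond C) (t : ℝ) (i j : Idx h σ₀ t)
  (S : C), i.J S → (LoM i S j ∨ HiM i S j) → ∀ U,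
    (i.σ.Stable t U ∧ ¬ i.J U) ↔ (j.σ.Stable t U ∧ ¬ j.J U)

end Category

end Pool.Move
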