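import Mathlib
import Pool.Agent.Work.MP_841263_mv.Interface3

/-! # Block LCO: a lowering moves `P[t, t + 1)` into `P'[t, t + 1]` (helper68) -/

open CategoryTheory CategoryTheory.Limits CategoryTheory.Pretriangulated
open scoped ZeroObject Topology
open Filter

set_option backward.isDefEq.respectTransparency false
set_option backward.defeqAttrib.useBackward true
set_option linter.unusedSectionVars false

namespace Pool.Move

open Pool.Stab Pool.Tube

universe v u

section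

variable {C : Type u} [Category.{v} C] [Preadditive C] [HasZeroObject C] [HasShift C ℤ]
  [∀ n : ℤ, (shiftFunctor C n).Additive] [Pretriangulated C] [IsTriangulated C] [Linear ℂ C]
  [∀ n : ℤ, (shiftFunctor C n).Linear ℂ]

lemma LCO_stable_shift {σ : StabCond C} {φ : ℝ} {X : C} (h : σ.Stable φ X) :
    σ.Stable (φ + 1) (X⟦(1 : ℤ)⟧) := by
  refine ⟨(σ.sl.shift_mem φ X).1 h.1, fun h0 => h.2.1 ((isZero_shift_iff _ _).1 h0), ?_⟩
  intro Y Z f g k hT hY hZ
  have hT' := Triangle.shift_distinguished _ hT (-1)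
  have e : (X⟦(1 : ℤ)⟧)⟦(-1 : ℤ)⟧ ≅ X := (shiftFunctorCompIsoId C (1 : ℤ) (-1) (by norm_num)).app X
  have hT2 : Triangle.mk ((-1 : ℤ).negOnePow • f⟦(-1 : ℤ)⟧') ((-1 : ℤ).negOnePow • g⟦(-1 : ℤ)⟧')
      ((-1 : ℤ).negOnePow • k⟦(-1 : ℤ)⟧' ≫ (shiftFunctorComm C (1 : ℤ) (-1)).hom.app Y) ∈
      distTriang C := hT'
  have hY' : σ.sl.P φ (Y⟦(-1 : ℤ)⟧) := by
    have := Slicing.P_shift_neg_one (S := σ.sl) (φ + 1) Y hY
    simpa using this
  have hZ' : σ.sl.P φ (Z⟦(-1 : ℤ)⟧) := by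
    have := Slicing.P_shift_neg_one (S := σ.sl) (φ + 1) Z hZ
    simpa using this
  rcases h.2.2 _ _ _ _ _ (tri_mid_iso hT2 e) hY' hZ' with h0 | h0
  · exact Or.inl ((isZero_shift_iff _ _).1 h0)
  · exact Or.inr ((isZero_shift_iff _ _).1 h0)

/-- The dimension of `Hom(S, -)` drops. -/
lemma LCO_drop (hK : IsK3 C) {S E E' : C} {f : S ⟶ E} {g : E ⟶ E'} {d : E' ⟶ S⟦(1 : ℤ)⟧}
    (hT : Triangle.mk f g d ∈ distTriang C) (hf : f ≠ 0) (hS : ∀ a : S ⟶ S⟦(1 : ℤ)⟧, a = 0) :
    Module.finrank ℂ (S ⟶ E') < Module.finrank ℂ (S ⟶ E) := by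
  have h1 := hK.homFinite S E
  have h2 := hK.homFinite S E'
  obtain ⟨L, hLdef⟩ : ∃ L : (S ⟶ E) →ₗ[ℂ] (S ⟶ E'), L = Linear.rightComp ℂ S g := ⟨_, rfl⟩
  have hL : ∀ a, L a = a ≫ g := fun a => by rw [hLdef]; rfl
  have hsurj : Function.Surjective L := by
    intro a
    obtain ⟨b, hb⟩ := Triangle.coyoneda_exact₃ _ hT a (hS _)
    exact ⟨b, by rw [hL]; exact hb.symm⟩
  have hker : f ∈ LinearMap.ker L := by
    rw [LinearMap.mem_ker, hL]
    exact comp_distTriang_mor_zero₁₂ _ hT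
  have h3 := LinearMap.finrank_range_add_finrank_ker L
  rw [LinearMap.range_eq_top.2 hsurj, finrank_top] at h3
  have h4 : 0 < Module.finrank ℂ (LinearMap.ker L) :=
    Module.finrank_pos_iff_exists_ne_zero.2 ⟨⟨f, hker⟩, fun h => hf (congrArg Subtype.val h)⟩
  omega

/-- The cone of a nonzero morphism from `S` has phases in `[t, t + 1)`. -/
lemma LCO_cone (h : EllipticSetting C) {σ : StabCond C} {t : ℝ} {S E E' : C} {f : S ⟶ E}
    {g : E ⟶ E'} {d : E' ⟶ S⟦(1 : ℤ)⟧} (hT : Triangle.mk f g d ∈ distTriang C)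
    (hS : σ.Stable t S) (hE : σ.sl.In (Set.Ico t (t + 1)) E) (hf : f ≠ 0) :
    σ.sl.In (Set.Ico t (t + 1)) E' := by
  have hS1 : σ.sl.P (t + 1) (S⟦(1 : ℤ)⟧) := (σ.sl.shift_mem t S).1 hS.1
  have hrot := rot_mk hT
  have hup : σ.sl.In (Set.Ici t) E' :=
    Slicing.In.ext_upper (isUpperSet_Ici t) hrot (hE.mono (fun x hx => hx.1))
      (Slicing.in_of_P hS1 (by show t ≤ t + 1; linarith))
  have hlow : σ.sl.In (Set.Ioi (t + 1))ᶜ E' :=
    Slicing.In.ext_lower (isUpperSet_Ioi _) hrot (hE.mono (fun x hx => not_lt.2 hx.2.le))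
      (Slicing.in_of_P hS1 (by show ¬ (t + 1 < t + 1); exact lt_irrefl _))
  obtain ⟨G, E'', u, w, k, hT', hG, hE''⟩ := σ.sl.exists_trunc E' (isUpperSet_Ici (t + 1))
  obtain ⟨a', c', hinv⟩ := exists_invrot hT'
  have hE1 : σ.sl.In (Set.Ici (t + 1))ᶜ (E''⟦(-1 : ℤ)⟧) := hE''.shift_lower (isUpperSet_Ici _)
  have hGlow : σ.sl.In (Set.Ioi (t + 1))ᶜ G :=
    Slicing.In.ext_lower (isUpperSet_Ioi _) hinv
      (hE1.mono (fun x hx => by
        have : x < t + 1 := not_le.1 hx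
        exact not_lt.2 this.le)) hlow
  have hGP : σ.sl.P (t + 1) G := by
    refine Slicing.In.P_of_singleton
      ((Slicing.In.inter (isUpperSet_Ici _) (isUpperSet_Ioi _) hG hGlow).mono ?_)
    rintro x ⟨hx1, hx2⟩
    exact le_antisymm (not_lt.1 hx2) hx1
  have hE''up : σ.sl.In (Set.Ici t) E'' :=
    Slicing.In.ext_upper (isUpperSet_Ici t) (rot_mk hT') hup
      ((hG.mono (fun x hx => by
        have : t + 1 ≤ x := hx
        show t ≤ x
        linarith)).shift_upper (isUpperSet_Ici t))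
  have hG0 : IsZero G := by
    by_contra hG0
    have hfc := Pool.Blk.finCat_P h σ (t + 1)
    have hA := hfc.toAbSub
    obtain ⟨G₁, Q, s, q, hsq, hG₁⟩ := hfc.exists_simple_sub G hGP hG0
    have hs : s ≠ 0 := fun hs => hG₁.2.1 (isZero_of_SES_left hA hsq hs)
    have h1 : s ≫ u ≠ 0 := by
      intro h0
      obtain ⟨b, hb⟩ := Triangle.coyoneda_exact₂ _ hinv s h0
      have hb0 : b = 0 := by
        refine Slicing.In.hom_zero (Slicing.in_of_P hG₁.1 (Set.mem_singleton _)) hE1 ?_ b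
        intro x hx y hy
        have hx' : x = t + 1 := hx
        rw [hx']
        exact not_le.1 hy
      apply hs
      rw [hb, hb0, zero_comp]
    have h2 : (s ≫ u) ≫ d ≠ 0 := by
      intro h0
      obtain ⟨b, hb⟩ := Triangle.coyoneda_exact₂ _ hrot (s ≫ u) h0
      have hb0 : b = 0 := by
        refine Slicing.In.hom_zero (Slicing.in_of_P hG₁.1 (Set.mem_singleton _)) hE ?_ b
        intro x hx y hy
        have hx' : x = t + 1 := hx
        rw [hx']
        exact hy.2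
      apply h1
      rw [hb, hb0, zero_comp]
    have h3 : IsIso ((s ≫ u) ≫ d) := hA.schur hG₁ (LCO_stable_shift hS) _ h2
    apply hf
    have h4 : d ≫ f⟦(1 : ℤ)⟧' = 0 := comp_distTriang_mor_zero₃₁ _ hT
    have h5 : f⟦(1 : ℤ)⟧' = 0 := by
      rw [← cancel_epi ((s ≫ u) ≫ d), Category.assoc, h4, comp_zero, comp_zero]
    exact (shiftFunctor C (1 : ℤ)).map_injective (by rw [h5, Functor.map_zero])
  have := iso_of_isZero₁ hT' hG0
  have h9 : σ.sl.In (Set.Ico t (t + 1)) E'' :=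
    (Slicing.In.inter (isUpperSet_Ici t) (isUpperSet_Ici (t + 1)) hE''up hE'').mono
      (fun x hx => ⟨hx.1, not_le.1 hx.2⟩)
  exact h9.iso (asIso w).symm

theorem p_LCO : Stmt_LCO C := by
  intro h σ₀ t i j S hJ hL
  have hst := i.blk.stable S hJ
  have hsp := i.blk.sph S hJ
  have hSS : ∀ a : S ⟶ S⟦(1 : ℤ)⟧, a = 0 := hsp.2 1 (by norm_num) (by norm_num)
  have key : ∀ (k : ℕ) (E : C), Module.finrank ℂ (S ⟶ E) ≤ k →
      i.σ.sl.In (Set.Ico t (t + 1)) E → j.σ.sl.In (Set.Icc t (t + 1)) E := by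
    intro k
    induction k with
    | zero =>
      intro E hk hE
      exact (hL.stay E hE (forall_zero_of_finrank h.k3 (by omega))).mono
        (fun x hx => ⟨hx.1, hx.2.le⟩)
    | succ k ih =>
      intro E hk hE
      by_cases h0 : ∀ f : S ⟶ E, f = 0
      · exact (hL.stay E hE h0).mono (fun x hx => ⟨hx.1, hx.2.le⟩)
      · push Not at h0
        obtain ⟨f, hf⟩ := h0
        obtain ⟨E', g, d, hT⟩ := distinguished_cocone_triangle f
        have hE' := LCO_cone h hT hst hE hf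
        have hlt := LCO_drop h.k3 hT hf hSS
        have h1 := ih E' (by omega) hE'
        have hSP : j.σ.sl.P (t + 1) S := hL.stable.1
        refine (Slicing.In.inter (isUpperSet_Ici t) (isUpperSet_Ioi (t + 1))
          (Slicing.In.ext_upper (isUpperSet_Ici t) hT
            (Slicing.in_of_P hSP (by show t ≤ t + 1; linarith)) (h1.mono (fun x hx => hx.1)))
          (Slicing.In.ext_lower (isUpperSet_Ioi (t + 1)) hT
            (Slicing.in_of_P hSP (by show ¬ (t + 1 < t + 1); exact lt_irrefl _))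
            (h1.mono (fun x hx => not_lt.2 hx.2)))).mono (fun x hx => ⟨hx.1, not_lt.1 hx.2⟩)
  intro E hE
  exact key _ E le_rfl hE

end

end Pool.Move
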