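import Mathlib
import Pool.Agent.Work.MP_841263_mv.Interface

/-!
# Block LII: `A` and `P₀(t+1)` in `P₁(t+1)` (helper32)
-/

open CategoryTheory CategoryTheory.Limits CategoryTheory.Pretriangulated
open scoped ZeroObject Topology
open Filter

set_option backward.isDefEq.respectTransparency false
set_option backward.defeqAttrib.useBackward true
set_option linter.unusedSectionVars false

namespace Pool.Move

open Pool.Stab Pool.Tube

universe v u

variable (C : Type u) [Category.{v} C] [Preadditive C] [HasZeroObject C] [HasShift C ℤ]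
  [∀ n : ℤ, (shiftFunctor C n).Additive] [Pretriangulated C] [IsTriangulated C] [Linear ℂ C]
  [∀ n : ℤ, (shiftFunctor C n).Linear ℂ]

theorem p_LII : Stmt_SLI C → Stmt_ADT C → Stmt_LII C := by
  intro hSLI hADT h σ₀ σ₁ t A S hT
  have hA := hT.adj₀.ab
  have key : ∀ X, A X → σ₀.sl.P (t + 1) X → σ₁.sl.P (t + 1) X := by
    intro X hX hP
    obtain ⟨X', X'', f, g, hs, h1, h2⟩ := (hADT σ₁ t A hT.adj₁).2.1 X hX
    have h3 : σ₀.sl.P (t + 1) X'' := ((hADT σ₀ t A hT.adj₀).2.2 _ _ _ f g hs).2.1 hP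
    have hX'' : A X'' := hs.2.2.1
    have h0 : IsZero X'' := by
      by_contra h0
      have e1 := (hSLI σ₁ t X'').2.2.2.2.2.1 h2 h0
      have e2 := σ₀.re_neg_of_P h3 h0
      have e3 := hT.nonneg X'' hX'' (σ₀.im_of_P h3)
      have e4 := hT.re (cls X'')
      have e5 := hT.pos
      have e6 : (0 : ℝ) ≤ eulerForm h.k3 (cls X'') (cls S) := by exact_mod_cast e3
      have e7 := mul_nonneg e6 e5.le
      linarith
    obtain ⟨-, -, -, d, hd⟩ := hs
    have hf : IsIso f := iso_of_isZero₃ hd h0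
    have hXP : σ₁.sl.In (Set.Ioc t (t + 1)) X := h1.iso (asIso f)
    refine (hSLI σ₁ t X).2.1 hXP ?_
    rw [hT.im, σ₀.im_of_P hP]
  intro X hX
  refine ⟨key X hX, fun hP => ?_⟩
  obtain ⟨X', X'', f, g, hs, h1, h2⟩ := (hADT σ₀ t A hT.adj₀).1 X hX
  have h3 : σ₁.sl.P (t + 1) X' := key X' hs.1 h1
  have hf : f = 0 := (Slicing.in_of_P (I := {t + 1}) h3 rfl).hom_zero
    (Slicing.in_of_P (I := {t}) hP rfl) (by
      rintro a ha b hb
      rw [Set.mem_singleton_iff] at ha hb
      linarith) f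
  have h0 : IsZero X' := isZero_of_SES_left hA hs hf
  obtain ⟨-, -, -, d, hd⟩ := hs
  have hg : IsIso g := iso_of_isZero₁ hd h0
  have hXP : σ₀.sl.In (Set.Ico t (t + 1)) X := h2.iso (asIso g).symm
  refine (hSLI σ₀ t X).2.2.2.1 hXP ?_
  have := (hSLI σ₁ t X).2.2.2.2.1 hP
  rwa [hT.im] at this

end Pool.Move
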