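import Mathlib
import Pool.Agent.Work.MP_841263_mv.Interface

/-!
# Block LOW: objects of `P₀[t, t+1)` without maps from `S` are in `P₁[t, t+1)` (helper18)
-/

open CategoryTheory CategoryTheory.Limits CategoryTheory.Pretriangulated
open scoped ZeroObject Topology
open Filter

set_option backward.isDefEq.respectTransparency false
set_option backward.defeqAttrib.useBackward true
set_option linter.unusedSectionVars false

namespace Pool.Move

open Pool.Stab Pool.Tube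

universe v u

variable (C : Type u) [Category.{v} C] [Preadditive C] [HasZeroObject C] [HasShift C ℤ]
  [∀ n : ℤ, (shiftFunctor C n).Additive] [Pretriangulated C] [IsTriangulated C] [Linear ℂ C]
  [∀ n : ℤ, (shiftFunctor C n).Linear ℂ]

theorem p_LOW : Stmt_SLI C → Stmt_GZS C → Stmt_ADT C → Stmt_LII C → Stmt_SIN C →
    Stmt_SAL C → Stmt_LOW C := by
  intro hSLI hGZS hADT hLII hSIN hSAL h σ₀ σ₁ t A S hT E hE hSE
  obtain ⟨F, V, f, g, k, hT0, hAF, hF, hV, hAV⟩ := hT.adj₀.cutL E hE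
  obtain ⟨hAS, hS0, hS1⟩ := hSIN h σ₀ σ₁ t A S hT
  -- `V` is in `P₁(t)`
  have hV1 : σ₀.sl.P (t + 1) (V⟦(1 : ℤ)⟧) := (σ₀.sl.shift_mem t V).1 hV
  have hV2 : σ₁.sl.P (t + 1) (V⟦(1 : ℤ)⟧) := (hLII h σ₀ σ₁ t A S hT _ hAV).1 hV1
  have hV3 : σ₁.sl.P t V := (σ₁.sl.shift_mem t V).2 hV2
  -- `Hom(S, F) = 0`
  have hSF : ∀ a : S ⟶ F, a = 0 := by
    intro a
    obtain ⟨a', c', hinv⟩ := exists_invrot hT0
    obtain ⟨b, hb⟩ := Triangle.coyoneda_exact₂ _ hinv a (hSE _)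
    have hb0 : b = 0 := by
      refine (Slicing.in_of_P (I := {t}) hS0 rfl).hom_zero
        (Slicing.in_of_P (I := {t - 1}) (σ₀.sl.P_shift_neg_one t V hV) rfl) ?_ b
      rintro x hx y hy
      rw [Set.mem_singleton_iff] at hx hy
      linarith
    rw [hb, hb0, zero_comp]
  -- the torsion pair for `σ₁`
  obtain ⟨F', F'', f', g', hs, h1, h2⟩ := (hADT σ₁ t A hT.adj₁).1 F hAF
  have h3 : σ₀.sl.In (Set.Ico t (t + 1)) F' := ((hADT σ₀ t A hT.adj₀).2.2 _ _ _ f' g' hs).1 hF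
  have h4 : σ₀.im t (cls F') = 0 := by
    rw [← hT.im]
    exact σ₁.im_of_P h1
  have h5 : σ₀.sl.P t F' := (hSLI σ₀ t F').2.2.2.1 h3 h4
  have h6 : Gen (fun X => Nonempty (X ≅ S)) F' := hSAL h σ₀ σ₁ t A S hT F' h5 h1
  have h7 : ∀ a : S ⟶ F', a = 0 := fun a => hs.mono hT.adj₀.ab hAS a (hSF _)
  have h8 : IsZero F' := hGZS S hT.sph F' h6 (Or.inl h7)
  obtain ⟨-, -, -, d, hd⟩ := hs
  have hg : IsIso g' := iso_of_isZero₁ hd h8
  have hF1 : σ₁.sl.In (Set.Ico t (t + 1)) F := h2.iso (asIso g').symm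
  exact ((hSLI σ₁ t E).2.2.2.2.2.2 F V f g k hT0).1 hF1
    (Slicing.in_of_P hV3 ⟨le_rfl, by linarith⟩)

end Pool.Move
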