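import Mathlib
import Pool.Agent.Work.MP_841263_mv.Interface

/-!
# Block LWR: lowering a simple object
-/

open CategoryTheory CategoryTheory.Limits CategoryTheory.Pretriangulated
open scoped ZeroObject Topology
open Filter

set_option backward.isDefEq.respectTransparency false
set_option backward.defeqAttrib.useBackward true
set_option linter.unusedSectionVars false

namespace Pool.Move

open Pool.Stab Pool.Tube

universe v u

variable (C : Type u) [Category.{v} C] [Preadditive C] [HasZeroObject C] [HasShift C ℤ]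
  [∀ n : ℤ, (shiftFunctor C n).Additive] [Pretriangulated C] [IsTriangulated C] [Linear ℂ C]
  [∀ n : ℤ, (shiftFunctor C n).Linear ℂ]

theorem p_LWR : Stmt_SLI C → Stmt_TUX C → Stmt_SST C → Stmt_LOW C → Stmt_RAI C → Stmt_BLL C →
    Stmt_LWR C := by
  intro hSLI hTUX hSST hLOW hRAI hBLL h σ t δ hδ hδ0 him S hS hst
  obtain ⟨-, -, -, -, him0, hpos, -⟩ := hSLI σ t S
  have e1 : σ.im t (cls S) = 0 := him0 hst.1
  obtain ⟨σ', A, hJ, hA, hA', him', hre', hnn⟩ := hTUX h σ t δ hδ hδ0 him S hS e1
  have hT : Turn h σ σ' t A S :=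
    { adj₀ := hA
      adj₁ := hA'
      sph := hS
      im := him'
      im0 := e1
      re := hre'
      pos := hpos hst.1 hst.2.1
      nonneg := hnn
      stable := Or.inl hst }
  refine ⟨σ', hJ, ?_, (hSST h σ σ' t A S hT).2, hLOW h σ σ' t A S hT, hRAI h σ σ' t A S hT,
    hBLL h σ σ' t A S hT⟩
  intro x
  have he : Complex.exp (-(Real.pi * t * Complex.I)) ≠ 0 := Complex.exp_ne_zero _
  apply mul_right_cancel₀ he
  rw [sub_mul, mul_assoc _ (σ.Z (cls S)), σ'.Z_eq t x, σ.Z_eq t x, σ.Z_eq t (cls S), hre' x,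
    him' x, e1]
  apply Complex.ext <;> simp

end Pool.Move
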