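import Pool.Agent.Work.MP_841263_mv.Interface

/-! # Moves, block MID (helper36): paths with constant imaginary part -/

set_option autoImplicit false

open CategoryTheory CategoryTheory.Limits CategoryTheory.Pretriangulated
open scoped ZeroObject Topology
open Filter

set_option backward.isDefEq.respectTransparency false
set_option backward.defeqAttrib.useBackward true

namespace Pool.Move

open Pool.Stab Pool.Tube

universe v u

section

variable {C : Type u} [Category.{v} C] [Preadditive C] [HasZeroObject C] [HasShift C ℤ]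
  [∀ n : ℤ, (shiftFunctor C n).Additive] [Pretriangulated C] [IsTriangulated C] [Linear ℂ C]
  [∀ n : ℤ, (shiftFunctor C n).Linear ℂ]

theorem p_MID : Stmt_SEG C → Stmt_HCN C → Stmt_MID C := by
  intro hSEG hHCN h σ t a hrad hroot
  obtain ⟨Γ, hΓ0, hΓ⟩ := hSEG h σ t a (σ.im t) (fun r hr => ⟨hrad r hr, rfl⟩) (by
    intro s hs x hx hx0
    have h1 : σ.im t x = 0 := by linarith
    exact hroot x hx h1 s hs)
  have him : ∀ (s : unitInterval) (x : K0 C), (Γ s).im t x = σ.im t x := by
    intro s x
    rw [(hΓ s x).2]
    ring
  refine ⟨Γ 1, ⟨{ toContinuousMap := Γ, source' := hΓ0, target' := rfl }⟩, ?_,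
    fun x => him 1 x, ?_⟩
  · intro x
    rw [(hΓ 1 x).1]
    simp
  · intro X
    have h1 := hHCN h Γ t Set.univ Set.ordConnected_univ (by
      intro s _ s' _ x _ hpos
      rw [him] at hpos ⊢
      exact hpos) 0 trivial 1 trivial X
    rw [hΓ0] at h1
    exact h1

end

end Pool.Move
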