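import Pool.Agent.Work.MP_841263_mv.Interface2

/-!
# Block MVS: the family of affine blocks
-/

open CategoryTheory CategoryTheory.Limits CategoryTheory.Pretriangulated
open scoped ZeroObject Topology
open Filter

set_option backward.isDefEq.respectTransparency false
set_option backward.defeqAttrib.useBackward true
set_option linter.unusedSectionVars false

namespace Pool.Move

open Pool.Stab Pool.Tube

universe v u

variable {C : Type u} [Category.{v} C] [Preadditive C] [HasZeroObject C] [HasShift C ℤ]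
  [∀ n : ℤ, (shiftFunctor C n).Additive] [Pretriangulated C] [IsTriangulated C] [Linear ℂ C]
  [∀ n : ℤ, (shiftFunctor C n).Linear ℂ]

theorem MVS_re (h : EllipticSetting C) {σ σ' : StabCond C} (t : ℝ) {S : C}
    (hZ : ∀ x, σ'.Z x = σ.Z x - eulerForm h.k3 x (cls S) * σ.Z (cls S)) (x : K0 C) :
    σ'.re t x = σ.re t x - (eulerForm h.k3 x (cls S) : ℝ) * σ.re t (cls S) := by
  rw [StabCond.re_apply, StabCond.re_apply, StabCond.re_apply, hZ, sub_mul, Complex.sub_re]
  congr 1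
  have h1 : ((eulerForm h.k3 x (cls S) : ℤ) : ℂ) = (((eulerForm h.k3 x (cls S) : ℤ) : ℝ) : ℂ) := by
    push_cast
    rfl
  rw [h1, mul_assoc (((eulerForm h.k3 x (cls S) : ℤ) : ℝ) : ℂ), Complex.re_ofReal_mul]

theorem MVS_im {h : EllipticSetting C} {σ₀ : StabCond C} {t : ℝ} {δ : K0 C}
    (hδ : δ ∈ radical (eulerForm h.k3)) (him : σ₀.im t δ = 0) (i : Idx h σ₀ t) :
    i.σ.im t δ = 0 := by
  rw [StabCond.im_apply, i.rad δ hδ, ← StabCond.im_apply]
  exact him

theorem MVS_rad {h : EllipticSetting C} {σ₀ : StabCond C} {t : ℝ} (i : Idx h σ₀ t)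
    {σ' : StabCond C} {S : C}
    (hZ : ∀ x, σ'.Z x = i.σ.Z x - eulerForm h.k3 x (cls S) * i.σ.Z (cls S)) :
    ∀ r ∈ radical (eulerForm h.k3), σ'.Z r = σ₀.Z r := by
  intro r hr
  have h1 : eulerForm h.k3 r (cls S) = 0 := hr (cls S)
  rw [hZ, i.rad r hr, h1]
  simp

theorem p_MVS : Stmt_BLS C → Stmt_BLO C → Stmt_BUP C → Stmt_BLE C → Stmt_MVS C := by
  intro hBLS hBLO hBUP hBLE h σ₀ t δ hδ hδ0 him
  refine
    { block := fun i => ?_
      lo_ex := fun i S hS => ?_
      hi_ex := fun i S hS => ?_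
      lo := fun i S j _ hm => hm.down
      hi := fun i S j _ hm => hm.up
      lo_im := fun i S j _ hm x => MVS_re h t hm.Z x
      hi_im := fun i S j _ hm x => MVS_re h t hm.Z x }
  · exact { toLocalSetting := hBLS h i.σ t i.J i.blk, ex := i.aff }
  · obtain ⟨σ', J', hj, hblk, hZ, hst, hstay, hback, hdown⟩ :=
      hBLO h i.σ t δ hδ hδ0 (MVS_im hδ him i) i.J i.blk S hS
    exact ⟨⟨σ', J', i.joined.trans hj, MVS_rad i hZ, hblk,
      hBLE h i.σ σ' t i.J J' i.blk hblk S hS (Or.inl hdown) i.aff⟩,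
      ⟨hj, hZ, hst, hstay, hback, hdown⟩⟩
  · obtain ⟨σ', J', hj, hblk, hZ, hst, hstay, hback, hup⟩ :=
      hBUP h i.σ t δ hδ hδ0 (MVS_im hδ him i) i.J i.blk S hS
    exact ⟨⟨σ', J', i.joined.trans hj, MVS_rad i hZ, hblk,
      hBLE h i.σ σ' t i.J J' i.blk hblk S hS (Or.inr hup) i.aff⟩,
      ⟨hj, hZ, hst, hstay, hback, hup⟩⟩

end Pool.Move
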