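import Mathlib
import Pool.Agent.Work.MP_841263_mv.Interface

/-! # Moves, block NUS: root classes above the class of a stable spherical object -/

open CategoryTheory CategoryTheory.Limits CategoryTheory.Pretriangulated
open scoped ZeroObject Topology
open Filter

set_option backward.isDefEq.respectTransparency false
set_option backward.defeqAttrib.useBackward true
set_option linter.unusedSectionVars false

namespace Pool.Move

open Pool.Stab Pool.Tube

universe v u

variable {C : Type u} [Category.{v} C] [Preadditive C] [HasZeroObject C] [HasShift C ℤ]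
  [∀ n : ℤ, (shiftFunctor C n).Additive] [Pretriangulated C] [IsTriangulated C] [Linear ℂ C]
  [∀ n : ℤ, (shiftFunctor C n).Linear ℂ]

lemma NUS_pos (σ : StabCond C) {t : ℝ} {X : C} (hX : σ.sl.P t X) (h0 : ¬ IsZero X) :
    0 < σ.re t (cls X) := by
  obtain ⟨hpos, hre, -⟩ := σ.polar t hX h0
  rw [hre, sub_self, mul_zero, Real.cos_zero, mul_one]
  exact hpos

lemma NUS_phase (σ : StabCond C) {t ψ : ℝ} {X : C} (hX : σ.sl.P ψ X) (h0 : ¬ IsZero X)
    (h1 : t - 1 < ψ) (h2 : ψ ≤ t) (him : σ.im t (cls X) = 0) : ψ = t := by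
  obtain ⟨hpos, -, hi⟩ := σ.polar t hX h0
  rw [him] at hi
  have h3 : Real.sin (Real.pi * (ψ - t)) = 0 := by
    rcases mul_eq_zero.1 hi.symm with h | h
    · linarith
    · exact h
  by_contra hne
  have h4 : ψ < t := lt_of_le_of_ne h2 hne
  have hpi := Real.pi_pos
  have h5 : Real.sin (Real.pi * (ψ - t)) < 0 :=
    Real.sin_neg_of_neg_of_neg_pi_lt (by nlinarith) (by nlinarith)
  linarith

/-- NUS. -/
theorem p_NUS : Stmt_NUS C := by
  intro h σ t' S hS _ x hx him hre hchi hne
  obtain ⟨t, rfl⟩ : ∃ t, t' = t + 1 := ⟨t' - 1, by ring⟩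
  have := h.finite
  have := h.free
  obtain ⟨φ, X, hX, _, hc⟩ := h.root_semistable σ hx
  have hx0 : x ≠ 0 := by
    rintro rfl
    simp at hx
  have hX0 : ¬ IsZero X := by
    intro h0
    rw [cls_of_isZero h0] at hc
    exact hx0 hc.symm
  obtain ⟨m, ψ, h1, h2, hP⟩ := Slicing.exists_shift_P t hX
  have hcs := cls_shift_cases X m
  rw [hc] at hcs
  have hB0 : ¬ IsZero (X⟦m⟧) := by
    intro h0
    rw [cls_of_isZero h0] at hcs
    rcases hcs with h4 | h4
    · exact hx0 h4.symm
    · exact hx0 (neg_eq_zero.1 h4.symm)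
  have him' : σ.im (t + 1) (cls (X⟦m⟧)) = 0 := by
    rcases hcs with h4 | h4
    · rw [h4, him]
    · rw [h4, map_neg, him, neg_zero]
  have hψ : ψ = t + 1 := NUS_phase σ hP hB0 (by linarith) h2 him'
  rw [hψ] at hP
  have hBpos := NUS_pos σ hP hB0
  have hB : cls (X⟦m⟧) = x := by
    rcases hcs with h4 | h4
    · exact h4
    · rw [h4, map_neg] at hBpos
      linarith
  clear hcs
  generalize hBdef : X⟦m⟧ = B at hP hB0 him' hBpos hB
  have hSs := hS.simple
  have hBh : σ.sl.Heart t B := Slicing.heart_of_P hP (by linarith) le_rfl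
  have hK := h.k3
  have h3 : 1 ≤ eulerChar B S := by
    rw [← eulerForm_cls hK, hB]
    exact hchi
  have h4 := Slicing.Heart.eulerChar hK hBh hSs.1
  have hcase : (∃ f : B ⟶ S, f ≠ 0) ∨ ∃ f : S ⟶ B, f ≠ 0 := by
    by_contra hcon
    push Not at hcon
    rw [finrank_of_forall_zero hcon.1, finrank_of_forall_zero hcon.2] at h4
    have : (0 : ℤ) ≤ (Module.finrank ℂ (B ⟶ S⟦(1 : ℤ)⟧) : ℤ) := by positivity
    push_cast at h4
    linarith
  rcases hcase with ⟨f, hf⟩ | ⟨f, hf⟩
  · obtain ⟨K, I, Q, i, p, d, j, q, e, hT1, hT2, hKh, hI, hQ, hpj⟩ :=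
      Slicing.exists_KIQ hBh hSs.1 f
    have hI0 : ¬ IsZero I := by
      intro h0
      apply hf
      rw [← hpj, h0.eq_of_tgt p 0, zero_comp]
    have hQ0 : IsZero Q := (hSs.2.2 _ _ _ _ _ hT2 hI hQ).resolve_left hI0
    have h5 := cls_mk hT1
    have h6 := cls_mk hT2
    rw [cls_of_isZero hQ0, add_zero] at h6
    rw [hB, ← h6] at h5
    have hK0 : ¬ IsZero K := by
      intro h0
      rw [cls_of_isZero h0, zero_add] at h5
      exact hne h5
    have h7 := NUS_pos σ (σ.P_sub_quot hT1 hKh hI hP).1 hK0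
    rw [h5, map_add]
    linarith
  · obtain ⟨K, I, Q, i, p, d, j, q, e, hT1, hT2, hKh, hI, hQ, hpj⟩ :=
      Slicing.exists_KIQ hSs.1 hBh f
    have hI0 : ¬ IsZero I := by
      intro h0
      apply hf
      rw [← hpj, h0.eq_of_tgt p 0, zero_comp]
    have hK0 : IsZero K := (hSs.2.2 _ _ _ _ _ hT1 hKh hI).resolve_right hI0
    have h5 := cls_mk hT2
    have h6 := cls_mk hT1
    rw [cls_of_isZero hK0, zero_add] at h6
    rw [hB, ← h6] at h5
    have hQ0 : ¬ IsZero Q := by
      intro h0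
      rw [cls_of_isZero h0, add_zero] at h5
      exact hne h5
    have h7 := NUS_pos σ (σ.P_sub_quot hT2 hI hQ hP).2 hQ0
    rw [h5, map_add]
    linarith

end Pool.Move
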