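import Mathlib
import Pool.Agent.Work.MP_841263_mv.Interface3

/-!
# Block OST: a move does not change the stable objects outside the block
-/

open CategoryTheory CategoryTheory.Limits CategoryTheory.Pretriangulated
open scoped ZeroObject Topology
open Filter

set_option backward.isDefEq.respectTransparency false
set_option backward.defeqAttrib.useBackward true
set_option linter.unusedSectionVars false

namespace Pool.Move

open Pool.Stab Pool.Tube

universe v u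

variable {C : Type u} [Category.{v} C] [Preadditive C] [HasZeroObject C] [HasShift C ℤ]
  [∀ n : ℤ, (shiftFunctor C n).Additive] [Pretriangulated C] [IsTriangulated C] [Linear ℂ C]
  [∀ n : ℤ, (shiftFunctor C n).Linear ℂ]

lemma OST_symm (hK : IsK3 C) {X Y : C} (h : Orth X Y) : Orth Y X := by
  intro n
  refine forall_zero_of_finrank hK ?_
  rw [finrank_duality hK]
  exact finrank_of_forall_zero (h _)

lemma OST_zero {X Y : C} (h : Orth X Y) (f : X ⟶ Y) : f = 0 := by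
  rw [← cancel_mono ((shiftFunctorZero C ℤ).app Y).inv, zero_comp]
  exact h 0 _

/-- Objects orthogonal to the generators are orthogonal to the generated class. -/
lemma OST_orth (hK : IsK3 C) {J : C → Prop} {R U : C} (hR : Gen J R)
    (h : ∀ S, J S → Orth U S) : Orth R U ∧ Orth U R := by
  have h1 : Orth U R := Orth.of_gen hR h
  exact ⟨OST_symm hK h1, h1⟩

/-- Objects generated by the other stable objects are orthogonal to the block. -/
lemma OST_gen {hK : IsK3 C} {σ : StabCond C} {t : ℝ} {J : C → Prop} (hb : Blk hK σ t J)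
    {X R : C} (hX : Gen (fun U => σ.Stable t U ∧ ¬ J U) X) (hR : Gen J R) :
    Orth R X ∧ Orth X R := by
  have h1 : Orth R X := Orth.of_gen hX
    (fun U hU => (OST_orth hK hR (fun S hS => (hb.orth S U hS hU.1 hU.2).2)).1)
  exact ⟨h1, OST_symm hK h1⟩

/-- A subobject of an object orthogonal to the block is orthogonal to the block. -/
lemma OST_sub {hK : IsK3 C} {τ : StabCond C} {t : ℝ} {J : C → Prop} (hb : Blk hK τ t J)
    (hD : ∀ X, τ.sl.P t X → ∃ X₁ X₂ : C, Nonempty (X ≅ X₁ ⊞ X₂) ∧ Gen J X₁ ∧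
      Gen (fun U => τ.Stable t U ∧ ¬ J U) X₂)
    (hG : ∀ X, Gen J X → τ.sl.P t X)
    {U Y Z : C} {f : Y ⟶ U} {g : U ⟶ Z} {k : Z ⟶ Y⟦(1 : ℤ)⟧}
    (hT : Triangle.mk f g k ∈ distTriang C) (hY : τ.sl.P t Y) (hZ : τ.sl.P t Z)
    (hU : ∀ R, Gen J R → Orth R U ∧ Orth U R) :
    ∀ R, Gen J R → Orth R Y ∧ Orth Y R := by
  obtain ⟨Y₁, Y₂, ⟨e⟩, h1, h2⟩ := hD Y hY
  obtain ⟨a, c, hT'⟩ := exists_invrot hT
  have hi0 : (biprod.inl : Y₁ ⟶ Y₁ ⊞ Y₂) ≫ e.inv = 0 := by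
    refine hom_zero_of_ext₂ hT' ?_ ?_ _
    · intro b
      exact τ.sl.hom_zero (by linarith) (hG _ h1) (τ.sl.P_shift_neg_one t Z hZ) b
    · intro b
      exact OST_zero (hU _ h1).1 b
  have hY₁ : IsZero Y₁ := by
    rw [IsZero.iff_id_eq_zero]
    calc 𝟙 Y₁ = ((biprod.inl : Y₁ ⟶ Y₁ ⊞ Y₂) ≫ e.inv) ≫ e.hom ≫ biprod.fst := by simp
      _ = 0 := by rw [hi0, zero_comp]
  have hgen : Gen (fun U => τ.Stable t U ∧ ¬ J U) Y :=
    (Gen.ext (binaryBiproductTriangle_distinguished Y₁ Y₂) (Gen.zero hY₁) h2).iso e.symm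
  intro R hR
  exact OST_gen hb hgen hR

/-- One direction. -/
lemma OST_key {hK : IsK3 C} {σ τ : StabCond C} {t : ℝ} {J J' : C → Prop} (hb : Blk hK σ t J)
    (hb' : Blk hK τ t J')
    (hO : ∀ U, (σ.sl.P t U ∧ ∀ R, Gen J R → Orth R U ∧ Orth U R) ↔
      (τ.sl.P t U ∧ ∀ R, Gen J' R → Orth R U ∧ Orth U R))
    (hD : ∀ X, τ.sl.P t X → ∃ X₁ X₂ : C, Nonempty (X ≅ X₁ ⊞ X₂) ∧ Gen J' X₁ ∧
      Gen (fun U => τ.Stable t U ∧ ¬ J' U) X₂)
    (hG : ∀ X, Gen J' X → τ.sl.P t X) {U : C} (hU : σ.Stable t U) (hJ : ¬ J U) :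
    τ.Stable t U ∧ ¬ J' U := by
  have hOU : ∀ R, Gen J R → Orth R U ∧ Orth U R := fun R hR =>
    OST_orth hK hR (fun S hS => (hb.orth S U hS hU hJ).2)
  obtain ⟨hP, hOU'⟩ := (hO U).1 ⟨hU.1, hOU⟩
  refine ⟨⟨hP, hU.2.1, ?_⟩, ?_⟩
  · intro Y Z f g k hT hY hZ
    have hYO := OST_sub hb' hD hG hT hY hZ hOU'
    have hZO : ∀ R, Gen J' R → Orth R Z ∧ Orth Z R := by
      intro R hR
      have h1 : Orth R Z := Orth.third hT (hYO R hR).1 (hOU' R hR).1
      exact ⟨h1, OST_symm hK h1⟩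
    exact hU.2.2 Y Z f g k hT ((hO Y).2 ⟨hY, hYO⟩).1 ((hO Z).2 ⟨hZ, hZO⟩).1
  · intro hJ'
    exact not_orth_self hU.2.1 (hOU' U (Gen.of hJ')).1

theorem p_OST : Stmt_BDC C → Stmt_OTH C → Stmt_OST C := by
  intro hBDC hOTH h σ₀ t i j S hS hM U
  have hO := hOTH h σ₀ t i j S hS hM
  have hi := hBDC h i.σ t i.J i.blk
  have hj := hBDC h j.σ t j.J j.blk
  constructor
  · rintro ⟨hU, hJ⟩
    exact OST_key i.blk j.blk hO hj.1 (fun X hX => ((hj.2 X).1 hX).1) hU hJ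
  · rintro ⟨hU, hJ⟩
    exact OST_key j.blk i.blk (fun V => (hO V).symm) hi.1 (fun X hX => ((hi.2 X).1 hX).1) hU hJ

end Pool.Move
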