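import Pool.Agent.Work.MP_841263_mv.Interface3

/-! # Moves, block OTH (helper36): the objects orthogonal to the block do not change -/

set_option autoImplicit false

open CategoryTheory CategoryTheory.Limits CategoryTheory.Pretriangulated
open scoped ZeroObject Topology
open Filter

set_option backward.isDefEq.respectTransparency false
set_option backward.defeqAttrib.useBackward true
set_option linter.unusedSectionVars false

namespace Pool.Move

open Pool.Stab Pool.Tube

universe v u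

section

variable {C : Type u} [Category.{v} C] [Preadditive C] [HasZeroObject C] [HasShift C ℤ]
  [∀ n : ℤ, (shiftFunctor C n).Additive] [Pretriangulated C] [IsTriangulated C] [Linear ℂ C]
  [∀ n : ℤ, (shiftFunctor C n).Linear ℂ]

lemma OTH_im_sub (σ : StabCond C) (t : ℝ) (x : K0 C) : σ.im (t - 1) x = - σ.im t x := by
  have h1 : Complex.exp (-(Real.pi * ((t - 1 : ℝ) : ℂ) * Complex.I)) =
      - Complex.exp (-(Real.pi * t * Complex.I)) := by
    have h2 : (-(Real.pi * ((t - 1 : ℝ) : ℂ) * Complex.I) : ℂ) =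
        -(Real.pi * t * Complex.I) + Real.pi * Complex.I := by push_cast; ring
    rw [h2, Complex.exp_add, Complex.exp_pi_mul_I]
    ring
  rw [StabCond.im_apply, StabCond.im_apply, h1, mul_neg, Complex.neg_im]

lemma OTH_im {σ σ' : StabCond C} (s : ℝ) (x y : K0 C) (c : ℤ)
    (hZ : σ'.Z x = σ.Z x - c * σ.Z y) (h0 : σ.im s y = 0) : σ'.im s x = σ.im s x := by
  rw [StabCond.im_apply] at h0
  rw [StabCond.im_apply, StabCond.im_apply, hZ, sub_mul, mul_assoc (c : ℂ), Complex.sub_im,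
    Complex.mul_im (c : ℂ), h0]
  simp

lemma OTH_hom {X Y : C} (h : Orth X Y) (f : X ⟶ Y) : f = 0 := by
  have h1 := h 0 (f ≫ ((shiftFunctorZero C ℤ).app Y).inv)
  rw [← cancel_mono ((shiftFunctorZero C ℤ).app Y).inv, h1, zero_comp]

/-- The orthogonality to the block only depends on the second variable. -/
lemma OTH_symm {hK : IsK3 C} {G : C → Prop} {U : C} :
    (∀ R, G R → Orth R U ∧ Orth U R) ↔ ∀ R, G R → Orth U R :=
  ⟨fun h R hR => (h R hR).2, fun h R hR => ⟨ORT_dual hK (h R hR), h R hR⟩⟩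

lemma OTH_gen {U S T : C} (hS : Orth U S)
    (hT : Gen (fun Y => Nonempty (Y ≅ S)) T) : Orth U T :=
  Orth.of_gen hT (fun Y hY => by
    obtain ⟨e⟩ := hY
    exact hS.iso e.symm)

lemma OTH_down {h : EllipticSetting C} {σ : StabCond C} {t : ℝ} {J J' : C → Prop}
    (hJ : Blk h.k3 σ t J) {S : C} (hS : J S) (hm : WS.Down (Gen J) S (Gen J')) {U : C} :
    (∀ R, Gen J R → Orth U R) ↔ ∀ R, Gen J' R → Orth U R := by
  constructor
  · intro hU R hR
    obtain ⟨F, T, f, g, k, hT, hF, -, hTg⟩ := (hm R).1 hR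
    exact Orth.ext hT (hU F hF)
      ((OTH_gen (hU S (Gen.of hS)) hTg).shift (-1))
  · intro hU R hR
    refine Orth.of_gen hR ?_
    intro S₁ hS₁
    by_cases he : Nonempty (S₁ ≅ S)
    · obtain ⟨e⟩ := he
      have h1 : Gen J' (S⟦(-1 : ℤ)⟧) := by
        refine (hm _).2 ⟨0, S, 0, 𝟙 _, 0, contractible_distinguished₁ _,
          Gen.zero (isZero_zero C), fun a => (isZero_zero C).eq_of_tgt _ _,
          Gen.of ⟨Iso.refl _⟩⟩
      have h2 := (hU _ h1).shift 1
      refine h2.iso (?_ ≪≫ e.symm)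
      exact (shiftFunctorCompIsoId C (-1 : ℤ) (1 : ℤ) (by norm_num)).app S
    · have hF := Pool.Blk.finCat_P h σ t
      obtain ⟨-, h1, h2⟩ := hF.toAbSub.simple_form_le h.k3 (hJ.stable S₁ hS₁) (hJ.stable S hS) he
      refine hU _ ?_
      refine (hm _).2 ⟨S₁, 0, 𝟙 _, 0, 0, ?_, Gen.of hS₁, h2, Gen.zero (isZero_zero C)⟩
      exact isomorphic_distinguished _ (contractible_distinguished S₁) _
        (Triangle.isoMk _ _ (Iso.refl _) (Iso.refl _)
          ((shiftFunctor C (-1 : ℤ)).map_isZero (isZero_zero C)).isoZero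
          (by simp) (by simp) (by simp))

lemma OTH_up {h : EllipticSetting C} {σ : StabCond C} {t : ℝ} {J J' : C → Prop}
    (hJ : Blk h.k3 σ t J) {S : C} (hS : J S) (hm : WS.Up (Gen J) S (Gen J')) {U : C} :
    (∀ R, Gen J R → Orth U R) ↔ ∀ R, Gen J' R → Orth U R := by
  constructor
  · intro hU R hR
    obtain ⟨T, F, f, g, k, hT, hF, -, hTg⟩ := (hm R).1 hR
    exact Orth.ext hT ((OTH_gen (hU S (Gen.of hS)) hTg).shift 1) (hU F hF)
  · intro hU R hR
    refine Orth.of_gen hR ?_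
    intro S₁ hS₁
    by_cases he : Nonempty (S₁ ≅ S)
    · obtain ⟨e⟩ := he
      have h1 : Gen J' (S⟦(1 : ℤ)⟧) := by
        refine (hm _).2 ⟨S, 0, 𝟙 _, 0, 0, contractible_distinguished _,
          Gen.zero (isZero_zero C), fun a => (isZero_zero C).eq_of_src _ _,
          Gen.of ⟨Iso.refl _⟩⟩
      have h2 := (hU _ h1).shift (-1)
      refine h2.iso (?_ ≪≫ e.symm)
      exact (shiftFunctorCompIsoId C (1 : ℤ) (-1 : ℤ) (by norm_num)).app S
    · have hF := Pool.Blk.finCat_P h σ t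
      obtain ⟨-, h1, h2⟩ := hF.toAbSub.simple_form_le h.k3 (hJ.stable S₁ hS₁) (hJ.stable S hS) he
      refine hU _ ?_
      refine (hm _).2 ⟨0, S₁, 0, 𝟙 _, 0, ?_, Gen.of hS₁, h1, Gen.zero (isZero_zero C)⟩
      exact isomorphic_distinguished _ (contractible_distinguished₁ S₁) _
        (Triangle.isoMk _ _
          ((shiftFunctor C (1 : ℤ)).map_isZero (isZero_zero C)).isoZero
          (Iso.refl _) (Iso.refl _) (by simp) (by simp) (by simp))

theorem p_OTH : Stmt_SLI C → Stmt_OTH C := by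
  intro hSLI h σ₀ t i j S hS hm U
  have hstS := i.blk.stable S hS
  have h0 : i.σ.im t (cls S) = 0 := (hSLI i.σ t S).2.2.2.2.1 hstS.1
  have hSG : Gen i.J S := Gen.of hS
  rw [OTH_symm (hK := h.k3), OTH_symm (hK := h.k3)]
  rcases hm with hm | hm
  · have him : ∀ x, j.σ.im t x = i.σ.im t x := fun x => OTH_im t x (cls S) _ (hm.Z x) h0
    rw [← OTH_down (h := h) i.blk hS hm.down]
    refine and_congr_left ?_
    intro hU
    have hUS : Orth U S := hU S hSG
    have hSU : Orth S U := ORT_dual h.k3 hUS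
    constructor
    · intro hP
      have h1 : i.σ.sl.In (Set.Ico t (t + 1)) U :=
        Slicing.in_of_P hP ⟨le_refl _, by linarith⟩
      have h2 := hm.stay U h1 (fun f => OTH_hom hSU f)
      refine (hSLI j.σ t U).2.2.2.1 h2 ?_
      rw [him]
      exact (hSLI i.σ t U).2.2.2.2.1 hP
    · intro hP
      have hP1 : j.σ.sl.P (t + 1) (U⟦(1 : ℤ)⟧) := (j.σ.sl.shift_mem t U).1 hP
      have h1 : j.σ.sl.In (Set.Ioc t (t + 1)) (U⟦(1 : ℤ)⟧) :=
        Slicing.in_of_P hP1 ⟨by linarith, le_refl _⟩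
      have h2 := hm.back _ h1 (fun f => by
        have h3 : Orth (U⟦(1 : ℤ)⟧) S := ORT_dual h.k3 (hSU.shift 1)
        exact OTH_hom h3 f)
      refine (i.σ.sl.shift_mem t U).2 ((hSLI i.σ t _).2.1 h2 ?_)
      rw [← him, cls_shift_one, map_neg, (hSLI j.σ t U).2.2.2.2.1 hP, neg_zero]
  · have him : ∀ x, j.σ.im t x = i.σ.im t x := fun x => OTH_im t x (cls S) _ (hm.Z x) h0
    have ht : t - 1 + 1 = t := by ring
    rw [← OTH_up (h := h) i.blk hS hm.up]
    refine and_congr_left ?_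
    intro hU
    have hUS : Orth U S := hU S hSG
    have hSU : Orth S U := ORT_dual h.k3 hUS
    constructor
    · intro hP
      have h1 : i.σ.sl.In (Set.Ioc (t - 1) t) U :=
        Slicing.in_of_P hP ⟨by linarith, le_refl _⟩
      have h2 := hm.stay U h1 (fun f => OTH_hom hUS f)
      have h3 := (hSLI j.σ (t - 1) U).2.1
      rw [ht] at h3
      refine h3 h2 ?_
      rw [OTH_im_sub, him, (hSLI i.σ t U).2.2.2.2.1 hP, neg_zero]
    · intro hP
      have hP1 : j.σ.sl.P (t - 1) (U⟦(-1 : ℤ)⟧) := Slicing.P_shift_neg_one t U hP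
      have h1 : j.σ.sl.In (Set.Ico (t - 1) t) (U⟦(-1 : ℤ)⟧) :=
        Slicing.in_of_P hP1 ⟨le_refl _, by linarith⟩
      have h2 := hm.back _ h1 (fun f => OTH_hom (hSU.shift (-1)) f)
      have h3 := (hSLI i.σ (t - 1) (U⟦(-1 : ℤ)⟧)).2.2.2.1
      rw [ht] at h3
      have h4 : i.σ.sl.P (t - 1) (U⟦(-1 : ℤ)⟧) := by
        refine h3 h2 ?_
        have h5 : cls (U⟦(-1 : ℤ)⟧) = - cls U := by
          rw [cls_shift, Int.negOnePow_odd (-1) (by decide)]; simp
        rw [OTH_im_sub, ← him, h5, map_neg, (hSLI j.σ t U).2.2.2.2.1 hP, neg_zero, neg_zero]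
      have h6 := (i.σ.sl.shift_mem (t - 1) (U⟦(-1 : ℤ)⟧)).1 h4
      rw [ht] at h6
      exact i.σ.sl.iso_mem t ((shiftFunctorCompIsoId C (-1 : ℤ) (1 : ℤ) (by norm_num)).app U) h6

end

end Pool.Move
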