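import Pool.Agent.Work.MP_841263_mv.Interface

/-!
PAN (MP_841263_ag, moves): objects of the perturbed heart with phases in `[t, t + 1)` have
perturbed phases in `(t, t + 1)`.
-/

open CategoryTheory CategoryTheory.Limits CategoryTheory.Pretriangulated
open scoped ZeroObject Topology
open Filter

set_option backward.isDefEq.respectTransparency false
set_option backward.defeqAttrib.useBackward true
set_option linter.unusedSectionVars false

namespace Pool.Move

open Pool.Stab Pool.Tube

universe v u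

variable {C : Type u} [Category.{v} C] [Preadditive C] [HasZeroObject C]
    [HasShift C ℤ] [∀ n : ℤ, (shiftFunctor C n).Additive] [Pretriangulated C] [IsTriangulated C]
    [Linear ℂ C] [∀ n : ℤ, (shiftFunctor C n).Linear ℂ]

/-- A functional which vanishes on the generators vanishes. -/
lemma PAN_gen {G : C → Prop} {X : C} (h : Gen G X) (a : K0 C →+ ℝ)
    (ha : ∀ S, G S → a (cls S) = 0) : a (cls X) = 0 := by
  induction h with
  | zero h0 => rw [cls_of_isZero h0, map_zero]
  | of hX => exact ha _ hX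
  | ext hT _ _ ih1 ih2 => rw [cls_mk hT, map_add, ih1, ih2, add_zero]

/-- **Block PAN.** -/
theorem p_PAN : Stmt_SLI C → Stmt_ADT C → Stmt_PAN C := by
  intro hSLI hADT h σ σ' t ε u hε hsg hre him hAdj E hE hEt
  have hfin := h.finite
  have hfree := h.free
  obtain ⟨G, E', f, g, k, hT, hG, hE'⟩ := σ'.sl.exists_trunc E (isUpperSet_Ici (t + 1))
  obtain ⟨a', c', hinv⟩ := exists_invrot hT
  -- the lower part has phases in `(t, t + 1)`
  have hE'up : σ'.sl.In (Set.Ioi t) E' := by
    refine Slicing.In.ext_upper (isUpperSet_Ioi t) (rot_of_distTriang _ hT) hE.upper ?_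
    refine (hG.shift_upper (isUpperSet_Ici (t + 1))).mono ?_
    intro x hx
    have : t + 1 ≤ x := hx
    show t < x
    linarith
  have hE'o : σ'.sl.In (Set.Ioo t (t + 1)) E' := by
    refine (Slicing.In.inter (isUpperSet_Ioi t) (isUpperSet_Ici (t + 1)) hE'up hE').mono ?_
    rintro x ⟨hx1, hx2⟩
    exact ⟨hx1, not_le.1 hx2⟩
  have hE'h : σ'.sl.Heart t E' := hE'o.mono (fun x hx => ⟨hx.1, hx.2.le⟩)
  -- the upper part has phase `t + 1`
  have hGlow : σ'.sl.In (Set.Ioi (t + 1))ᶜ G := by
    refine Slicing.In.ext_lower (isUpperSet_Ioi (t + 1)) hinv ?_ ?_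
    · refine (hE'.shift_lower (isUpperSet_Ici (t + 1))).mono ?_
      intro x hx hx'
      exact hx (Set.mem_Ici.2 (le_of_lt hx'))
    · refine hE.mono ?_
      intro x hx
      exact not_lt.2 hx.2
  have hGP : σ'.sl.P (t + 1) G := by
    refine Slicing.In.P_of_singleton ?_
    refine (Slicing.In.inter (isUpperSet_Ici (t + 1)) (isUpperSet_Ioi (t + 1)) hG hGlow).mono ?_
    rintro x ⟨hx1, hx2⟩
    exact le_antisymm (not_lt.1 hx2) hx1
  have hGh : σ'.sl.Heart t G := Slicing.heart_of_P hGP (by linarith) le_rfl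
  have hGt : σ.sl.In (Set.Ico t (t + 1)) G :=
    ((hADT σ t _ hAdj).2.2 G E E' f g ⟨hGh, hE, hE'h, k, hT⟩).1 hEt
  have him0 : σ.im t (cls G) = 0 := by
    refine PAN_gen (σ'.gen_stable hGP) _ ?_
    intro S hS
    have e1 := (hS.cls_le h.k3).2
    have e2 := σ'.im_of_P hS.1
    rw [him] at e2
    by_contra hne
    have e3 := hsg _ e1 hne
    have e4 : σ.im t (cls S) = -(ε * u (cls S)) := by linarith
    rw [e4, abs_neg, abs_mul, abs_of_pos hε] at e3
    exact lt_irrefl _ e3
  have hP : σ.sl.P t G := (hSLI σ t G).2.2.2.1 hGt him0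
  by_cases hz : IsZero G
  · have := iso_of_isZero₁ hT hz
    exact hE'o.iso (asIso g).symm
  · exfalso
    have h1 := (hSLI σ t G).2.2.2.2.2.1 hP hz
    have h2 := σ'.re_neg_of_P hGP hz
    rw [hre] at h2
    linarith

end Pool.Move
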