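import Mathlib
import Pool.Agent.Work.MP_841263_mv.Interface

/-!
# Block PER: perturbation along a functional in a rational direction
-/

open CategoryTheory CategoryTheory.Limits CategoryTheory.Pretriangulated
open scoped ZeroObject Topology
open Filter

set_option backward.isDefEq.respectTransparency false
set_option backward.defeqAttrib.useBackward true
set_option linter.unusedSectionVars false

namespace Pool.Move

open Pool.Stab Pool.Tube

universe v u

section Category

variable (C : Type u) [Category.{v} C] [Preadditive C] [HasZeroObject C] [HasShift C ℤ]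
  [∀ n : ℤ, (shiftFunctor C n).Additive] [Pretriangulated C] [IsTriangulated C] [Linear ℂ C]
  [∀ n : ℤ, (shiftFunctor C n).Linear ℂ]

theorem p_PER : Stmt_SGN.{u} → Stmt_PRT C → Stmt_PHL C → Stmt_PER C := by
  intro hSGN hPRT hPHL h σ t δ hδ hδ0 hδi u hu
  have := h.finite
  have := h.free
  obtain ⟨ε₀, hε₀, hlt⟩ := hSGN (K0 C) (eulerForm h.k3) (isPSD_of h.k3 h.psd) h.rank
    (σ.im t) u δ hδ hδ0 hδi hu
  refine ⟨ε₀, hε₀, ?_⟩
  intro ε hε hle
  have hsg : ∀ x, eulerForm h.k3 x x ≤ 2 → σ.im t x ≠ 0 → ε * |u x| < |σ.im t x| := by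
    intro x hx hx0
    exact lt_of_le_of_lt (mul_le_mul_of_nonneg_right hle (abs_nonneg _)) (hlt x hx hx0)
  obtain ⟨σ', hj, hre, him, hadj⟩ := hPRT h σ t ε u hε hu hsg
  obtain ⟨h1, h2, h3, h4⟩ := hPHL h σ σ' t ε u hε hsg hre him hadj
  exact ⟨σ', hj, hre, him, hsg, h1, h2, h3, h4⟩

end Category

end Pool.Move
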