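import Mathlib
import Pool.Agent.Work.MP_841263_mv.Interface

/-!
# Block PHL: the perturbed stability condition
-/

open CategoryTheory CategoryTheory.Limits CategoryTheory.Pretriangulated
open scoped ZeroObject Topology
open Filter

set_option backward.isDefEq.respectTransparency false
set_option backward.defeqAttrib.useBackward true
set_option linter.unusedSectionVars false

namespace Pool.Move

open Pool.Stab Pool.Tube

universe v u

section Category

variable (C : Type u) [Category.{v} C] [Preadditive C] [HasZeroObject C] [HasShift C ℤ]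
  [∀ n : ℤ, (shiftFunctor C n).Additive] [Pretriangulated C] [IsTriangulated C] [Linear ℂ C]
  [∀ n : ℤ, (shiftFunctor C n).Linear ℂ]

variable {C} in
/-- The cut of an object of phase `t`. -/
lemma PHL_cut {σ : StabCond C} {t : ℝ} {A : C → Prop} (hadj : Adj σ t A) {E : C}
    (hE : σ.sl.P t E) :
    ∃ (F V : C) (f : F ⟶ E) (g : E ⟶ V) (k : V ⟶ F⟦(1 : ℤ)⟧), Triangle.mk f g k ∈ distTriang C ∧
      A F ∧ σ.sl.In (Set.Ico t (t + 1)) F ∧ σ.sl.P t F ∧ σ.sl.P t V ∧ A (V⟦(1 : ℤ)⟧) := by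
  obtain ⟨F, V, f, g, k, hT, hFA, hF, hV, hVA⟩ := hadj.cutL E
    (Slicing.in_of_P hE ⟨le_rfl, by linarith⟩)
  refine ⟨F, V, f, g, k, hT, hFA, hF, ?_, hV, hVA⟩
  obtain ⟨a, c, hinv⟩ := exists_invrot hT
  have h1 : σ.sl.In (Set.Ioi t)ᶜ (V⟦(-1 : ℤ)⟧) :=
    Slicing.In.shift_lower (isUpperSet_Ioi t) (Slicing.in_of_P hV (by simp))
  have h2 : σ.sl.In (Set.Ioi t)ᶜ E := Slicing.in_of_P hE (by simp)
  have h3 : σ.sl.In (Set.Ioi t)ᶜ F := Slicing.In.ext_lower (isUpperSet_Ioi t) hinv h1 h2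
  have h4 := Slicing.In.inter (isUpperSet_Ici t) (isUpperSet_Ioi t)
    (hF.mono (fun _ hx => hx.1)) h3
  refine Slicing.In.P_of_singleton (h4.mono ?_)
  rintro x ⟨hx1, hx2⟩
  exact le_antisymm (not_lt.1 hx2) hx1

theorem p_PHL : Stmt_SLI C → Stmt_ADT C → Stmt_PAN C → Stmt_PHL C := by
  intro hSLI hADT hPAN h σ σ' t ε u hε hsg hre him hadj
  have := h.finite
  have := h.free
  have pan := hPAN h σ σ' t ε u hε hsg hre him hadj
  refine ⟨?_, ?_, ?_, ?_⟩
  · intro E hE
    have hE' : σ.sl.In (Set.Ico t (t + 1)) E := hE.mono Set.Ioo_subset_Ico_self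
    obtain ⟨F, V, f, g, k, hT, hFA, hF, hV, hVA⟩ := hadj.cutL E hE'
    have hVin : σ.sl.In {t} V := Slicing.in_of_P hV rfl
    have hg : g = 0 := hE.hom_zero hVin (by
      rintro φ hφ ψ rfl
      exact hφ.1) g
    have hz : IsZero V := isZero₃_of_mor₂ hT hg (fun r => (hF.shift_one).hom_zero hVin (by
      rintro _ ⟨φ, hφ, rfl⟩ ψ rfl
      have := hφ.1
      show ψ < φ + 1
      linarith) r)
    have := iso_of_isZero₃ hT hz
    exact pan E (Slicing.Heart.iso hFA (asIso f)) hE'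
  · intro E hE hu
    obtain ⟨F, V, f, g, k, hT, hFA, hFi, hF, hV, hVA⟩ := PHL_cut hadj hE
    have hv := hu F V f g ⟨hF, hE, hV, k, hT⟩
    have hiV : σ.im t (cls V) = 0 := (hSLI σ t V).2.2.2.2.1 hV
    have h1 := σ'.im_nonneg hVA
    have h2 : σ'.im t (cls (V⟦(1 : ℤ)⟧)) = - (ε * u (cls V)) := by
      rw [cls_shift_one, map_neg, him, hiV, zero_add]
    have h3 : ε * u (cls V) = 0 := by
      rw [h2] at h1
      have := mul_nonneg hε.le hv
      linarith
    have hV' : σ'.sl.P t V := (σ'.sl.shift_mem t V).2 (σ'.P_of_im hVA (by rw [h2, h3, neg_zero]))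
    exact ((hSLI σ' t E).2.2.2.2.2.2 F V f g k hT).1
      ((pan F hFA hFi).mono Set.Ioo_subset_Ico_self) (Slicing.in_of_P hV' ⟨le_rfl, by linarith⟩)
  · intro E hE hu
    obtain ⟨F, V, f, g, k, hT, hFA, hFi, hF, hV, hVA⟩ := PHL_cut hadj hE
    have hv := hu F V f g ⟨hF, hE, hV, k, hT⟩
    have hiF : σ.im t (cls F) = 0 := (hSLI σ t F).2.2.2.2.1 hF
    have h1 := σ'.im_nonneg hFA
    have h2 : σ'.im t (cls F) = ε * u (cls F) := by rw [him, hiF, zero_add]
    have h3 : ε * u (cls F) = 0 := by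
      rw [h2] at h1
      have := mul_nonneg_of_nonpos_of_nonpos (neg_nonpos.2 hε.le) hv
      linarith
    have hF' : σ'.sl.In {t + 1} F := Slicing.in_of_P (σ'.P_of_im hFA (by rw [h2, h3])) rfl
    have hF0 : IsZero F := by
      rw [IsZero.iff_id_eq_zero]
      refine hF'.hom_zero (pan F hFA hFi) ?_ _
      rintro φ rfl ψ hψ
      exact hψ.2
    have := iso_of_isZero₁ hT hF0
    have h4 : σ'.sl.In (Set.Ioc (t - 1) t) V := by
      have e : (V⟦(1 : ℤ)⟧)⟦(-1 : ℤ)⟧ ≅ V := (shiftFunctorCompIsoId C (1 : ℤ) (-1) (by simp)).app V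
      refine ((Slicing.In.shift_neg_one hVA).iso e).mono ?_
      rintro _ ⟨φ, hφ, rfl⟩
      have h5 := hφ.1
      have h6 := hφ.2
      exact ⟨by show t - 1 < φ - 1; linarith, by show φ - 1 ≤ t; linarith⟩
    exact h4.iso (asIso g).symm
  · intro X hX
    have hnum : σ.im t (cls X) = 0 ∧ u (cls X) = 0 := by
      have hg := σ'.gen_stable hX
      clear hX
      induction hg with
      | zero h0 => rw [cls_of_isZero h0, map_zero, map_zero]; exact ⟨rfl, rfl⟩
      | @of Y hY =>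
        have h1 : σ'.im t (cls Y) = 0 := (hSLI σ' t Y).2.2.2.2.1 hY.1
        obtain ⟨-, h2⟩ := StabCond.Stable.cls_le h.k3 hY
        rw [him] at h1
        have h3 : σ.im t (cls Y) = 0 := by
          by_contra hne
          have h4 := hsg _ h2 hne
          have h5 : σ.im t (cls Y) = - (ε * u (cls Y)) := by linarith
          rw [h5, abs_neg, abs_mul, abs_of_pos hε] at h4
          exact lt_irrefl _ h4
        refine ⟨h3, ?_⟩
        rw [h3, zero_add] at h1
        exact (mul_eq_zero.1 h1).resolve_left hε.ne'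
      | ext hT _ _ ih1 ih2 =>
        rw [cls_mk hT, map_add, map_add, ih1.1, ih1.2, ih2.1, ih2.2]
        simp
    refine ⟨?_, hnum.2⟩
    have hX1 : σ'.sl.P (t + 1) (X⟦(1 : ℤ)⟧) := (σ'.sl.shift_mem t X).1 hX
    obtain ⟨X', X'', f, g, hs, hX', hX''⟩ := (hADT σ t _ hadj).1 (X⟦(1 : ℤ)⟧)
      (Slicing.heart_of_P hX1 (by linarith) le_rfl)
    have hX1' : σ'.sl.In {t + 1} (X⟦(1 : ℤ)⟧) := Slicing.in_of_P hX1 rfl
    have hg : g = 0 := hX1'.hom_zero (pan X'' hs.2.2.1 hX'') (by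
      rintro φ rfl ψ hψ
      exact hψ.2) g
    have hz := isZero_of_SES_right hadj.ab hs hg
    obtain ⟨-, -, -, d, hT⟩ := hs
    have := iso_of_isZero₃ hT hz
    exact (σ.sl.shift_mem t X).2 (σ.sl.iso_mem _ (asIso f) hX')

end Category

end Pool.Move
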