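import Mathlib
import Pool.Agent.Work.MP_841263_mv.Interface

/-! # Block PRR: the reverse perturbation path (helper68) -/

open CategoryTheory CategoryTheory.Limits CategoryTheory.Pretriangulated
open scoped ZeroObject Topology
open Filter

set_option backward.isDefEq.respectTransparency false
set_option backward.defeqAttrib.useBackward true
set_option linter.unusedSectionVars false

namespace Pool.Move

open Pool.Stab Pool.Tube

universe v u

/-- A small multiple does not change the sign. -/
lemma PRR_sign {a b e c : ℝ} (he : 0 < e) (h : e * |b| < |a|) (h0 : 0 ≤ c) (h1 : c ≤ 1) :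
    (0 < a → 0 < a + c * (e * b)) ∧ (a < 0 → a + c * (e * b) < 0) := by
  have h2 : |c * (e * b)| < |a| := by
    have h3 : |e * b| = e * |b| := by rw [abs_mul, abs_of_pos he]
    rw [abs_mul, abs_of_nonneg h0, h3]
    have h4 : 0 ≤ e * |b| := mul_nonneg he.le (abs_nonneg b)
    have h5 : c * (e * |b|) ≤ 1 * (e * |b|) := mul_le_mul_of_nonneg_right h1 h4
    linarith
  have h3 := abs_lt.1 h2
  constructor
  · intro ha
    rw [abs_of_pos ha] at h3
    linarith [h3.1]
  · intro ha
    rw [abs_of_neg ha] at h3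
    linarith [h3.2]

section

variable {C : Type u} [Category.{v} C] [Preadditive C] [HasZeroObject C] [HasShift C ℤ]
  [∀ n : ℤ, (shiftFunctor C n).Additive] [Pretriangulated C] [IsTriangulated C] [Linear ℂ C]
  [∀ n : ℤ, (shiftFunctor C n).Linear ℂ]

theorem p_PRR : Stmt_SEG C → Stmt_HCN C → Stmt_ADJ C → Stmt_PRR C := by
  intro hSEG hHCN hADJ h σ' t ε im u hε hu him hgap hroot
  -- zeros of the imaginary parts
  have hzero : ∀ s ∈ Set.Icc (0 : ℝ) 1, ∀ x, eulerForm h.k3 x x ≤ 2 →
      im x + (1 - s) * (ε * u x) = 0 → im x = 0 := by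
    intro s hs x hx h0
    by_contra hne
    obtain ⟨h1, h2⟩ := PRR_sign (c := 1 - s) hε (hgap x hx hne) (by linarith [hs.2])
      (by linarith [hs.1])
    rcases lt_or_gt_of_ne hne with h3 | h3
    · have := h2 h3
      linarith
    · have := h1 h3
      linarith
  obtain ⟨Γ, hΓ0, hΓ⟩ := hSEG h σ' t (σ'.re t) im (by
      intro r hr
      refine ⟨rfl, ?_⟩
      rw [him, hu r hr, mul_zero, add_zero]) (by
      intro s hs x hx h0
      have h1 : im x + (1 - s) * (ε * u x) = 0 := by
        rw [him] at h0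
        linarith
      have h2 := hroot x hx (hzero s hs x hx.le h1)
      have h3 : (1 - s) * σ'.re t x + s * σ'.re t x = σ'.re t x := by ring
      rw [h3]
      exact h2)
  have hre : ∀ s x, (Γ s).re t x = σ'.re t x := by
    intro s x
    rw [(hΓ s x).1]
    ring
  have himΓ : ∀ (s : unitInterval) x, (Γ s).im t x = im x + (1 - (s : ℝ)) * (ε * u x) := by
    intro s x
    rw [(hΓ s x).2, him]
    ring
  -- signs on the left of `1`
  have hsign : ∀ s ∈ Set.Iio (1 : unitInterval), ∀ s' ∈ Set.Iio (1 : unitInterval), ∀ x,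
      eulerForm h.k3 x x ≤ 2 → 0 < (Γ s).im t x → 0 < (Γ s').im t x := by
    intro s hs s' hs' x hx h0
    rw [himΓ] at h0 ⊢
    have hs1 : (s : ℝ) < 1 := by exact_mod_cast hs
    have hs1' : (s' : ℝ) < 1 := by exact_mod_cast hs'
    by_cases hne : im x = 0
    · rw [hne, zero_add] at h0 ⊢
      have h1 : 0 < ε * u x := (pos_iff_pos_of_mul_pos h0).1 (by linarith)
      exact mul_pos (by linarith) h1
    · rcases lt_or_gt_of_ne hne with h3 | h3
      · have h4 := (PRR_sign (c := 1 - (s : ℝ)) hε (hgap x hx hne) (by linarith)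
          (by linarith [s.2.1])).2 h3
        linarith
      · exact (PRR_sign (c := 1 - (s' : ℝ)) hε (hgap x hx hne) (by linarith)
          (by linarith [s'.2.1])).1 h3
  have h01 : (0 : unitInterval) < 1 := by
    rw [← Subtype.coe_lt_coe]
    norm_num
  have hheart := hHCN h Γ t (Set.Iio 1) Set.ordConnected_Iio hsign
  have hne : (𝓝[<] (1 : unitInterval)).NeBot := nhdsLT_neBot_of_exists_lt ⟨0, h01⟩
  have hadj := hADJ h Γ t (Set.Iio 1) (σ'.sl.Heart t) (by
    intro s hs X
    have h1 := hheart s hs 0 h01 X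
    rw [hΓ0] at h1
    exact h1) 1 (frequently_lt_nhds 1)
  refine ⟨Γ 1, ⟨⟨Γ, hΓ0, rfl⟩⟩, hre 1, ?_, hadj⟩
  intro x
  rw [himΓ]
  simp

end

end Pool.Move
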