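import Pool.Agent.Work.MP_841263_mv.Interface

/-! # Moves, block PRT (helper11): the perturbation path -/

set_option autoImplicit false

open CategoryTheory CategoryTheory.Limits CategoryTheory.Pretriangulated
open scoped ZeroObject Topology
open Filter

set_option backward.isDefEq.respectTransparency false
set_option backward.defeqAttrib.useBackward true

namespace Pool.Move

open Pool.Stab Pool.Tube

universe v u

variable (C : Type u) [Category.{v} C] [Preadditive C] [HasZeroObject C] [HasShift C ℤ]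
  [∀ n : ℤ, (shiftFunctor C n).Additive] [Pretriangulated C] [IsTriangulated C] [Linear ℂ C]
  [∀ n : ℤ, (shiftFunctor C n).Linear ℂ]

theorem PRT_sign {a b s : ℝ} (h : a ≠ 0 → |b| < |a|) (hs : s ∈ Set.Icc (0 : ℝ) 1) (ha : a ≠ 0) :
    (0 < a + s * b ↔ 0 < a) ∧ a + s * b ≠ 0 := by
  have h1 := h ha
  have h2 : |s * b| < |a| := by
    rw [abs_mul, abs_of_nonneg hs.1]
    calc s * |b| ≤ 1 * |b| := mul_le_mul_of_nonneg_right hs.2 (abs_nonneg _)
      _ = |b| := one_mul _
      _ < |a| := h1
  rcases lt_or_gt_of_ne ha with h3 | h3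
  · rw [abs_of_neg h3] at h2
    have h4 := le_abs_self (s * b)
    constructor
    · constructor
      · intro h5
        linarith
      · intro h5
        linarith
    · intro h5
      linarith
  · rw [abs_of_pos h3] at h2
    have h4 := neg_abs_le (s * b)
    constructor
    · constructor
      · intro _
        exact h3
      · intro _
        linarith
    · intro h5
      linarith

theorem PRT_freq : ∃ᶠ s in 𝓝 (0 : unitInterval), s ∈ Set.Ioi (0 : unitInterval) := by
  rw [← mem_closure_iff_frequently, closure_Ioi' ⟨1, Set.mem_Ioi.2 zero_lt_one⟩]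
  exact Set.mem_Ici.2 le_rfl

theorem p_PRT : Stmt_SEG C → Stmt_HCN C → Stmt_ADJ C → Stmt_PRT C := by
  intro hSEG hHCN hADJ h σ t ε u hε hrad hsg
  have hb : ∀ x, (σ.im t + (AddMonoidHom.mulLeft ε).comp u) x = σ.im t x + ε * u x := fun x => rfl
  have hsg' : ∀ x, eulerForm h.k3 x x ≤ 2 → σ.im t x ≠ 0 → |ε * u x| < |σ.im t x| := by
    intro x hx h0
    rw [abs_mul, abs_of_pos hε]
    exact hsg x hx h0
  obtain ⟨Γ, hΓ0, hΓ⟩ := hSEG h σ t (σ.re t) (σ.im t + (AddMonoidHom.mulLeft ε).comp u)
    (by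
      intro r hr
      refine ⟨rfl, ?_⟩
      rw [hb, hrad r hr, mul_zero, add_zero])
    (by
      intro s hs x hx h0
      rw [hb] at h0
      have h1 : σ.im t x + s * (ε * u x) = 0 := by linarith
      have h2 : σ.im t x = 0 := by
        by_contra h3
        exact (PRT_sign (fun h4 => hsg' x (by omega) h4) hs h3).2 h1
      have h3 : σ.Z x ≠ 0 := h.Z_ne_zero σ (by omega) (by
        intro h4
        rw [h4] at hx
        simp at hx)
      intro h4
      have h5 : σ.re t x = 0 := by linarith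
      apply h3
      have h6 := σ.norm_sq t x
      rw [h5, h2] at h6
      have h7 : ‖σ.Z x‖ ^ 2 = 0 := by
        rw [h6]
        norm_num
      exact norm_eq_zero.1 (pow_eq_zero_iff (two_ne_zero) |>.1 h7))
  have him : ∀ (s : unitInterval) (x : K0 C), (Γ s).im t x = σ.im t x + s * (ε * u x) := by
    intro s x
    rw [(hΓ s x).2, hb]
    ring
  have hJ : (Set.Ioi (0 : unitInterval)).OrdConnected := Set.ordConnected_Ioi
  have hh := hHCN h Γ t (Set.Ioi (0 : unitInterval)) hJ (by
    intro s hs s' hs' x hx h0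
    rw [him] at h0 ⊢
    by_cases h1 : σ.im t x = 0
    · rw [h1, zero_add] at h0 ⊢
      have h2 : (0 : ℝ) < (s : ℝ) := hs
      have h3 : (0 : ℝ) < (s' : ℝ) := hs'
      exact mul_pos h3 ((mul_pos_iff_of_pos_left h2).1 h0)
    · rw [(PRT_sign (fun h4 => hsg' x hx h4) s.2 h1).1] at h0
      rw [(PRT_sign (fun h4 => hsg' x hx h4) s'.2 h1).1]
      exact h0)
  have h1J : (1 : unitInterval) ∈ Set.Ioi (0 : unitInterval) := Set.mem_Ioi.2 zero_lt_one
  refine ⟨Γ 1, ⟨⟨Γ, hΓ0, rfl⟩⟩, ?_, ?_, ?_⟩
  · intro x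
    rw [(hΓ 1 x).1]
    simp
  · intro x
    rw [him 1 x]
    simp
  · have h2 := hADJ h Γ t (Set.Ioi (0 : unitInterval)) ((Γ 1).sl.Heart t)
      (fun s hs X => hh s hs 1 h1J X) 0 PRT_freq
    rwa [hΓ0] at h2

end Pool.Move
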