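import Pool.Agent.Work.MP_841263_mv.Interface

/-!
# Block RAI: objects that stay under raising
-/

open CategoryTheory CategoryTheory.Limits CategoryTheory.Pretriangulated
open scoped ZeroObject Topology
open Filter

set_option backward.isDefEq.respectTransparency false
set_option backward.defeqAttrib.useBackward true
set_option linter.unusedSectionVars false

namespace Pool.Move

open Pool.Stab Pool.Tube

universe v u

variable (C : Type u) [Category.{v} C] [Preadditive C] [HasZeroObject C] [HasShift C ℤ]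
  [∀ n : ℤ, (shiftFunctor C n).Additive] [Pretriangulated C] [IsTriangulated C] [Linear ℂ C]
  [∀ n : ℤ, (shiftFunctor C n).Linear ℂ]

theorem p_RAI : Stmt_SLI C → Stmt_GZS C → Stmt_ADT C → Stmt_LII C → Stmt_SIN C →
    Stmt_SAL C → Stmt_RAI C := by
  intro hSLI hGZS hADT hLII hSIN hSAL h σ₀ σ₁ t A S hT E hE hES
  obtain ⟨hAS, -, hS1⟩ := hSIN h σ₀ σ₁ t A S hT
  obtain ⟨V, F, f, g, k, hVF, hV1, hAV, hAF, hF1⟩ := hT.adj₁.cutR E hE
  have hV0 : σ₀.sl.P t V := (hLII h σ₀ σ₁ t A S hT V hAV).2 hV1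
  have hFS : ∀ a : F ⟶ S, a = 0 := by
    intro a
    obtain ⟨c, hc⟩ := Triangle.yoneda_exact₂ _ (rot_mk hVF) a (hES (g ≫ a))
    have hV2 : σ₁.sl.P (t + 1 + 1) ((V⟦(1 : ℤ)⟧)⟦(1 : ℤ)⟧) :=
      (σ₁.sl.shift_mem _ _).1 ((σ₁.sl.shift_mem _ _).1 hV1)
    have hc0 : c = 0 := σ₁.sl.hom_zero (by linarith) hV2 hS1 c
    rw [hc, hc0, CategoryTheory.Limits.comp_zero]
  obtain ⟨F', F'', f', g', hS, hF', hF''⟩ := (hADT σ₀ t A hT.adj₀).2.1 F hAF
  have hF''1 : σ₁.sl.In (Set.Ioc t (t + 1)) F'' :=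
    ((hADT σ₁ t A hT.adj₁).2.2 F' F F'' f' g' hS).2.2.2 hF1
  have him : σ₁.im t (cls F'') = 0 := by
    rw [hT.im]
    exact (hSLI σ₀ t F'').2.2.2.2.1 hF''
  have hF''2 : σ₁.sl.P (t + 1) F'' := (hSLI σ₁ t F'').2.1 hF''1 him
  have hGen := hSAL h σ₀ σ₁ t A S hT F'' hF'' hF''2
  have hz : IsZero F'' := by
    refine hGZS S hT.sph F'' hGen (Or.inr ?_)
    intro a
    exact hS.epi hT.adj₀.ab hAS a (hFS (g' ≫ a))
  obtain ⟨-, -, -, d, hd⟩ := hS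
  have := iso_of_isZero₃ hd hz
  have hF0 : σ₀.sl.In (Set.Ioc t (t + 1)) F := hF'.iso (asIso f')
  have hV10 : σ₀.sl.In (Set.Ioc t (t + 1)) (V⟦(1 : ℤ)⟧) :=
    Slicing.in_of_P ((σ₀.sl.shift_mem _ _).1 hV0) ⟨by linarith, le_refl _⟩
  exact ((hSLI σ₀ t E).2.2.2.2.2.2 _ _ f g k hVF).2.1 hV10 hF0

end Pool.Move
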