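import Mathlib
import Pool.Agent.Work.MP_841263_mv.Interface

/-!
# Block RSR: raising a simple object
-/

open CategoryTheory CategoryTheory.Limits CategoryTheory.Pretriangulated
open scoped ZeroObject Topology
open Filter

set_option backward.isDefEq.respectTransparency false
set_option backward.defeqAttrib.useBackward true
set_option linter.unusedSectionVars false

namespace Pool.Move

open Pool.Stab Pool.Tube

universe v u

variable {C : Type u} [Category.{v} C] [Preadditive C] [HasZeroObject C] [HasShift C ℤ]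
  [∀ n : ℤ, (shiftFunctor C n).Additive] [Pretriangulated C] [IsTriangulated C] [Linear ℂ C]
  [∀ n : ℤ, (shiftFunctor C n).Linear ℂ]

omit [IsTriangulated C] [Linear ℂ C] [∀ n : ℤ, (shiftFunctor C n).Linear ℂ] in
/-- The charge is determined by the rotated parts. -/
lemma RSR_Z {σ σ' : StabCond C} (s : ℝ) (x y : K0 C) (c : ℤ)
    (hre : σ'.re s x = σ.re s x - c * σ.re s y) (him : σ'.im s x = σ.im s x - c * σ.im s y) :
    σ'.Z x = σ.Z x - c * σ.Z y := by
  have hexp : Complex.exp (-(Real.pi * s * Complex.I)) ≠ 0 := Complex.exp_ne_zero _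
  have key : σ'.Z x * Complex.exp (-(Real.pi * s * Complex.I)) =
      (σ.Z x - c * σ.Z y) * Complex.exp (-(Real.pi * s * Complex.I)) := by
    rw [sub_mul, mul_assoc (c : ℂ), σ'.Z_eq, σ.Z_eq, σ.Z_eq]
    apply Complex.ext
    · simp [hre]
    · simp [him]
  exact mul_right_cancel₀ hexp key

omit [IsTriangulated C] [Linear ℂ C] [∀ n : ℤ, (shiftFunctor C n).Linear ℂ] in
lemma RSR_im (σ : StabCond C) (t : ℝ) (x : K0 C) : σ.im (t - 1) x = - σ.im t x := by
  have h1 : Complex.exp (-(Real.pi * ((t - 1 : ℝ) : ℂ) * Complex.I)) =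
      - Complex.exp (-(Real.pi * t * Complex.I)) := by
    have h2 : (-(Real.pi * ((t - 1 : ℝ) : ℂ) * Complex.I) : ℂ) =
        -(Real.pi * t * Complex.I) + Real.pi * Complex.I := by push_cast; ring
    rw [h2, Complex.exp_add, Complex.exp_pi_mul_I]
    ring
  rw [StabCond.im_apply, StabCond.im_apply, h1, mul_neg, Complex.neg_im]

theorem p_RSR : Stmt_SLI C → Stmt_TUX C → Stmt_SST C → Stmt_LOW C → Stmt_RAI C → Stmt_BLR C →
    Stmt_RSR C := by
  intro _ hTUX hSST hLOW hRAI hBLR h σ t δ hδ hδ0 hδim S hS hst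
  have ht : t - 1 + 1 = t := by ring
  have hst' : σ.Stable (t - 1 + 1) S := by rw [ht]; exact hst
  have him0 : σ.im (t - 1) (cls S) = 0 := σ.im_of_P hst'.1
  have hre0 : σ.re (t - 1) (cls S) < 0 := σ.re_neg_of_P hst'.1 hst'.2.1
  have hrig : Rigid S := fun f => hS.2 1 (by norm_num) (by norm_num) f
  have h2 : eulerForm h.k3 (cls S) (cls S) = 2 :=
    (σ.sl.heart_ab (t - 1)).norm_of_rigid h.k3 hst'.simple hrig
  obtain ⟨σ', A, hj, ha, ha', him, hre, hnn⟩ := hTUX h σ (t - 1) δ hδ hδ0
    (by rw [RSR_im, hδim, neg_zero]) S hS him0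
  have hreS : σ'.re (t - 1) (cls S) = - σ.re (t - 1) (cls S) := by
    rw [hre, h2]
    push_cast
    ring
  have hT : Turn h σ' σ (t - 1) A S := by
    refine ⟨ha', ha, hS, fun x => (him x).symm, by rw [him, him0], ?_, by rw [hreS]; linarith,
      ?_, Or.inr hst'⟩
    · intro x
      rw [hreS, hre]
      ring
    · intro X hX h0
      rw [him] at h0
      exact hnn X hX h0
  have hS1 := (hSST h σ' σ (t - 1) A S hT).1
  have hL := hLOW h σ' σ (t - 1) A S hT
  have hR := hRAI h σ' σ (t - 1) A S hT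
  have hB := hBLR h σ' σ (t - 1) A S hT
  rw [ht] at hL hR hB
  refine ⟨σ', hj, ?_, hS1, hR, hL, hB⟩
  intro x
  refine RSR_Z (t - 1) x (cls S) _ (hre x) ?_
  rw [him, him0, mul_zero, sub_zero]

end Pool.Move
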