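import Mathlib
import Pool.Agent.Work.MP_841263_mv.Interface

/-!
# Block SAL: the objects of phase `t` for one and `t + 1` for the other are copies of `S`
-/

open CategoryTheory CategoryTheory.Limits CategoryTheory.Pretriangulated
open scoped ZeroObject Topology
open Filter

set_option backward.isDefEq.respectTransparency false
set_option backward.defeqAttrib.useBackward true
set_option linter.unusedSectionVars false

namespace Pool.Move

open Pool.Stab Pool.Tube

universe v u

section

variable {C : Type u} [Category.{v} C] [Preadditive C] [HasZeroObject C] [HasShift C ℤ]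
  [∀ n : ℤ, (shiftFunctor C n).Additive] [Pretriangulated C] [IsTriangulated C] [Linear ℂ C]
  [∀ n : ℤ, (shiftFunctor C n).Linear ℂ]

lemma SAL_sum (F : K0 C →+ ℝ) (L : Multiset C) :
    F (L.map cls).sum = (L.map (fun X => F (cls X))).sum := by
  induction L using Multiset.induction_on with
  | empty => simp
  | cons X L ih => simp [ih]

lemma SAL_nonneg {ι : Type*} {f : ι → ℝ} (s : Multiset ι) (h : ∀ x ∈ s, 0 ≤ f x) :
    0 ≤ (s.map f).sum := by
  induction s using Multiset.induction_on with
  | empty => simp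
  | cons a s ih =>
    rw [Multiset.map_cons, Multiset.sum_cons]
    exact add_nonneg (h a (Multiset.mem_cons_self a s))
      (ih (fun x hx => h x (Multiset.mem_cons_of_mem hx)))

lemma SAL_zero {ι : Type*} {f : ι → ℝ} (s : Multiset ι) (h : ∀ x ∈ s, 0 ≤ f x)
    (h0 : (s.map f).sum ≤ 0) : ∀ x ∈ s, f x = 0 := by
  induction s using Multiset.induction_on with
  | empty => simp
  | cons a s ih =>
    rw [Multiset.map_cons, Multiset.sum_cons] at h0
    have h1 := SAL_nonneg s (fun x hx => h x (Multiset.mem_cons_of_mem hx))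
    have h2 := h a (Multiset.mem_cons_self a s)
    have h3 := ih (fun x hx => h x (Multiset.mem_cons_of_mem hx)) (by linarith)
    intro x hx
    rcases Multiset.mem_cons.1 hx with rfl | hx
    · linarith
    · exact h3 x hx

lemma SAL_rigid {S : C} (hS : Spherical S) : Rigid S :=
  hS.2 1 (by norm_num) (by norm_num)

lemma SAL_gen {σ : StabCond C} (hK : IsK3 C) {t : ℝ} {S Y : C} (hS : σ.Stable (t + 1) S)
    (hsph : Spherical S) {L : Multiset C} (hL : ∀ G ∈ L, σ.Stable (t + 1) G)
    (hc : ∀ G ∈ L, cls G = cls S) (hY : Gen (fun H => H ∈ L) Y) :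
    Gen (fun X => Nonempty (X ≅ S)) Y := by
  refine hY.mono ?_
  intro G hG
  obtain ⟨e⟩ := (σ.sl.heart_ab t).iso_of_cls hK hS.simple (hL G hG).simple (SAL_rigid hsph)
    (hc G hG).symm
  exact ⟨e.symm⟩

end

variable (C : Type u) [Category.{v} C] [Preadditive C] [HasZeroObject C] [HasShift C ℤ]
  [∀ n : ℤ, (shiftFunctor C n).Additive] [Pretriangulated C] [IsTriangulated C] [Linear ℂ C]
  [∀ n : ℤ, (shiftFunctor C n).Linear ℂ]

theorem p_SAL : Stmt_NUM C → Stmt_SLI C → Stmt_SAL C := by
  intro hNUM hSLI h σ₀ σ₁ t A S hT Y hY₀ hY₁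
  have hfin := h.finite
  have hfree := h.free
  obtain ⟨L₀, a₀, b₀, c₀⟩ := gen_multiset (σ₀.gen_stable hY₀)
  obtain ⟨L₁, a₁, b₁, c₁⟩ := gen_multiset (σ₁.gen_stable hY₁)
  have hα : eulerForm h.k3 (cls S) (cls S) = 2 := by
    rcases hT.stable with hs | hs
    · have e : t - 1 + 1 = t := by ring
      rw [← e] at hs
      exact (σ₀.sl.heart_ab (t - 1)).norm_of_rigid h.k3 hs.simple (SAL_rigid hT.sph)
    · exact (σ₁.sl.heart_ab t).norm_of_rigid h.k3 hs.simple (SAL_rigid hT.sph)
  have hre1 : σ₁.re t (cls S) = - σ₀.re t (cls S) := by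
    rw [hT.re, hα]
    push_cast
    ring
  set f : K0 C →+ ℝ := σ₀.re t + σ₁.re t with hf
  have hfα : f (cls S) = 0 := by
    rw [hf, AddMonoidHom.add_apply, hre1]
    ring
  have h0 : ∀ G ∈ L₀, cls G = cls S ∨ 0 < f (cls G) := by
    intro G hG
    by_cases hc : cls G = cls S
    · exact Or.inl hc
    · right
      have hG0 : ¬ IsZero G := (a₀ G hG).2.1
      have hP : σ₀.sl.P t G := (a₀ G hG).1
      have hn := (StabCond.Stable.cls_le h.k3 (a₀ G hG)).2
      have him := (hSLI σ₀ t G).2.2.2.2.1 hP
      have hre := (hSLI σ₀ t G).2.2.2.2.2.1 hP hG0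
      have h1 := hNUM h σ₀ σ₁ t A S hT (cls G) hn him hre hc
      rw [hf, AddMonoidHom.add_apply]
      linarith
  have h1 : ∀ H ∈ L₁, cls H = cls S ∨ f (cls H) < 0 := by
    intro H hH
    by_cases hc : cls H = cls S
    · exact Or.inl hc
    · right
      have hH0 : ¬ IsZero H := (a₁ H hH).2.1
      have hP : σ₁.sl.P (t + 1) H := (a₁ H hH).1
      have hn := (StabCond.Stable.cls_le h.k3 (a₁ H hH)).2
      have him : σ₀.im t (cls H) = 0 := by
        rw [← hT.im]
        exact σ₁.im_of_P hP
      have hre := σ₁.re_neg_of_P hP hH0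
      have h2 : σ₀.re t (cls H) < 0 := by
        rcases lt_trichotomy (σ₀.re t (cls H)) 0 with h3 | h3 | h3
        · exact h3
        · exfalso
          have hne : cls H ≠ 0 := by
            intro h4
            rw [h4] at hre
            simp at hre
          have h5 := σ₀.norm_sq t (cls H)
          rw [h3, him] at h5
          have h6 : σ₀.Z (cls H) = 0 := by
            have : ‖σ₀.Z (cls H)‖ = 0 := by nlinarith [norm_nonneg (σ₀.Z (cls H))]
            exact norm_eq_zero.1 this
          exact h.Z_ne_zero σ₀ hn hne h6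
        · exfalso
          have h4 := hNUM h σ₀ σ₁ t A S hT (cls H) hn him h3 hc
          linarith
      rw [hf, AddMonoidHom.add_apply]
      linarith
  have hY0 : 0 ≤ f (cls Y) := by
    rw [← b₀, SAL_sum]
    refine SAL_nonneg _ ?_
    intro G hG
    rcases h0 G hG with h2 | h2
    · rw [h2, hfα]
    · exact h2.le
  have hY1 : f (cls Y) ≤ 0 := by
    have h2 : 0 ≤ (L₁.map (fun X => (-f) (cls X))).sum := by
      refine SAL_nonneg _ ?_
      intro H hH
      rcases h1 H hH with h3 | h3
      · rw [h3, AddMonoidHom.neg_apply, hfα]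
        simp
      · rw [AddMonoidHom.neg_apply]
        linarith
    rw [← SAL_sum, b₁, AddMonoidHom.neg_apply] at h2
    linarith
  rcases hT.stable with hs | hs
  · have hall : ∀ G ∈ L₀, cls G = cls S := by
      intro G hG
      have h2 := SAL_zero (f := fun X => f (cls X)) L₀ (by
        intro G hG
        rcases h0 G hG with h2 | h2
        · rw [h2, hfα]
        · exact h2.le) (by rw [← SAL_sum, b₀]; exact hY1) G hG
      rcases h0 G hG with h3 | h3
      · exact h3
      · exact absurd h2 h3.ne'
    have e : t - 1 + 1 = t := by ring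
    rw [← e] at hs a₀
    exact SAL_gen h.k3 hs hT.sph a₀ hall c₀
  · have hall : ∀ H ∈ L₁, cls H = cls S := by
      intro H hH
      have h2 := SAL_zero (f := fun X => (-f) (cls X)) L₁ (by
        intro G hG
        rcases h1 G hG with h2 | h2
        · rw [h2, AddMonoidHom.neg_apply, hfα]
          simp
        · rw [AddMonoidHom.neg_apply]
          linarith) (by
            rw [← SAL_sum, b₁, AddMonoidHom.neg_apply]
            linarith) H hH
      rcases h1 H hH with h3 | h3
      · exact h3
      · rw [AddMonoidHom.neg_apply] at h2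
        exact absurd (neg_eq_zero.1 h2) h3.ne
    exact SAL_gen h.k3 hs hT.sph a₁ hall c₁

end Pool.Move
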