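import Pool.Agent.Work.MP_841263_mv.Interface

set_option autoImplicit false
set_option linter.unusedSectionVars false
set_option backward.isDefEq.respectTransparency false
set_option backward.defeqAttrib.useBackward true

/-! # MP_841263, moves, block SEG: segments of charges in rotated coordinates -/

open CategoryTheory CategoryTheory.Limits CategoryTheory.Pretriangulated
open scoped ZeroObject Topology
open Filter

namespace Pool.Move

open Pool.Stab Pool.Tube

universe v u

/-- The complex number with given rotated coordinates. -/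
noncomputable def SEG_val (t p q : ℝ) : ℂ :=
  ((p : ℂ) + (q : ℂ) * Complex.I) * Complex.exp (Real.pi * t * Complex.I)

theorem SEG_add (t p q p' q' : ℝ) :
    SEG_val t (p + p') (q + q') = SEG_val t p q + SEG_val t p' q' := by
  unfold SEG_val
  push_cast
  ring

theorem SEG_rot (t p q : ℝ) : SEG_val t p q * Complex.exp (-(Real.pi * t * Complex.I)) =
    (p : ℂ) + (q : ℂ) * Complex.I := by
  unfold SEG_val
  rw [mul_assoc, ← Complex.exp_add, add_neg_cancel, Complex.exp_zero, mul_one]

theorem SEG_re (t p q : ℝ) :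
    (SEG_val t p q * Complex.exp (-(Real.pi * t * Complex.I))).re = p := by
  rw [SEG_rot]
  simp

theorem SEG_im (t p q : ℝ) :
    (SEG_val t p q * Complex.exp (-(Real.pi * t * Complex.I))).im = q := by
  rw [SEG_rot]
  simp

theorem SEG_zero {t p q : ℝ} (h : SEG_val t p q = 0) : p = 0 ∧ q = 0 := by
  have h1 := SEG_re t p q
  have h2 := SEG_im t p q
  rw [h, zero_mul] at h1 h2
  exact ⟨h1.symm, h2.symm⟩

/-- A complex number is determined by its rotated coordinates. -/
theorem SEG_eq (t : ℝ) (z : ℂ) : SEG_val t (z * Complex.exp (-(Real.pi * t * Complex.I))).re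
    (z * Complex.exp (-(Real.pi * t * Complex.I))).im = z := by
  unfold SEG_val
  rw [Complex.re_add_im, mul_assoc, ← Complex.exp_add, neg_add_cancel, Complex.exp_zero,
    mul_one]

variable {C : Type u} [Category.{v} C] [Preadditive C] [HasZeroObject C] [HasShift C ℤ]
  [∀ n : ℤ, (shiftFunctor C n).Additive] [Pretriangulated C] [IsTriangulated C] [Linear ℂ C]
  [∀ n : ℤ, (shiftFunctor C n).Linear ℂ]

theorem p_SEG : Pool.Align.Stmt_LFT C → Stmt_SEG C := by
  intro hLFT h σ t a b hrad hroot
  obtain ⟨W, hW⟩ : ∃ W : ℝ → (K0 C →+ ℂ), ∀ s x, W s x =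
      SEG_val t ((1 - s) * σ.re t x + s * a x) ((1 - s) * σ.im t x + s * b x) := by
    refine ⟨fun s => AddMonoidHom.mk' (fun x =>
      SEG_val t ((1 - s) * σ.re t x + s * a x) ((1 - s) * σ.im t x + s * b x)) ?_, ?_⟩
    · intro x y
      rw [← SEG_add]
      congr 1
      · rw [map_add, map_add]; ring
      · rw [map_add, map_add]; ring
    · intro s x
      rfl
  have hZ : ∀ x, SEG_val t (σ.re t x) (σ.im t x) = σ.Z x := by
    intro x
    rw [StabCond.re_apply, StabCond.im_apply]
    exact SEG_eq t _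
  have hWr : ∀ s, ∀ r ∈ radical (eulerForm h.k3), W s r = σ.Z r := by
    intro s r hr
    obtain ⟨h1, h2⟩ := hrad r hr
    rw [hW, h1, h2, ← hZ r]
    congr 1 <;> ring
  have hcont : ∀ x, Continuous (fun s => W s x) := by
    intro x
    simp only [hW]
    unfold SEG_val
    fun_prop
  have hreg : ∀ s ∈ Set.Icc (0 : ℝ) 1, W s ∈ Xreg (eulerForm h.k3) := by
    intro s hs
    refine ⟨?_, ?_⟩
    · intro x hx h0
      rw [hW] at h0
      obtain ⟨h1, h2⟩ := SEG_zero h0
      exact hroot s hs x hx h2 h1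
    · intro r hr r' hr' hrr
      rw [hWr s r hr, hWr s r' hr']
      exact (h.mem_Xreg σ).2 r hr r' hr' hrr
  have h0 : W 0 = σ.Z := by
    ext x
    rw [hW, ← hZ x]
    congr 1 <;> ring
  obtain ⟨Γ, hΓ0, hΓ⟩ := hLFT h σ W hcont hreg h0
  refine ⟨Γ, hΓ0, fun s x => ⟨?_, ?_⟩⟩
  · rw [StabCond.re_apply, hΓ, hW]
    exact SEG_re t _ _
  · rw [StabCond.im_apply, hΓ, hW]
    exact SEG_im t _ _

end Pool.Move
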