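import Pool.Agent.Work.MP_841263_mv.Interface

/-!
# Block SGN: small multiples of `u` do not change signs
-/

open CategoryTheory CategoryTheory.Limits CategoryTheory.Pretriangulated
open scoped ZeroObject Topology
open Filter

set_option backward.isDefEq.respectTransparency false
set_option backward.defeqAttrib.useBackward true

namespace Pool.Move

open Pool.Stab Pool.Tube

universe v u

/-- The gap of `im` on the classes of norm at most two. -/
lemma SGN_gap {K : Type u} [AddCommGroup K] [Module.Finite ℤ K] [Module.Free ℤ K]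
    {B : K →+ K →+ ℤ} (hR : Module.finrank ℤ (radical B) = 2)
    {im : K →+ ℝ} {δ : K} (hδ : δ ∈ radical B) (hδ0 : δ ≠ 0) (h1 : im δ = 0)
    {F : Finset K} (hF : ∀ x, B x x ≤ 2 → ∃ f ∈ F, x - f ∈ radical B) :
    ∃ g : ℝ, 0 < g ∧ ∀ x, B x x ≤ 2 → 0 < im x → g ≤ im x := by
  obtain ⟨η, hη⟩ := exists_step _ hR im hδ hδ0 h1
  set W : Set ℝ := ⋃ f ∈ F, {v : ℝ | v ∈ Set.Ioc (0 : ℝ) 1 ∧ ∃ n : ℤ, v = im f + n * η}
    with hW
  have hWfin : W.Finite := F.finite_toSet.biUnion (fun f _ => finite_Ioc_progression _ _)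
  have hmem : ∀ x, B x x ≤ 2 → 0 < im x → im x ≤ 1 → im x ∈ W := by
    intro x hx hpos hle
    obtain ⟨f, hfF, hf⟩ := hF x hx
    obtain ⟨n, hn⟩ := hη _ hf
    rw [hW, Set.mem_iUnion₂]
    refine ⟨f, hfF, ⟨hpos, hle⟩, n, ?_⟩
    rw [map_sub] at hn
    linarith
  by_cases hne : W.Nonempty
  · obtain ⟨ε, hε, hmin⟩ := Set.exists_min_image W id hWfin hne
    rw [hW, Set.mem_iUnion₂] at hε
    obtain ⟨f, -, ⟨hε1, hε2⟩, -⟩ := hε
    refine ⟨ε, hε1, ?_⟩
    intro x hx hpos
    by_cases hle : im x ≤ 1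
    · exact hmin _ (hmem x hx hpos hle)
    · push Not at hle
      exact hε2.trans hle.le
  · refine ⟨1, one_pos, ?_⟩
    intro x hx hpos
    by_contra hle
    push Not at hle
    exact hne ⟨_, hmem x hx hpos hle.le⟩

/-- **Block SGN.** -/
theorem p_SGN : Stmt_SGN := by
  intro K _ _ _ B hB hR im w δ hδ hδ0 h1 hw
  obtain ⟨F, hF⟩ := hB.finite_mod_radical 2
  obtain ⟨g, hg, hgap⟩ := SGN_gap hR hδ hδ0 h1 hF
  obtain ⟨M, hM⟩ : ∃ M : ℝ, M = ∑ f ∈ F, |w f| := ⟨_, rfl⟩
  have hM0 : 0 ≤ M := by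
    rw [hM]
    exact Finset.sum_nonneg fun _ _ => abs_nonneg _
  refine ⟨g / (M + 1), by positivity, ?_⟩
  intro x hx hx0
  have h2 : |w x| ≤ M := by
    obtain ⟨f, hfF, hf⟩ := hF x hx
    have h3 := hw _ hf
    rw [map_sub, sub_eq_zero] at h3
    rw [h3, hM]
    exact Finset.single_le_sum (f := fun f => |w f|) (fun _ _ => abs_nonneg _) hfF
  have h4 : g ≤ |im x| := by
    rcases lt_or_gt_of_ne hx0 with h5 | h5
    · have h6 : B (-x) (-x) ≤ 2 := by
        have h7 : B (-x) (-x) = B x x := by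
          rw [map_neg, map_neg, AddMonoidHom.neg_apply, neg_neg]
        rw [h7]
        exact hx
      have h8 := hgap (-x) h6 (by rw [map_neg]; linarith)
      rw [map_neg] at h8
      rw [abs_of_neg h5]
      exact h8
    · rw [abs_of_pos h5]
      exact hgap x hx h5
  refine lt_of_lt_of_le ?_ h4
  calc g / (M + 1) * |w x| ≤ g / (M + 1) * M := mul_le_mul_of_nonneg_left h2 (by positivity)
    _ = g * (M / (M + 1)) := by ring
    _ < g * 1 := by
        apply mul_lt_mul_of_pos_left _ hg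
        rw [div_lt_one (by linarith)]
        linarith
    _ = g := mul_one g

end Pool.Move
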