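import Pool.Agent.Work.MP_841263_mv.Interface

/-!
# SIN: the object of the half turn is in the heart (helper63)
-/

open CategoryTheory CategoryTheory.Limits CategoryTheory.Pretriangulated
open scoped ZeroObject Topology
open Filter

set_option backward.isDefEq.respectTransparency false
set_option backward.defeqAttrib.useBackward true
set_option linter.unusedSectionVars false

namespace Pool.Move

open Pool.Stab Pool.Tube

universe v u

variable {C : Type u} [Category.{v} C] [Preadditive C] [HasZeroObject C] [HasShift C ℤ]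
  [∀ n : ℤ, (shiftFunctor C n).Additive] [Pretriangulated C] [IsTriangulated C] [Linear ℂ C]
  [∀ n : ℤ, (shiftFunctor C n).Linear ℂ]

theorem SIN_norm (hK : IsK3 C) {σ : StabCond C} {φ : ℝ} {S : C} (hS : Spherical S)
    (hP : σ.sl.P φ S) : eulerForm hK (cls S) (cls S) = 2 := by
  rw [σ.euler_self hK hP, hS.1, finrank_of_forall_zero (hS.2 1 (by norm_num) (by norm_num))]
  norm_num

theorem SIN_zero (h : EllipticSetting C) (hsli : Stmt_SLI C) (hadt : Stmt_ADT C)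
    (hlii : Stmt_LII C) {σ₀ σ₁ : StabCond C} {t : ℝ} {A : C → Prop} {S : C}
    (hT : Turn h σ₀ σ₁ t A S) (hS : σ₀.Stable t S) :
    A S ∧ σ₀.sl.P t S ∧ σ₁.sl.P (t + 1) S := by
  have hP := hS.1
  have h0 := hS.2.1
  have hχ := SIN_norm h.k3 hT.sph hP
  have hAS : A S := by
    obtain ⟨F, V, f, g, k, hTr, hAF, hF, hV, hAV⟩ :=
      hT.adj₀.cutL S (Slicing.in_of_P hP ⟨le_rfl, by linarith⟩)
    have hF' : σ₀.sl.P t F := by
      obtain ⟨a, c, hTr'⟩ := exists_invrot hTr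
      have h1 : σ₀.sl.In (Set.Ioi t)ᶜ (V⟦(-1 : ℤ)⟧) :=
        Slicing.in_of_P (Slicing.P_shift_neg_one t V hV) (by simp)
      have h2 : σ₀.sl.In (Set.Ioi t)ᶜ S := Slicing.in_of_P hP (by simp)
      have h3 := Slicing.In.ext_lower (isUpperSet_Ioi t) hTr' h1 h2
      have h4 : σ₀.sl.In (Set.Ici t) F := hF.mono fun _ hx => hx.1
      have h5 := Slicing.In.inter (isUpperSet_Ici t) (isUpperSet_Ioi t) h4 h3
      refine Slicing.In.P_of_singleton (h5.mono ?_)
      rintro x ⟨hx1, hx2⟩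
      exact le_antisymm (not_lt.1 hx2) hx1
    rcases hS.2.2 F V f g k hTr hF' hV with hz | hz
    · exfalso
      have hg : IsIso g := iso_of_isZero₁ hTr hz
      have e : S⟦(1 : ℤ)⟧ ≅ V⟦(1 : ℤ)⟧ := (shiftFunctor C (1 : ℤ)).mapIso (asIso g)
      have hA1 : A (S⟦(1 : ℤ)⟧) := hT.adj₀.ab.iso_mem e.symm hAV
      have h1 := hT.nonneg _ hA1 (by rw [cls_shift_one, map_neg, hT.im0, neg_zero])
      rw [cls_shift_one, map_neg, AddMonoidHom.neg_apply, hχ] at h1
      norm_num at h1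
    · have hf : IsIso f := iso_of_isZero₃ hTr hz
      exact hT.adj₀.ab.iso_mem (asIso f) hAF
  refine ⟨hAS, hP, ?_⟩
  obtain ⟨X', X'', f, g, hSES, h1, h2⟩ := (hadt σ₁ t A hT.adj₁).1 S hAS
  obtain ⟨hA', -, hA'', k, hTr⟩ := id hSES
  have im1 : σ₁.im t (cls S) = 0 := by rw [hT.im, hT.im0]
  have im2 : σ₁.im t (cls X'') = 0 := by
    have h3 := σ₁.im_of_P h1
    rw [cls_mk hTr, map_add, h3, zero_add] at im1
    exact im1
  have h3 : σ₁.sl.P t X'' := (hsli σ₁ t X'').2.2.2.1 h2 im2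
  have h4 : σ₀.sl.P t X'' := (hlii h σ₀ σ₁ t A S hT X'' hA'').2 h3
  have h5 : σ₀.sl.P t X' := ((hadt σ₀ t A hT.adj₀).2.2 X' S X'' f g hSES).2.2.1 hP
  rcases hS.2.2 X' X'' f g k hTr h5 h4 with hz | hz
  · exfalso
    have hg : IsIso g := iso_of_isZero₁ hTr hz
    have h6 : σ₁.sl.P t S := σ₁.sl.iso_mem t (asIso g).symm h3
    have h7 := (hsli σ₁ t S).2.2.2.2.2.1 h6 h0
    rw [hT.re, hχ] at h7
    have h8 := hT.pos
    push_cast at h7
    linarith
  · have hf : IsIso f := iso_of_isZero₃ hTr hz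
    exact σ₁.sl.iso_mem _ (asIso f) h1

theorem SIN_one (h : EllipticSetting C) (hsli : Stmt_SLI C) (hadt : Stmt_ADT C)
    (hlii : Stmt_LII C) {σ₀ σ₁ : StabCond C} {t : ℝ} {A : C → Prop} {S : C}
    (hT : Turn h σ₀ σ₁ t A S) (hS : σ₁.Stable (t + 1) S) :
    A S ∧ σ₀.sl.P t S ∧ σ₁.sl.P (t + 1) S := by
  have hP := hS.1
  have h0 := hS.2.1
  have hχ := SIN_norm h.k3 hT.sph hP
  have hAS : A S := by
    obtain ⟨V, F, f, g, k, hTr, hV, hAV, hAF, hF⟩ :=
      hT.adj₁.cutR S (Slicing.in_of_P hP ⟨by linarith, le_rfl⟩)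
    have hV1 : σ₁.sl.P (t + 1) (V⟦(1 : ℤ)⟧) := (σ₁.sl.shift_mem t V).1 hV
    have hF' : σ₁.sl.P (t + 1) F := by
      have hTr' := rot_mk hTr
      have h1 : σ₁.sl.In (Set.Ici (t + 1)) ((V⟦(1 : ℤ)⟧)⟦(1 : ℤ)⟧) :=
        Slicing.in_of_P ((σ₁.sl.shift_mem (t + 1) _).1 hV1)
          (show t + 1 ≤ t + 1 + 1 by linarith)
      have h2 : σ₁.sl.In (Set.Ici (t + 1)) S := Slicing.in_of_P hP (show t + 1 ≤ t + 1 from le_rfl)
      have h3 := Slicing.In.ext_upper (isUpperSet_Ici (t + 1)) hTr' h2 h1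
      have h4 : σ₁.sl.In (Set.Ioi (t + 1))ᶜ F := hF.mono fun _ hx => not_lt.2 hx.2
      have h5 := Slicing.In.inter (isUpperSet_Ici (t + 1)) (isUpperSet_Ioi (t + 1)) h3 h4
      refine Slicing.In.P_of_singleton (h5.mono ?_)
      rintro x ⟨hx1, hx2⟩
      exact le_antisymm (not_lt.1 hx2) hx1
    rcases hS.2.2 _ F f g k hTr hV1 hF' with hz | hz
    · have hg : IsIso g := iso_of_isZero₁ hTr hz
      exact hT.adj₀.ab.iso_mem (asIso g).symm hAF
    · exfalso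
      have hf : IsIso f := iso_of_isZero₃ hTr hz
      have e : cls V = - cls S := by
        rw [← cls_iso (asIso f), cls_shift_one, neg_neg]
      have h1 := hT.nonneg _ hAV (by rw [e, map_neg, hT.im0, neg_zero])
      rw [e, map_neg, AddMonoidHom.neg_apply, hχ] at h1
      norm_num at h1
  refine ⟨hAS, ?_, hP⟩
  obtain ⟨X', X'', f, g, hSES, h1, h2⟩ := (hadt σ₀ t A hT.adj₀).2.1 S hAS
  obtain ⟨hA', -, hA'', k, hTr⟩ := id hSES
  have im2 : σ₀.im t (cls X') = 0 := by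
    have h3 := (hsli σ₀ t X'').2.2.2.2.1 h2
    have im1 := hT.im0
    rw [cls_mk hTr, map_add, h3, add_zero] at im1
    exact im1
  have h3 : σ₀.sl.P (t + 1) X' := (hsli σ₀ t X').2.1 h1 im2
  have h4 : σ₁.sl.P (t + 1) X' := (hlii h σ₀ σ₁ t A S hT X' hA').1 h3
  have h5 : σ₁.sl.P (t + 1) X'' := ((hadt σ₁ t A hT.adj₁).2.2 X' S X'' f g hSES).2.1 hP
  rcases hS.2.2 X' X'' f g k hTr h4 h5 with hz | hz
  · have hg : IsIso g := iso_of_isZero₁ hTr hz
    exact σ₀.sl.iso_mem t (asIso g).symm h2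
  · exfalso
    have hf : IsIso f := iso_of_isZero₃ hTr hz
    have h6 : σ₀.sl.P (t + 1) S := σ₀.sl.iso_mem _ (asIso f) h3
    have h7 := σ₀.re_neg_of_P h6 h0
    have h8 := hT.pos
    linarith

theorem p_SIN : Stmt_SLI C → Stmt_ADT C → Stmt_LII C → Stmt_SIN C := by
  intro hsli hadt hlii h σ₀ σ₁ t A S hT
  rcases hT.stable with hS | hS
  · exact SIN_zero h hsli hadt hlii hT hS
  · exact SIN_one h hsli hadt hlii hT hS

end Pool.Move
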