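import Mathlib
import Pool.Agent.Work.MP_841263_mv.Interface

/-!
# Block SST: the object of a half turn is stable for both stability conditions
-/

open CategoryTheory CategoryTheory.Limits CategoryTheory.Pretriangulated
open scoped ZeroObject Topology
open Filter

set_option backward.isDefEq.respectTransparency false
set_option backward.defeqAttrib.useBackward true
set_option linter.unusedSectionVars false

namespace Pool.Move

open Pool.Stab Pool.Tube

universe v u

section

variable {C : Type u} [Category.{v} C] [Preadditive C] [HasZeroObject C] [HasShift C ℤ]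
  [∀ n : ℤ, (shiftFunctor C n).Additive] [Pretriangulated C] [IsTriangulated C] [Linear ℂ C]
  [∀ n : ℤ, (shiftFunctor C n).Linear ℂ]

lemma SST_sum (F : K0 C →+ ℝ) (L : Multiset C) :
    F (L.map cls).sum = (L.map (fun X => F (cls X))).sum := by
  induction L using Multiset.induction_on with
  | empty => simp
  | cons X L ih => simp [ih]

lemma SST_nonneg {ι : Type*} {f : ι → ℝ} (s : Multiset ι) (h : ∀ x ∈ s, 0 ≤ f x) :
    0 ≤ (s.map f).sum := by
  induction s using Multiset.induction_on with
  | empty => simp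
  | cons a s ih =>
    rw [Multiset.map_cons, Multiset.sum_cons]
    exact add_nonneg (h a (Multiset.mem_cons_self a s))
      (ih (fun x hx => h x (Multiset.mem_cons_of_mem hx)))

lemma SST_zero {ι : Type*} {f : ι → ℝ} (s : Multiset ι) (h : ∀ x ∈ s, 0 ≤ f x)
    (h0 : (s.map f).sum ≤ 0) : ∀ x ∈ s, f x = 0 := by
  induction s using Multiset.induction_on with
  | empty => simp
  | cons a s ih =>
    rw [Multiset.map_cons, Multiset.sum_cons] at h0
    have h1 := SST_nonneg s (fun x hx => h x (Multiset.mem_cons_of_mem hx))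
    have h2 := h a (Multiset.mem_cons_self a s)
    have h3 := ih (fun x hx => h x (Multiset.mem_cons_of_mem hx)) (by linarith)
    intro x hx
    rcases Multiset.mem_cons.1 hx with rfl | hx
    · linarith
    · exact h3 x hx

/-- If all the summands have the class `α` then the sum is a multiple of `α`. -/
lemma SST_mult {α : K0 C} (L : Multiset C) (h : ∀ G ∈ L, cls G = α) :
    ∃ n : ℕ, (L.map cls).sum = n • α := by
  induction L using Multiset.induction_on with
  | empty => exact ⟨0, by simp⟩
  | cons X L ih =>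
    obtain ⟨n, hn⟩ := ih (fun G hG => h G (Multiset.mem_cons_of_mem hG))
    refine ⟨n + 1, ?_⟩
    rw [Multiset.map_cons, Multiset.sum_cons, hn, h X (Multiset.mem_cons_self X L), add_nsmul,
      one_nsmul, add_comm]

/-- A functional which is nonnegative on the classes of the factors, and zero only on `α`. -/
lemma SST_factor {G : C → Prop} {X : C} (hX : Gen G X) (f : K0 C →+ ℝ) {α : K0 C}
    (hα : f α = 0) (hG : ∀ Y, G Y → cls Y = α ∨ 0 < f (cls Y)) :
    0 ≤ f (cls X) ∧ (f (cls X) ≤ 0 → ∃ n : ℕ, cls X = n • α) := by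
  obtain ⟨L, a, b, -⟩ := gen_multiset hX
  have hnn : ∀ Y ∈ L, 0 ≤ f (cls Y) := by
    intro Y hY
    rcases hG Y (a Y hY) with h | h
    · rw [h, hα]
    · exact h.le
  refine ⟨?_, ?_⟩
  · rw [← b, SST_sum]
    exact SST_nonneg L hnn
  · intro h0
    have h1 := SST_zero (f := fun Y => f (cls Y)) L hnn (by rw [← SST_sum, b]; exact h0)
    rw [← b]
    refine SST_mult L ?_
    intro Y hY
    rcases hG Y (a Y hY) with h | h
    · exact h
    · exact absurd (h1 Y hY) h.ne'

/-- `n + m = 1` for the two parts of an object of class `α`. -/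
lemma SST_split {α a b : K0 C} (r : K0 C →+ ℝ) (hr : r α ≠ 0) (hab : α = a + b)
    (ha : ∃ n : ℕ, a = n • α) (hb : ∃ n : ℕ, b = n • α) : a = 0 ∨ b = 0 := by
  obtain ⟨n, rfl⟩ := ha
  obtain ⟨m, rfl⟩ := hb
  have h1 : r α = (n + m : ℝ) * r α := by
    conv_lhs => rw [hab]
    rw [map_add, map_nsmul, map_nsmul, nsmul_eq_mul, nsmul_eq_mul]
    ring
  have h2 : ((n + m : ℕ) : ℝ) = 1 := by
    have h3 : ((n + m : ℝ) - 1) * r α = 0 := by linarith
    rcases mul_eq_zero.1 h3 with h4 | h4
    · push_cast
      linarith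
    · exact absurd h4 hr
  have h3 : n + m = 1 := by exact_mod_cast h2
  rcases Nat.eq_zero_or_pos n with h4 | h4
  · left
    rw [h4, zero_nsmul]
  · right
    have h5 : m = 0 := by omega
    rw [h5, zero_nsmul]

end

variable (C : Type u) [Category.{v} C] [Preadditive C] [HasZeroObject C] [HasShift C ℤ]
  [∀ n : ℤ, (shiftFunctor C n).Additive] [Pretriangulated C] [IsTriangulated C] [Linear ℂ C]
  [∀ n : ℤ, (shiftFunctor C n).Linear ℂ]

theorem p_SST : Stmt_SLI C → Stmt_NUM C → Stmt_SIN C → Stmt_SAL C → Stmt_SST C := by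
  intro hSLI hNUM hSIN _ h σ₀ σ₁ t A S hT
  have hfin := h.finite
  have hfree := h.free
  obtain ⟨-, hS₀, hS₁⟩ := hSIN h σ₀ σ₁ t A S hT
  have hrig : Rigid S := hT.sph.2 1 (by norm_num) (by norm_num)
  have hα : eulerForm h.k3 (cls S) (cls S) = 2 := by
    rcases hT.stable with hs | hs
    · have e : t - 1 + 1 = t := by ring
      rw [← e] at hs
      exact (σ₀.sl.heart_ab (t - 1)).norm_of_rigid h.k3 hs.simple hrig
    · exact (σ₁.sl.heart_ab t).norm_of_rigid h.k3 hs.simple hrig
  have hre1 : σ₁.re t (cls S) = - σ₀.re t (cls S) := by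
    rw [hT.re, hα]
    push_cast
    ring
  set f : K0 C →+ ℝ := σ₀.re t + σ₁.re t with hf
  have hfα : f (cls S) = 0 := by
    rw [hf, AddMonoidHom.add_apply, hre1]
    ring
  have hnfα : (-f) (cls S) = 0 := by
    rw [AddMonoidHom.neg_apply, hfα, neg_zero]
  have hpos := hT.pos
  have h0 : ∀ G, σ₀.Stable t G → cls G = cls S ∨ 0 < f (cls G) := by
    intro G hG
    by_cases hc : cls G = cls S
    · exact Or.inl hc
    · right
      have hn := (StabCond.Stable.cls_le h.k3 hG).2
      have him := (hSLI σ₀ t G).2.2.2.2.1 hG.1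
      have hre := (hSLI σ₀ t G).2.2.2.2.2.1 hG.1 hG.2.1
      have h1 := hNUM h σ₀ σ₁ t A S hT (cls G) hn him hre hc
      rw [hf, AddMonoidHom.add_apply]
      linarith
  have h1 : ∀ H, σ₁.Stable (t + 1) H → cls H = cls S ∨ 0 < (-f) (cls H) := by
    intro H hH
    by_cases hc : cls H = cls S
    · exact Or.inl hc
    · right
      have hn := (StabCond.Stable.cls_le h.k3 hH).2
      have him : σ₀.im t (cls H) = 0 := by
        rw [← hT.im]
        exact σ₁.im_of_P hH.1
      have hre := σ₁.re_neg_of_P hH.1 hH.2.1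
      have h2 : σ₀.re t (cls H) < 0 := by
        rcases lt_trichotomy (σ₀.re t (cls H)) 0 with h3 | h3 | h3
        · exact h3
        · exfalso
          have hne : cls H ≠ 0 := by
            intro h4
            rw [h4] at hre
            simp at hre
          have h5 := σ₀.norm_sq t (cls H)
          rw [h3, him] at h5
          have h6 : σ₀.Z (cls H) = 0 := by
            have : ‖σ₀.Z (cls H)‖ = 0 := by nlinarith [norm_nonneg (σ₀.Z (cls H))]
            exact norm_eq_zero.1 this
          exact h.Z_ne_zero σ₀ hn hne h6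
        · exfalso
          have h4 := hNUM h σ₀ σ₁ t A S hT (cls H) hn him h3 hc
          linarith
      rw [AddMonoidHom.neg_apply, hf, AddMonoidHom.add_apply]
      linarith
  have key0 : σ₀.Stable t S := by
    refine ⟨hS₀, ?_, ?_⟩
    · intro hz
      rw [cls_of_isZero hz, map_zero] at hpos
      exact lt_irrefl _ hpos
    · intro Y Z p q k hd hY hZ
      have hc : cls S = cls Y + cls Z := cls_mk hd
      have hY1 := SST_factor (σ₀.gen_stable hY) f hfα h0
      have hZ1 := SST_factor (σ₀.gen_stable hZ) f hfα h0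
      have hsum : f (cls Y) + f (cls Z) = 0 := by
        rw [← map_add, ← hc, hfα]
      rcases SST_split (σ₀.re t) hpos.ne' hc (hY1.2 (by linarith [hZ1.1]))
        (hZ1.2 (by linarith [hY1.1])) with h2 | h2
      · left
        by_contra h3
        have h4 := (hSLI σ₀ t Y).2.2.2.2.2.1 hY h3
        rw [h2, map_zero] at h4
        exact lt_irrefl _ h4
      · right
        by_contra h3
        have h4 := (hSLI σ₀ t Z).2.2.2.2.2.1 hZ h3
        rw [h2, map_zero] at h4
        exact lt_irrefl _ h4
  refine ⟨key0, hS₁, key0.2.1, ?_⟩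
  intro Y Z p q k hd hY hZ
  have hc : cls S = cls Y + cls Z := cls_mk hd
  have hY1 := SST_factor (σ₁.gen_stable hY) (-f) hnfα h1
  have hZ1 := SST_factor (σ₁.gen_stable hZ) (-f) hnfα h1
  have hsum : (-f) (cls Y) + (-f) (cls Z) = 0 := by
    rw [← map_add, ← hc, hnfα]
  rcases SST_split (σ₀.re t) hpos.ne' hc (hY1.2 (by linarith [hZ1.1]))
    (hZ1.2 (by linarith [hY1.1])) with h2 | h2
  · left
    by_contra h3
    have h4 := σ₁.re_neg_of_P hY h3
    rw [h2, map_zero] at h4
    exact lt_irrefl _ h4
  · right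
    by_contra h3
    have h4 := σ₁.re_neg_of_P hZ h3
    rw [h2, map_zero] at h4
    exact lt_irrefl _ h4

end Pool.Move
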