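import Pool.Agent.Work.MP_841263_mv.Interface

/-!
# Moves between stability conditions, block TUX: existence of the half turn

The path is: perturb along `u = χ(-, S)`, change the real part, perturb back.
-/

open CategoryTheory CategoryTheory.Limits CategoryTheory.Pretriangulated
open scoped ZeroObject Topology
open Filter

set_option backward.isDefEq.respectTransparency false
set_option backward.defeqAttrib.useBackward true
set_option linter.unusedSectionVars false

namespace Pool.Move

open Pool.Stab Pool.Tube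

universe v u

variable {C : Type u} [Category.{v} C] [Preadditive C] [HasZeroObject C] [HasShift C ℤ]
  [∀ n : ℤ, (shiftFunctor C n).Additive] [Pretriangulated C] [IsTriangulated C] [Linear ℂ C]
  [∀ n : ℤ, (shiftFunctor C n).Linear ℂ]

/-- The class of a spherical object has norm two. -/
lemma TUX_norm (hK : IsK3 C) {S : C} (hS : Spherical S) : eulerForm hK (cls S) (cls S) = 2 := by
  rw [eulerForm_cls, Pool.Stab.eulerChar]
  rw [finsum_eq_sum_of_support_subset (s := {0, 2})]
  · rw [Finset.sum_insert (by decide), Finset.sum_singleton]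
    rw [finrank_shift_zero, ← hK.serre S S, Int.negOnePow_zero,
      Int.negOnePow_even 2 (by decide), hS.1]
    norm_num
  · intro n hn
    by_contra hcon
    apply hn
    have h0 : n ≠ 0 := by
      rintro rfl
      exact hcon (by simp)
    have h2 : n ≠ 2 := by
      rintro rfl
      exact hcon (by simp)
    show (n.negOnePow : ℤ) * (Module.finrank ℂ (S ⟶ S⟦n⟧) : ℤ) = 0
    rw [finrank_of_forall_zero (hS.2 n h0 h2)]
    simp

/-- On a root with vanishing imaginary part the real part is not zero. -/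
lemma TUX_re (h : EllipticSetting C) (σ : StabCond C) (t : ℝ) {x : K0 C}
    (hx : eulerForm h.k3 x x = 2) (him : σ.im t x = 0) : σ.re t x ≠ 0 := by
  intro hre
  have hx0 : x ≠ 0 := by
    rintro rfl
    simp at hx
  apply h.Z_ne_zero σ hx.le hx0
  have h1 : σ.Z x * Complex.exp (-(Real.pi * t * Complex.I)) = 0 := by
    apply Complex.ext
    · rw [← σ.re_apply, hre, Complex.zero_re]
    · rw [← σ.im_apply, him, Complex.zero_im]
  rcases mul_eq_zero.1 h1 with h2 | h2
  · exact h2
  · exact absurd h2 (Complex.exp_ne_zero _)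

/-- The functional `χ(-, α)`. -/
noncomputable def TUX_u {K : Type u} [AddCommGroup K] (B : K →+ K →+ ℤ) (α : K) : K →+ ℝ where
  toFun x := (B x α : ℝ)
  map_zero' := by simp
  map_add' x y := by simp

lemma TUX_u_apply {K : Type u} [AddCommGroup K] (B : K →+ K →+ ℤ) (α x : K) :
    TUX_u B α x = (B x α : ℝ) := rfl

/-- The functional `re - χ(-, α) c`. -/
noncomputable def TUX_a {K : Type u} [AddCommGroup K] (B : K →+ K →+ ℤ) (α : K) (re : K →+ ℝ)
    (c : ℝ) : K →+ ℝ where
  toFun x := re x - (B x α : ℝ) * c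
  map_zero' := by simp
  map_add' x y := by
    simp only [map_add, AddMonoidHom.add_apply, Int.cast_add]
    ring

lemma TUX_a_apply {K : Type u} [AddCommGroup K] (B : K →+ K →+ ℤ) (α : K) (re : K →+ ℝ)
    (c : ℝ) (x : K) : TUX_a B α re c x = re x - (B x α : ℝ) * c := rfl

/-- The reflection of a root is a root. -/
lemma TUX_root {K : Type u} [AddCommGroup K] {B : K →+ K →+ ℤ} (hB : IsPSD B) {α x : K}
    (hα : B α α = 2) (hx : B x x = 2) : B (x - B x α • α) (x - B x α • α) = 2 := by
  simp only [map_sub, AddMonoidHom.sub_apply, map_zsmul, AddMonoidHom.coe_smul, Pi.smul_apply,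
    smul_eq_mul, hα, hx, hB.symm α x]
  ring

/-- TUX. -/
theorem p_TUX (hSGN : Stmt_SGN.{u}) (hPRT : Stmt_PRT C) (hPRR : Stmt_PRR C)
    (hMID : Stmt_MID C) : Stmt_TUX C := by
  intro h σ t δ hδ hδ0 hδi S hS hSi
  have := h.finite
  have := h.free
  have hnorm := TUX_norm h.k3 hS
  have hrad : ∀ r ∈ radical (eulerForm h.k3), TUX_u (eulerForm h.k3) (cls S) r = 0 := by
    intro r hr
    rw [TUX_u_apply, hr (cls S), Int.cast_zero]
  obtain ⟨ε, hε, hsg⟩ := hSGN (K0 C) (eulerForm h.k3) h.psd' h.rank (σ.im t)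
    (TUX_u (eulerForm h.k3) (cls S)) δ hδ hδ0 hδi hrad
  obtain ⟨σa, hJa, hrea, hima, hAdja⟩ :=
    hPRT h σ t ε (TUX_u (eulerForm h.k3) (cls S)) hε hrad hsg
  -- sign property for the perturbed imaginary part
  have hzero : ∀ x, eulerForm h.k3 x x = 2 → σa.im t x = 0 →
      σ.im t x = 0 ∧ TUX_u (eulerForm h.k3) (cls S) x = 0 := by
    intro x hx h0
    rw [hima] at h0
    have h1 : σ.im t x = 0 := by
      by_contra hne
      have h2 := hsg x hx.le hne
      have h3 : σ.im t x = - (ε * TUX_u (eulerForm h.k3) (cls S) x) := by linarith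
      rw [h3, abs_neg, abs_mul, abs_of_pos hε] at h2
      exact lt_irrefl _ h2
    refine ⟨h1, ?_⟩
    rw [h1, zero_add] at h0
    rcases mul_eq_zero.1 h0 with h2 | h2
    · exact absurd h2 hε.ne'
    · exact h2
  obtain ⟨σb, hJb, hreb, himb, hheart⟩ :=
    hMID h σa t (TUX_a (eulerForm h.k3) (cls S) (σ.re t) (σ.re t (cls S))) (by
      intro r hr
      rw [TUX_a_apply, hr (cls S), Int.cast_zero, zero_mul, sub_zero, hrea]) (by
      intro x hx h0 s _
      obtain ⟨h1, h2⟩ := hzero x hx h0
      rw [TUX_u_apply] at h2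
      rw [TUX_a_apply, h2, zero_mul, sub_zero, hrea]
      have h3 : (1 - s) * σ.re t x + s * σ.re t x = σ.re t x := by ring
      rw [h3]
      exact TUX_re h σ t hx h1)
  obtain ⟨σ', hJ', hre', him', hAdj'⟩ :=
    hPRR h σb t ε (σ.im t) (TUX_u (eulerForm h.k3) (cls S)) hε hrad (by
      intro x
      rw [himb, hima]) hsg (by
      intro x hx h0
      rw [hreb, TUX_a_apply]
      have h1 := TUX_root h.psd' hnorm hx
      have h2 : σ.im t (x - eulerForm h.k3 x (cls S) • cls S) = 0 := by
        rw [map_sub, map_zsmul, h0, hSi, smul_zero, sub_zero]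
      have h3 := TUX_re h σ t h1 h2
      rwa [map_sub, map_zsmul, zsmul_eq_mul] at h3)
  have hA : σb.sl.Heart t = σa.sl.Heart t := by
    funext X
    exact propext (hheart X).symm
  refine ⟨σ', σa.sl.Heart t, (hJa.trans hJb).trans hJ', hAdja, ?_, him', ?_, ?_⟩
  · rw [← hA]
    exact hAdj'
  · intro x
    rw [hre', hreb, TUX_a_apply]
  · intro X hX h0
    have h1 := σa.im_nonneg hX
    rw [hima, h0, zero_add, TUX_u_apply] at h1
    have h2 : (0 : ℝ) ≤ (eulerForm h.k3 (cls X) (cls S) : ℝ) := nonneg_of_mul_nonneg_right h1 hε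
    exact_mod_cast h2

end Pool.Move
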