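import Pool.Agent.Work.MP_841263_mv.Interface3

/-! # Moves, block WBH (helper4): a chain of raisings keeps the bounds for the phases -/

set_option autoImplicit false

open CategoryTheory CategoryTheory.Limits CategoryTheory.Pretriangulated
open scoped ZeroObject Topology
open Filter

set_option backward.isDefEq.respectTransparency false
set_option backward.defeqAttrib.useBackward true

namespace Pool.Move

open Pool.Stab Pool.Tube

universe v u

section

variable {C : Type u} [Category.{v} C] [Preadditive C] [HasZeroObject C] [HasShift C ℤ]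
  [∀ n : ℤ, (shiftFunctor C n).Additive] [Pretriangulated C] [IsTriangulated C] [Linear ℂ C]
  [∀ n : ℤ, (shiftFunctor C n).Linear ℂ]

omit [IsTriangulated C] [Linear ℂ C] [∀ n : ℤ, (shiftFunctor C n).Linear ℂ] in
theorem WBH_im0 (σ : StabCond C) {t : ℝ} {S : C} (hS : σ.Stable t S) :
    σ.im t (cls S) = 0 := by
  obtain ⟨-, -, h⟩ := σ.polar t hS.1 hS.2.1
  rw [h, sub_self, mul_zero, Real.sin_zero, mul_zero]

theorem WBH_im {h : EllipticSetting C} {σ₀ : StabCond C} {t : ℝ} {i j : Idx h σ₀ t} {S : C}
    (hS : i.J S) (hm : HiM i S j) (x : K0 C) : j.σ.im t x = i.σ.im t x := by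
  have h0 := WBH_im0 i.σ (i.blk.stable S hS)
  have e : j.σ.Z x * Complex.exp (-(Real.pi * t * Complex.I)) =
      i.σ.Z x * Complex.exp (-(Real.pi * t * Complex.I)) -
        ((eulerForm h.k3 x (cls S) : ℝ) : ℂ) *
          (i.σ.Z (cls S) * Complex.exp (-(Real.pi * t * Complex.I))) := by
    rw [hm.Z x]
    push_cast
    ring
  rw [StabCond.im_apply, e, Complex.sub_im, Complex.im_ofReal_mul, ← StabCond.im_apply,
    ← StabCond.im_apply, h0, mul_zero, sub_zero]

theorem p_WBH : Stmt_HBD C → Stmt_WBH C := by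
  intro hHBD h σ₀ t F i₀ j hch
  refine ⟨i₀.joined.symm.trans j.joined, ?_, ?_⟩
  · intro x
    induction hch with
    | refl => rfl
    | @step i j S _ hG hT hm ih => rw [WBH_im hG hm x, ih]
  · intro a b X hX hF
    induction hch with
    | refl => exact hX
    | @step i j S _ hG hT hm ih =>
      obtain ⟨h1, h2⟩ := hHBD h σ₀ t i j S hG hm
      have h3 := h1 b X (ih.mono (fun x hx => hx.2))
      have h4 := h2 a X (ih.mono (fun x hx => hx.1)) (hF S hT)
      refine (Slicing.In.inter (isUpperSet_Ici (t + a)) (isUpperSet_Ioi (t + b)) h4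
        (h3.mono (fun x hx => fun hcon => absurd (Set.mem_Ioi.1 hcon)
          (not_lt.2 (Set.mem_Iic.1 hx))))).mono ?_
      rintro x ⟨hx1, hx2⟩
      exact ⟨hx1, not_lt.1 hx2⟩

end

end Pool.Move
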