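import Pool.Agent.Work.MP_841263_mv.Interface3

/-!
# Block WBL: chains of lowerings
-/

open CategoryTheory CategoryTheory.Limits CategoryTheory.Pretriangulated
open scoped ZeroObject Topology
open Filter

set_option backward.isDefEq.respectTransparency false
set_option backward.defeqAttrib.useBackward true
set_option linter.unusedSectionVars false

namespace Pool.Move

open Pool.Stab Pool.Tube

universe v u

variable {C : Type u} [Category.{v} C] [Preadditive C] [HasZeroObject C] [HasShift C ℤ]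
  [∀ n : ℤ, (shiftFunctor C n).Additive] [Pretriangulated C] [IsTriangulated C] [Linear ℂ C]
  [∀ n : ℤ, (shiftFunctor C n).Linear ℂ]

theorem WBL_im {h : EllipticSetting C} {σ₀ : StabCond C} {t : ℝ} {i j : Idx h σ₀ t} {S : C}
    (hG : i.J S) (hm : LoM i S j) (x : K0 C) : j.σ.im t x = i.σ.im t x := by
  have hP : i.σ.sl.P t S := (i.blk.stable S hG).1
  have h0 : i.σ.im t (cls S) = 0 := by
    by_cases hz : IsZero S
    · rw [cls_of_isZero hz, map_zero]
    · rw [(i.σ.polar t hP hz).2.2]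
      simp
  have h1 : ((eulerForm h.k3 x (cls S) : ℤ) : ℂ) = (((eulerForm h.k3 x (cls S) : ℤ) : ℝ) : ℂ) := by
    push_cast
    rfl
  rw [StabCond.im_apply, StabCond.im_apply, hm.Z, sub_mul, Complex.sub_im, h1,
    mul_assoc (((eulerForm h.k3 x (cls S) : ℤ) : ℝ) : ℂ), Complex.im_ofReal_mul,
    ← StabCond.im_apply, ← StabCond.im_apply, h0, mul_zero, sub_zero]

theorem p_WBL : Stmt_LBD C → Stmt_WBL C := by
  intro hLBD h σ₀ t T i₀ j hch
  induction hch with
  | refl => exact ⟨Joined.refl _, fun x => rfl, fun a b X hX _ => hX⟩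
  | @step i j S hc hG hT hm ih =>
    obtain ⟨ih1, ih2, ih3⟩ := ih
    refine ⟨ih1.trans hm.joined, fun x => (WBL_im hG hm x).trans (ih2 x), fun a b X hX hf => ?_⟩
    have h1 := ih3 a b X hX hf
    obtain ⟨p, q⟩ := hLBD h σ₀ t i j S hG hm
    have h2 : j.σ.sl.In (Set.Ici (t + a)) X := p a X (h1.mono (fun x hx => hx.1))
    have h3 : j.σ.sl.In (Set.Iic (t + b)) X :=
      q b X (h1.mono (fun x hx => hx.2)) (fun f => hf S hT f)
    rw [Iic_eq_compl] at h3
    refine (h2.inter (isUpperSet_Ici _) (isUpperSet_Ioi _) h3).mono ?_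
    rintro x ⟨hx1, hx2⟩
    exact ⟨hx1, not_lt.1 hx2⟩

end Pool.Move
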