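import Pool.Agent.Work.MP_841263_mv.Interface2

/-! # Moves, block WKH (helper36): chains of raisings and other objects -/

set_option autoImplicit false

open CategoryTheory CategoryTheory.Limits CategoryTheory.Pretriangulated
open scoped ZeroObject Topology
open Filter

set_option backward.isDefEq.respectTransparency false
set_option backward.defeqAttrib.useBackward true

namespace Pool.Move

open Pool.Stab Pool.Tube

universe v u

section

variable {C : Type u} [Category.{v} C] [Preadditive C] [HasZeroObject C] [HasShift C ℤ]
  [∀ n : ℤ, (shiftFunctor C n).Additive] [Pretriangulated C] [IsTriangulated C] [Linear ℂ C]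
  [∀ n : ℤ, (shiftFunctor C n).Linear ℂ]

theorem p_WKH : Stmt_WKH C := by
  intro h σ₀ t F i₀ j hch
  refine ⟨i₀.joined.symm.trans j.joined, ?_, ?_⟩
  · intro E hE hF
    induction hch with
    | refl => exact hE
    | @step i j S _ hG hT hm ih => exact hm.stay E ih (hF S hT)
  · intro E hE hF
    induction hch with
    | refl => exact hE
    | @step i j S _ hG hT hm ih => exact ih (hm.back E hE (hF S hT))

end

end Pool.Move
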