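import Pool.Agent.Work.MP_841263_mv.Interface2

set_option autoImplicit false
set_option linter.unusedSectionVars false

/-! # MP_841263, moves, block WKL: a chain of lowerings, the other objects -/

open CategoryTheory CategoryTheory.Limits CategoryTheory.Pretriangulated
open scoped ZeroObject Topology
open Filter

namespace Pool.Move

open Pool.Stab Pool.Tube

universe v u

variable {C : Type u} [Category.{v} C] [Preadditive C] [HasZeroObject C] [HasShift C ℤ]
  [∀ n : ℤ, (shiftFunctor C n).Additive] [Pretriangulated C] [IsTriangulated C] [Linear ℂ C]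
  [∀ n : ℤ, (shiftFunctor C n).Linear ℂ]

theorem p_WKL : Stmt_WKL C := by
  intro h σ₀ t T i₀ j hch
  induction hch with
  | refl => exact ⟨Joined.refl _, fun E hE _ => hE, fun E hE _ => hE⟩
  | @step i j S hc hG hT hm ih =>
    obtain ⟨h1, h2, h3⟩ := ih
    refine ⟨h1.trans hm.joined, ?_, ?_⟩
    · intro E hE h0
      exact hm.stay E (h2 E hE h0) (h0 S hT)
    · intro E hE h0
      exact h3 E (hm.back E hE (h0 S hT)) h0

end Pool.Move
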