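import Pool.Agent.Work.MP_841263_al.B_LFT
import Pool.Agent.Work.MP_841263_al.B_NEA
import Pool.Agent.Work.MP_841263_al.B_LIM
import Pool.Agent.Work.MP_841263_al.B_OPE
import Pool.Agent.Work.MP_841263_mv.B_SEG
import Pool.Agent.Work.MP_841263_mv.B_SLI
import Pool.Agent.Work.MP_841263_mv.B_ADT
import Pool.Agent.Work.MP_841263_mv.B_PAN
import Pool.Agent.Work.MP_841263_mv.B_WKL
import Pool.Agent.Work.MP_841263_mv.B_NUS
import Pool.Agent.Work.MP_841263_mv.B_NUM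
import Pool.Agent.Work.MP_841263_mv.B_LII
import Pool.Agent.Work.MP_841263_mv.B_SIN
import Pool.Agent.Work.MP_841263_mv.B_SAL
import Pool.Agent.Work.MP_841263_mv.B_SST
import Pool.Agent.Work.MP_841263_mv.B_WKH
import Pool.Agent.Work.MP_841263_mv.B_BLS
import Pool.Agent.Work.MP_841263_mv.B_GZS
import Pool.Agent.Work.MP_841263_mv.B_SGN
import Pool.Agent.Work.MP_841263_mv.B_HCL
import Pool.Agent.Work.MP_841263_mv.B_HCN
import Pool.Agent.Work.MP_841263_mv.B_ADL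
import Pool.Agent.Work.MP_841263_mv.B_ADR
import Pool.Agent.Work.MP_841263_mv.B_ADJ
import Pool.Agent.Work.MP_841263_mv.B_PRT
import Pool.Agent.Work.MP_841263_mv.B_PRR
import Pool.Agent.Work.MP_841263_mv.B_MID
import Pool.Agent.Work.MP_841263_mv.B_TUX
import Pool.Agent.Work.MP_841263_mv.B_LOW
import Pool.Agent.Work.MP_841263_mv.B_RAI
import Pool.Agent.Work.MP_841263_mv.B_BLL
import Pool.Agent.Work.MP_841263_mv.B_LWR
import Pool.Agent.Work.MP_841263_mv.B_BDC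
import Pool.Agent.Work.MP_841263_mv.B_BLO
import Pool.Agent.Work.MP_841263_mv.B_BLR
import Pool.Agent.Work.MP_841263_mv.B_RSR
import Pool.Agent.Work.MP_841263_mv.B_BUP
import Pool.Agent.Work.MP_841263_mv.B_BLE
import Pool.Agent.Work.MP_841263_mv.B_MVS
import Pool.Agent.Work.MP_841263_mv.B_PHL
import Pool.Agent.Work.MP_841263_mv.B_LCO
import Pool.Agent.Work.MP_841263_mv.B_LBD
import Pool.Agent.Work.MP_841263_mv.B_PER
import Pool.Agent.Work.MP_841263_mv.B_IBK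
import Pool.Agent.Work.MP_841263_mv.B_HCO
import Pool.Agent.Work.MP_841263_mv.B_HBD
import Pool.Agent.Work.MP_841263_mv.B_WBH
import Pool.Agent.Work.MP_841263_mv.B_WBL
import Pool.Agent.Work.MP_841263_mv.B_OTH
import Pool.Agent.Work.MP_841263_mv.B_OST

/-!
# Moves between stability conditions: all blocks, assembled (helper92)
-/

open CategoryTheory CategoryTheory.Limits CategoryTheory.Pretriangulated
open scoped ZeroObject Topology
open Filter

namespace Pool.Move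

open Pool.Stab Pool.Tube

universe v u

section

variable (C : Type u) [Category.{v} C] [Preadditive C] [HasZeroObject C] [HasShift C ℤ]
  [∀ n : ℤ, (shiftFunctor C n).Additive] [Pretriangulated C] [IsTriangulated C] [Linear ℂ C]
  [∀ n : ℤ, (shiftFunctor C n).Linear ℂ]

theorem c_SEG : Stmt_SEG C := p_SEG (C := C) (Pool.Align.p_LFT (C := C))

theorem c_SLI : Stmt_SLI C := p_SLI (C := C) 

theorem c_ADT : Stmt_ADT C := p_ADT (C := C) (c_SLI C)

theorem c_PAN : Stmt_PAN C := p_PAN (C := C) (c_SLI C) (c_ADT C)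

theorem c_WKL : Stmt_WKL C := p_WKL (C := C) 

theorem c_NUS : Stmt_NUS C := p_NUS (C := C) 

theorem c_NUM : Stmt_NUM C := p_NUM (C := C) (c_NUS C)

theorem c_LII : Stmt_LII C := p_LII (C := C) (c_SLI C) (c_ADT C)

theorem c_SIN : Stmt_SIN C := p_SIN (C := C) (c_SLI C) (c_ADT C) (c_LII C)

theorem c_SAL : Stmt_SAL C := p_SAL (C := C) (c_NUM C) (c_SLI C)

theorem c_SST : Stmt_SST C := p_SST (C := C) (c_SLI C) (c_NUM C) (c_SIN C) (c_SAL C)

theorem c_WKH : Stmt_WKH C := p_WKH (C := C) 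

theorem c_BLS : Stmt_BLS C := p_BLS (C := C) 

theorem c_GZS : Stmt_GZS C := p_GZS (C := C) 

theorem c_SGN : Stmt_SGN.{u} := p_SGN

theorem c_HCL : Stmt_HCL C := p_HCL (C := C) 

theorem c_HCN : Stmt_HCN C := p_HCN (C := C) (Pool.Align.p_NEA (C := C)) (c_HCL C)

theorem c_ADL : Stmt_ADL C := p_ADL (C := C) (Pool.Align.p_LIM (C := C) (Pool.Align.p_NEA (C := C))) (Pool.Align.p_OPE (C := C) (Pool.Align.p_NEA (C := C)))

theorem c_ADR : Stmt_ADR C := p_ADR (C := C) (Pool.Align.p_LIM (C := C) (Pool.Align.p_NEA (C := C))) (Pool.Align.p_OPE (C := C) (Pool.Align.p_NEA (C := C)))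

theorem c_ADJ : Stmt_ADJ C := p_ADJ (C := C) (Pool.Align.p_LIM (C := C) (Pool.Align.p_NEA (C := C))) (c_ADL C) (c_ADR C)

theorem c_PRT : Stmt_PRT C := p_PRT (C := C) (c_SEG C) (c_HCN C) (c_ADJ C)

theorem c_PRR : Stmt_PRR C := p_PRR (C := C) (c_SEG C) (c_HCN C) (c_ADJ C)

theorem c_MID : Stmt_MID C := p_MID (C := C) (c_SEG C) (c_HCN C)

theorem c_TUX : Stmt_TUX C := p_TUX (C := C) (c_SGN) (c_PRT C) (c_PRR C) (c_MID C)

theorem c_LOW : Stmt_LOW C := p_LOW (C := C) (c_SLI C) (c_GZS C) (c_ADT C) (c_LII C) (c_SIN C) (c_SAL C)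

theorem c_RAI : Stmt_RAI C := p_RAI (C := C) (c_SLI C) (c_GZS C) (c_ADT C) (c_LII C) (c_SIN C) (c_SAL C)

theorem c_BLL : Stmt_BLL C := p_BLL (C := C) (c_SLI C) (c_ADT C) (c_LII C) (c_SIN C) (c_SAL C) (c_LOW C)

theorem c_LWR : Stmt_LWR C := p_LWR (C := C) (c_SLI C) (c_TUX C) (c_SST C) (c_LOW C) (c_RAI C) (c_BLL C)

theorem c_BDC : Stmt_BDC C := p_BDC (C := C) 

theorem c_BLO : Stmt_BLO C := p_BLO (C := C) (c_GZS C) (c_LWR C) (c_BDC C)

theorem c_BLR : Stmt_BLR C := p_BLR (C := C) (c_SLI C) (c_ADT C) (c_LII C) (c_SIN C) (c_SAL C) (c_RAI C)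

theorem c_RSR : Stmt_RSR C := p_RSR (C := C) (c_SLI C) (c_TUX C) (c_SST C) (c_LOW C) (c_RAI C) (c_BLR C)

theorem c_BUP : Stmt_BUP C := p_BUP (C := C) (c_GZS C) (c_RSR C) (c_BDC C)

theorem c_BLE : Stmt_BLE C := p_BLE (C := C) 

theorem c_MVS : Stmt_MVS C := p_MVS (C := C) (c_BLS C) (c_BLO C) (c_BUP C) (c_BLE C)

theorem c_PHL : Stmt_PHL C := p_PHL (C := C) (c_SLI C) (c_ADT C) (c_PAN C)

theorem c_LCO : Stmt_LCO C := p_LCO (C := C) 

theorem c_LBD : Stmt_LBD C := p_LBD (C := C) (c_LCO C)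

theorem c_PER : Stmt_PER C := p_PER (C := C) (c_SGN) (c_PRT C) (c_PHL C)

theorem c_IBK : Stmt_IBK C := p_IBK (C := C) 

theorem c_HCO : Stmt_HCO C := p_HCO (C := C) 

theorem c_HBD : Stmt_HBD C := p_HBD (C := C) (c_HCO C)

theorem c_WBH : Stmt_WBH C := p_WBH (C := C) (c_HBD C)

theorem c_WBL : Stmt_WBL C := p_WBL (C := C) (c_LBD C)

theorem c_OTH : Stmt_OTH C := p_OTH (C := C) (c_SLI C)

theorem c_OST : Stmt_OST C := p_OST (C := C) (c_BDC C) (c_OTH C)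

end

end Pool.Move
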