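import Pool.Agent.Work.MP_841263_mv.Interface

/-! # Moves, block ADL: limit of hearts, lower cut (helper4) -/

set_option autoImplicit false

open CategoryTheory CategoryTheory.Limits CategoryTheory.Pretriangulated
open scoped ZeroObject Topology
open Filter

set_option backward.isDefEq.respectTransparency false
set_option backward.defeqAttrib.useBackward true
set_option linter.unusedSectionVars false

namespace Pool.Move

open Pool.Stab Pool.Tube

universe v u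

lemma ADL_gap (t : ℝ) (l : List ℝ) (hl : ∀ φ ∈ l, φ < t + 1) :
    ∃ κ : ℝ, 0 < κ ∧ κ < 1 ∧ ∀ φ ∈ l, φ < t + 1 - κ := by
  induction l with
  | nil => exact ⟨1 / 2, by norm_num, by norm_num, by simp⟩
  | cons a l ih =>
    obtain ⟨κ, h1, h2, h3⟩ := ih (fun φ hφ => hl φ (by simp [hφ]))
    have h4 := hl a (by simp)
    refine ⟨min κ ((t + 1 - a) / 2), lt_min h1 (by linarith), lt_of_le_of_lt (min_le_left _ _) h2,
      ?_⟩
    intro φ hφ
    rcases List.mem_cons.1 hφ with rfl | h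
    · have := min_le_right κ ((t + 1 - φ) / 2)
      linarith
    · have := min_le_left κ ((t + 1 - a) / 2)
      have := h3 φ h
      linarith

variable {C : Type u} [Category.{v} C] [Preadditive C] [HasZeroObject C] [HasShift C ℤ]
  [∀ n : ℤ, (shiftFunctor C n).Additive] [Pretriangulated C] [IsTriangulated C]

/-- The phases of the pieces of a cut, when the middle term has phases in `(a, b)`. -/
lemma ADL_pieces {S : Slicing C} {t a b : ℝ} (_ha : t - 1 ≤ a) (hat : a < t) (hbt : t < b)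
    (_hb : b ≤ t + 1) {F E V : C} {f : F ⟶ E} {g : E ⟶ V} {k : V ⟶ F⟦(1 : ℤ)⟧}
    (hT : Triangle.mk f g k ∈ distTriang C) (hF : S.Heart t F) (hV : S.Heart t (V⟦(1 : ℤ)⟧))
    (hE : S.In (Set.Ioo a b) E) : S.In (Set.Ioo t b) F ∧ S.In (Set.Ioc a t) V := by
  have hV' : S.In (Set.Ioc (t - 1) t) V := by
    have h1 := hV.shift_neg_one
    have e : (V⟦(1 : ℤ)⟧)⟦(-1 : ℤ)⟧ ≅ V := (shiftFunctorCompIsoId C (1 : ℤ) (-1) (by simp)).app V
    refine (h1.iso e).mono ?_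
    rintro _ ⟨x, ⟨hx1, hx2⟩, rfl⟩
    exact ⟨by show t - 1 < x - 1; linarith, by show x - 1 ≤ t; linarith⟩
  constructor
  · obtain ⟨a', c', hT'⟩ := exists_invrot hT
    have h1 : S.In (Set.Ici b)ᶜ (V⟦(-1 : ℤ)⟧) := by
      refine (hV'.shift_neg_one).mono ?_
      rintro _ ⟨x, ⟨-, hx2⟩, rfl⟩ hcon
      have : b ≤ x - 1 := hcon
      linarith
    have h2 : S.In (Set.Ici b)ᶜ E := hE.mono (fun x hx hcon => by
      have : b ≤ x := hcon
      linarith [hx.2])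
    have h3 : S.In (Set.Ici b)ᶜ F := Slicing.In.ext_lower (isUpperSet_Ici b) hT' h1 h2
    refine (Slicing.In.inter (isUpperSet_Ioi t) (isUpperSet_Ici b) hF.upper h3).mono ?_
    rintro x ⟨hx1, hx2⟩
    exact ⟨hx1, not_le.1 hx2⟩
  · have h1 : S.In (Set.Ioi a) (F⟦(1 : ℤ)⟧) := by
      refine (hF.shift_one).mono ?_
      rintro _ ⟨x, ⟨hx1, -⟩, rfl⟩
      show a < x + 1
      linarith
    have h2 : S.In (Set.Ioi a) E := hE.mono (fun x hx => hx.1)
    have h3 : S.In (Set.Ioi a) V := Slicing.In.ext_upper (isUpperSet_Ioi a) (rot_mk hT) h2 h1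
    have h4 : S.In (Set.Ioi t)ᶜ V := hV'.mono (fun x hx => not_lt.2 hx.2)
    refine (Slicing.In.inter (isUpperSet_Ioi a) (isUpperSet_Ioi t) h3 h4).mono ?_
    rintro x ⟨hx1, hx2⟩
    exact ⟨hx1, not_lt.1 hx2⟩

theorem p_ADL {C : Type u} [Category.{v} C] [Preadditive C] [HasZeroObject C] [HasShift C ℤ]
    [∀ n : ℤ, (shiftFunctor C n).Additive] [Pretriangulated C] [IsTriangulated C] [Linear ℂ C]
    [∀ n : ℤ, (shiftFunctor C n).Linear ℂ] :
    Pool.Align.Stmt_LIM C → Pool.Align.Stmt_OPE C → Stmt_ADL C := by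
  classical
  intro hLIM hOPE h Γ t J A hA e hJ E hE
  obtain ⟨l, hl, hI⟩ := hE
  obtain ⟨κ, hκ0, hκ1, hκ⟩ := ADL_gap t l (fun φ hφ => (hI φ hφ).2)
  have hEe : ∀ η : ℝ, 0 < η → (Γ e).sl.In (Set.Ioo (t - η) (t + 1 - κ)) E := fun η hη =>
    ⟨l, hl, fun φ hφ => ⟨by linarith [(hI φ hφ).1], hκ φ hφ⟩⟩
  have hev : ∀ η : ℝ, 0 < η → ∀ᶠ s in 𝓝 e, (Γ s).sl.In (Set.Ioo (t - η) (t + 1 - κ)) E :=
    fun η hη => hOPE h Γ e E _ _ (hEe η hη)
  -- the triangle
  obtain ⟨s₁, hs₁J, hs₁⟩ := (hJ.and_eventually (hev 1 one_pos)).exists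
  obtain ⟨L, hL, hLI⟩ := hs₁
  obtain ⟨F, V, f, g, k, hT, hF, hV⟩ := hL.trunc (Set.Ioi t) (isUpperSet_Ioi t)
  have hFs : (Γ s₁).sl.Heart t F := ⟨_, hF, fun φ hφ => by
    obtain ⟨h1, h2⟩ := List.mem_filter.1 hφ
    have h3 : t < φ := by simpa using h2
    exact ⟨h3, by linarith [(hLI φ h1).2]⟩⟩
  have hVs : (Γ s₁).sl.In (Set.Ioc (t - 1) t) V := ⟨_, hV, fun φ hφ => by
    obtain ⟨h1, h2⟩ := List.mem_filter.1 hφ
    have h3 : φ ≤ t := by simpa using h2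
    exact ⟨(hLI φ h1).1, h3⟩⟩
  have hVs1 : (Γ s₁).sl.Heart t (V⟦(1 : ℤ)⟧) := by
    refine (hVs.shift_one).mono ?_
    rintro _ ⟨x, ⟨hx1, hx2⟩, rfl⟩
    exact ⟨by show t < x + 1; linarith, by show x + 1 ≤ t + 1; linarith⟩
  have hAF : A F := (hA s₁ hs₁J F).1 hFs
  have hAV : A (V⟦(1 : ℤ)⟧) := (hA s₁ hs₁J _).1 hVs1
  -- the phases of the pieces
  have hfreq : ∀ η : ℝ, 0 < η → η ≤ 1 → ∃ᶠ s in 𝓝 e,
      (Γ s).sl.In (Set.Ioo t (t + 1 - κ)) F ∧ (Γ s).sl.In (Set.Ioc (t - η) t) V := by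
    intro η hη hη1
    refine (hJ.and_eventually (hev η hη)).mono ?_
    rintro s ⟨hsJ, hs⟩
    exact ADL_pieces (by linarith) (by linarith) (by linarith) (by linarith) hT
      ((hA s hsJ F).2 hAF) ((hA s hsJ _).2 hAV) hs
  have hF' : (Γ e).sl.In (Set.Icc t (t + 1 - κ)) F := by
    refine hLIM h Γ e F _ _ (fun η hη => ?_)
    refine (hfreq 1 one_pos le_rfl).mono ?_
    rintro s ⟨hs, -⟩
    exact hs.mono (fun x hx => ⟨by linarith [hx.1], by linarith [hx.2]⟩)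
  have hV' : (Γ e).sl.In (Set.Icc t t) V := by
    refine hLIM h Γ e V _ _ (fun η hη => ?_)
    refine (hfreq (min η 1) (lt_min hη one_pos) (min_le_right _ _)).mono ?_
    rintro s ⟨-, hs⟩
    exact hs.mono (fun x hx => ⟨by linarith [hx.1, min_le_left η 1], by linarith [hx.2]⟩)
  refine ⟨F, V, f, g, k, hT, hAF, hF'.mono (fun x hx => ⟨hx.1, by linarith [hx.2]⟩), ?_, hAV⟩
  refine Slicing.In.P_of_singleton (hV'.mono ?_)
  intro x hx
  exact le_antisymm hx.2 hx.1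

end Pool.Move
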