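import Pool.Agent.Work.MP_841263_mv.Interface

/-!
# Block BDC: decomposition along a block
-/

open CategoryTheory CategoryTheory.Limits CategoryTheory.Pretriangulated
open scoped ZeroObject Topology
open Filter

set_option backward.isDefEq.respectTransparency false
set_option backward.defeqAttrib.useBackward true
set_option linter.unusedSectionVars false

namespace Pool.Move

open Pool.Stab Pool.Tube

universe v u

variable {C : Type u} [Category.{v} C] [Preadditive C] [HasZeroObject C] [HasShift C ℤ]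
  [∀ n : ℤ, (shiftFunctor C n).Additive] [Pretriangulated C]

/-- Orthogonal decompositions are stable under extensions (without shifts). -/
lemma BDC_decomp_ext [IsTriangulated C] {P Q : C → Prop}
    (hPext : ∀ {X Y Z : C} {f : X ⟶ Y} {g : Y ⟶ Z} {h : Z ⟶ X⟦(1 : ℤ)⟧},
      Triangle.mk f g h ∈ distTriang C → P X → P Z → P Y)
    (hQext : ∀ {X Y Z : C} {f : X ⟶ Y} {g : Y ⟶ Z} {h : Z ⟶ X⟦(1 : ℤ)⟧},
      Triangle.mk f g h ∈ distTriang C → Q X → Q Z → Q Y)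
    (hPQ : ∀ X Y, P X → Q Y → ∀ f : X ⟶ Y⟦(1 : ℤ)⟧, f = 0)
    {E₁ E E₂ X₁ Y₁ X₂ Y₂ : C} {i : E₁ ⟶ E} {g : E ⟶ E₂} {d : E₂ ⟶ E₁⟦(1 : ℤ)⟧}
    (hE : Triangle.mk i g d ∈ distTriang C)
    {a₁ : X₁ ⟶ E₁} {b₁ : E₁ ⟶ Y₁} {c₁ : Y₁ ⟶ X₁⟦(1 : ℤ)⟧}
    (h1 : Triangle.mk a₁ b₁ c₁ ∈ distTriang C) (hX₁ : P X₁) (hY₁ : Q Y₁)
    {a₂ : X₂ ⟶ E₂} {b₂ : E₂ ⟶ Y₂} {c₂ : Y₂ ⟶ X₂⟦(1 : ℤ)⟧}
    (h2 : Triangle.mk a₂ b₂ c₂ ∈ distTriang C) (hX₂ : P X₂) (hY₂ : Q Y₂) :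
    ∃ (X Y : C) (a : X ⟶ E) (b : E ⟶ Y) (c : Y ⟶ X⟦(1 : ℤ)⟧),
      Triangle.mk a b c ∈ distTriang C ∧ P X ∧ Q Y := by
  obtain ⟨F, i₃, d₃, hF⟩ := distinguished_cocone_triangle₁ (g ≫ b₂)
  obtain ⟨m, n, r, hm, -⟩ := exists_octa_cocone hE h2 hF
  obtain ⟨H', p, q, hH'⟩ := distinguished_cocone_triangle (a₁ ≫ m)
  obtain ⟨u, w, s, hu, -⟩ := exists_octa h1 hm hH'
  have hs : s = 0 := hPQ _ _ hX₂ hY₁ s
  obtain ⟨e, -⟩ := exists_iso_binaryBiproduct_of_distTriang _ hu hs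
  have hH2 := tri_mid_iso (binaryBiproductTriangle_distinguished X₂ Y₁)
    ((biprod.braiding X₂ Y₁) ≪≫ e.symm)
  set w' : H' ⟶ Y₁ := ((biprod.braiding X₂ Y₁) ≪≫ e.symm).inv ≫
    (binaryBiproductTriangle X₂ Y₁).mor₂ with hw'
  obtain ⟨G, j, k, hG⟩ := distinguished_cocone_triangle₁ (p ≫ w')
  obtain ⟨m2, n2, r2, hm2, -⟩ := exists_octa_cocone hH' hH2 hG
  have hGP : P G := hPext hm2 hX₁ hX₂
  obtain ⟨H, p3, q3, hH⟩ := distinguished_cocone_triangle (j ≫ i₃)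
  obtain ⟨u3, w3, s3, hu3, -⟩ := exists_octa hG hF hH
  exact ⟨G, H, j ≫ i₃, p3, q3, hH, hGP, hQext hu3 hY₁ hY₂⟩

/-- Orthogonality passes to iterated extensions in both arguments. -/
lemma BDC_orth {G N : C → Prop} (h : ∀ X Y, G X → N Y → Orth X Y) {X Y : C} (hX : Gen G X)
    (hY : Gen N Y) : Orth X Y := by
  intro n f
  have hY' : Gen (fun Z => ∃ U, N U ∧ Nonempty (Z ≅ U⟦n⟧)) (Y⟦n⟧) :=
    hY.shift' n (fun U hU => ⟨U, hU, ⟨Iso.refl _⟩⟩)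
  refine Gen.hom_zero (G := G) (G' := fun Z => ∃ U, N U ∧ Nonempty (Z ≅ U⟦n⟧)) ?_ hX hY' f
  rintro A B hA ⟨U, hU, ⟨e⟩⟩ g
  rw [← cancel_mono e.hom, h A U hA hU n (g ≫ e.hom), zero_comp]

/-- Semistable objects of a given phase are closed under extensions. -/
lemma BDC_P_ext [IsTriangulated C] (σ : StabCond C) {t : ℝ} {X Y Z : C} {f : X ⟶ Y} {g : Y ⟶ Z}
    {h : Z ⟶ X⟦(1 : ℤ)⟧} (hT : Triangle.mk f g h ∈ distTriang C) (hX : σ.sl.P t X)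
    (hZ : σ.sl.P t Z) : σ.sl.P t Y := by
  obtain ⟨s, rfl⟩ : ∃ s, t = s + 1 := ⟨t - 1, by ring⟩
  have h1 : σ.sl.Heart s X := Slicing.heart_of_P hX (by linarith) le_rfl
  have h2 : σ.sl.Heart s Z := Slicing.heart_of_P hZ (by linarith) le_rfl
  refine σ.P_of_im (Slicing.Heart.ext hT h1 h2) ?_
  rw [cls_mk hT, map_add, σ.im_of_P hX, σ.im_of_P hZ, add_zero]

lemma BDC_P_gen [IsTriangulated C] (σ : StabCond C) {t : ℝ} {J : C → Prop}
    (hJ : ∀ X, J X → σ.sl.P t X) {X : C} (hX : Gen J X) : σ.sl.P t X := by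
  induction hX with
  | zero h => exact σ.sl.iso_mem t (h.isoZero).symm (σ.sl.zero_mem t)
  | of h => exact hJ _ h
  | ext hT _ _ h1 h2 => exact BDC_P_ext σ hT h1 h2

variable [IsTriangulated C] [Linear ℂ C] [∀ n : ℤ, (shiftFunctor C n).Linear ℂ]

/-- **Block BDC.** -/
theorem p_BDC : Stmt_BDC C := by
  intro h σ t J hJ
  have hfin := h.finite
  have hfree := h.free
  set N : C → Prop := fun U => σ.Stable t U ∧ ¬ J U with hN
  have hJN : ∀ X Y, J X → N Y → Orth X Y := fun X Y hX hY => (hJ.orth X Y hX hY.1 hY.2).1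
  have hNJ : ∀ X Y, N X → J Y → Orth X Y := fun X Y hX hY => (hJ.orth Y X hY hX.1 hX.2).2
  have hdec : ∀ X, σ.sl.P t X → ∃ X₁ X₂ : C, Nonempty (X ≅ X₁ ⊞ X₂) ∧ Gen J X₁ ∧ Gen N X₂ := by
    intro E hE
    have hE' : Gen (fun X => J X ∨ N X) E := (σ.gen_stable hE).mono fun X hX => by
      by_cases hX' : J X
      · exact Or.inl hX'
      · exact Or.inr ⟨hX, hX'⟩
    have key : ∃ (X Y : C) (a : X ⟶ E) (b : E ⟶ Y) (c : Y ⟶ X⟦(1 : ℤ)⟧),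
        Triangle.mk a b c ∈ distTriang C ∧ Gen J X ∧ Gen N Y := by
      clear hE
      induction hE' with
      | @zero E h =>
        exact ⟨E, 0, 𝟙 E, 0, 0, contractible_distinguished E, Gen.zero h,
          Gen.zero (isZero_zero C)⟩
      | @of E h =>
        rcases h with h | h
        · exact ⟨E, 0, 𝟙 E, 0, 0, contractible_distinguished E, Gen.of h,
            Gen.zero (isZero_zero C)⟩
        · exact ⟨0, E, 0, 𝟙 E, 0, contractible_distinguished₁ E, Gen.zero (isZero_zero C),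
            Gen.of h⟩
      | ext hT _ _ h1 h2 =>
        obtain ⟨X₁, Y₁, a₁, b₁, c₁, t1, p1, q1⟩ := h1
        obtain ⟨X₂, Y₂, a₂, b₂, c₂, t2, p2, q2⟩ := h2
        exact BDC_decomp_ext (P := Gen J) (Q := Gen N) (fun hT h1 h2 => Gen.ext hT h1 h2)
          (fun hT h1 h2 => Gen.ext hT h1 h2)
          (fun X Y hX hY f => BDC_orth hJN hX hY 1 f) hT t1 p1 q1 t2 p2 q2
    obtain ⟨X, Y, a, b, c, hT, hX, hY⟩ := key
    have hc : c = 0 := BDC_orth hNJ hY hX 1 c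
    obtain ⟨e, -⟩ := exists_iso_binaryBiproduct_of_distTriang _ hT hc
    exact ⟨X, Y, ⟨e⟩, hX, hY⟩
  refine ⟨hdec, fun X => ⟨fun hX => ⟨BDC_P_gen σ (fun X hX => (hJ.stable X hX).1) hX, ?_⟩, ?_⟩⟩
  · intro U hU hU'
    exact Orth.of_gen hX (fun Y hY => hNJ U Y ⟨hU, hU'⟩ hY)
  · rintro ⟨hX, ho⟩
    obtain ⟨X₁, X₂, ⟨e⟩, h1, h2⟩ := hdec X hX
    have h3 : ∀ U, N U → Orth U X₂ := by
      intro U hU
      have h4 := (ho U hU.1 hU.2).iso (e ≪≫ biprod.braiding X₁ X₂)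
      exact h4.of_biprod_left
    have h5 : Orth X₂ X₂ := BDC_orth (G := N) (N := fun Y => Y = X₂)
      (by rintro A B hA rfl; exact h3 A hA) h2 (Gen.of rfl)
    have h6 : IsZero X₂ := by
      by_contra h0
      exact not_orth_self h0 h5
    exact (Gen.ext (binaryBiproductTriangle_distinguished X₁ X₂) h1 (Gen.zero h6)).iso e.symm

end Pool.Move
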