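import Pool.Agent.Work.MP_841263_mv.Interface2

/-!
# IBK: from `IsBlock` to `Blk`
-/

open CategoryTheory CategoryTheory.Limits CategoryTheory.Pretriangulated
open scoped ZeroObject Topology
open Filter

set_option backward.isDefEq.respectTransparency false
set_option backward.defeqAttrib.useBackward true

namespace Pool.Move

open Pool.Stab Pool.Tube

universe v u

section Category

variable (C : Type u) [Category.{v} C] [Preadditive C] [HasZeroObject C] [HasShift C ℤ]
  [∀ n : ℤ, (shiftFunctor C n).Additive] [Pretriangulated C] [IsTriangulated C] [Linear ℂ C]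
  [∀ n : ℤ, (shiftFunctor C n).Linear ℂ]

theorem p_IBK : Stmt_IBK C := by
  intro h σ t G hG hr
  have := h.finite
  have := h.free
  have hfc := Pool.Blk.finCat_P h σ t
  have hloc := hG.localSetting h hr
  refine ⟨fun X Y e hX => hG.iso X Y ⟨e⟩ hX, hG.stable, ?_, hG.orth, hloc.conn⟩
  intro S hS
  rcases hG.dich h with h1 | ⟨S₀, hS₀, hrad, hiso⟩
  · exact spherical_of_rigid hfc.toAbSub h.k3 (hG.stable S hS).1 (h1 S hS).1 (h1 S hS).2
  · exfalso
    have h2 := finrank_of_forall_zero (hr S₀ hS₀)
    have h3 := hfc.toAbSub.self_le h.k3 (hG.stable S₀ hS₀)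
    rw [(mem_radical.1 hrad) (cls S₀), h2] at h3
    norm_num at h3

end Category

end Pool.Move
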