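import Mathlib
import Pool.Agent.Work.MP_841263_mv.Interface

/-!
# Block NUM: only the class of `S` changes the sign (helper62)
-/

set_option autoImplicit false

open CategoryTheory CategoryTheory.Limits CategoryTheory.Pretriangulated
open scoped ZeroObject Topology
open Filter

set_option backward.isDefEq.respectTransparency false
set_option backward.defeqAttrib.useBackward true

namespace Pool.Move

open Pool.Stab Pool.Tube

universe v u

variable {C : Type u} [Category.{v} C] [Preadditive C] [HasZeroObject C] [HasShift C ℤ]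
  [∀ n : ℤ, (shiftFunctor C n).Additive] [Pretriangulated C] [IsTriangulated C] [Linear ℂ C]
  [∀ n : ℤ, (shiftFunctor C n).Linear ℂ]

omit [IsTriangulated C] [Linear ℂ C] [∀ n : ℤ, (shiftFunctor C n).Linear ℂ] in
theorem NUM_rot (σ : StabCond C) (t : ℝ) (x : K0 C) :
    σ.re (t + 1) x = - σ.re t x ∧ σ.im (t + 1) x = - σ.im t x := by
  have h1 : Complex.exp (-(Real.pi * ((t + 1 : ℝ) : ℂ) * Complex.I)) =
      - Complex.exp (-(Real.pi * t * Complex.I)) := by
    have h2 : (-(Real.pi * ((t + 1 : ℝ) : ℂ) * Complex.I) : ℂ) =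
        -(Real.pi * t * Complex.I) + -(Real.pi * Complex.I) := by push_cast; ring
    rw [h2, Complex.exp_add, Complex.exp_neg (Real.pi * Complex.I), Complex.exp_pi_mul_I]
    norm_num
  rw [StabCond.re_apply, StabCond.im_apply, StabCond.re_apply, StabCond.im_apply, h1, mul_neg,
    Complex.neg_re, Complex.neg_im]
  exact ⟨rfl, rfl⟩

omit [IsTriangulated C] in
/-- the class of a stable spherical object has norm two -/
theorem NUM_sph (h : EllipticSetting C) {σ : StabCond C} {t : ℝ} {S : C} (hS : σ.Stable t S)
    (hsp : Spherical S) : eulerForm h.k3 (cls S) (cls S) = 2 := by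
  have h1 : SimpleIn (σ.sl.Heart (t - 1)) S := StabCond.Stable.simple (by simpa using hS)
  rw [eulerForm_cls, h1.1.eulerChar h.k3 h1.1, hsp.1,
    finrank_of_forall_zero (hsp.2 1 one_ne_zero (by norm_num))]
  norm_num

/-- one stability condition -/
theorem NUM_one (hNUS : Stmt_NUS C) (h : EllipticSetting C) (σ : StabCond C) (t : ℝ) (S : C)
    (hS : σ.Stable t S) (hsp : Spherical S) (him : σ.im t (cls S) = 0)
    (hpos : 0 < σ.re t (cls S)) (x : K0 C) (hx : eulerForm h.k3 x x ≤ 2)
    (hx0 : σ.im t x = 0) (hxp : 0 < σ.re t x) (hne : x ≠ cls S) :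
    0 < σ.re t x - eulerForm h.k3 x (cls S) * σ.re t (cls S) := by
  have h2 := NUM_sph h hS hsp
  have hB := h.psd'
  have hsym := eulerForm_symm h.k3 (cls S) x
  have hnn := h.psd x
  obtain ⟨r, hr⟩ := h.even x
  have hcase : eulerForm h.k3 x x = 0 ∨ eulerForm h.k3 x x = 2 := by omega
  rcases hcase with h0 | h0
  · have h3 : eulerForm h.k3 x (cls S) = 0 := hB.mem_radical_of_self h0 (cls S)
    rw [h3]
    simpa using hxp
  · have hc := hB.cauchy x (cls S)
    rw [h0, h2] at hc
    have hc2 : eulerForm h.k3 x (cls S) ≤ 2 := by nlinarith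
    rcases le_or_gt (eulerForm h.k3 x (cls S)) 0 with h3 | h3
    · have h4 : (eulerForm h.k3 x (cls S) : ℝ) ≤ 0 := by exact_mod_cast h3
      nlinarith
    · have h5 := hNUS h σ t S hS hsp x h0 hx0 hxp (by omega) hne
      have h6 : eulerForm h.k3 x (cls S) = 1 ∨ eulerForm h.k3 x (cls S) = 2 := by omega
      rcases h6 with h6 | h6
      · rw [h6]
        push_cast
        linarith
      · set y : K0 C := cls S + cls S - x with hy
        have e1 : eulerForm h.k3 y y = 2 := by
          rw [hy]
          simp only [map_sub, map_add, AddMonoidHom.sub_apply, AddMonoidHom.add_apply]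
          rw [hsym, h0, h2, h6]
          norm_num
        have e2 : eulerForm h.k3 y (cls S) = 2 := by
          rw [hy]
          simp only [map_sub, map_add, AddMonoidHom.sub_apply, AddMonoidHom.add_apply]
          rw [h2, h6]
          norm_num
        have e3 : σ.im t y = 0 := by rw [hy, map_sub, map_add, him, hx0]; norm_num
        have e4 : σ.re t y = σ.re t (cls S) + σ.re t (cls S) - σ.re t x := by
          rw [hy, map_sub, map_add]
        have e5 : y ≠ cls S := by
          intro h7
          apply hne
          rw [hy, sub_eq_iff_eq_add, add_right_inj] at h7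
          exact h7.symm
        have e6 : y ≠ 0 := by
          intro h7
          rw [h7] at e1
          simp at e1
        rw [h6]
        push_cast
        rcases lt_trichotomy (σ.re t y) 0 with h8 | h8 | h8
        · linarith
        · exfalso
          have h9 := σ.Z_eq t y
          rw [h8, e3] at h9
          have h10 : (⟨0, 0⟩ : ℂ) = 0 := rfl
          rw [h10] at h9
          rcases mul_eq_zero.1 h9 with h11 | h11
          · exact h.Z_ne_zero σ e1.le e6 h11
          · exact Complex.exp_ne_zero _ h11
        · have h9 := hNUS h σ t S hS hsp y e1 e3 h8 (by omega) e5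
          linarith

theorem p_NUM : Stmt_NUS C → Stmt_NUM C := by
  intro hNUS h σ₀ σ₁ t A S hT x hx hx0 hxp hne
  rw [hT.re]
  rcases hT.stable with hS | hS
  · exact NUM_one hNUS h σ₀ t S hS hT.sph hT.im0 hT.pos x hx hx0 hxp hne
  · have h2 := NUM_sph h hS hT.sph
    have hα : σ₁.re t (cls S) = - σ₀.re t (cls S) := by
      rw [hT.re, h2]
      push_cast
      ring
    have him : σ₁.im (t + 1) (cls S) = 0 := by
      rw [(NUM_rot σ₁ t (cls S)).2, hT.im, hT.im0, neg_zero]
    have hpos : 0 < σ₁.re (t + 1) (cls S) := by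
      rw [(NUM_rot σ₁ t (cls S)).1, hα, neg_neg]
      exact hT.pos
    have hx1 : σ₁.im (t + 1) x = 0 := by
      rw [(NUM_rot σ₁ t x).2, hT.im, hx0, neg_zero]
    rw [← hT.re]
    rcases lt_trichotomy (σ₁.re t x) 0 with h3 | h3 | h3
    · exfalso
      have h4 := NUM_one hNUS h σ₁ (t + 1) S hS hT.sph him hpos x hx hx1
        (by rw [(NUM_rot σ₁ t x).1]; linarith) hne
      rw [(NUM_rot σ₁ t x).1, (NUM_rot σ₁ t (cls S)).1, hα, hT.re] at h4
      linarith
    · exfalso
      have h5 : x ≠ 0 := by
        intro h6
        rw [h6, map_zero] at hxp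
        exact lt_irrefl _ hxp
      have h9 := σ₁.Z_eq t x
      rw [h3, hT.im, hx0] at h9
      have h10 : (⟨0, 0⟩ : ℂ) = 0 := rfl
      rw [h10] at h9
      rcases mul_eq_zero.1 h9 with h11 | h11
      · exact h.Z_ne_zero σ₁ hx h5 h11
      · exact Complex.exp_ne_zero _ h11
    · exact h3

end Pool.Move
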